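import Pool.Agent.P.MP_3a4479_al.Defs0

set_option autoImplicit false

namespace Pool.Agent.P.MP_3a4479_al

open Polynomial

namespace StepAux

theorem integral_of_coeff {A D L : Type} [CommRing A] [CommRing D] [CommRing L] [Algebra A D]
    [Algebra D L] [Algebra A L] [IsScalarTower A D L] (p : D[X]) (hp : p.Monic) {z : L}
    (hz : eval₂ (algebraMap D L) z p = 0) (h : ∀ j, p.coeff j ∈ Set.range (algebraMap A D)) :
    IsIntegral A z := by
  obtain ⟨q, hq, -, hm⟩ := lifts_and_natDegree_eq_and_monic
    ((lifts_iff_coeff_lifts (f := algebraMap A D) p).2 h) hp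
  refine ⟨q, hm, ?_⟩
  rw [IsScalarTower.algebraMap_eq A D L, ← eval₂_map, hq, hz]

theorem coeff_mem {A K L : Type} [CommRing A] [IsDomain A] [IsIntegrallyClosed A] [Field K]
    [Algebra A K] [IsFractionRing A K] [Field L] [Algebra K L] [Algebra A L] [IsScalarTower A K L]
    {a : A} (ha : a ≠ 0) {z : L} (hz : IsIntegral K z) (h : IsIntegral A (algebraMap A L a * z))
    (j : ℕ) : ∃ b : A, algebraMap A K b =
      (minpoly K z).coeff j * algebraMap A K a ^ ((minpoly K z).natDegree - j) := by
  have ha' : algebraMap A K a ≠ 0 := by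
    simpa using ha
  have h1 := IsIntegrallyClosed.minpoly_smul ha' hz
  have h2 := minpoly.isIntegrallyClosed_eq_field_fractions' K h
  rw [Algebra.smul_def, ← IsScalarTower.algebraMap_apply, h2] at h1
  refine ⟨(minpoly A (algebraMap A L a * z)).coeff j, ?_⟩
  rw [← coeff_scaleRoots, ← h1, coeff_map]

theorem icongr {A L : Type} [CommRing A] [CommRing L] [Algebra A L] {a b : L}
    (h : IsIntegral A a) (e : b = a) : IsIntegral A b := e ▸ h

end StepAux

open StepAux

theorem s2 : S_S2 := by
  intro A K L _ _ _ _ _ _ _ _ _ _ p q hp hq hpq z M M' h1 h2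
  have hp' : algebraMap A K p ≠ 0 := by simpa using hp
  have hz : IsIntegral K z := by
    have h3 : IsIntegral K (algebraMap A L p ^ M * z) := h1.tower_top
    have h4 := h3.smul ((algebraMap A K p ^ M)⁻¹)
    rwa [Algebra.smul_def, IsScalarTower.algebraMap_apply A K L, ← map_pow (algebraMap K L),
      ← mul_assoc, ← map_mul, inv_mul_cancel₀ (pow_ne_zero _ hp'), map_one, one_mul] at h4
  rw [← map_pow] at h1 h2
  refine integral_of_coeff (minpoly K z) (minpoly.monic hz) (minpoly.aeval K z) fun j => ?_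
  obtain ⟨a, ha⟩ := coeff_mem (pow_ne_zero M hp) hz h1 j
  obtain ⟨b, hb⟩ := coeff_mem (pow_ne_zero M' hq) hz h2 j
  set n := (minpoly K z).natDegree - j
  obtain ⟨r, hr⟩ := hpq ((M + M') * n) (b * q ^ (M * n)) (a * p ^ (M' * n)) (by
    apply IsFractionRing.injective A K
    simp only [map_mul, map_pow, ha, hb]
    ring)
  refine ⟨r, ?_⟩
  have h5 := congrArg (algebraMap A K) hr
  simp only [map_mul, map_pow, ha] at h5
  apply mul_left_cancel₀ (pow_ne_zero ((M + M') * n) hp')
  rw [← h5]
  ring

theorem clear : S_Clear := by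
  intro k D L _ _ _ _ _ A B u hu hB z hz
  obtain ⟨p, hp, hz⟩ := hz
  rcases subsingleton_or_nontrivial D with hD | hD
  · have : Subsingleton L := Module.subsingleton D L
    exact ⟨0, by rw [Subsingleton.elim (_ * z) 0]; exact isIntegral_zero⟩
  choose m hm using fun j : ℕ => hB (p.coeff j) (p.coeff j).2
  set M := (Finset.range p.natDegree).sup m with hM
  have hq : (p.map (algebraMap B D)).Monic := hp.map _
  refine ⟨M, integral_of_coeff ((p.map (algebraMap B D)).scaleRoots (u ^ M))
    ((monic_scaleRoots_iff _).2 hq) ?_ fun j => ?_⟩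
  · rw [← map_pow]
    apply scaleRoots_eval₂_eq_zero
    rw [eval₂_map]
    exact hz
  · rw [coeff_scaleRoots, hp.natDegree_map, coeff_map]
    suffices h : (p.coeff j : D) * (u ^ M) ^ (p.natDegree - j) ∈ A from ⟨⟨_, h⟩, rfl⟩
    rcases lt_trichotomy j p.natDegree with h | h | h
    · have h1 : m j ≤ M := Finset.le_sup (f := m) (Finset.mem_range.2 h)
      have h2 : m j ≤ M * (p.natDegree - j) :=
        h1.trans (Nat.le_mul_of_pos_right _ (by omega))
      obtain ⟨c, hc⟩ := Nat.exists_eq_add_of_le h2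
      rw [← pow_mul, hc, pow_add, ← mul_assoc, mul_comm (p.coeff j : D)]
      exact A.mul_mem (hm j) (A.pow_mem hu c)
    · rw [h, hp.coeff_natDegree]
      simp
    · rw [coeff_eq_zero_of_natDegree_lt h]
      simp

theorem spec : S_Spec := by
  intro F L E _ _ _ _ _ _ hinj
  let P : Ideal F[X] := RingHom.ker (constantCoeff : F[X] →+* F)
  have hP : P.IsPrime := RingHom.ker_isPrime _
  have hinj' : Function.Injective (algebraMap F[X] (integralClosure F[X] L)) := by
    intro a b h
    exact hinj (congrArg Subtype.val h)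
  obtain ⟨Q, hQ, hQP⟩ := Ideal.exists_ideal_over_prime_of_isIntegral_of_isDomain
    (S := integralClosure F[X] L) P (by
      rw [(RingHom.injective_iff_ker_eq_bot _).1 hinj']; exact bot_le)
  let φ : F[X] →+* integralClosure F[X] L ⧸ Q :=
    (Ideal.Quotient.mk Q).comp (algebraMap F[X] (integralClosure F[X] L))
  let : Algebra F (integralClosure F[X] L ⧸ Q) := (φ.comp C).toAlgebra
  have key : ∀ p : F[X], φ p = algebraMap F _ (p.coeff 0) := by
    intro p
    show φ p = φ (C (p.coeff 0))
    rw [← sub_eq_zero, ← map_sub]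
    refine Ideal.Quotient.eq_zero_iff_mem.2 ?_
    have : p - C (p.coeff 0) ∈ P := by
      rw [RingHom.mem_ker]
      simp
    rw [← hQP] at this
    exact this
  have hφ : φ = (algebraMap F _).comp (constantCoeff : F[X] →+* F) :=
    RingHom.ext fun p => key p
  have hint : Algebra.IsIntegral F (integralClosure F[X] L ⧸ Q) := ⟨fun s => by
    obtain ⟨s, rfl⟩ := Ideal.Quotient.mk_surjective s
    obtain ⟨p, hp, hs⟩ := Algebra.IsIntegral.isIntegral (R := F[X]) s
    refine ⟨p.map constantCoeff, hp.map _, ?_⟩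
    rw [eval₂_map, ← hφ, ← hom_eval₂, hs, map_zero]⟩
  let ψ : (integralClosure F[X] L ⧸ Q) →ₐ[F] E := IsAlgClosed.lift
  refine ⟨ψ.toRingHom.comp (Ideal.Quotient.mk Q), fun p => ?_⟩
  show ψ (φ p) = _
  rw [key, ψ.commutes]

theorem step (hF : S_FFin) (hN : S_NC) : S_Step := by
  intro k A K L _ _ _ _ _ _ _ _ _ _ _ _ _ _ _ _ _ x τ e hx hτ he hreg N
  have hinj : Function.Injective (algebraMap A L) := by
    rw [IsScalarTower.algebraMap_eq A K L]
    exact (algebraMap K L).injective.comp (IsFractionRing.injective A K)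
  have hinj' : Function.Injective (algebraMap A (integralClosure A L)) := by
    intro a b h
    exact hinj (congrArg Subtype.val h)
  have : IsNoetherianRing A := Algebra.FiniteType.isNoetherianRing k A
  have : IsNoetherianRing (integralClosure A L) := integralClosure.isNoetherianRing (K := K) L
  have : Module.Finite A (integralClosure A L) := IsIntegralClosure.finite A K L _
  have : IsIntegrallyClosed (integralClosure A L) :=
    integralClosure.isIntegrallyClosedOfFiniteExtension K
  have : CharP (integralClosure A L) 2 := charP_of_injective_algebraMap hinj' 2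
  have : CharP L 2 := charP_of_injective_algebraMap hinj 2
  have : ExpChar (integralClosure A L) 2 := ExpChar.prime Nat.prime_two
  let : Algebra k (integralClosure A L) :=
    ((algebraMap A (integralClosure A L)).comp (algebraMap k A)).toAlgebra
  have : IsScalarTower k A (integralClosure A L) := IsScalarTower.of_algebraMap_eq fun _ => rfl
  have : Algebra.FiniteType k (integralClosure A L) :=
    Algebra.FiniteType.trans (S := A) inferInstance inferInstance
  obtain ⟨i, m, hnc⟩ := hN (integralClosure A L) (hF k _) (algebraMap A _ τ) (algebraMap A _ e)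
    (fun h => hτ (hinj' (by rw [h, map_zero]))) N
  refine ⟨i, max m 1, fun μ hμ Y ⟨g1, M1, a1, b1⟩ ⟨g2, M2, a2, b2⟩ => ?_⟩
  set X := algebraMap A L x with hX
  set T := algebraMap A L τ with hT
  set E := algebraMap A L e with hE
  have iX : IsIntegral A X := isIntegral_algebraMap
  have iT : IsIntegral A T := isIntegral_algebraMap
  have iE : IsIntegral A E := isIntegral_algebraMap
  have X0 : X ≠ 0 := fun h => hx (hinj (by rw [← hX, h, map_zero]))
  have E0 : E ≠ 0 := fun h => he (hinj (by rw [← hE, h, map_zero]))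
  set M := M1 + M2 with hM
  have c1 : IsIntegral A (X ^ M * T ^ N * g1) := by
    refine icongr ((iX.pow M2).mul a1) ?_
    rw [hM]; ring
  have c2 : IsIntegral A (X ^ M * T ^ N * g2) := by
    refine icongr ((iX.pow M1).mul a2) ?_
    rw [hM]; ring
  have d1 : IsIntegral A (X ^ M * T ^ M * (Y - g1) / E ^ μ) := by
    refine icongr (((iX.pow M2).mul (iT.pow M2)).mul b1) ?_
    rw [hM]; ring
  have d2 : IsIntegral A (X ^ M * T ^ M * (Y ^ 2 ^ i - g2) / E ^ μ) := by
    refine icongr (((iX.pow M1).mul (iT.pow M1)).mul b2) ?_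
    rw [hM]; ring
  obtain ⟨P, hP⟩ : ∃ P, 2 ^ i = P + 1 := ⟨2 ^ i - 1, by
    have := Nat.one_le_two_pow (n := i); omega⟩
  have hP' : 2 ^ i - 1 = P := by omega
  have hchar : (Y - g1) ^ (P + 1) = Y ^ (P + 1) - g1 ^ (P + 1) := by
    rw [← hP]; exact sub_pow_char_pow ..
  rw [hP] at d2
  set D := (X ^ M * T ^ N * g1) ^ (P + 1) - T ^ (N * P) * (X ^ (M * P) * (X ^ M * T ^ N * g2))
    with hD
  have iD : IsIntegral A D := (c1.pow _).sub ((iT.pow _).mul ((iX.pow _).mul c2))
  have iW : IsIntegral A (D / E ^ μ) := by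
    refine s2 A K L e τ he hτ hreg _ μ (M * (P + 1)) ?_ ?_
    · rw [← hE, mul_div_cancel₀ _ (pow_ne_zero _ E0)]; exact iD
    · rw [← hT]
      have := (((iX.pow (M * P)).mul (iT.pow (N * (P + 1) + M * P))).mul d2).sub
        (((iT.pow (N * (P + 1))).mul (iE.pow (μ * P))).mul (d1.pow (P + 1)))
      refine icongr (this) ?_
      rw [hD, div_pow, mul_pow (X ^ M * T ^ M) (Y - g1), hchar]
      field_simp
      ring
  obtain ⟨c, hc⟩ := Nat.exists_eq_add_of_le ((le_max_left m 1).trans hμ)
  obtain ⟨c', hc'⟩ := Nat.exists_eq_add_of_le' ((le_max_right m 1).trans hμ)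
  obtain ⟨u', w', h⟩ := hnc ⟨_, c1⟩ ⟨_, (iX.pow (M * P)).mul c2⟩ ⟨_, (iE.pow c).mul iW⟩ (by
    apply Subtype.ext
    simp only [SubmonoidClass.coe_pow, Subalgebra.coe_add, MulMemClass.coe_mul,
      SubalgebraClass.coe_algebraMap]
    rw [hP', hP, ← hT, ← hE, ← mul_assoc (E ^ m), ← pow_add, ← hc,
      mul_div_cancel₀ _ (pow_ne_zero _ E0), hD]
    ring)
  have h' : X ^ M * T ^ N * g1 = T ^ N * (u' : L) + E * (w' : L) := by
    have := congrArg Subtype.val h
    simpa only [SubmonoidClass.coe_pow, Subalgebra.coe_add, MulMemClass.coe_mul,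
      SubalgebraClass.coe_algebraMap] using this
  refine ⟨(u' : L) / X ^ M, M + N, ?_, ?_⟩
  · refine icongr ((iX.pow N).mul u'.2) ?_
    rw [← hX]
    field_simp
    ring
  · have := (((iX.pow N).mul ((iT.pow N).mul (iE.pow c'))).mul d1).add
      (((iX.pow N).mul (iT.pow M)).mul w'.2)
    refine icongr (this) ?_
    rw [← hX, ← hT, ← hE, hc']
    field_simp
    linear_combination (T ^ M * X ^ N * X ^ M * E * E ^ c') * h'

end Pool.Agent.P.MP_3a4479_al
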