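import Pool.Agent.P.MP_3a4479_al.Defs0

set_option autoImplicit false

namespace Pool.Agent.P.MP_3a4479_al

open Polynomial
open scoped NNReal

noncomputable section

namespace GaussAux

/-! ### The one variable Gauss valuation -/

/-- a valuation with trivial support as a real absolute value -/
def absOf {R : Type} [CommRing R] (v : Valuation R ℝ≥0) (hv : ∀ x, v x = 0 → x = 0) :
    AbsoluteValue R ℝ where
  toFun x := (v x : ℝ)
  map_mul' x y := by simp
  nonneg' x := (v x).2
  eq_zero' x := by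
    constructor
    · intro h
      exact hv x (by exact_mod_cast h)
    · rintro rfl
      simp
  add_le' x y := by
    have h := v.map_add x y
    have h2 : max (v x) (v y) ≤ v x + v y := max_le (by simp) (by simp)
    exact_mod_cast h.trans h2

theorem absOf_na {R : Type} [CommRing R] (v : Valuation R ℝ≥0) (hv : ∀ x, v x = 0 → x = 0) :
    IsNonarchimedean (absOf v hv) := by
  intro x y
  have h := v.map_add x y
  show ((v (x + y) : ℝ≥0) : ℝ) ≤ max ((v x : ℝ≥0) : ℝ) ((v y : ℝ≥0) : ℝ)
  exact_mod_cast h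

theorem gauss1 {R : Type} [CommRing R] (v : Valuation R ℝ≥0) (hv : ∀ x, v x = 0 → x = 0)
    (r : ℝ≥0) (hr : 0 < r) :
    ∃ w : Valuation R[X] ℝ≥0, (∀ p, w p = 0 → p = 0) ∧ (∀ c, w (C c) = v c) ∧ w X = r * v 1 ∧
      ∀ p i, v (p.coeff i) * r ^ i ≤ w p := by
  have hr' : (0 : ℝ) < r := hr
  let f : R[X] → ℝ≥0 := fun p =>
    ⟨gaussNorm (absOf v hv) (r : ℝ) p, gaussNorm_nonneg _ _ hr'.le⟩
  have hC : ∀ c, f (C c) = v c := by
    intro c
    apply NNReal.eq
    show gaussNorm (absOf v hv) (r : ℝ) (C c) = _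
    rw [gaussNorm_C]
    rfl
  let w : Valuation R[X] ℝ≥0 :=
    { toFun := f
      map_zero' := by
        rw [← C_0, hC, map_zero]
      map_one' := by
        rw [← C_1, hC, map_one]
      map_mul' := fun p q => by
        apply NNReal.eq
        exact gaussNorm_mul (absOf_na v hv) hr' p q
      map_add_le_max' := fun p q => by
        have h := isNonarchimedean_gaussNorm (absOf v hv) (absOf_na v hv) hr'.le p q
        have h2 : ((f (p + q) : ℝ≥0) : ℝ) ≤ max ((f p : ℝ≥0) : ℝ) ((f q : ℝ≥0) : ℝ) := h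
        exact_mod_cast h2 }
  refine ⟨w, ?_, hC, ?_, ?_⟩
  · intro p hp
    have h : gaussNorm (absOf v hv) (r : ℝ) p = 0 := congrArg (fun t : ℝ≥0 => (t : ℝ)) hp
    exact (gaussNorm_eq_zero_iff (absOf v hv) p (fun x hx => (absOf v hv).eq_zero.1 hx) hr').1 h
  · apply NNReal.eq
    show gaussNorm (absOf v hv) (r : ℝ) X = _
    rw [← monomial_one_one_eq_X, gaussNorm_monomial]
    show ((v 1 : ℝ≥0) : ℝ) * _ = _
    simp
  · intro p i
    have h := le_gaussNorm (absOf v hv) p hr'.le i
    have h2 : ((v (p.coeff i) : ℝ≥0) : ℝ) * (r : ℝ) ^ i ≤ ((w p : ℝ≥0) : ℝ) := h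
    exact_mod_cast h2

/-! ### One variable moves over an arbitrary base -/

section One

variable {R F : Type} [CommRing R] [IsDomain R] [Field F]

def Crd (φ : R →+* F) (b : F) : Prop :=
  (∀ p : R[X], eval₂ φ b p = 0 → p = 0) ∧
    ∀ z : F, ∃ P Q : R[X], Q ≠ 0 ∧ z * eval₂ φ b Q = eval₂ φ b P

def Orth (φ : R →+* F) (w : Valuation F ℝ≥0) (b : F) : Prop :=
  ∀ (p : R[X]) (j : ℕ), w (φ (p.coeff j)) * w b ^ j ≤ w (eval₂ φ b p)

theorem Crd.ne_zero {φ : R →+* F} {b : F} (h : Crd φ b) : b ≠ 0 := by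
  intro hb
  have := h.1 X (by simp [hb])
  exact X_ne_zero this

omit [IsDomain R] in
theorem refl1 (φ : R →+* F) {b : F} (hb : b ≠ 0) (N : ℕ) (p : R[X]) (hp : p.natDegree ≤ N) :
    eval₂ φ b⁻¹ (reflect N p) * b ^ N = eval₂ φ b p := by
  let _ : Invertible b := invertibleOfNonzero hb
  have h := eval₂_reflect_mul_pow φ b N p hp
  rwa [invOf_eq_inv] at h

theorem Crd.inv {φ : R →+* F} {b : F} (h : Crd φ b) : Crd φ b⁻¹ := by
  have hb := h.ne_zero
  constructor
  · intro p hp
    have h1 := refl1 φ (inv_ne_zero hb) p.natDegree p le_rfl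
    rw [hp, inv_inv] at h1
    have h2 := (mul_eq_zero.1 h1).resolve_right (pow_ne_zero _ (inv_ne_zero hb))
    exact reflect_eq_zero_iff.1 (h.1 _ h2)
  · intro z
    obtain ⟨P, Q, hQ, hz⟩ := h.2 z
    refine ⟨reflect (max P.natDegree Q.natDegree) P, reflect (max P.natDegree Q.natDegree) Q,
      fun h0 => hQ (reflect_eq_zero_iff.1 h0), ?_⟩
    have h1 := refl1 φ hb _ P (le_max_left P.natDegree Q.natDegree)
    have h2 := refl1 φ hb _ Q (le_max_right P.natDegree Q.natDegree)
    apply mul_right_cancel₀ (pow_ne_zero (max P.natDegree Q.natDegree) hb)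
    rw [mul_assoc, h1, h2, hz]

omit [IsDomain R] in
theorem Orth.inv {φ : R →+* F} {b : F} {w : Valuation F ℝ≥0} (hb : b ≠ 0) (h : Orth φ w b) :
    Orth φ w b⁻¹ := by
  intro p j
  by_cases hj : p.natDegree < j
  · rw [coeff_eq_zero_of_natDegree_lt hj]
    simp
  have hj' : j ≤ p.natDegree := not_lt.1 hj
  have h1 := refl1 φ (inv_ne_zero hb) p.natDegree p le_rfl
  rw [inv_inv] at h1
  have h2 := h (reflect p.natDegree p) (p.natDegree - j)
  rw [coeff_reflect, revAt_le (Nat.sub_le _ _), Nat.sub_sub_self hj'] at h2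
  rw [← h1, map_mul, map_pow]
  have hwb : w b ≠ 0 := (Valuation.ne_zero_iff w).2 hb
  have h3 : w b⁻¹ ^ j = w b ^ (p.natDegree - j) * w b⁻¹ ^ p.natDegree := by
    obtain ⟨m, hm⟩ := Nat.exists_eq_add_of_le hj'
    rw [hm, Nat.add_sub_cancel_left, map_inv₀, pow_add, mul_comm (w b ^ m), mul_assoc, ← mul_pow,
      inv_mul_cancel₀ hwb, one_pow, mul_one]
  rw [h3, ← mul_assoc]
  exact mul_le_mul_left h2 _

omit [IsDomain R] in
theorem comp1 (φ : R →+* F) (b : F) (U : R) (p : R[X]) :
    eval₂ φ (b * φ U) p = eval₂ φ b (p.comp (C U * X)) := by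
  rw [eval₂_comp, eval₂_mul, eval₂_C, eval₂_X, mul_comm]

theorem Crd.mul {φ : R →+* F} {b : F} (h : Crd φ b) {U : R} (hU : U ≠ 0) :
    Crd φ (b * φ U) := by
  constructor
  · intro p hp
    rw [comp1] at hp
    have h1 := h.1 _ hp
    ext n
    have h2 := congrArg (fun q => q.coeff n) h1
    simp only [comp_C_mul_X_coeff, coeff_zero] at h2
    exact (mul_eq_zero.1 h2).resolve_right (pow_ne_zero _ hU)
  · intro z
    obtain ⟨P, Q, hQ, hz⟩ := h.2 z
    refine ⟨C (U ^ Q.natDegree) * scaleRoots P U, C (U ^ P.natDegree) * scaleRoots Q U,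
      mul_ne_zero (C_ne_zero.2 (pow_ne_zero _ hU)) (scaleRoots_ne_zero hQ U), ?_⟩
    rw [mul_comm b, eval₂_mul, eval₂_mul, eval₂_C, eval₂_C, scaleRoots_eval₂_mul,
      scaleRoots_eval₂_mul, ← hz, map_pow, map_pow]
    ring

omit [IsDomain R] in
theorem Orth.mul {φ : R →+* F} {b : F} {w : Valuation F ℝ≥0} (h : Orth φ w b) (U : R) :
    Orth φ w (b * φ U) := by
  intro p j
  have h1 := h (p.comp (C U * X)) j
  rw [comp_C_mul_X_coeff, map_mul, map_mul, map_pow, map_pow] at h1
  rw [comp1, map_mul, mul_pow]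
  calc w (φ (p.coeff j)) * (w b ^ j * w (φ U) ^ j)
      = w (φ (p.coeff j)) * w (φ U) ^ j * w b ^ j := by ring
    _ ≤ _ := h1

end One

/-! ### Translation of the two variable notions -/

section Two

variable {k F : Type} [Field k] [Field F] [Algebra k F]

abbrev eqv (k : Type) [Field k] : k[X][X] ≃ₐ[k] P2 k := Bivariate.equivMvPolynomial k

abbrev ph (k : Type) [Field k] {F : Type} [Field F] [Algebra k F] (a : F) : k[X] →+* F :=
  (aeval a : k[X] →ₐ[k] F).toRingHom

theorem ev2_eqv (a b : F) (p : k[X][X]) : ev2 k a b (eqv k p) = eval₂ (ph k a) b p := by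
  induction p using Polynomial.induction_on' with
  | add p q hp hq => rw [map_add, map_add, hp, hq, eval₂_add]
  | monomial n p =>
    induction p using Polynomial.induction_on' with
    | add p q hp hq => rw [map_add, map_add, map_add, hp, hq, eval₂_add]
    | monomial m c =>
      rw [eval₂_monomial]
      simp_rw [← Polynomial.C_mul_X_pow_eq_monomial]
      simp [ev2]

theorem coeff_eqv (p : k[X][X]) (d : Fin 2 →₀ ℕ) :
    (eqv k p).coeff d = (p.coeff (d 1)).coeff (d 0) := by
  induction p using Polynomial.induction_on' with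
  | add p q hp hq => rw [map_add, MvPolynomial.coeff_add, hp, hq, coeff_add, coeff_add]
  | monomial n p =>
    induction p using Polynomial.induction_on' with
    | add p q hp hq =>
      rw [map_add, map_add, MvPolynomial.coeff_add, hp, hq, coeff_add, coeff_add]
    | monomial m c =>
      have h1 : eqv k (monomial n (monomial m c)) =
          MvPolynomial.monomial (Finsupp.single 0 m + Finsupp.single 1 n) c := by
        simp_rw [← Polynomial.C_mul_X_pow_eq_monomial]
        rw [MvPolynomial.monomial_add_single, MvPolynomial.C_mul_X_pow_eq_monomial.symm]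
        simp
      rw [h1, MvPolynomial.coeff_monomial, coeff_monomial]
      by_cases h : Finsupp.single 0 m + Finsupp.single 1 n = d
      · subst h
        simp
      · rw [if_neg h]
        split_ifs with h2
        · rw [coeff_monomial, if_neg]
          intro h3
          apply h
          ext i
          fin_cases i <;> simp [h2, h3]
        · simp

theorem coord_iff (a b : F) : IsCoord k a b ↔ Crd (ph k a) b := by
  constructor
  · intro h
    constructor
    · intro p hp
      rw [← ev2_eqv] at hp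
      have h1 : eqv k p = 0 := h.inj (by rw [hp, map_zero])
      exact (eqv k).injective (by rw [h1, map_zero])
    · intro z
      obtain ⟨P, Q, hQ, hz⟩ := h.frac z
      refine ⟨(eqv k).symm P, (eqv k).symm Q, fun h0 => hQ ?_, ?_⟩
      · rw [← (eqv k).apply_symm_apply Q, h0, map_zero]
      · rw [← ev2_eqv, ← ev2_eqv, (eqv k).apply_symm_apply, (eqv k).apply_symm_apply, hz]
  · intro h
    constructor
    · rw [injective_iff_map_eq_zero]
      intro P hP
      rw [← (eqv k).apply_symm_apply P, ev2_eqv] at hP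
      rw [← (eqv k).apply_symm_apply P, h.1 _ hP, map_zero]
    · intro z
      obtain ⟨P, Q, hQ, hz⟩ := h.2 z
      refine ⟨eqv k P, eqv k Q, fun h0 => hQ ((eqv k).injective (by rw [h0, map_zero])), ?_⟩
      rw [ev2_eqv, ev2_eqv, hz]

theorem gauss_iff (w : Valuation F ℝ≥0) (a b : F) :
    IsGauss k w a b ↔ Orth (algebraMap k F) w a ∧ Orth (ph k a) w b := by
  constructor
  · intro h
    have h' : ∀ (p : k[X][X]) (i j : ℕ),
        w (algebraMap k F ((p.coeff j).coeff i)) * w a ^ i * w b ^ j ≤ w (eval₂ (ph k a) b p) := by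
      intro p i j
      have h1 := h (eqv k p) (Finsupp.single 0 i + Finsupp.single 1 j)
      rw [coeff_eqv, ev2_eqv] at h1
      simpa using h1
    constructor
    · intro U i
      have h1 := h' (C U) i 0
      simpa [aeval_def] using h1
    · intro p j
      have h1 : ph k a (p.coeff j) * b ^ j = ∑ i ∈ (p.coeff j).support,
          algebraMap k F ((p.coeff j).coeff i) * a ^ i * b ^ j := by
        rw [← Finset.sum_mul]
        congr 1
        show aeval a (p.coeff j) = _
        rw [aeval_def, eval₂_eq_sum, Polynomial.sum_def]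
      rw [← map_pow, ← map_mul, h1]
      apply Valuation.map_sum_le
      intro i _
      rw [map_mul, map_mul, map_pow, map_pow]
      exact h' p i j
  · rintro ⟨h1, h2⟩ P d
    rw [← (eqv k).apply_symm_apply P, coeff_eqv, ev2_eqv]
    refine le_trans ?_ (h2 ((eqv k).symm P) (d 1))
    exact mul_le_mul_left (h1 _ (d 0)) _

theorem ev2_swap (a b : F) (P : P2 k) :
    ev2 k b a P = ev2 k a b (MvPolynomial.rename (Equiv.swap (0 : Fin 2) 1) P) := by
  unfold ev2
  rw [MvPolynomial.aeval_rename]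
  congr 2
  ext i
  fin_cases i <;> simp

theorem coord_swap {a b : F} (h : IsCoord k a b) : IsCoord k b a := by
  have hs : ∀ P : P2 k, MvPolynomial.rename (Equiv.swap (0 : Fin 2) 1)
      (MvPolynomial.rename (Equiv.swap (0 : Fin 2) 1) P) = P := by
    intro P
    rw [MvPolynomial.rename_rename]
    have : (Equiv.swap (0 : Fin 2) 1) ∘ (Equiv.swap (0 : Fin 2) 1) = id := by
      ext i
      simp
    rw [this, MvPolynomial.rename_id_apply]
  constructor
  · intro P Q hPQ
    rw [ev2_swap a b P, ev2_swap a b Q] at hPQ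
    rw [← hs P, h.inj hPQ, hs]
  · intro z
    obtain ⟨P, Q, hQ, hz⟩ := h.frac z
    refine ⟨MvPolynomial.rename (Equiv.swap (0 : Fin 2) 1) P,
      MvPolynomial.rename (Equiv.swap (0 : Fin 2) 1) Q, fun h0 => hQ ?_, ?_⟩
    · rw [← hs Q, h0, map_zero]
    · rw [ev2_swap a b, ev2_swap a b, hs, hs, hz]

theorem gauss_swap {w : Valuation F ℝ≥0} {a b : F} (h : IsGauss k w a b) : IsGauss k w b a := by
  intro P d
  have h1 := h (MvPolynomial.rename (Equiv.swap (0 : Fin 2) 1) P)
    (d.mapDomain (Equiv.swap (0 : Fin 2) 1))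
  rw [MvPolynomial.coeff_rename_mapDomain _ (Equiv.injective _), ← ev2_swap,
    Finsupp.mapDomain_equiv_apply, Finsupp.mapDomain_equiv_apply] at h1
  simp only [Equiv.symm_swap, Equiv.swap_apply_left, Equiv.swap_apply_right] at h1
  calc w (algebraMap k F (P.coeff d)) * w b ^ d 0 * w a ^ d 1
      = w (algebraMap k F (P.coeff d)) * w a ^ d 1 * w b ^ d 0 := by ring
    _ ≤ _ := h1

theorem coord_inv {a b : F} (h : IsCoord k a b) : IsCoord k a b⁻¹ :=
  (coord_iff a _).2 ((coord_iff a b).1 h).inv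

theorem gauss_inv {w : Valuation F ℝ≥0} {a b : F} (hc : IsCoord k a b) (h : IsGauss k w a b) :
    IsGauss k w a b⁻¹ :=
  (gauss_iff w a _).2 ⟨((gauss_iff w a b).1 h).1,
    ((gauss_iff w a b).1 h).2.inv ((coord_iff a b).1 hc).ne_zero⟩

theorem coord_mul {a b : F} (h : IsCoord k a b) {U : k[X]} (hU : U ≠ 0) :
    IsCoord k a (b * aeval a U) :=
  (coord_iff a _).2 (((coord_iff a b).1 h).mul hU)

theorem gauss_mul {w : Valuation F ℝ≥0} {a b : F} (h : IsGauss k w a b) (U : k[X]) :
    IsGauss k w a (b * aeval a U) :=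
  (gauss_iff w a _).2 ⟨((gauss_iff w a b).1 h).1, ((gauss_iff w a b).1 h).2.mul U⟩

end Two

/-- extension of a valuation with trivial support to the fraction field -/
theorem ext_frac {A K : Type} [CommRing A] [IsDomain A] [Field K] [Algebra A K]
    [IsFractionRing A K] (W : Valuation A ℝ≥0) (hW : ∀ p, W p = 0 → p = 0) :
    ∃ w : Valuation K ℝ≥0, ∀ p, w (algebraMap A K p) = W p := by
  have hS : nonZeroDivisors A ≤ W.supp.primeCompl := by
    intro p hp h0
    exact nonZeroDivisors.ne_zero hp (hW p ((Valuation.mem_supp_iff W p).1 h0))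
  exact ⟨W.extendToLocalization hS K, fun p => W.extendToLocalization_apply_map_apply hS K p⟩

end GaussAux

open GaussAux

theorem gaussEx : S_GaussEx := by
  intro k F _ _ _ v a b hab r s hr hs
  obtain ⟨w1, h10, h1C, h1X, h1o⟩ := gauss1 v (fun x hx => (Valuation.zero_iff v).1 hx) r hr
  obtain ⟨w2, h20, h2C, h2X, h2o⟩ := gauss1 w1 h10 s hs
  rw [map_one, mul_one] at h1X h2X
  have hc := (coord_iff a b).1 hab
  let _ : Algebra k[X][X] F := (eval₂RingHom (ph k a) b).toAlgebra
  have hmap : ∀ p : k[X][X], algebraMap k[X][X] F p = eval₂ (ph k a) b p := fun p => rfl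
  have hinj : Function.Injective (algebraMap k[X][X] F) := by
    rw [injective_iff_map_eq_zero]
    exact hc.1
  have _ : FaithfulSMul k[X][X] F := (faithfulSMul_iff_algebraMap_injective _ _).2 hinj
  have _ : IsFractionRing k[X][X] F := by
    apply IsFractionRing.of_field
    intro z
    obtain ⟨P, Q, hQ, hz⟩ := hc.2 z
    refine ⟨P, Q, ?_⟩
    rw [hmap, hmap, eq_div_iff (fun h0 => hQ (hc.1 Q h0)), hz]
  obtain ⟨w, hw⟩ := ext_frac (K := F) w2 h20
  have hwa : ∀ U : k[X], w (aeval a U) = w1 U := by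
    intro U
    rw [← h2C, ← hw, hmap, eval₂_C]
    rfl
  have hwk : ∀ z : k, w (algebraMap k F z) = v z := by
    intro z
    rw [← h1C, ← hwa, aeval_C]
  have ha : w a = r := by rw [← h1X, ← hwa, aeval_X]
  have hb : w b = s := by rw [← h2X, ← hw, hmap, eval₂_X]
  refine ⟨w, hwk, ha, hb, (gauss_iff w a b).2 ⟨?_, ?_⟩⟩
  · intro U i
    rw [hwk, ha, ← aeval_def, hwa]
    exact h1o U i
  · intro p j
    rw [← hmap, hw, hb]
    have := h2o p j
    rwa [← hwa] at this

theorem moves : S_Moves := by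
  intro k F _ _ _ a b hab
  refine ⟨⟨coord_swap hab, fun w hw => gauss_swap hw⟩,
    ⟨coord_swap (coord_inv (coord_swap hab)),
      fun w hw => gauss_swap (gauss_inv (coord_swap hab) (gauss_swap hw))⟩, ?_⟩
  intro U hU
  have hd : b / aeval a U = (b⁻¹ * aeval a U)⁻¹ := by
    rw [mul_inv, inv_inv, div_eq_mul_inv]
  refine ⟨coord_mul hab hU, ?_, fun w hw => ⟨gauss_mul hw U, ?_⟩⟩
  · rw [hd]
    exact coord_inv (coord_mul (coord_inv hab) hU)
  · rw [hd]
    exact gauss_inv (coord_mul (coord_inv hab) hU) (gauss_mul (gauss_inv hab hw) U)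

def S_Base0 : Prop := ∃ (k : Type) (_ : Field k) (lam : k), IsAlgClosed k ∧ CharP k 2 ∧
  ∃ v : Valuation k NNReal, 0 < v lam ∧ v lam < 1

theorem base : S_ExtVal → S_Base0 := by
  intro hE
  classical
  obtain ⟨w1, h10, -, h1X, -⟩ := gauss1 (1 : Valuation (ZMod 2) ℝ≥0)
    (fun x hx => Valuation.one_apply_eq_zero_iff.1 hx) (1 / 2) (by norm_num)
  rw [map_one, mul_one] at h1X
  obtain ⟨w2, hw2⟩ := ext_frac (K := RatFunc (ZMod 2)) w1 h10
  obtain ⟨v, hv⟩ := hE (RatFunc (ZMod 2)) (AlgebraicClosure (RatFunc (ZMod 2))) w2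
  refine ⟨AlgebraicClosure (RatFunc (ZMod 2)), inferInstance,
    algebraMap (RatFunc (ZMod 2)) _ (algebraMap (ZMod 2)[X] (RatFunc (ZMod 2)) X),
    inferInstance, inferInstance, v, ?_, ?_⟩
  · rw [hv, hw2, h1X]
    norm_num
  · rw [hv, hw2, h1X]
    norm_num

end

end Pool.Agent.P.MP_3a4479_al
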