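import Pool.Agent.P.MP_3a4479_al.Defs0

/-! Localisation: finiteness of Frobenius, the splinter property, a non split extension. -/

set_option autoImplicit false

namespace Pool.Agent.P.MP_3a4479_al

open scoped TensorProduct

namespace LocAux

theorem finite_iff {A B : Type} [CommRing A] [CommRing B] (f : A →+* B) :
    f.Finite ↔ ∃ (n : ℕ) (g : Fin n → B), ∀ b, ∃ c : Fin n → A, ∑ i, f (c i) * g i = b := by
  let := f.toAlgebra
  constructor
  · intro h
    have : Module.Finite A B := h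
    obtain ⟨n, g, hg⟩ := Module.Finite.exists_fin (R := A) (M := B)
    refine ⟨n, g, fun b => ?_⟩
    have hb : b ∈ Submodule.span A (Set.range g) := by rw [hg]; trivial
    exact (Submodule.mem_span_range_iff_exists_fun A).1 hb
  · rintro ⟨n, g, hg⟩
    change Module.Finite A B
    refine ⟨Submodule.fg_def.2 ⟨Set.range g, Set.finite_range g, eq_top_iff.2 fun b _ => ?_⟩⟩
    exact (Submodule.mem_span_range_iff_exists_fun A).2 (hg b)

theorem ffin_loc {R : Type} (Rl : Type) [CommRing R] [ExpChar R 2] (M : Submonoid R) [CommRing Rl]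
    [Algebra R Rl] [IsLocalization M Rl] [ExpChar Rl 2] (h : (frobenius R 2).Finite) :
    (frobenius Rl 2).Finite := by
  obtain ⟨n, g, hg⟩ := (finite_iff _).1 h
  refine (finite_iff _).2 ⟨n, fun i => algebraMap R Rl (g i), fun b => ?_⟩
  obtain ⟨⟨r, w⟩, rfl⟩ := IsLocalization.mk'_surjective M b
  obtain ⟨c, hc⟩ := hg (r * w)
  refine ⟨fun i => algebraMap R Rl (c i) * IsLocalization.mk' Rl 1 w, ?_⟩
  have h1 : algebraMap R Rl w * IsLocalization.mk' Rl 1 w = 1 := by
    rw [IsLocalization.mk'_spec', map_one]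
  have h2 := congrArg (algebraMap R Rl) hc
  simp only [frobenius_def, map_sum, map_mul, map_pow] at h2
  simp only [frobenius_def]
  rw [IsLocalization.mk'_eq_mul_mk'_one r]
  calc ∑ i, (algebraMap R Rl (c i) * IsLocalization.mk' Rl 1 w) ^ 2 * algebraMap R Rl (g i)
      = (∑ i, algebraMap R Rl (c i) ^ 2 * algebraMap R Rl (g i))
        * IsLocalization.mk' Rl 1 w ^ 2 := by
        rw [Finset.sum_mul]; exact Finset.sum_congr rfl fun i _ => by ring
    _ = _ := by
        rw [h2]
        linear_combination (algebraMap R Rl r * IsLocalization.mk' Rl 1 w) * h1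

theorem exists_hom {A T Ω : Type} [CommRing A] [IsDomain A] [CommRing T] [Algebra A T]
    [Algebra.IsIntegral A T] [Field Ω] [IsAlgClosed Ω] [Algebra A Ω]
    (hT : Function.Injective (algebraMap A T)) (hΩ : Function.Injective (algebraMap A Ω)) :
    Nonempty (T →ₐ[A] Ω) := by
  obtain ⟨Q, -, hQ, hc⟩ := Ideal.exists_ideal_over_prime_of_isIntegral (R := A) (S := T) ⊥ ⊥
    (by rw [← RingHom.ker_eq_comap_bot, (RingHom.injective_iff_ker_eq_bot _).1 hT])
  have hinj : Function.Injective (algebraMap A (T ⧸ Q)) := by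
    rw [injective_iff_map_eq_zero]
    intro a ha
    have : a ∈ Q.comap (algebraMap A T) :=
      Ideal.mem_comap.2 (Ideal.Quotient.eq_zero_iff_mem.1 ha)
    rwa [hc] at this
  have : FaithfulSMul A (T ⧸ Q) := (faithfulSMul_iff_algebraMap_injective _ _).2 hinj
  have : FaithfulSMul A Ω := (faithfulSMul_iff_algebraMap_injective _ _).2 hΩ
  exact ⟨(IsAlgClosed.lift : (T ⧸ Q) →ₐ[A] Ω).comp (Ideal.Quotient.mkₐ A Q)⟩

theorem ext_loc {R : Type} (Rl : Type) [CommRing R] (M : Submonoid R) [CommRing Rl] [Algebra R Rl]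
    [IsLocalization M Rl] {T N : Type} [AddCommGroup T] [Module R T] [Module Rl T]
    [IsScalarTower R Rl T] [AddCommGroup N] [Module R N] (θ : T →ₗ[R] N) (T₀ : Submodule R N)
    (φ : T₀ →ₗ[R] R) (h : ∀ t, ∃ w : M, (w : R) • θ t ∈ T₀) :
    ∃ ψ : T →ₗ[Rl] Rl, ∀ t (ht : θ t ∈ T₀), ψ t = algebraMap R Rl (φ ⟨θ t, ht⟩) := by
  have : IsLocalizedModule M (T₀.comap θ).subtype :=
    { map_units := (isLocalizedModule_id M T Rl).map_units
      surj := fun t => by
        obtain ⟨w, hw⟩ := h t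
        exact ⟨(⟨(w : R) • t, by rwa [Submodule.mem_comap, map_smul]⟩, w), rfl⟩
      exists_of_eq := fun e => ⟨1, by rw [Subtype.ext e]⟩ }
  let g : T₀.comap θ →ₗ[R] Rl :=
    (Algebra.linearMap R Rl).comp (φ.comp (θ.restrict fun _ hx => hx))
  let ψ₀ := IsLocalizedModule.lift M (T₀.comap θ).subtype g (isLocalizedModule_id M Rl Rl).map_units
  refine ⟨ψ₀.extendScalarsOfIsLocalization M Rl, fun t ht => ?_⟩
  exact IsLocalizedModule.lift_apply M (T₀.comap θ).subtype g
    (isLocalizedModule_id M Rl Rl).map_units ⟨t, ht⟩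

end LocAux

open LocAux in
theorem loc1 : S_Loc1 := by
  intro R Ω Rl _ _ _ _ _ _ m _ _ _ _ _ hinj hF hφ
  refine ⟨ffin_loc Rl m.primeCompl hF, fun T _ _ hT hfin => ?_⟩
  have hM : m.primeCompl ≤ nonZeroDivisors R := m.primeCompl_le_nonZeroDivisors
  have hRl : Function.Injective (algebraMap R Rl) := IsLocalization.injective Rl hM
  have : IsDomain Rl := IsLocalization.isDomain_of_le_nonZeroDivisors Rl hM
  have hu : ∀ w : m.primeCompl, IsUnit (algebraMap R Ω w) := fun w =>
    IsUnit.mk0 _ fun e => nonZeroDivisors.ne_zero (hM w.2) (hinj (by rw [e, map_zero]))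
  let : Algebra Rl Ω := (IsLocalization.lift (S := Rl) hu).toAlgebra
  have : IsScalarTower R Rl Ω :=
    IsScalarTower.of_algebraMap_eq fun x => (IsLocalization.lift_eq hu x).symm
  let : Algebra R T := ((algebraMap Rl T).comp (algebraMap R Rl)).toAlgebra
  have : IsScalarTower R Rl T := IsScalarTower.of_algebraMap_eq fun _ => rfl
  obtain ⟨θ⟩ := exists_hom (Ω := Ω) hT ((IsLocalization.lift_injective_iff hu).2
    fun x y => by rw [hRl.eq_iff, hinj.eq_iff])
  obtain ⟨n, g, hg⟩ := Module.Finite.exists_fin (R := Rl) (M := T)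
  choose w hw using fun i => IsIntegral.exists_multiple_integral_of_isLocalization m.primeCompl
    (g i) (Algebra.IsIntegral.isIntegral (R := Rl) (g i))
  let θR : T →ₐ[R] Ω := θ.restrictScalars R
  let T₀ : Subalgebra R Ω := Algebra.adjoin R (Set.range fun i => θR (w i • g i))
  obtain ⟨φ, hφ1⟩ := hφ T₀ (Algebra.finite_adjoin_of_finite_of_isIntegral (Set.finite_range _)
    (by rintro _ ⟨i, rfl⟩; exact (hw i).map θR))
  obtain ⟨ψ, hψ⟩ := ext_loc Rl m.primeCompl θR.toLinearMap (Subalgebra.toSubmodule T₀) φ (by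
    intro t
    have ht : t ∈ Submodule.span Rl (Set.range g) := by rw [hg]; trivial
    induction ht using Submodule.span_induction with
    | mem x hx =>
      obtain ⟨i, rfl⟩ := hx
      refine ⟨w i, ?_⟩
      rw [← map_smul]
      exact Algebra.subset_adjoin ⟨i, rfl⟩
    | zero => exact ⟨1, by simp⟩
    | add x y _ _ hx hy =>
      obtain ⟨a, ha⟩ := hx
      obtain ⟨b, hb⟩ := hy
      refine ⟨a * b, ?_⟩
      rw [map_add, smul_add, Submonoid.coe_mul]
      refine add_mem ?_ ?_
      · rw [mul_comm, mul_smul]; exact Submodule.smul_mem _ _ ha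
      · rw [mul_smul]; exact Submodule.smul_mem _ _ hb
    | smul c x _ hx =>
      obtain ⟨a, ha⟩ := hx
      obtain ⟨⟨r, s⟩, hrs⟩ := IsLocalization.surj m.primeCompl c
      refine ⟨a * s, ?_⟩
      have : (s : R) • c • x = r • x := by
        rw [← algebraMap_smul Rl (s : R), smul_smul, mul_comm, hrs, algebraMap_smul]
      rw [Submonoid.coe_mul, mul_smul, ← map_smul _ (s : R), this, map_smul, smul_comm]
      exact Submodule.smul_mem _ _ ha)
  have h1 : θR.toLinearMap 1 ∈ Subalgebra.toSubmodule T₀ := by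
    change θR 1 ∈ T₀
    rw [map_one]; exact one_mem _
  have h2 : ψ 1 = algebraMap R Rl (φ 1) := by
    rw [hψ 1 h1]
    congr 2
    exact Subtype.ext (map_one θR)
  obtain ⟨u, hu⟩ := IsLocalization.map_units Rl (⟨φ 1, hφ1⟩ : m.primeCompl)
  refine ⟨(↑u⁻¹ : Rl) • ψ, ?_⟩
  rw [LinearMap.smul_apply, h2, ← hu, smul_eq_mul, Units.inv_mul]

theorem loc2 : S_Loc2 := by
  intro R Rl S _ _ m _ _ _ _ _ _ n g u Y hφ hu hw
  obtain ⟨φ, hφ⟩ := hφ
  have hRl : Function.Injective (algebraMap R Rl) :=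
    IsLocalization.injective Rl m.primeCompl_le_nonZeroDivisors
  refine ⟨Rl ⊗[R] S, inferInstance, inferInstance, ?_, ?_⟩
  · refine ⟨(TensorProduct.AlgebraTensorModule.rid R Rl Rl).toLinearMap.comp (φ.baseChange Rl),
      fun e => hφ (LinearMap.ext fun s => hRl ?_)⟩
    have := LinearMap.congr_fun e (1 ⊗ₜ s)
    simpa [Algebra.smul_def] using this
  · rintro ⟨ψ, hψ⟩
    have h1 : ∀ (r : R) (s : S), ψ (1 ⊗ₜ (algebraMap R S r * s))
        = algebraMap R Rl r * ψ (1 ⊗ₜ s) := fun r s => by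
      rw [← Algebra.smul_def, TensorProduct.tmul_smul, ← algebraMap_smul Rl r, map_smul,
        smul_eq_mul]
    have h2 : algebraMap R Rl u = ∑ i, algebraMap R Rl (g i) * ψ (1 ⊗ₜ Y i) := by
      have h3 := h1 u 1
      rw [← Algebra.TensorProduct.one_def, hψ, mul_one, mul_one, hu, TensorProduct.tmul_sum,
        map_sum] at h3
      rw [← h3]
      exact Finset.sum_congr rfl fun i _ => h1 _ _
    obtain ⟨b, hb⟩ := IsLocalization.exist_integer_multiples_of_finite m.primeCompl
      (fun i => ψ (1 ⊗ₜ Y i))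
    choose r hr using hb
    refine hw b b.2 r (hRl ?_)
    rw [map_mul, h2, map_sum, Finset.mul_sum]
    refine Finset.sum_congr rfl fun i _ => ?_
    rw [map_mul, hr i, Algebra.smul_def]
    ring

end Pool.Agent.P.MP_3a4479_al
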