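import Pool.Agent.P.MP_3a4479_al.Defs0

set_option autoImplicit false

namespace Pool.Agent.P.MP_3a4479_al

open Polynomial

theorem ffin : S_FFin := by
  intro k B _ _ _ _ _ h2
  have hB : CharP B 2 := by
    cases h2 with
    | prime _ => assumption
  have hnt : Nontrivial B := CharP.nontrivial_of_char_ne_one (v := 2) (by norm_num)
  have hk : ExpChar k 2 := (algebraMap k B).expChar (algebraMap k B).injective 2
  refine RingHom.IsIntegral.to_finite (fun x => ⟨X ^ 2 - C x, monic_X_pow_sub_C x two_ne_zero, ?_⟩) ?_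
  · simp [frobenius_def]
  · refine RingHom.FiniteType.of_comp_finiteType (f := algebraMap k B) ?_
    have e : (frobenius B 2).comp (algebraMap k B) = (algebraMap k B).comp (frobenius k 2) := by
      ext x
      simp [frobenius_def]
    rw [e]
    exact (RingHom.finiteType_algebraMap.2 inferInstance).comp
      (RingHom.FiniteType.of_surjective _ (surjective_frobenius k 2))

namespace NCAux

theorem iter_finite {T : Type} [CommRing T] [ExpChar T 2] (h : (frobenius T 2).Finite) (i : ℕ) :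
    (iterateFrobenius T 2 i).Finite := by
  induction i with
  | zero => rw [iterateFrobenius_zero]; exact RingHom.Finite.id T
  | succ i ih => rw [iterateFrobenius_add, iterateFrobenius_one]; exact ih.comp h

/-- a consequence of the Artin-Rees lemma -/
theorem artin {A B : Type} [CommRing A] [CommRing B] [IsNoetherianRing A] (φ : A →+* B)
    (hφ : φ.Finite) (e : A) (t : B) :
    ∃ c : ℕ, ∀ (g : A) (u w : B), φ g = t * u + φ e ^ c * w →
      ∃ (a : A) (b : B), φ (g - e * a) = t * b := by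
  let _ := φ.toAlgebra
  have : Module.Finite A B := hφ
  have hs : ∀ (a : A) (b : B), a • b = φ a * b := fun a b => rfl
  let W : Submodule A B :=
    { carrier := {z | ∃ (a : A) (b : B), z = φ a + t * b}
      zero_mem' := ⟨0, 0, by simp⟩
      add_mem' := by
        rintro _ _ ⟨a, b, rfl⟩ ⟨a', b', rfl⟩
        exact ⟨a + a', b + b', by rw [map_add]; ring⟩
      smul_mem' := by
        rintro r _ ⟨a, b, rfl⟩
        exact ⟨r * a, φ r * b, by rw [hs, map_mul]; ring⟩ }
  obtain ⟨c, hc⟩ := (Ideal.span {e}).exists_pow_inf_eq_pow_smul W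
  refine ⟨c + 1, fun g u w h => ?_⟩
  have h1 : φ e ^ (c + 1) * w ∈ (Ideal.span {e}) ^ (c + 1) • (⊤ : Submodule A B) ⊓ W := by
    refine ⟨?_, g, -u, by rw [h]; ring⟩
    rw [← map_pow, ← hs]
    exact Submodule.smul_mem_smul (Ideal.pow_mem_pow (Ideal.mem_span_singleton_self e) _) trivial
  rw [hc (c + 1) (Nat.le_succ c), Nat.add_sub_cancel_left, pow_one,
    Submodule.ideal_span_singleton_smul] at h1
  obtain ⟨z, hz, e1⟩ := (Submodule.mem_smul_pointwise_iff_exists _ _ _).1 h1
  obtain ⟨a, b, rfl⟩ := hz.2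
  refine ⟨a, u + φ e * b, ?_⟩
  rw [map_sub, h, ← e1, hs, map_mul]
  ring

theorem claim {T : Type} [CommRing T] [IsDomain T] [IsNoetherianRing T] [IsIntegrallyClosed T]
    (τ : T) (hτ : τ ≠ 0) (N : ℕ) :
    ∃ Q₀ : ℕ, ∀ Q, Q₀ ≤ Q → ∀ g u : T, g ^ Q = τ ^ (N * (Q - 1)) * u → ∃ u', g = τ ^ N * u' := by
  let r := (Ideal.span {τ}).radical
  obtain ⟨c, hc⟩ := (Ideal.span {τ}).exists_radical_pow_le_of_fg r.fg_of_isNoetherianRing
  refine ⟨c * (N + 1) + 1, fun Q hQ g u h => ?_⟩
  let K := FractionRing T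
  let ι := algebraMap T K
  have hι : Function.Injective ι := IsFractionRing.injective T K
  have hτ' : ι τ ≠ 0 := fun e => hτ (hι (by rw [e, map_zero]))
  let y : K := ι g / ι τ ^ N
  have hy : y ^ Q * ι τ ^ N = ι u := by
    obtain ⟨Q', rfl⟩ : ∃ Q', Q = Q' + 1 := ⟨Q - 1, by omega⟩
    rw [Nat.add_sub_cancel] at h
    have h0 : y * ι τ ^ N = ι g := div_mul_cancel₀ _ (pow_ne_zero _ hτ')
    apply mul_left_cancel₀ (pow_ne_zero (N * Q') hτ')
    rw [← map_pow, ← map_mul ι (τ ^ (N * Q')), ← h, map_pow, map_pow, ← h0]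
    ring
  have key : ∀ p ∈ r, ∃ z ∈ r, y * ι p = ι z := by
    intro p hp
    have h1 : p ^ Q ∈ Ideal.span {τ ^ (N + 1)} := by
      rw [← Ideal.span_singleton_pow]
      have h2 : p ^ Q ∈ r ^ (c * (N + 1)) :=
        Ideal.pow_le_pow_right (by omega) (Ideal.pow_mem_pow hp Q)
      rw [pow_mul] at h2
      exact Ideal.pow_right_mono hc _ h2
    obtain ⟨p', hp'⟩ := Ideal.mem_span_singleton'.1 h1
    have h3 : (y * ι p) ^ Q = ι (τ * p' * u) := by
      rw [mul_pow, ← map_pow, ← hp', map_mul, map_mul, map_mul, map_pow, ← hy]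
      ring
    have h4 : IsIntegral T (y * ι p) :=
      IsIntegral.of_pow (n := Q) (by omega) (by rw [h3]; exact isIntegral_algebraMap)
    obtain ⟨z, hz⟩ := IsIntegrallyClosed.isIntegral_iff.1 h4
    refine ⟨z, ⟨Q, ?_⟩, hz.symm⟩
    have h5 : z ^ Q = τ * p' * u := hι (by rw [map_pow, ← h3, ← hz])
    rw [h5, mul_assoc]
    exact Ideal.mul_mem_right _ _ (Ideal.mem_span_singleton_self τ)
  have hint : IsIntegral T y := by
    refine isIntegral_of_smul_mem_submodule (M := K) (Submodule.map (Algebra.linearMap T K) r) ?_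
      (Submodule.FG.map _ r.fg_of_isNoetherianRing) y ?_
    · intro e
      have : ι τ ∈ Submodule.map (Algebra.linearMap T K) r :=
        ⟨τ, Ideal.le_radical (Ideal.mem_span_singleton_self τ), rfl⟩
      rw [e] at this
      exact hτ' this
    · rintro _ ⟨p, hp, rfl⟩
      obtain ⟨z, hz, e⟩ := key p hp
      exact ⟨z, hz, e.symm⟩
  obtain ⟨z, hz⟩ := IsIntegrallyClosed.isIntegral_iff.1 hint
  refine ⟨z, hι ?_⟩
  rw [map_mul, map_pow, hz]
  exact (mul_div_cancel₀ _ (pow_ne_zero _ hτ')).symm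

end NCAux

theorem nc : S_NC := by
  intro T _ _ _ _ _ hF τ e hτ N
  obtain ⟨i, hi⟩ := NCAux.claim τ hτ N
  obtain ⟨c, hc⟩ := NCAux.artin _ (NCAux.iter_finite hF i) e (τ ^ (N * (2 ^ i - 1)))
  refine ⟨i, 2 ^ i * c, fun g u w h => ?_⟩
  obtain ⟨a, b, hab⟩ := hc g u w (by rw [iterateFrobenius_def, iterateFrobenius_def, h, pow_mul e])
  obtain ⟨u', hu'⟩ := hi (2 ^ i) Nat.lt_two_pow_self.le _ b hab
  exact ⟨u', a, by rw [← hu']; ring⟩

end Pool.Agent.P.MP_3a4479_al
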