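import Pool.Agent.P.MP_3a4479_al.Defs0

/-!
The Cartier type operators and solidity of the forcing algebra.
-/

set_option autoImplicit false

namespace Pool.Agent.P.MP_3a4479_al

open MvPolynomial

namespace SolidAux

/-- A finitely supported function is the coefficient function of a polynomial. -/
theorem exists_coeff_eq {σ k : Type} [CommRing k] (φ : (σ →₀ ℕ) → k)
    (h : (Function.support φ).Finite) : ∃ Q : MvPolynomial σ k, ∀ d, Q.coeff d = φ d := by
  classical
  refine ⟨∑ d ∈ h.toFinset, monomial d (φ d), fun d => ?_⟩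
  rw [coeff_sum]
  simp only [coeff_monomial]
  rw [Finset.sum_ite_eq']
  split_ifs with hd
  · rfl
  · rw [Set.Finite.mem_toFinset, Function.mem_support, not_not] at hd
    exact hd.symm

theorem smul_le_iff {n q : ℕ} (d₀ : Fin n →₀ ℕ) (h : ∀ i, d₀ i < q) (u d : Fin n →₀ ℕ) :
    q • u ≤ q • d + d₀ ↔ u ≤ d := by
  constructor
  · intro hle i
    have h1 := hle i
    simp only [Finsupp.coe_add, Finsupp.coe_smul, Pi.add_apply, Pi.smul_apply, smul_eq_mul] at h1
    have h2 : q * u i < q * (d i + 1) := by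
      have := h i
      rw [mul_add, mul_one]
      omega
    exact Nat.lt_succ_iff.mp (Nat.lt_of_mul_lt_mul_left h2)
  · intro hle i
    simp only [Finsupp.coe_add, Finsupp.coe_smul, Pi.add_apply, Pi.smul_apply, smul_eq_mul]
    exact (Nat.mul_le_mul_left q (hle i)).trans (Nat.le_add_right _ _)

theorem smul_sub_eq {n q : ℕ} (d₀ u d : Fin n →₀ ℕ) (h : u ≤ d) :
    q • d + d₀ - q • u = q • (d - u) + d₀ := by
  obtain ⟨w, rfl⟩ := exists_add_of_le h
  rw [add_tsub_cancel_left, smul_add, add_assoc, add_tsub_cancel_left]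

/-- A linear functional on sequences that kills the eventually vanishing ones and sends the
constant sequence one to one. -/
theorem exists_lim (k : Type) [Field k] :
    ∃ lam : (ℕ → k) →ₗ[k] k, lam (fun _ => 1) = 1 ∧
      ∀ z : ℕ → k, (∃ N, ∀ e, N ≤ e → z e = 0) → lam z = 0 := by
  let W : Submodule k (ℕ → k) :=
    { carrier := {z | ∃ N, ∀ e, N ≤ e → z e = 0}
      zero_mem' := ⟨0, fun _ _ => rfl⟩
      add_mem' := by
        rintro y z ⟨N, hN⟩ ⟨M, hM⟩
        refine ⟨max N M, fun e he => ?_⟩
        rw [Pi.add_apply, hN e (le_of_max_le_left he), hM e (le_of_max_le_right he), add_zero]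
      smul_mem' := by
        rintro c z ⟨N, hN⟩
        exact ⟨N, fun e he => by rw [Pi.smul_apply, hN e he, smul_zero]⟩ }
  have h1 : (fun _ => 1 : ℕ → k) ∉ W := by
    rintro ⟨N, hN⟩
    exact one_ne_zero (hN N le_rfl)
  obtain ⟨f, hf, hW⟩ := W.exists_dual_map_eq_bot_of_notMem h1 inferInstance
  refine ⟨(f fun _ => 1)⁻¹ • f, ?_, fun z hz => ?_⟩
  · rw [LinearMap.smul_apply, smul_eq_mul, inv_mul_cancel₀ hf]
  · have : f z ∈ W.map f := Submodule.mem_map_of_mem (show z ∈ W from hz)
    rw [hW, Submodule.mem_bot] at this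
    rw [LinearMap.smul_apply, this, smul_zero]

/-- Limits of families of additive maps with values of bounded degree. -/
theorem exists_limit_map {k B : Type} [Field k] [AddCommGroup B] (L : ℕ → B →+ P3 k)
    (hdeg : ∀ b, ∃ D, ∀ e, (L e b).totalDegree ≤ D) :
    ∃ Λ : B →+ P3 k, (∀ b z, (∀ e, L e b = z) → Λ b = z) ∧
      (∀ b, (∃ N, ∀ e, N ≤ e → L e b = 0) → Λ b = 0) ∧
      ∀ (a : P3 k) (b b' : B), (∀ e, L e b' = a * L e b) → Λ b' = a * Λ b := by
  classical
  obtain ⟨lam, hlam1, hlam0⟩ := exists_lim k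
  have hex : ∀ b, ∃ Q : P3 k, ∀ d, Q.coeff d = lam fun e => (L e b).coeff d := by
    intro b
    obtain ⟨D, hD⟩ := hdeg b
    refine exists_coeff_eq _ ((Finsupp.finite_of_degree_le D).subset fun d hd => ?_)
    by_contra hcon
    apply hd
    refine hlam0 _ ⟨0, fun e _ => ?_⟩
    by_contra hne
    exact hcon ((le_totalDegree (mem_support_iff.mpr hne)).trans (hD e))
  choose Q hQ using hex
  refine ⟨AddMonoidHom.mk' Q fun b b' => ?_, fun b z hz => ?_, fun b hb => ?_,
    fun a b b' h => ?_⟩
  · ext d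
    rw [coeff_add, hQ, hQ, hQ, ← map_add]
    congr 1
    funext e
    rw [map_add, coeff_add, Pi.add_apply]
  · ext d
    rw [AddMonoidHom.mk'_apply, hQ]
    have : (fun e => (L e b).coeff d) = z.coeff d • fun _ : ℕ => (1 : k) := by
      funext e
      rw [hz e, Pi.smul_apply, smul_eq_mul, mul_one]
    rw [this, map_smul, hlam1, smul_eq_mul, mul_one]
  · ext d
    obtain ⟨N, hN⟩ := hb
    rw [AddMonoidHom.mk'_apply, hQ, coeff_zero]
    exact hlam0 _ ⟨N, fun e he => by rw [hN e he, coeff_zero]⟩
  · ext d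
    rw [AddMonoidHom.mk'_apply, hQ, coeff_mul]
    have : (fun e => (L e b').coeff d) = ∑ x ∈ Finset.HasAntidiagonal.antidiagonal d,
        a.coeff x.1 • fun e => (L e b).coeff x.2 := by
      funext e
      rw [h e, coeff_mul, Finset.sum_apply]
      rfl
    rw [this, map_sum]
    refine Finset.sum_congr rfl fun x _ => ?_
    rw [map_smul, hQ, smul_eq_mul]

theorem deg_pow {R : Type} [CommRing R] (deg : R → ℕ)
    (hmul : ∀ r r', deg (r * r') ≤ deg r + deg r') (h1 : deg 1 = 0) (r : R) (m : ℕ) :
    deg (r ^ m) ≤ m * deg r := by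
  induction m with
  | zero => simp [h1]
  | succ m ih =>
    rw [pow_succ, add_mul, one_mul]
    exact (hmul _ _).trans (Nat.add_le_add_right ih _)

theorem deg_prod {R ι : Type} [CommRing R] (deg : R → ℕ)
    (hmul : ∀ r r', deg (r * r') ≤ deg r + deg r') (h1 : deg 1 = 0) (s : Finset ι) (f : ι → R) :
    deg (∏ i ∈ s, f i) ≤ ∑ i ∈ s, deg (f i) := by
  classical
  induction s using Finset.induction_on with
  | empty => simp [h1]
  | insert a s ha ih =>
    rw [Finset.prod_insert ha, Finset.sum_insert ha]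
    exact (hmul _ _).trans (Nat.add_le_add_left ih _)

end SolidAux

open SolidAux in
theorem cartier : S_Cartier := by
  classical
  intro k _ _ _ n e d₀ hd₀
  have hq : 0 < 2 ^ e := by positivity
  let ρ : k ≃+* k := (iterateFrobeniusEquiv k 2 e).symm
  have hρ : ∀ a, ρ a ^ 2 ^ e = a := fun a => (iterateFrobeniusEquiv k 2 e).apply_symm_apply a
  have hρ' : ∀ a, ρ (a ^ 2 ^ e) = a := fun a => (iterateFrobeniusEquiv k 2 e).symm_apply_apply a
  have hinj : Function.Injective fun d : Fin n →₀ ℕ => 2 ^ e • d + d₀ := by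
    intro d d' h
    have h1 : 2 ^ e • d = 2 ^ e • d' := add_right_cancel h
    ext i
    have h2 := DFunLike.congr_fun h1 i
    simp only [Finsupp.coe_smul, Pi.smul_apply, smul_eq_mul] at h2
    exact Nat.eq_of_mul_eq_mul_left hq h2
  have hex : ∀ P : MvPolynomial (Fin n) k, ∃ Q : MvPolynomial (Fin n) k,
      ∀ d, Q.coeff d = ρ (P.coeff (2 ^ e • d + d₀)) := by
    intro P
    refine exists_coeff_eq _ ((P.support.finite_toSet.preimage hinj.injOn).subset fun d hd => ?_)
    rw [Set.mem_preimage, Finset.mem_coe, mem_support_iff]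
    intro h
    apply hd
    simp only [h, map_zero]
  choose Q hQ using hex
  let Φ : MvPolynomial (Fin n) k →+ MvPolynomial (Fin n) k := AddMonoidHom.mk' Q fun P P' => by
    ext d
    rw [coeff_add, hQ, hQ, hQ, coeff_add, map_add]
  have hΦ : ∀ P d, (Φ P).coeff d = ρ (P.coeff (2 ^ e • d + d₀)) := hQ
  refine ⟨Φ, fun a P => ?_, fun P d => by rw [hΦ, hρ]⟩
  induction a using MvPolynomial.induction_on' with
  | monomial u c =>
    ext d
    rw [hΦ, monomial_pow, coeff_monomial_mul', coeff_monomial_mul']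
    by_cases h : u ≤ d
    · rw [if_pos h, if_pos ((smul_le_iff d₀ hd₀ u d).mpr h), map_mul, hρ', hΦ,
        smul_sub_eq d₀ u d h]
    · rw [if_neg h, if_neg (fun h' => h ((smul_le_iff d₀ hd₀ u d).mp h')), map_zero]
  | add a b ha hb => rw [add_pow_char_pow, add_mul, map_add, ha, hb, add_mul]

open SolidAux in
theorem solid : S_Cartier → S_Solid := by
  classical
  intro hC k _ _ _ R _ al deg π n g u C hπ hπ1 hmul hdeg1 hπdeg hr
  choose r hrdeg hr using hr
  choose Φ hΦ hΦc using fun e => hC k 3 e 0 (fun i => by simp)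
  have h10 : (1 : R) ≠ 0 := by
    intro h
    rw [h, map_zero] at hπ1
    exact zero_ne_one hπ1
  have h2 : (2 : R) = 0 := by
    have h : (2 : P3 k) = 0 := CharTwo.two_eq_zero
    have := congrArg al h
    rwa [map_ofNat, map_zero] at this
  have : CharP R 2 := CharTwo.of_one_ne_zero_of_two_eq_zero h10 h2
  set c : R := al (X 0) with hc
  have hΦdeg : ∀ e P, 2 ^ e * (Φ e P).totalDegree ≤ P.totalDegree := by
    intro e P
    rcases eq_or_ne (Φ e P) 0 with h | h
    · simp [h]
    obtain ⟨d, hd, hd'⟩ := Finset.exists_mem_eq_sup (Φ e P).support (support_nonempty.mpr h)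
      fun s => s.sum fun _ m => m
    have h1 : P.coeff (2 ^ e • d) ≠ 0 := by
      have := hΦc e P d
      rw [add_zero] at this
      rw [← this]
      exact pow_ne_zero _ (mem_support_iff.mp hd)
    have h3 := le_totalDegree (mem_support_iff.mpr h1)
    have h4 : ((2 ^ e • d).sum fun _ m => m) = 2 ^ e * d.sum fun _ m => m := by
      have := map_nsmul (Finsupp.degree (σ := Fin 3) (R := ℕ)) (2 ^ e) d
      exact this
    rw [totalDegree, hd', ← h4]
    exact h3
  have hΦ1 : ∀ e, Φ e 1 = 1 := by
    intro e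
    ext d
    have h1 := hΦc e 1 d
    rw [add_zero, coeff_one] at h1
    rw [coeff_one]
    by_cases hd : 0 = d
    · subst hd
      rw [smul_zero, if_pos rfl] at h1
      rw [if_pos rfl]
      apply (iterateFrobeniusEquiv k 2 e).injective
      rw [iterateFrobeniusEquiv_def, h1, map_one]
    · have hd' : ¬ (0 = 2 ^ e • d) := by
        intro h
        apply hd
        ext i
        have h3 := DFunLike.congr_fun h i
        simp only [Finsupp.coe_zero, Pi.zero_apply, Finsupp.coe_smul, Pi.smul_apply,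
          smul_eq_mul] at h3
        rcases Nat.mul_eq_zero.mp h3.symm with h4 | h4
        · exact absurd h4 (by positivity)
        · simp [h4]
      rw [if_neg hd'] at h1
      rw [if_neg hd]
      exact pow_eq_zero_iff (by positivity) |>.mp h1
  let w : ℕ → (Fin n →₀ ℕ) → R := fun e β => c ^ (2 ^ e - β.degree) * ∏ i, r e i ^ β i
  let T : ℕ → MvPolynomial (Fin n) R →ₗ[R] R := fun e =>
    (basisMonomials (Fin n) R).constr R (w e)
  have hT : ∀ e β a, T e (monomial β a) = a * w e β := by
    intro e β a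
    have h1 : (monomial β a : MvPolynomial (Fin n) R) = a • basisMonomials (Fin n) R β := by
      rw [coe_basisMonomials, smul_monomial, smul_eq_mul, mul_one]
    rw [h1, map_smul, Module.Basis.constr_basis, smul_eq_mul]
  let M : ℕ → MvPolynomial (Fin n) R →+ R := fun e =>
    (T e).toAddMonoidHom.comp (MvPolynomial.map (iterateFrobenius R 2 e)).toAddMonoidHom
  have hM' : ∀ e P, M e P = T e (MvPolynomial.map (iterateFrobenius R 2 e) P) := fun _ _ => rfl
  have hM : ∀ e β a, M e (monomial β a) = a ^ 2 ^ e * w e β := by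
    intro e β a
    rw [hM', map_monomial, hT, iterateFrobenius_def]
  have hMC : ∀ e b P, M e (MvPolynomial.C b * P) = b ^ 2 ^ e * M e P := by
    intro e b P
    rw [hM', hM', map_mul, map_C, C_mul', map_smul, iterateFrobenius_def, smul_eq_mul]
  let L : ℕ → MvPolynomial (Fin n) R →+ P3 k := fun e => (Φ e).comp (π.comp (M e))
  have hL : ∀ e P, L e P = Φ e (π (M e P)) := fun _ _ => rfl
  have hLdeg : ∀ P, ∃ D, ∀ e, (L e P).totalDegree ≤ D := by
    intro P
    induction P using MvPolynomial.induction_on' with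
    | monomial β a =>
      refine ⟨deg a + deg c + β.degree * C, fun e => ?_⟩
      have hq : 0 < 2 ^ e := by positivity
      refine Nat.le_of_mul_le_mul_left ?_ hq
      rw [hL, hM]
      refine (hΦdeg e _).trans ((hπdeg _).trans ((hmul _ _).trans ?_))
      have h1 := deg_pow deg hmul hdeg1 a (2 ^ e)
      have h3 : deg (c ^ (2 ^ e - β.degree)) ≤ 2 ^ e * deg c :=
        (deg_pow deg hmul hdeg1 c _).trans (Nat.mul_le_mul_right _ (Nat.sub_le _ _))
      have h4 : deg (∏ i, r e i ^ β i) ≤ β.degree * (C * 2 ^ e) := by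
        refine (deg_prod deg hmul hdeg1 _ _).trans ?_
        rw [Finsupp.degree_eq_sum, Finset.sum_mul]
        exact Finset.sum_le_sum fun i _ =>
          (deg_pow deg hmul hdeg1 _ _).trans (Nat.mul_le_mul_left _ (hrdeg e i))
      have h5 : deg (w e β) ≤ 2 ^ e * deg c + β.degree * (C * 2 ^ e) :=
        (hmul _ _).trans (Nat.add_le_add h3 h4)
      calc deg (a ^ 2 ^ e) + deg (w e β)
          ≤ 2 ^ e * deg a + (2 ^ e * deg c + β.degree * (C * 2 ^ e)) := Nat.add_le_add h1 h5
        _ = 2 ^ e * (deg a + deg c + β.degree * C) := by ring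
    | add P P' hP hP' =>
      obtain ⟨D, hD⟩ := hP
      obtain ⟨D', hD'⟩ := hP'
      refine ⟨max D D', fun e => ?_⟩
      rw [map_add]
      exact (totalDegree_add _ _).trans (max_le_max (hD e) (hD' e))
  obtain ⟨Λ₀, hconst, hzero, hlin⟩ := exists_limit_map L hLdeg
  let F : MvPolynomial (Fin n) R := MvPolynomial.C u - ∑ i, MvPolynomial.C (g i) * X i
  have hF : ∀ P, Λ₀ (P * F) = 0 := by
    intro P
    induction P using MvPolynomial.induction_on' with
    | monomial β a =>
      refine hzero _ ⟨β.degree, fun e he => ?_⟩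
      have hlt : β.degree < 2 ^ e := lt_of_le_of_lt he Nat.lt_two_pow_self
      obtain ⟨m, hm⟩ := Nat.exists_eq_add_of_lt hlt
      have hw0 : w e β = c ^ m * (∏ i, r e i ^ β i) * c := by
        have : 2 ^ e - β.degree = m + 1 := by omega
        simp only [w, this]
        ring
      have hw1 : ∀ j, w e (β + Finsupp.single j 1) = c ^ m * (∏ i, r e i ^ β i) * r e j := by
        intro j
        have h1 : 2 ^ e - (β + Finsupp.single j 1).degree = m := by
          rw [map_add, Finsupp.degree_single]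
          omega
        have h3 : ∏ i, r e i ^ (β + Finsupp.single j 1 : Fin n →₀ ℕ) i =
            (∏ i, r e i ^ β i) * r e j := by
          simp only [Finsupp.add_apply, pow_add, Finset.prod_mul_distrib]
          congr 1
          rw [Finset.prod_eq_single j]
          · simp
          · intro i _ hi
            rw [Finsupp.single_eq_of_ne hi, pow_zero]
          · intro h
            exact absurd (Finset.mem_univ j) h
        simp only [w, h1, h3]
        ring
      have hMF : M e (monomial β a * F) = 0 := by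
        have h1 : monomial β a * F = MvPolynomial.C u * monomial β a -
            ∑ j, MvPolynomial.C (g j) * monomial (β + Finsupp.single j 1) a := by
          simp only [F, mul_sub, Finset.mul_sum, monomial_add_single, pow_one]
          congr 1
          · ring
          · exact Finset.sum_congr rfl fun j _ => by ring
        rw [h1, map_sub, map_sum, hMC, hM, hw0]
        simp only [hMC, hM, hw1]
        have h3 : ∑ j, g j ^ 2 ^ e * (a ^ 2 ^ e * (c ^ m * (∏ i, r e i ^ β i) * r e j)) =
            a ^ 2 ^ e * (c ^ m * ∏ i, r e i ^ β i) * ∑ j, r e j * g j ^ 2 ^ e := by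
          rw [Finset.mul_sum]
          exact Finset.sum_congr rfl fun j _ => by ring
        rw [h3, ← hr e]
        ring
      rw [hL, hMF, map_zero, map_zero]
    | add P P' hP hP' => rw [add_mul, map_add, hP, hP', add_zero]
  let I : Ideal (MvPolynomial (Fin n) R) := Ideal.span {F}
  let mk : MvPolynomial (Fin n) R →+* MvPolynomial (Fin n) R ⧸ I := Ideal.Quotient.mk I
  have hsurj : Function.Surjective mk.toAddMonoidHom := Ideal.Quotient.mk_surjective
  have hker : mk.toAddMonoidHom.ker ≤ Λ₀.ker := by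
    intro P hP
    have h1 : P ∈ I := Ideal.Quotient.eq_zero_iff_mem.mp hP
    obtain ⟨P', rfl⟩ := Ideal.mem_span_singleton'.mp h1
    exact hF P'
  let Λ : (MvPolynomial (Fin n) R ⧸ I) →+ P3 k :=
    mk.toAddMonoidHom.liftOfSurjective hsurj ⟨Λ₀, hker⟩
  have hΛ : ∀ P, Λ (mk P) = Λ₀ P := fun P =>
    mk.toAddMonoidHom.liftOfRightInverse_comp_apply _ _ ⟨Λ₀, hker⟩ P
  have halg : ∀ b : R, algebraMap R (MvPolynomial (Fin n) R ⧸ I) b = mk (MvPolynomial.C b) :=
    fun _ => rfl
  refine ⟨MvPolynomial (Fin n) R ⧸ I, inferInstance, inferInstance, Λ, fun a z => ?_,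
    fun h0 => ?_, fun i => mk (X i), ?_⟩
  · obtain ⟨P, rfl⟩ : ∃ P, mk P = z := Ideal.Quotient.mk_surjective z
    rw [halg, ← map_mul, hΛ, hΛ]
    refine hlin a P _ fun e => ?_
    rw [hL, hL, hMC, ← map_pow, hπ, hΦ]
  · have h1 : Λ₀ 1 = X 0 := by
      refine hconst 1 _ fun e => ?_
      have h3 : M e 1 = al (X 0 ^ 2 ^ e) * 1 := by
        have := hM e 0 1
        rw [monomial_zero', map_one] at this
        rw [this]
        simp [w, hc]
      rw [hL, h3, hπ, hπ1, hΦ, hΦ1, mul_one]
    have h3 := hΛ 1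
    rw [h0, h1] at h3
    exact X_ne_zero (R := k) (0 : Fin 3) h3.symm
  · simp only [halg, ← map_mul]
    rw [← map_sum, ← sub_eq_zero, ← map_sub]
    exact Ideal.Quotient.eq_zero_iff_mem.mpr (Ideal.subset_span rfl)

end Pool.Agent.P.MP_3a4479_al
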