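import Pool.Agent.P.MP_3a4479_al.Defs0

/-!
Extension of a real valued valuation to an algebraic field extension.
-/

set_option autoImplicit false

namespace Pool.Agent.P.MP_3a4479_al

open Polynomial
open scoped NNReal

namespace ExtValAux

variable {K L : Type} [Field K] [Field L] [Algebra K L]

/-- A valuation subring of `L` that induces the given valuation on `K` up to equivalence. -/
theorem exists_sub (v : Valuation K ℝ≥0) :
    ∃ V : ValuationSubring L, (V.valuation.comap (algebraMap K L)).IsEquiv v := by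
  obtain ⟨V, hV, hloc⟩ := IsLocalRing.exists_factor_valuationRing
    ((algebraMap K L).comp v.valuationSubring.subtype)
  refine ⟨V, Valuation.isEquiv_iff_val_le_one.mpr fun {a} => ?_⟩
  rw [Valuation.comap_apply]
  constructor
  · intro h
    by_contra hcon
    push Not at hcon
    have ha : a ≠ 0 := by
      rintro rfl
      simp at hcon
    have h1 : v a⁻¹ < 1 := by
      rw [map_inv₀]
      exact inv_lt_one_of_one_lt₀ hcon
    let b : v.valuationSubring := ⟨a⁻¹, h1.le⟩
    have hb : ¬ IsUnit b := by
      intro hu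
      obtain ⟨c, hc⟩ := hu.exists_right_inv
      have h2 : a⁻¹ * (c : K) = 1 := congrArg Subtype.val hc
      have h3 : v (c : K) ≤ 1 := c.2
      have h4 := congrArg v h2
      rw [map_mul, map_one] at h4
      have h5 : v a⁻¹ * v (c : K) < 1 := lt_of_le_of_lt (mul_le_of_le_one_right' h3) h1
      exact h5.ne h4
    apply hb
    apply hloc.map_nonunit
    have hmem : algebraMap K L a ∈ V := (V.valuation_le_one_iff _).mp h
    refine IsUnit.of_mul_eq_one ⟨algebraMap K L a, hmem⟩ (Subtype.ext ?_)
    change algebraMap K L a⁻¹ * algebraMap K L a = 1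
    rw [← map_mul, inv_mul_cancel₀ ha, map_one]
  · intro h
    exact (V.valuation_le_one_iff _).mpr (hV ⟨a, h⟩)

/-- A power of the value of an algebraic element is the value of an element of the base. -/
theorem exists_pow {Γ : Type} [LinearOrderedCommGroupWithZero Γ] [Algebra.IsAlgebraic K L]
    (u : Valuation L Γ) (z : L) :
    ∃ (n : ℕ) (c : K), 0 < n ∧ u z ^ n = u (algebraMap K L c) := by
  classical
  rcases eq_or_ne z 0 with rfl | hz
  · exact ⟨1, 0, one_pos, by simp⟩
  obtain ⟨p, hp, hpz⟩ := Algebra.IsAlgebraic.isAlgebraic (R := K) z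
  have huz : u z ≠ 0 := (Valuation.ne_zero_iff u).mpr hz
  have hc : ∀ i ∈ p.support, algebraMap K L (p.coeff i) ≠ 0 := fun i hi =>
    (_root_.map_ne_zero _).mpr (Polynomial.mem_support_iff.mp hi)
  have key : ∀ i ∈ p.support, ∀ j ∈ p.support, i < j →
      u (algebraMap K L (p.coeff i) * z ^ i) = u (algebraMap K L (p.coeff j) * z ^ j) →
      ∃ (n : ℕ) (c : K), 0 < n ∧ u z ^ n = u (algebraMap K L c) := by
    intro i hi j hj hij h
    obtain ⟨n, rfl⟩ := Nat.exists_eq_add_of_lt hij
    refine ⟨n + 1, p.coeff i / p.coeff (i + n + 1), Nat.succ_pos n, ?_⟩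
    have h1 : u (algebraMap K L (p.coeff (i + n + 1))) ≠ 0 :=
      (Valuation.ne_zero_iff u).mpr (hc _ hj)
    rw [map_div₀, map_div₀, eq_div_iff h1]
    rw [map_mul, map_mul, map_pow, map_pow, add_assoc, pow_add, mul_comm (u z ^ i),
      ← mul_assoc] at h
    have h2 := mul_right_cancel₀ (pow_ne_zero i huz) h
    rw [h2, add_assoc, mul_comm]
  obtain ⟨j, hj, hmax⟩ := Finset.exists_max_image p.support
    (fun i => u (algebraMap K L (p.coeff i) * z ^ i)) (Polynomial.support_nonempty.mpr hp)
  by_contra hcon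
  have hlt : ∀ i ∈ p.support \ {j},
      u (algebraMap K L (p.coeff i) * z ^ i) < u (algebraMap K L (p.coeff j) * z ^ j) := by
    intro i hi
    rw [Finset.mem_sdiff, Finset.mem_singleton] at hi
    refine lt_of_le_of_ne (hmax i hi.1) fun h => hcon ?_
    rcases lt_or_gt_of_ne hi.2 with hij | hij
    · exact key i hi.1 j hj hij h
    · exact key j hj i hi.1 hij h.symm
  have hsum := u.map_sum_eq_of_lt hj hlt
  have h0 : ∑ i ∈ p.support, algebraMap K L (p.coeff i) * z ^ i = 0 := by
    rw [← hpz, Polynomial.aeval_def, Polynomial.eval₂_eq_sum, Polynomial.sum_def]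
  rw [h0, map_zero] at hsum
  exact (Valuation.ne_zero_iff u).mpr (mul_ne_zero (hc j hj) (pow_ne_zero j hz)) hsum.symm

end ExtValAux

theorem extVal : S_ExtVal := by
  intro K L _ _ _ _ v
  obtain ⟨V, hV⟩ := ExtValAux.exists_sub (L := L) v
  set u := V.valuation with hu
  have hle : ∀ a b : K, u (algebraMap K L a) ≤ u (algebraMap K L b) → v a ≤ v b :=
    fun a b h => (hV a b).mp h
  choose n c hn hc using fun z => ExtValAux.exists_pow (K := K) u z
  let w : L → ℝ≥0 := fun z => v (c z) ^ ((n z : ℝ)⁻¹)
  have hw : ∀ z, w z ^ n z = v (c z) := fun z => NNReal.rpow_inv_natCast_pow _ (hn z).ne'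
  have hchar : ∀ (z : L) (m : ℕ) (a : K), u z ^ m = u (algebraMap K L a) → w z ^ m = v a := by
    intro z m a h
    have h1 : u (algebraMap K L (a ^ n z)) = u (algebraMap K L (c z ^ m)) := by
      rw [map_pow, map_pow, map_pow, map_pow, ← h, ← hc z, ← pow_mul, ← pow_mul, mul_comm]
    have h2 : v (a ^ n z) = v (c z ^ m) := le_antisymm (hle _ _ h1.le) (hle _ _ h1.ge)
    rw [map_pow, map_pow, ← hw z, ← pow_mul, mul_comm, pow_mul] at h2
    exact (pow_left_injective (hn z).ne' h2).symm
  have hbase : ∀ a : K, w (algebraMap K L a) = v a := by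
    intro a
    simpa using hchar (algebraMap K L a) 1 a (pow_one _)
  have hmono : ∀ y z : L, u y ≤ u z → w y ≤ w z := by
    intro y z h
    have h1 : u (algebraMap K L (c y ^ n z)) ≤ u (algebraMap K L (c z ^ n y)) := by
      rw [map_pow, map_pow, map_pow, map_pow, ← hc y, ← hc z, ← pow_mul, ← pow_mul,
        mul_comm (n z)]
      exact pow_le_pow_left₀ zero_le h _
    have h2 := hle _ _ h1
    rw [map_pow, map_pow, ← hw y, ← hw z, ← pow_mul, ← pow_mul, mul_comm (n z)] at h2
    exact (pow_le_pow_iff_left₀ zero_le zero_le (Nat.mul_pos (hn y) (hn z)).ne').mp h2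
  refine ⟨{ toFun := w
            map_zero' := by simpa using hbase 0
            map_one' := by simpa using hbase 1
            map_mul' := fun y z => ?_
            map_add_le_max' := fun y z => ?_ }, hbase⟩
  · have h1 := hchar (y * z) (n y * n z) (c y ^ n z * c z ^ n y) (by
      rw [map_mul, map_mul, map_mul, map_pow, map_pow, map_pow, map_pow, ← hc y, ← hc z,
        ← pow_mul, ← pow_mul, mul_comm (n z), mul_pow])
    rw [map_mul, map_pow, map_pow, ← hw y, ← hw z, ← pow_mul, ← pow_mul, mul_comm (n z),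
      ← mul_pow] at h1
    exact pow_left_injective (Nat.mul_pos (hn y) (hn z)).ne' h1
  · rcases le_max_iff.mp (u.map_add y z) with h | h
    · exact (hmono _ _ h).trans (le_max_left _ _)
    · exact (hmono _ _ h).trans (le_max_right _ _)

end Pool.Agent.P.MP_3a4479_al
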