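import Pool.Agent.P.MP_3a4479_al.Defs0

set_option autoImplicit false

namespace Pool.Agent.P.MP_3a4479_al

namespace HullAux

section

variable {R K L : Type} [CommRing R] [Field K] [Algebra R K] [Field L] [Algebra K L]
  [Algebra R L] [IsScalarTower R K L]

/-- functionals with values in `R` on a submodule -/
def dualOf (K : Type) [Field K] [Algebra R K] [Algebra K L] [IsScalarTower R K L]
    (N : Submodule R L) : Submodule R (L →ₗ[K] K) where
  carrier := {ψ | ∀ t ∈ N, ψ t ∈ (1 : Submodule R K)}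
  zero_mem' := fun t _ => by simp
  add_mem' := fun ha hb t ht => add_mem (ha t ht) (hb t ht)
  smul_mem' := fun c _ ha t ht => Submodule.smul_mem _ c (ha t ht)

theorem mem_dualOf {N : Submodule R L} {ψ : L →ₗ[K] K} :
    ψ ∈ dualOf K N ↔ ∀ t ∈ N, ψ t ∈ (1 : Submodule R K) := Iff.rfl

theorem fg_one : (1 : Submodule R K).FG := by
  rw [Submodule.one_eq_span]
  exact Submodule.fg_span_singleton _

theorem fg_dualOf [IsNoetherianRing R] {ι : Type} [Finite ι] (b : Module.Basis ι K L)
    {N : Submodule R L} (hb : ∀ i, b i ∈ N) : (dualOf K N).FG := by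
  let ev : (L →ₗ[K] K) →ₗ[R] (ι → K) :=
    { toFun := fun ψ i => ψ (b i)
      map_add' := fun _ _ => rfl
      map_smul' := fun _ _ => rfl }
  have hinj : Function.Injective ev := fun φ ψ e => b.ext fun i => congrFun e i
  refine Submodule.fg_of_fg_map_injective ev hinj ?_
  refine Submodule.FG.of_le (Submodule.fg_pi (p := fun _ : ι => (1 : Submodule R K))
    fun _ => fg_one) ?_
  rintro _ ⟨ψ, hψ, rfl⟩ i -
  exact hψ _ (hb i)

theorem exists_smul_mem [IsDomain R] [IsFractionRing R K] {N : Submodule R L} (hN : N.FG)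
    (φ : L →ₗ[K] K) : ∃ c : R, c ≠ 0 ∧ c • φ ∈ dualOf K N := by
  obtain ⟨n, g, rfl⟩ := Submodule.fg_iff_exists_fin_generating_family.1 hN
  obtain ⟨c, hc⟩ := IsLocalization.exist_integer_multiples_of_finite (nonZeroDivisors R)
    (fun i => φ (g i))
  refine ⟨c, nonZeroDivisors.coe_ne_zero c, fun t ht => ?_⟩
  induction ht using Submodule.span_induction with
  | mem x hx =>
    obtain ⟨i, rfl⟩ := hx
    exact Submodule.mem_one.2 (hc i)
  | zero => simp
  | add x y _ _ hx hy => rw [map_add]; exact add_mem hx hy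
  | smul a x _ hx => rw [LinearMap.map_smul_of_tower]; exact Submodule.smul_mem _ a hx

/-- the double dual of a subalgebra -/
def bidual (K : Type) [Field K] [Algebra R K] [Algebra K L] [IsScalarTower R K L]
    (A : Subalgebra R L) : Subalgebra R L where
  carrier := {z | ∀ ψ ∈ dualOf K A.toSubmodule, ψ z ∈ (1 : Submodule R K)}
  add_mem' := fun ha hb ψ hψ => by rw [map_add]; exact add_mem (ha ψ hψ) (hb ψ hψ)
  mul_mem' := fun {w z} hw hz ψ hψ => by
    refine hz (ψ ∘ₗ LinearMap.mulLeft K w) fun t ht => ?_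
    have := hw (ψ ∘ₗ LinearMap.mulLeft K t) fun s hs => hψ _ (A.mul_mem ht hs)
    simpa [mul_comm] using this
  algebraMap_mem' := fun r ψ hψ => hψ _ (A.algebraMap_mem r)

theorem mem_bidual {A : Subalgebra R L} {z : L} :
    z ∈ bidual K A ↔ ∀ ψ ∈ dualOf K A.toSubmodule, ψ z ∈ (1 : Submodule R K) := Iff.rfl

end

theorem exists_matrix (R : Type) {K : Type} [CommRing R] [IsDomain R] [Field K] [Algebra R K]
    [IsFractionRing R K] {n : ℕ} (U : Submodule K (Fin n → K)) :
    ∃ (m : ℕ) (Θ : Matrix (Fin m) (Fin n) R),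
      ∀ u : Fin n → K, (Θ.map (algebraMap R K)).mulVec u = 0 ↔ u ∈ U := by
  let b := Module.finBasis K ((Fin n → K) ⧸ U)
  let f : (Fin n → K) →ₗ[K] (Fin (Module.finrank K ((Fin n → K) ⧸ U)) → K) :=
    b.equivFun.toLinearMap ∘ₗ U.mkQ
  have hf : ∀ u, f u = 0 ↔ u ∈ U := fun u => by
    simp [f]
  obtain ⟨c, hc⟩ := IsLocalization.exist_integer_multiples_of_finite (nonZeroDivisors R)
    (fun w : Fin (Module.finrank K ((Fin n → K) ⧸ U)) × Fin n => LinearMap.toMatrix' f w.1 w.2)
  choose Θ hΘ using hc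
  refine ⟨_, fun i j => Θ (i, j), fun u => ?_⟩
  have e : Matrix.map (fun i j => Θ (i, j)) (algebraMap R K) =
      algebraMap R K c • LinearMap.toMatrix' f := by
    ext i j
    rw [Matrix.map_apply, hΘ, Matrix.smul_apply, Algebra.smul_def, smul_eq_mul]
  have hc0 : algebraMap R K c ≠ 0 :=
    (map_ne_zero_iff _ (IsFractionRing.injective R K)).2 (nonZeroDivisors.coe_ne_zero c)
  rw [e, Matrix.smul_mulVec, LinearMap.toMatrix'_mulVec, smul_eq_zero, or_iff_right hc0, hf]

end HullAux

open HullAux in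
theorem hull : S_Hull := by
  intro R K L _ _ _ _ _ _ _ _ _ _ _ S hS
  obtain ⟨s, b, hb⟩ := FiniteDimensional.exists_is_basis_integral R K L
  let A : Subalgebra R L := Algebra.adjoin R ((S : Set L) ∪ Set.range b)
  have hA : A.toSubmodule.FG := fg_adjoin_of_finite (S.finite_toSet.union (Set.finite_range b)) (by
    rintro x (hx | ⟨i, rfl⟩)
    · exact hS x hx
    · exact hb i)
  have hD : (dualOf K A.toSubmodule).FG :=
    fg_dualOf b fun i => Algebra.subset_adjoin (Or.inr ⟨i, rfl⟩)
  obtain ⟨n, ψ, hψ⟩ := Submodule.fg_iff_exists_fin_generating_family.1 hD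
  let Ψ : L →ₗ[K] (Fin n → K) := LinearMap.pi ψ
  have key : ∀ (z : L) (N : Submodule R K), (∀ i, ψ i z ∈ N) →
      ∀ φ ∈ dualOf K A.toSubmodule, φ z ∈ N := by
    intro z N hz φ hφ
    rw [← hψ] at hφ
    induction hφ using Submodule.span_induction with
    | mem x hx =>
      obtain ⟨i, rfl⟩ := hx
      exact hz i
    | zero => simp
    | add x y _ _ hx hy => exact add_mem hx hy
    | smul a x _ hx => exact Submodule.smul_mem _ a hx
  have hinj : Function.Injective Ψ := by
    rw [injective_iff_map_eq_zero]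
    intro z hz
    rw [← Module.forall_dual_apply_eq_zero_iff K]
    intro φ
    obtain ⟨c, hc0, hc⟩ := exists_smul_mem hA φ
    have h1 := key z ⊥ (fun i => (Submodule.mem_bot R).2 (congrFun hz i)) _ hc
    rw [Submodule.mem_bot, LinearMap.smul_apply, Algebra.smul_def, mul_eq_zero] at h1
    exact h1.resolve_left ((map_ne_zero_iff _ (IsFractionRing.injective R K)).2 hc0)
  have hT : ∀ z, z ∈ bidual K A ↔ ∀ i, ψ i z ∈ (1 : Submodule R K) := fun z =>
    ⟨fun h i => h _ (hψ ▸ Submodule.subset_span ⟨i, rfl⟩), fun h => key z 1 h⟩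
  obtain ⟨m, Θ, hΘ⟩ := exists_matrix R (LinearMap.range Ψ)
  refine ⟨n, m, Ψ, Θ, bidual K A, hinj, hΘ, fun z hz φ hφ => hφ z
    (Algebra.subset_adjoin (Or.inl hz)), fun z => ?_, ?_⟩
  · rw [hT]
    exact forall_congr' fun i => Submodule.mem_one
  · refine IsIntegral.of_mem_of_fg _ ?_
    refine Submodule.fg_of_fg_map_injective (Ψ.restrictScalars R) hinj ?_
    refine Submodule.FG.of_le (Submodule.fg_pi (p := fun _ : Fin n => (1 : Submodule R K))
      fun _ => fg_one) ?_
    rintro _ ⟨z, hz, rfl⟩ i -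
    exact (hT z).1 hz i

end Pool.Agent.P.MP_3a4479_al
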