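import Pool.Agent.P.MP_3a4479_al.Defs0

set_option autoImplicit false

namespace Pool.Agent.P.MP_3a4479_al

open Polynomial
open scoped NNReal

namespace LatAux

theorem common_den {k E : Type} [Field k] [Field E] [Algebra k E] (a : E)
    (h : ∀ z : E, ∃ P Q : k[X], Q ≠ 0 ∧ z * aeval a Q = aeval a P) (T : Finset E) :
    ∃ (δ : k[X]) (C₀ : ℕ), δ ≠ 0 ∧
      ∀ t ∈ T, ∃ P : k[X], P.natDegree ≤ C₀ ∧ t * aeval a δ = aeval a P := by
  classical
  induction T using Finset.induction_on with
  | empty => exact ⟨1, 0, one_ne_zero, by simp⟩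
  | insert z T _ ih =>
    obtain ⟨δ, C₀, hδ, hT⟩ := ih
    obtain ⟨P, Q, hQ, e⟩ := h z
    refine ⟨δ * Q, C₀ + Q.natDegree + (P * δ).natDegree, mul_ne_zero hδ hQ, ?_⟩
    intro t ht
    rcases Finset.mem_insert.1 ht with rfl | ht
    · refine ⟨P * δ, by omega, ?_⟩
      rw [map_mul, map_mul, ← e]; ring
    · obtain ⟨P', h1, h2⟩ := hT t ht
      refine ⟨P' * Q, ?_, ?_⟩
      · have := natDegree_mul_le (p := P') (q := Q)
        omega
      · rw [map_mul, map_mul, ← h2]; ring

theorem val_coeff {L ι : Type} [Field L] (w : Valuation L ℝ≥0) (ρ : ℝ≥0) (hρ : ρ ≤ 1)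
    (f : ι → L) (hf : ∀ i, w (f i) ≤ ρ) (s : Finset ι) (l : ℕ) :
    w ((∏ i ∈ s, (X - C (f i))).coeff l) ≤ 1 ∧
      (l < s.card → w ((∏ i ∈ s, (X - C (f i))).coeff l) ≤ ρ) := by
  classical
  induction s using Finset.induction_on generalizing l with
  | empty =>
    refine ⟨?_, fun h => absurd h (by simp)⟩
    rw [Finset.prod_empty, coeff_one]
    split_ifs <;> simp
  | insert i s hi ih =>
    rw [Finset.prod_insert hi, Finset.card_insert_of_notMem hi, sub_mul, coeff_sub, coeff_C_mul]
    have h2 : ∀ m, w (f i * (∏ i ∈ s, (X - C (f i))).coeff m) ≤ ρ := fun m => by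
      rw [map_mul]
      exact (mul_le_mul' (hf i) (ih m).1).trans (by simp)
    cases l with
    | zero =>
      rw [mul_coeff_zero, coeff_X_zero, zero_mul, zero_sub, Valuation.map_neg]
      exact ⟨(h2 0).trans hρ, fun _ => h2 0⟩
    | succ l =>
      rw [coeff_X_mul]
      refine ⟨(w.map_sub _ _).trans (max_le (ih l).1 ((h2 _).trans hρ)), fun h => ?_⟩
      exact (w.map_sub _ _).trans (max_le ((ih l).2 (by omega)) (h2 _))

theorem int_coeff {A L ι : Type} [CommRing A] [CommRing L] [Algebra A L] (U : L)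
    (hU : IsIntegral A U) (f : ι → L) (hf : ∀ i, IsIntegral A (U * f i)) (s : Finset ι) (l : ℕ) :
    IsIntegral A (U ^ s.card * (∏ i ∈ s, (X - C (f i))).coeff l) := by
  classical
  induction s using Finset.induction_on generalizing l with
  | empty =>
    rw [Finset.prod_empty, coeff_one]
    split_ifs
    · simpa using isIntegral_one
    · simpa using isIntegral_zero
  | insert i s hi ih =>
    rw [Finset.prod_insert hi, Finset.card_insert_of_notMem hi, sub_mul, coeff_sub, coeff_C_mul]
    have h2 : ∀ m, IsIntegral A (U ^ (s.card + 1) * (f i * (∏ i ∈ s, (X - C (f i))).coeff m)) :=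
      fun m => by
        have := (hf i).mul (ih m)
        convert this using 1
        ring
    cases l with
    | zero =>
      rw [mul_coeff_zero, coeff_X_zero, zero_mul, zero_sub, mul_neg]
      exact (h2 0).neg
    | succ l =>
      rw [coeff_X_mul, mul_sub]
      refine IsIntegral.sub ?_ (h2 _)
      have := hU.mul (ih l)
      convert this using 1
      ring

end LatAux

open LatAux

theorem lat : S_Lat := by
  classical
  intro k E W _ _ _ _ _ _ _ _ a ha hfrac S₁ S₂
  have hinj := transcendental_iff_injective.1 ha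
  have ha0 : a ≠ 0 := by
    rintro rfl
    exact ha isAlgebraic_zero
  let b := Module.finBasis E W
  obtain ⟨δ, C₀, hδ, hT⟩ := common_den a hfrac
    (((S₁ ∪ S₂) ×ˢ (Finset.univ : Finset (Fin (Module.finrank E W)))).image
      fun p => b.repr p.1 p.2)
  have hS : ∀ s ∈ S₁ ∪ S₂, ∀ j, ∃ P : k[X], P.natDegree ≤ C₀ ∧
      b.repr s j * aeval a δ = aeval a P := fun s hs j =>
    hT _ (Finset.mem_image.2 ⟨(s, j), Finset.mem_product.2 ⟨hs, Finset.mem_univ _⟩, rfl⟩)
  have hδa : aeval a δ ≠ 0 := fun e => hδ (hinj (by simpa using e))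
  have hsm : ∀ (c : k) (z : W) (j : Fin (Module.finrank E W)),
      b.repr (c • z) j = algebraMap k E c * b.repr z j := by
    intro c z j
    rw [← algebraMap_smul E c z, map_smul]
    rfl
  refine ⟨Module.finrank E W * (C₀ + 1), fun n U h1 h2 => ?_⟩
  have k1 : ∀ z ∈ Submodule.span k {t : W | ∃ s ∈ S₁, ∃ i : ℕ, t = a ^ i • s}, ∀ j,
      ∃ P : k[X], b.repr z j * aeval a δ = aeval a P := by
    intro z hz j
    induction hz using Submodule.span_induction with
    | mem x hx =>
      obtain ⟨s, hs, i, rfl⟩ := hx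
      obtain ⟨P, -, e⟩ := hS s (Finset.mem_union_left _ hs) j
      refine ⟨X ^ i * P, ?_⟩
      rw [map_smul, Finsupp.smul_apply, smul_eq_mul, mul_assoc, e]
      simp
    | zero => exact ⟨0, by simp⟩
    | add x y _ _ hx hy =>
      obtain ⟨P, e⟩ := hx
      obtain ⟨Q, e'⟩ := hy
      exact ⟨P + Q, by rw [map_add, Finsupp.add_apply, add_mul, e, e', map_add]⟩
    | smul c x _ hx =>
      obtain ⟨P, e⟩ := hx
      exact ⟨C c * P, by rw [hsm, mul_assoc, e, map_mul, aeval_C]⟩
  have k2 : ∀ z ∈ Submodule.span k {t : W | ∃ s ∈ S₂, ∃ i : ℕ, t = (a ^ n / a ^ i) • s}, ∀ j,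
      ∃ (M : ℕ) (Q : k[X]), Q.natDegree ≤ n + C₀ + M ∧
        b.repr z j * aeval a δ * a ^ M = aeval a Q := by
    intro z hz j
    induction hz using Submodule.span_induction with
    | mem x hx =>
      obtain ⟨s, hs, i, rfl⟩ := hx
      obtain ⟨P, hP, e⟩ := hS s (Finset.mem_union_right _ hs) j
      refine ⟨i, X ^ n * P, ?_, ?_⟩
      · have := natDegree_mul_le (p := (X : k[X]) ^ n) (q := P)
        rw [natDegree_X_pow] at this
        omega
      · rw [map_smul, Finsupp.smul_apply, smul_eq_mul, mul_assoc (a ^ n / a ^ i), e, map_mul,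
          map_pow, aeval_X]
        field_simp
    | zero => exact ⟨0, 0, by simp, by simp⟩
    | add x y _ _ hx hy =>
      obtain ⟨M, P, hP, e⟩ := hx
      obtain ⟨M', Q, hQ, e'⟩ := hy
      refine ⟨M + M', P * X ^ M' + Q * X ^ M, ?_, ?_⟩
      · have h3 := natDegree_mul_le (p := P) (q := (X : k[X]) ^ M')
        have h4 := natDegree_mul_le (p := Q) (q := (X : k[X]) ^ M)
        rw [natDegree_X_pow] at h3 h4
        refine (natDegree_add_le _ _).trans (max_le ?_ ?_) <;> omega
      · rw [map_add, Finsupp.add_apply, map_add, map_mul, map_mul, ← e, ← e', map_pow, map_pow,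
          aeval_X]
        ring
    | smul c x _ hx =>
      obtain ⟨M, P, hP, e⟩ := hx
      refine ⟨M, C c * P, (natDegree_C_mul_le _ _).trans hP, ?_⟩
      rw [hsm, map_mul, aeval_C, ← e]
      ring
  have k3 : ∀ z ∈ U, ∀ j, ∃ P : k[X], P.natDegree < n + C₀ + 1 ∧
      b.repr z j * aeval a δ = aeval a P := by
    intro z hz j
    obtain ⟨P, e⟩ := k1 z (h1 z hz) j
    obtain ⟨M, Q, hQ, e'⟩ := k2 z (h2 z hz) j
    refine ⟨P, ?_, e⟩
    have h3 : P * X ^ M = Q := hinj (by rw [← e', e, map_mul, map_pow, aeval_X])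
    by_cases hP : P = 0
    · simp [hP]
    · rw [← h3, natDegree_mul_X_pow M hP] at hQ
      omega
  let g : Fin (Module.finrank E W) × Fin (n + C₀ + 1) → W :=
    fun p => (a ^ (p.2 : ℕ) / aeval a δ) • b p.1
  have hle : U ≤ Submodule.span k (Set.range g) := by
    intro z hz
    rw [← b.sum_repr z]
    refine Submodule.sum_mem _ fun j _ => ?_
    obtain ⟨P, hP, e⟩ := k3 z hz j
    have h3 : b.repr z j = ∑ l ∈ Finset.range (n + C₀ + 1),
        algebraMap k E (P.coeff l) * (a ^ l / aeval a δ) := by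
      rw [eq_div_of_mul_eq hδa e, aeval_eq_sum_range' hP, Finset.sum_div]
      refine Finset.sum_congr rfl fun l _ => ?_
      rw [Algebra.smul_def, mul_div_assoc]
    rw [h3, Finset.sum_smul]
    refine Submodule.sum_mem _ fun l hl => ?_
    rw [mul_smul, algebraMap_smul]
    exact Submodule.smul_mem _ _
      (Submodule.subset_span ⟨(j, ⟨l, Finset.mem_range.1 hl⟩), rfl⟩)
  have hfin : Module.Finite k (Submodule.span k (Set.range g)) :=
    Module.Finite.span_of_finite k (Set.finite_range g)
  refine ⟨Submodule.finiteDimensional_of_le hle, (Submodule.finrank_mono hle).trans ?_⟩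
  have := finrank_range_le_card (R := k) g
  rw [Fintype.card_prod, Fintype.card_fin, Fintype.card_fin] at this
  refine this.trans (le_of_eq ?_)
  ring

theorem charPoly : S_CharPoly := by
  classical
  intro k F L _ _ _ _ _ _ _ z
  let χ : L[X] := ∏ σ : L ≃ₐ[F] L, (X - C (σ z))
  have hfix : ∀ l, χ.coeff l ∈ Set.range (algebraMap F L) := fun l =>
    (IsGalois.mem_range_algebraMap_iff_fixed _).2 fun τ =>
      MulSemiringAction.smul_coeff_charpoly (G := L ≃ₐ[F] L) z l τ
  choose c hc using hfix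
  have hmon : χ.Monic := monic_prod_of_monic _ _ fun _ _ => monic_X_sub_C _
  have hdeg : χ.natDegree = Fintype.card (L ≃ₐ[F] L) := by
    rw [natDegree_prod_of_monic _ _ fun _ _ => monic_X_sub_C _]
    simp
  refine ⟨Fintype.card (L ≃ₐ[F] L), fun l => -c l, Fintype.card_pos, ?_, ?_, ?_⟩
  · intro σ
    have h0 : χ.eval (σ z) = 0 := by
      rw [eval_prod]
      exact Finset.prod_eq_zero (Finset.mem_univ σ) (by simp)
    rw [eval_eq_sum_range, Finset.sum_range_succ, hmon.coeff_natDegree, one_mul, hdeg,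
      Finset.sum_range] at h0
    simp only [map_neg, hc, neg_mul, Finset.sum_neg_distrib]
    linear_combination h0
  · intro w ρ hρ hw l
    rw [map_neg, Valuation.map_neg, hc]
    exact (val_coeff w ρ hρ (fun σ : L ≃ₐ[F] L => σ z) hw Finset.univ l).2 l.2
  · intro A u hu hz l
    have hU : IsIntegral A (algebraMap F L u) :=
      isIntegral_algebraMap (R := A) (A := L) (x := ⟨u, hu⟩)
    have hσ : ∀ σ : L ≃ₐ[F] L, IsIntegral A (algebraMap F L u * σ z) := fun σ => by
      have := hz.map ((σ : L →ₐ[F] L).restrictScalars A)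
      simpa using this
    have h := int_coeff _ hU (fun σ : L ≃ₐ[F] L => σ z) hσ Finset.univ l
    rw [← isIntegral_algebraMap_iff (R := A) (algebraMap F L).injective, map_mul, map_pow,
      map_neg, hc, mul_neg]
    exact h.neg

end Pool.Agent.P.MP_3a4479_al
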