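import Pool.Agent.P.MP_3a4479_al.Defs0

set_option autoImplicit false

namespace Pool.Agent.P.MP_3a4479_al

open MvPolynomial

namespace SplitAux

variable {k : Type} [Field k] {N : Type} [AddCommGroup N] [Module (P3 k) N]

lemma ex_l (t : ℕ) (z : N) (h : ∀ u : Fin 3 → N, z ≠ ∑ i, (X i : P3 k) ^ (t + 1) • u i) :
    ∃ l : N →+ k, (∀ (c : k) (n : N), l ((C c : P3 k) • n) = c * l n) ∧
      (∀ (i : Fin 3) (n : N), l ((X i : P3 k) ^ (t + 1) • n) = 0) ∧ l z ≠ 0 := by
  classical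
  let _ : Module k N := Module.compHom N (C : k →+* P3 k)
  let S : Submodule k N :=
    { carrier := {n | ∃ u : Fin 3 → N, n = ∑ i, (X i : P3 k) ^ (t + 1) • u i}
      add_mem' := by
        rintro _ _ ⟨u, rfl⟩ ⟨u', rfl⟩
        exact ⟨u + u', by simp [Finset.sum_add_distrib]⟩
      zero_mem' := ⟨0, by simp⟩
      smul_mem' := by
        rintro c _ ⟨u, rfl⟩
        refine ⟨fun i => (C c : P3 k) • u i, ?_⟩
        change (C c : P3 k) • (∑ i, (X i : P3 k) ^ (t + 1) • u i) = _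
        rw [Finset.smul_sum]
        exact Finset.sum_congr rfl fun i _ => smul_comm _ _ _ }
  obtain ⟨l, hl, hS⟩ := Submodule.exists_le_ker_of_notMem (p := S) (v := z)
    fun ⟨u, hu⟩ => h u hu
  refine ⟨l.toAddMonoidHom, fun c n => l.map_smul c n, fun i n => hS ⟨Pi.single i n, ?_⟩, hl⟩
  rw [Finset.sum_eq_single i]
  · simp
  · intro j _ hj
    simp [hj]
  · simp

lemma mono_split {β : Fin 3 →₀ ℕ} {i : Fin 3} {t : ℕ} (h : t + 1 ≤ β i) (c : k) :
    (monomial β c : P3 k) = X i ^ (t + 1) * monomial (β - Finsupp.single i (t + 1)) c := by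
  rw [X_pow_eq_monomial, monomial_mul, one_mul, add_tsub_cancel_of_le]
  exact Finsupp.single_le_iff.mpr h

lemma ex_xi (t : ℕ) (τ : Fin 3 →₀ ℕ) (hτ : ∀ i, τ i = t) (l : N →+ k)
    (h1 : ∀ (c : k) (n : N), l ((C c : P3 k) • n) = c * l n)
    (h2 : ∀ (i : Fin 3) (n : N), l ((X i : P3 k) ^ (t + 1) • n) = 0) (n : N) :
    ∃ p : P3 k, ∀ a : P3 k, ∀ β ≤ τ, coeff β (a * p) = l ((monomial (τ - β) 1 * a) • n) := by
  classical
  refine ⟨∑ β ∈ Finset.Iic τ, monomial β (l ((monomial (τ - β) 1 : P3 k) • n)), fun a β hβ => ?_⟩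
  induction a using MvPolynomial.induction_on' with
  | add p q hp hq => rw [add_mul, coeff_add, hp, hq, mul_add, add_smul, map_add]
  | monomial γ c =>
    rw [coeff_monomial_mul', monomial_mul, one_mul]
    split_ifs with h
    · rw [coeff_sum, Finset.sum_eq_single (β - γ)]
      · rw [coeff_monomial, if_pos rfl, ← h1, smul_smul, C_mul_monomial, mul_one]
        have e : τ - (β - γ) = τ - β + γ := by
          ext i
          have := h i
          have := hβ i
          simp only [Finsupp.coe_tsub, Pi.sub_apply, Finsupp.coe_add, Pi.add_apply]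
          omega
        rw [e]
      · intro δ _ hδ
        rw [coeff_monomial, if_neg hδ]
      · intro h'
        exact absurd (Finset.mem_Iic.mpr (tsub_le_self.trans hβ)) h'
    · obtain ⟨i, hi⟩ : ∃ i, β i < γ i := by
        by_contra hc
        exact h fun i => not_lt.mp fun h' => hc ⟨i, h'⟩
      have h3 : t + 1 ≤ (τ - β + γ) i := by
        have := hβ i
        have := hτ i
        simp only [Finsupp.coe_tsub, Pi.sub_apply, Finsupp.coe_add, Pi.add_apply]
        omega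
      rw [mono_split h3, mul_smul, h2]

lemma mem_pow (t : ℕ) (τ : Fin 3 →₀ ℕ) (hτ : ∀ i, τ i = t) (p : P3 k)
    (h : ∀ β ≤ τ, coeff β p = 0) :
    p ∈ RingHom.ker (constantCoeff : P3 k →+* k) ^ (t + 1) := by
  rw [p.as_sum]
  refine Ideal.sum_mem _ fun β hβ => ?_
  obtain ⟨i, hi⟩ : ∃ i, τ i < β i := by
    by_contra hc
    exact mem_support_iff.mp hβ (h β fun i => not_lt.mp fun h' => hc ⟨i, h'⟩)
  rw [mono_split (hτ i ▸ hi : t + 1 ≤ β i)]
  exact Ideal.mul_mem_right _ _ (Ideal.pow_mem_pow (by simp [RingHom.mem_ker]) _)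

end SplitAux

open SplitAux in
theorem split : S_Split := by
  classical
  intro k _ N _ _ _ w hw
  obtain ⟨n, π, hπ⟩ := Module.Finite.exists_fin' (P3 k) N
  obtain ⟨m, g, hg⟩ := Submodule.fg_iff_exists_fin_generating_family.mp
    (IsNoetherian.noetherian (LinearMap.ker π))
  let M : Ideal (P3 k) := RingHom.ker (constantCoeff : P3 k →+* k)
  let ρ : (Fin n → P3 k) →ₗ[P3 k] (Fin m → P3 k) := (Matrix.of g).mulVecLin
  obtain ⟨t, ht⟩ := M.exists_pow_inf_eq_pow_smul (LinearMap.range ρ)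
  obtain ⟨l, h1, h2, h3⟩ := ex_l t _ (hw t)
  let τ : Fin 3 →₀ ℕ := Finsupp.equivFunOnFinite.symm fun _ => t
  have hτ : ∀ i, τ i = t := fun _ => rfl
  choose c hc using fun i : Fin n => ex_xi t τ hτ l h1 h2 (π (Pi.single i 1))
  have key : ∀ v : Fin n → P3 k, ∀ β ≤ τ,
      coeff β (v ⬝ᵥ c) = l ((monomial (τ - β) 1 : P3 k) • π v) := by
    intro v β hβ
    rw [dotProduct, coeff_sum]
    conv_rhs => rw [pi_eq_sum_univ' v, map_sum, Finset.smul_sum, map_sum]
    refine Finset.sum_congr rfl fun i _ => ?_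
    rw [hc i _ β hβ, π.map_smul, smul_smul]
  have hgk : ∀ j, π (g j) = 0 := fun j =>
    LinearMap.mem_ker.mp (hg ▸ Submodule.subset_span ⟨j, rfl⟩)
  have h4 : ρ c ∈ M ^ (t + 1) • (⊤ : Submodule (P3 k) (Fin m → P3 k)) ⊓ LinearMap.range ρ := by
    refine ⟨?_, c, rfl⟩
    rw [pi_eq_sum_univ' (ρ c)]
    refine Submodule.sum_mem _ fun j _ => Submodule.smul_mem_smul ?_ trivial
    refine mem_pow t τ hτ _ fun β hβ => ?_
    change coeff β (g j ⬝ᵥ c) = 0
    rw [key _ β hβ, hgk, smul_zero, map_zero]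
  rw [ht (t + 1) (Nat.le_succ t), Nat.add_sub_cancel_left, pow_one] at h4
  have h5 := Submodule.smul_mono le_rfl inf_le_right h4
  rw [LinearMap.range_eq_map, ← Submodule.map_smul''] at h5
  obtain ⟨c', hc', hρ⟩ := h5
  have h6 : ∀ i, c' i ∈ M := by
    intro i
    refine Submodule.smul_induction_on hc' (fun r hr x _ => M.mul_mem_right _ hr)
      fun x y hx hy => M.add_mem hx hy
  let D : (Fin n → P3 k) →ₗ[P3 k] P3 k := (dotProductBilin (P3 k) (P3 k)).flip (c - c')
  have hD : ∀ v, D v = v ⬝ᵥ c - v ⬝ᵥ c' := fun v => dotProduct_sub v c c'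
  have hK : LinearMap.ker π ≤ LinearMap.ker D := by
    rw [← hg, Submodule.span_le]
    rintro _ ⟨j, rfl⟩
    change D (g j) = 0
    rw [hD, sub_eq_zero]
    exact (congrFun hρ j).symm
  obtain ⟨v, rfl⟩ := hπ w
  refine ⟨((LinearMap.ker π).liftQ D hK).comp (π.quotKerEquivOfSurjective hπ).symm.toLinearMap,
    ?_⟩
  have e : (π.quotKerEquivOfSurjective hπ).symm (π v) = Submodule.Quotient.mk v := by
    rw [LinearEquiv.symm_apply_eq]; rfl
  rw [LinearMap.comp_apply, LinearEquiv.coe_coe, e, Submodule.liftQ_apply, hD, map_sub]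
  have h7 : constantCoeff (v ⬝ᵥ c') = 0 :=
    M.sum_mem fun i _ => M.mul_mem_left _ (h6 i)
  rw [h7, sub_zero, constantCoeff_eq, key v 0 bot_le]
  convert h3 using 3
  simp only [mul_pow, X_pow_eq_monomial, monomial_mul, mul_one, tsub_zero]
  congr 2
  ext i
  fin_cases i <;> simp [hτ]

end Pool.Agent.P.MP_3a4479_al
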