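import Pool.Agent.P.MP_3a4479_al.Defs0

set_option autoImplicit false

namespace Pool.Agent.P.MP_3a4479_al

namespace ULAux

lemma mem_smul_top_iff {B : Type} [CommRing B] (I : Ideal B) {n : ℕ} (b : Fin n → B) :
    b ∈ I • (⊤ : Submodule B (Fin n → B)) ↔ ∀ i, b i ∈ I := by
  constructor
  · intro h
    refine Submodule.smul_induction_on h (fun r hr v _ i => I.mul_mem_right _ hr) ?_
    exact fun v w hv hw i => I.add_mem (hv i) (hw i)
  · intro h
    rw [pi_eq_sum_univ' b]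
    exact Submodule.sum_mem _ fun i _ => Submodule.smul_mem_smul (h i) Submodule.mem_top

lemma artinRees {B V : Type} [CommRing B] [IsNoetherianRing B] [AddCommGroup V] [Module B V]
    [Module.Finite B V] (I : Ideal B) (W : Submodule B V) :
    ∃ c : ℕ, ∀ q : ℕ, ∀ v ∈ I ^ (q + c) • (⊤ : Submodule B V), v ∈ W → v ∈ I ^ q • W := by
  obtain ⟨c, hc⟩ := Ideal.exists_pow_inf_eq_pow_smul I W
  refine ⟨c, fun q v h1 h2 => ?_⟩
  have h3 : v ∈ I ^ (q + c) • (⊤ : Submodule B V) ⊓ W := ⟨h1, h2⟩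
  rw [hc (q + c) (Nat.le_add_left _ _), Nat.add_sub_cancel] at h3
  exact Submodule.smul_mono le_rfl inf_le_right h3

end ULAux

open ULAux in
theorem ul : S_UL := by
  intro B K L _ _ _ _ _ _ _ _ hinj x jj JL n m Ψ Θ hΨ hΘ hint hanti hclear hjj hJL
  have hsm : ∀ (r : B) (z : L) (i : Fin n),
      Ψ (algebraMap B L r * z) i = algebraMap B K r * Ψ z i := by
    intro r z i
    rw [IsScalarTower.algebraMap_apply B K L, ← Algebra.smul_def, map_smul, Pi.smul_apply,
      smul_eq_mul]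
  have hker : ∀ b : Fin n → B, b ∈ LinearMap.ker Θ.mulVecLin ↔
      ∃ z : L, ∀ i, Ψ z i = algebraMap B K (b i) := by
    intro b
    have e : ∀ l, (Θ.map (algebraMap B K)).mulVec (algebraMap B K ∘ b) l =
        algebraMap B K (Θ.mulVec b l) := fun l => (RingHom.map_mulVec _ Θ b l).symm
    rw [LinearMap.mem_ker, Matrix.mulVecLin_apply]
    constructor
    · intro h
      obtain ⟨z, hz⟩ := (hΘ (algebraMap B K ∘ b)).1 (by
        funext l
        rw [e, h]
        simp)
      exact ⟨z, fun i => congrFun hz i⟩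
    · rintro ⟨z, hz⟩
      have h := (hΘ (algebraMap B K ∘ b)).2 ⟨z, funext hz⟩
      funext l
      apply hinj
      rw [← e, h]
      simp
  obtain ⟨N, hN⟩ : ∃ N : ℕ, ∀ b ∈ LinearMap.ker Θ.mulVecLin, ∃ z : L,
      (∀ i, Ψ z i = algebraMap B K (b i)) ∧ IsIntegral B (algebraMap B L x ^ N * z) := by
    obtain ⟨S, hS⟩ := IsNoetherian.noetherian (LinearMap.ker Θ.mulVecLin)
    have h1 : ∀ s : S, ∃ (z : L) (N : ℕ), (∀ i, Ψ z i = algebraMap B K (s.1 i)) ∧
        IsIntegral B (algebraMap B L x ^ N * z) := by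
      intro s
      obtain ⟨z, hz⟩ := (hker s.1).1 (hS ▸ Submodule.subset_span s.2)
      obtain ⟨N, hN⟩ := hint z (fun i => ⟨_, (hz i).symm⟩)
      exact ⟨z, N, hz, hN⟩
    choose zz NN h2 h3 using h1
    refine ⟨Finset.univ.sup NN, fun b hb => ?_⟩
    rw [← hS] at hb
    induction hb using Submodule.span_induction with
    | mem s hs =>
      refine ⟨zz ⟨s, hs⟩, h2 ⟨s, hs⟩, ?_⟩
      obtain ⟨d, hd⟩ := Nat.exists_eq_add_of_le' (Finset.le_sup (f := NN) (Finset.mem_univ ⟨s, hs⟩))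
      rw [hd, pow_add, mul_assoc]
      exact (isIntegral_algebraMap.pow d).mul (h3 _)
    | zero => exact ⟨0, by simp, by simpa using isIntegral_zero⟩
    | add b b' _ _ ih ih' =>
      obtain ⟨z, h4, h5⟩ := ih
      obtain ⟨z', h4', h5'⟩ := ih'
      refine ⟨z + z', fun i => by simp [h4, h4'], ?_⟩
      rw [mul_add]
      exact h5.add h5'
    | smul r b _ ih =>
      obtain ⟨z, h4, h5⟩ := ih
      refine ⟨algebraMap B L r * z, fun i => by simp [hsm, h4], ?_⟩
      rw [mul_left_comm]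
      exact isIntegral_algebraMap.mul h5
  have hB : ∀ (I : Ideal B), ∀ b ∈ I • LinearMap.ker Θ.mulVecLin, ∃ z : L,
      (∀ i, Ψ z i = algebraMap B K (b i)) ∧
        algebraMap B L x ^ N * z ∈ I • Subalgebra.toSubmodule (integralClosure B L) := by
    intro I b hb
    refine Submodule.smul_induction_on hb ?_ ?_
    · intro r hr b hb
      obtain ⟨z, h4, h5⟩ := hN b hb
      refine ⟨algebraMap B L r * z, fun i => by simp [hsm, h4], ?_⟩
      rw [mul_left_comm, ← Algebra.smul_def]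
      exact Submodule.smul_mem_smul hr h5
    · rintro b b' ⟨z, h4, h5⟩ ⟨z', h4', h5'⟩
      refine ⟨z + z', fun i => by simp [h4, h4'], ?_⟩
      rw [mul_add]
      exact Submodule.add_mem _ h5 h5'
  obtain ⟨c1, hc1⟩ := artinRees jj (LinearMap.range Θ.mulVecLin)
  obtain ⟨c2, hc2⟩ := artinRees jj (LinearMap.ker Θ.mulVecLin)
  refine ⟨N, fun μ => ⟨2 * (2 * (μ + c2) + c1), fun q hq y hy => ?_⟩⟩
  choose r hr using hy
  have h1 : ∀ l, Θ.mulVec r l ∈ jj ^ (2 * (μ + c2) + c1) := by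
    intro l
    apply hJL
    apply hanti hq
    have h0 := congrFun ((hΘ (Ψ y)).2 ⟨y, rfl⟩) l
    have e : algebraMap B K (Θ.mulVec r l) = -∑ i, Θ l i • (Ψ y i - algebraMap B K (r i)) := by
      simp only [Matrix.mulVec, dotProduct, Matrix.map_apply, Pi.zero_apply] at h0
      simp only [Matrix.mulVec, dotProduct, map_sum, map_mul, Algebra.smul_def, mul_sub,
        Finset.sum_sub_distrib, h0]
      ring
    rw [e]
    exact Submodule.neg_mem _ (Submodule.sum_mem _ fun i _ => Submodule.smul_mem _ _ (hr i))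
  have h2 := hc1 _ (Θ.mulVec r) ((mem_smul_top_iff _ _).2 h1) ⟨r, rfl⟩
  rw [LinearMap.range_eq_map, ← Submodule.map_smul''] at h2
  obtain ⟨r1, h3, h4⟩ := h2
  obtain ⟨z, h5, h6⟩ := hN (r - r1) (by
    rw [LinearMap.mem_ker, map_sub, h4, Matrix.mulVecLin_apply, sub_self])
  have h7 : ∀ i, Ψ (y - z) i ∈ JL (2 * (μ + c2)) := by
    intro i
    have e : Ψ (y - z) i = (Ψ y i - algebraMap B K (r i)) + algebraMap B K (r1 i) := by
      rw [map_sub, Pi.sub_apply, h5, Pi.sub_apply, map_sub]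
      ring
    rw [e]
    exact Submodule.add_mem _ (hanti (by omega) (hr i))
      (hjj _ _ ((mem_smul_top_iff _ _).1 h3 i))
  choose MM hMM using fun i => hclear _ _ (h7 i)
  have h8 : ∀ i, ∃ b : B,
      algebraMap B K b = algebraMap B K x ^ Finset.univ.sup MM * Ψ (y - z) i := by
    intro i
    obtain ⟨d, hd⟩ := Nat.exists_eq_add_of_le' (Finset.le_sup (f := MM) (Finset.mem_univ i))
    obtain ⟨b, hb⟩ := hMM i
    exact ⟨x ^ d * b, by rw [hd, pow_add, mul_assoc, ← hb, map_mul, map_pow]⟩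
  choose r2 hr2 using h8
  have h9 : ∀ i, Ψ (algebraMap B L x ^ Finset.univ.sup MM * (y - z)) i =
      algebraMap B K (r2 i) := by
    intro i
    rw [← map_pow, hsm, map_pow, hr2]
  have h10 : ∀ i, r2 i ∈ jj ^ (μ + c2) := by
    intro i
    apply hJL
    rw [hr2, ← map_pow, ← Algebra.smul_def]
    exact Submodule.smul_mem _ _ (h7 i)
  obtain ⟨z', h11, h12⟩ := hB _ _
    (hc2 μ r2 ((mem_smul_top_iff _ _).2 h10) ((hker r2).2 ⟨_, h9⟩))
  have h13 : z' = algebraMap B L x ^ Finset.univ.sup MM * (y - z) :=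
    hΨ (funext fun i => by rw [h11, h9])
  refine ⟨z, N + Finset.univ.sup MM, h6, ?_⟩
  rw [pow_add, mul_assoc, ← h13]
  exact h12

end Pool.Agent.P.MP_3a4479_al
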