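import Pool.Agent.P.MP_3a4479_al.Defs

set_option autoImplicit false

namespace Pool.Agent.P.MP_3a4479_al

open Polynomial

namespace BFAux

lemma noeth_of {k D : Type} [Field k] [CommRing D] [IsDomain D] [Algebra k D]
    (B₀ B : Subalgebra k D) (hle : B₀ ≤ B) [IsNoetherianRing B₀] (x : D) (hx : x ≠ 0) (S : Set D)
    (hS : S.Finite) (h : ∀ p ∈ B, x * p ∈ Submodule.span B₀ S) : IsNoetherianRing B := by
  letI : Algebra B₀ B := (Subalgebra.inclusion hle).toRingHom.toAlgebra
  haveI : IsNoetherian B₀ (Submodule.span B₀ S) := isNoetherian_span_of_finite B₀ hS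
  let f : B →ₗ[B₀] Submodule.span B₀ S :=
    { toFun := fun p => ⟨x * p, h p p.2⟩
      map_add' := fun p q => Subtype.ext (by simp [mul_add])
      map_smul' := fun r p => Subtype.ext (by
        show x * ((r : D) * p) = (r : D) * (x * p)
        ring) }
  have hf : Function.Injective f := fun p q e =>
    Subtype.ext (mul_left_cancel₀ hx (congrArg Subtype.val e))
  exact isNoetherian_of_tower B₀ (isNoetherian_of_injective f hf)

variable {k F : Type} [Field k] [Field F] [Algebra k F] {c : Ctx k F}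

/-- membership after multiplying by a power of `monomial 2 t` -/
def LL (c : Ctx k F) (t : F) (q : ℤ) (p : F[X]) : Prop := ∃ M : ℕ, monomial 2 t ^ M * p ∈ c.JJ q

lemma JJ_mono (h : GeoFacts c) {q q' : ℤ} (hq : q' ≤ q) {p : F[X]} (hp : p ∈ c.JJ q) :
    p ∈ c.JJ q' := fun n => h.mono _ _ _ _ (by omega) le_rfl (hp n)

lemma LL.mono (h : GeoFacts c) {t : F} {q q' : ℤ} (hq : q' ≤ q) {p : F[X]} (hp : LL c t q p) :
    LL c t q' p := ⟨_, JJ_mono h hq hp.choose_spec⟩

lemma LL.mul (h : GeoFacts c) {t : F} {q q' : ℤ} {p p' : F[X]} (hp : LL c t q p)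
    (hp' : LL c t q' p') : LL c t (q + q') (p * p') := by
  obtain ⟨M, hM⟩ := hp
  obtain ⟨M', hM'⟩ := hp'
  refine ⟨M + M', ?_⟩
  have := h.JJ_mul hM hM'
  rw [pow_add]
  convert this using 1
  ring

lemma LL.add (h : GeoFacts c) {t : F} (ht : t ∈ c.M 4 2) {q : ℤ} {p p' : F[X]} (hp : LL c t q p)
    (hp' : LL c t q p') : LL c t q (p + p') := by
  obtain ⟨M, hM⟩ := hp
  obtain ⟨M', hM'⟩ := hp'
  refine ⟨M + M', ?_⟩
  have h0 := monomial_mem_RR h ht
  have h1 := h.JJ_mul ((RR h).pow_mem h0 M') hM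
  have h2 := h.JJ_mul ((RR h).pow_mem h0 M) hM'
  rw [zero_add] at h1 h2
  have := Submodule.add_mem _ h1 h2
  rw [pow_add]
  convert this using 1
  ring

lemma LL_C (h : GeoFacts c) {t : F} (t0 : t ≠ 0) {d : ℕ} {q : ℤ} {g : F}
    (hg : g ∈ c.M (2 * d - q) d) : LL c t (2 * q) (C (g ^ 2 / t ^ d)) := by
  refine ⟨d, ?_⟩
  have e : (monomial 2 t : F[X]) ^ d * C (g ^ 2 / t ^ d) = monomial d g * monomial d g := by
    rw [monomial_pow, monomial_mul_C, monomial_mul_monomial]
    congr 1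
    · rw [two_mul]
    · field_simp
  rw [e, two_mul]
  exact h.JJ_mul (GeoFacts.monomial_mem hg) (GeoFacts.monomial_mem hg)

lemma up (h : GeoFacts c) {t : F} (ht : t ∈ c.M 4 2) (q : ℕ) :
    ∀ p ∈ jjI h ht ^ q, LL c t q (p : F[X]) := by
  induction q with
  | zero => exact fun p _ => p.2
  | succ q ih =>
    intro p hp
    rw [pow_succ] at hp
    refine Submodule.mul_induction_on hp (fun m hm n hn => ?_) (fun a b ha hb => ?_)
    · have := LL.mul h (ih m hm) (show LL c t 1 (n : F[X]) from hn)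
      push_cast
      exact this
    · exact LL.add h ht ha hb

lemma down (h : GeoFacts c) [CharP F 2] {t : F} (ht : t ∈ c.M 4 2) (t0 : t ≠ 0) {m : ℕ}
    {d : Fin m → ℕ} {j i : Fin m → F}
    (hd : ∀ l, d l ≤ 4 ∧ j l ∈ c.M (2 * d l - 1) (d l) ∧
      i l ∈ c.M (2 * (4 - d l : ℕ) + 1) (4 - d l)) (e : t ^ 2 = ∑ l, j l * i l) (q : ℕ) :
    ∀ p : BB h ht, LL c t (2 * q) (p : F[X]) → p ∈ jjI h ht ^ q := by
  have e1 : (1 : F) = ∑ l, j l ^ 2 / t ^ d l * (i l ^ 2 / t ^ (4 - d l)) := by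
    have e2 : t ^ 4 = ∑ l, (j l * i l) ^ 2 := by
      rw [← sum_pow_char, ← e]; ring
    have e3 : ∀ l, j l ^ 2 / t ^ d l * (i l ^ 2 / t ^ (4 - d l)) = (j l * i l) ^ 2 / t ^ 4 := by
      intro l
      rw [div_mul_div_comm, ← pow_add, Nat.add_sub_cancel' (hd l).1, mul_pow]
    simp only [e3]
    rw [← Finset.sum_div, ← e2, div_self (pow_ne_zero _ t0)]
  have hj : ∀ l, LL c t 2 (C (j l ^ 2 / t ^ d l)) := fun l => by
    simpa using LL_C h t0 (q := 1) (hd l).2.1
  have hi : ∀ l, LL c t (-2) (C (i l ^ 2 / t ^ (4 - d l))) := fun l => by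
    simpa using LL_C h t0 (q := -1) (d := 4 - d l) (by simpa using (hd l).2.2)
  induction q with
  | zero => intro p _; simp
  | succ q ih =>
    intro p hp
    have h1 : ∀ l, LL c t (2 * q) (C (i l ^ 2 / t ^ (4 - d l)) * (p : F[X])) := fun l => by
      have := LL.mul h (hi l) hp
      refine LL.mono h (le_of_eq ?_) this
      push_cast; ring
    have e2 : p = ∑ l, (⟨_, LL.mono h (by omega) (h1 l)⟩ : BB h ht) *
        ⟨_, LL.mono h (by omega) (hj l)⟩ := by
      apply Subtype.ext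
      rw [AddSubmonoidClass.coe_finsetSum]
      simp only [MulMemClass.coe_mul]
      have : ∀ l, C (i l ^ 2 / t ^ (4 - d l)) * (p : F[X]) * C (j l ^ 2 / t ^ d l) =
          C (j l ^ 2 / t ^ d l * (i l ^ 2 / t ^ (4 - d l))) * p := fun l => by
        rw [C_mul]; ring
      simp only [this]
      rw [← Finset.sum_mul, ← map_sum, ← e1, C_1, one_mul]
    rw [e2, pow_succ]
    exact Submodule.sum_mem _ (fun l _ => Ideal.mul_mem_mul (ih _ (h1 l))
      (show LL c t 1 _ from LL.mono h (by omega) (hj l)))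

/-- the finitely generated subring -/
noncomputable def B0 (k : Type) {F : Type} [Field k] [Field F] [Algebra k F] (s f t : F) :
    Subalgebra k F[X] :=
  Algebra.adjoin k {X, monomial 1 s, monomial 2 f, C (1 / t), C (s / t), C (s ^ 2 / t), C (f / t)}

lemma mono_mem (s f t : F) (M : ℕ) : ∀ D a b e : ℕ, a + b + 2 * e = D + 2 * M →
    monomial D (s ^ b * f ^ e / t ^ M) ∈ B0 k s f t := by
  induction M with
  | zero =>
    intro D a b e hD
    have : (monomial D (s ^ b * f ^ e / t ^ 0) : F[X]) =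
        X ^ a * monomial 1 s ^ b * monomial 2 f ^ e := by
      rw [X_pow_eq_monomial, monomial_pow, monomial_pow, monomial_mul_monomial,
        monomial_mul_monomial]
      congr 1
      · congr 1; omega
      · simp
    rw [this]
    refine Subalgebra.mul_mem _ (Subalgebra.mul_mem _ ?_ ?_) ?_ <;>
      exact Subalgebra.pow_mem _ (Algebra.subset_adjoin (by simp)) _
  | succ M ih =>
    intro D a b e hD
    have key : ∀ (g : F) (a' b' e' : ℕ), C (g / t) ∈ B0 k s f t → a' + b' + 2 * e' = D + 2 * M →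
        s ^ b * f ^ e = g * (s ^ b' * f ^ e') →
        monomial D (s ^ b * f ^ e / t ^ (M + 1)) ∈ B0 k s f t := by
      intro g a' b' e' hg h1 h2
      have := Subalgebra.mul_mem _ hg (ih D a' b' e' h1)
      rwa [C_mul_monomial, div_mul_div_comm, ← h2, ← pow_succ'] at this
    rcases e with _ | e
    · rcases b with _ | _ | b
      · exact key 1 (a - 2) 0 0 (Algebra.subset_adjoin (by simp)) (by omega) (by ring)
      · exact key s (a - 1) 0 0 (Algebra.subset_adjoin (by simp)) (by omega) (by ring)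
      · exact key (s ^ 2) a b 0 (Algebra.subset_adjoin (by simp)) (by omega) (by ring)
    · exact key f a b e (Algebra.subset_adjoin (by simp)) (by omega) (by ring)

lemma hom_mem (σ : Str c) (t : F) (M D : ℕ) (P : P3 k)
    (hP : P.IsWeightedHomogeneous wt (D + 2 * M)) :
    monomial D (σ.al0 P / t ^ M) ∈ B0 k σ.s σ.f t := by
  rw [P.as_sum, map_sum, Finset.sum_div, map_sum]
  refine Subalgebra.sum_mem _ (fun d hd => ?_)
  have h1 := hP (MvPolynomial.mem_support_iff.1 hd)
  rw [Finsupp.weight_eq_sum, Fin.sum_univ_three] at h1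
  simp only [wt, smul_eq_mul, Matrix.cons_val_zero, Matrix.cons_val_one, Matrix.cons_val] at h1
  have h2 := (B0 k σ.s σ.f t).smul_mem (mono_mem (k := k) σ.s σ.f t M D (d 0) (d 1) (d 2) (by omega))
    (P.coeff d)
  convert h2 using 1
  rw [Str.al0, MvPolynomial.aeval_monomial, Finsupp.prod_fintype _ _ (by simp),
    Fin.prod_univ_three, smul_monomial, Algebra.smul_def]
  simp [mul_div_assoc]

lemma B0_le (h : GeoFacts c) {σ : Str c} (hσ : σ.Good) {t : F} (ht : t ∈ c.M 4 2) (t0 : t ≠ 0) :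
    B0 k σ.s σ.f t ≤ BB h ht := by
  have r1 : (X : F[X]) ∈ RR h := by
    rw [← monomial_one_one_eq_X]
    exact GeoFacts.monomial_mem (h.mono _ _ _ _ (by norm_num) (by norm_num) h.one_mem)
  have r2 : (monomial 1 σ.s : F[X]) ∈ RR h := GeoFacts.monomial_mem (by simpa using hσ.hs)
  have r3 : (monomial 2 σ.f : F[X]) ∈ RR h := monomial_mem_RR h hσ.hf
  have k0 : ∀ p ∈ RR h, p ∈ BB h ht := fun p hp => ⟨0, by rwa [pow_zero, one_mul]⟩
  have k1 : ∀ g : F, monomial 2 g ∈ RR h → C (g / t) ∈ BB h ht := fun g hg => ⟨1, by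
    rw [pow_one, monomial_mul_C, mul_div_cancel₀ _ t0]; exact hg⟩
  refine Algebra.adjoin_le ?_
  rintro p (rfl | rfl | rfl | rfl | rfl | rfl | rfl)
  · exact k0 _ r1
  · exact k0 _ r2
  · exact k0 _ r3
  · refine k1 _ ?_
    rw [← X_pow_eq_monomial]
    exact (RR h).pow_mem r1 2
  · refine k1 _ ?_
    have := (RR h).mul_mem r2 r1
    rwa [monomial_mul_X] at this
  · refine k1 _ ?_
    have := (RR h).pow_mem r2 2
    rwa [monomial_pow] at this
  · exact k1 _ r3

lemma span_mem (h : GeoFacts c) {σ : Str c} {β : Fin 6 → F} (hβ : IsBasis σ 0 dR β) {t : F}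
    (ht : t ∈ c.M 4 2) (t0 : t ≠ 0) : ∀ p ∈ BB h ht, monomial 2 t ^ 2 * p ∈
      Submodule.span (B0 k σ.s σ.f t) (Set.range fun l => monomial (dR l) (β l)) := by
  rintro p ⟨M, hM⟩
  have h1 : monomial 2 t ^ (M + 2) * p ∈ RR h := by
    rw [pow_add, mul_comm (_ ^ M), mul_assoc]
    exact (RR h).mul_mem ((RR h).pow_mem (monomial_mem_RR h ht) 2) hM
  rw [p.as_sum_support, Finset.mul_sum]
  refine Submodule.sum_mem _ (fun n _ => ?_)
  have h2 := h1 (n + 2 * (M + 2))
  rw [monomial_pow, mul_comm (monomial _ _), coeff_mul_monomial] at h2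
  obtain ⟨P, hP, -, e⟩ := hβ.span _ _ h2
  have hd : ∀ l, dR l ≤ 3 := by decide
  have e2 : (monomial 2 t : F[X]) ^ 2 * monomial n (p.coeff n) =
      ∑ l, monomial (n + 4 - dR l) (σ.al0 (P l) / t ^ M) * monomial (dR l) (β l) := by
    have : ∀ l, (monomial (n + 4 - dR l) (σ.al0 (P l) / t ^ M) * monomial (dR l) (β l) : F[X]) =
        monomial (n + 4) (σ.al0 (P l) * β l / t ^ M) := fun l => by
      rw [monomial_mul_monomial, Nat.sub_add_cancel (by have := hd l; omega), div_mul_eq_mul_div]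
    simp only [this]
    rw [← map_sum, ← Finset.sum_div, ← e, monomial_pow, monomial_mul_monomial, add_comm]
    congr 1
    field_simp
    ring
  rw [e2]
  refine Submodule.sum_mem _ (fun l _ => ?_)
  have h3 := hom_mem σ t M (n + 4 - dR l) (P l) (by
    have := hP l
    rwa [show n + 2 * (M + 2) - dR l = n + 4 - dR l + 2 * M by have := hd l; omega] at this)
  exact Submodule.smul_mem _ (⟨_, h3⟩ : B0 k σ.s σ.f t) (Submodule.subset_span ⟨l, rfl⟩)

lemma ne_of_res (h : GeoFacts c) {N : ℤ} {n : ℕ} {g : F} {P : k[X]} (hP : P ≠ 0)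
    (hr : c.IsRes N n g P) : g ≠ 0 := by
  rintro rfl
  obtain ⟨p, hp, e⟩ := hr
  refine hP (h.uniq_b 0 P (-p) ((c.A 0).neg_mem hp) ?_)
  linear_combination -e

end BFAux

open BFAux in
theorem bfS : S_BF := by
  intro k F _ _ _ c h σ β t ht hc hσ hβ hJ hts
  haveI := hc.char
  haveI : CharP F 2 := charP_of_injective_algebraMap (algebraMap k F).injective 2
  have t0 : t ≠ 0 := by
    rcases hts with rfl | rfl
    · exact pow_ne_zero _ (ne_of_res h (X_add_C_ne_zero _) hσ.rs)
    · exact ne_of_res h X_ne_zero hσ.rf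
  obtain ⟨m, d, j, i, hd, e⟩ := hJ.part t hts
  refine ⟨?_, up h ht, down h ht t0 hd e⟩
  haveI : IsNoetherianRing (B0 k σ.s σ.f t) :=
    isNoetherianRing_of_fg (Subalgebra.fg_def.2 ⟨_, Set.toFinite _, rfl⟩)
  exact noeth_of _ _ (B0_le h hσ ht t0) _
    (pow_ne_zero 2 (by rwa [Ne, monomial_eq_zero_iff])) _ (Set.finite_range _)
    (span_mem h hβ ht t0)

end Pool.Agent.P.MP_3a4479_al
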