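import Pool.Agent.P.MP_3a4479_al.Geo1

set_option autoImplicit false

namespace Pool.Agent.P.MP_3a4479_al

open Polynomial
open scoped NNReal

noncomputable section

namespace GeoAux

variable {k F : Type} [Field k] [Field F] [Algebra k F]

theorem fin9 {p : Fin 9 → Prop} (h0 : p 0) (h1 : p 1) (h2 : p 2) (h3 : p 3) (h4 : p 4)
    (h5 : p 5) (h6 : p 6) (h7 : p 7) (h8 : p 8) : ∀ i, p i := by
  intro i
  fin_cases i
  exacts [h0, h1, h2, h3, h4, h5, h6, h7, h8]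

theorem fin3 {p : Fin 3 → Prop} (h0 : p 0) (h1 : p 1) (h2 : p 2) : ∀ i, p i := by
  intro i
  fin_cases i
  exacts [h0, h1, h2]

variable {c : Ctx k F}

theorem rel0 (hc : c.Good) : c.x * c.y * c.z = 1 :=
  mul_inv_cancel₀ (mul_ne_zero (a_ne hc.coord) (b_ne hc.coord))

theorem z_ne (hc : c.Good) : c.z ≠ 0 := by
  intro h
  have := rel0 hc
  rw [h, mul_zero] at this
  exact zero_ne_one this

theorem ok_all (hm : S_Moves) (hc : c.Good) : ∀ j, Ok k c.x c.y (c.a j) (c.b j) := by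
  have r0 := rel0 hc
  have r1 : c.y * c.z * c.x = 1 := by linear_combination r0
  have r2 : c.z * c.x * c.y = 1 := by linear_combination r0
  have base : Ok k c.x c.y c.x c.y := ⟨hc.coord, fun _ => Iff.rfl⟩
  have o4 : Ok k c.x c.y c.y c.x := base.swap hm
  have o7 : Ok k c.x c.y c.z c.y := o4.next hm r1
  have o1 : Ok k c.x c.y c.x c.z := o7.next hm r2
  have o0 := o1.first hm r0 c.lam
  have o2 := o1.third hm r0 1
  have o3 := o4.first hm r1 1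
  have o5 := o4.third hm r1 1
  have o6 := o7.first hm r2 1
  have o8 := o7.third hm r2 c.lam
  rw [map_one, one_mul] at o2 o5
  rw [map_one] at o3 o6
  exact fin9 o0 o1 o2 o3 o4 o5 o6 o7 o8

/-- the product of the local equations of the exceptional curves -/
def Phi (c : Ctx k F) (j : Fin 9) : F := ∏ s, c.ph s j

section

variable (co : ∀ j, IsCoord k (c.a j) (c.b j))
include co

theorem u_ne : ∀ j, c.u j ≠ 0 := by
  refine fin9 (a_sub_ne (co 0) c.lam) ?_ one_ne_zero ?_ ?_ one_ne_zero ?_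
    (one_sub_ne (co 8) c.lam) one_ne_zero
  · have := one_sub_ne (co 2) 1
    rwa [map_one, one_mul] at this
  · have := a_sub_ne (co 3) 1
    rwa [map_one] at this
  · have := one_sub_ne (co 5) 1
    rwa [map_one, one_mul] at this
  · have := a_sub_ne (co 6) 1
    rwa [map_one] at this

theorem ph_ne : ∀ s j, c.ph s j ≠ 0 := by
  have h := u_ne co
  have o : (1 : F) ≠ 0 := one_ne_zero
  exact fin3 (fin9 (h 0) o o o o o o o (h 7)) (fin9 o o (h 1) (h 3) o o o o o)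
    (fin9 o o o o o (h 4) (h 6) o o)

end

theorem am (j : Fin 9) : c.a j ∈ c.A j := a_mem _ _

theorem bm (j : Fin 9) : c.b j ∈ c.A j := b_mem _ _

theorem lm (j : Fin 9) : c.l ∈ c.A j := (c.A j).algebraMap_mem c.lam

theorem ph_mem : ∀ s j, c.ph s j ∈ c.A j := by
  have o : ∀ j, (1 : F) ∈ c.A j := fun j => one_mem _
  exact fin3 (fin9 (sub_mem (am 0) (lm 0)) (o _) (o _) (o _) (o _) (o _) (o _) (o _)
      (sub_mem (o _) (mul_mem (lm 8) (bm 8))))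
    (fin9 (o _) (o _) (sub_mem (o _) (bm 2)) (sub_mem (am 3) (o _)) (o _) (o _) (o _) (o _) (o _))
    (fin9 (o _) (o _) (o _) (o _) (o _) (sub_mem (o _) (bm 5)) (sub_mem (am 6) (o _)) (o _) (o _))

theorem prod_ph (j : Fin 9) : ∏ s, c.ph s j = Phi c j := rfl

theorem Phi_eq (j : Fin 9) {p q r : F} (h0 : c.ph 0 j = p) (h1 : c.ph 1 j = q)
    (h2 : c.ph 2 j = r) : Phi c j = p * q * r := by
  rw [Phi, Fin.prod_univ_three, h0, h1, h2]

theorem Phi0 : Phi c 0 = c.a 0 - c.l := by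
  rw [Phi_eq 0 (p := c.a 0 - c.l) (q := 1) (r := 1) rfl rfl rfl, mul_one, mul_one]

theorem Phi2 : Phi c 2 = 1 - c.b 2 := by
  rw [Phi_eq 2 (p := 1) (q := 1 - c.b 2) (r := 1) rfl rfl rfl, mul_one, one_mul]

theorem Phi3 : Phi c 3 = c.a 3 - 1 := by
  rw [Phi_eq 3 (p := 1) (q := c.a 3 - 1) (r := 1) rfl rfl rfl, mul_one, one_mul]

theorem Phi5 : Phi c 5 = 1 - c.b 5 := by
  rw [Phi_eq 5 (p := 1) (q := 1) (r := 1 - c.b 5) rfl rfl rfl, mul_one, one_mul]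

theorem Phi6 : Phi c 6 = c.a 6 - 1 := by
  rw [Phi_eq 6 (p := 1) (q := 1) (r := c.a 6 - 1) rfl rfl rfl, mul_one, one_mul]

theorem Phi8 : Phi c 8 = 1 - c.l * c.b 8 := by
  rw [Phi_eq 8 (p := 1 - c.l * c.b 8) (q := 1) (r := 1) rfl rfl rfl, mul_one, mul_one]

theorem Phi_mem (j : Fin 9) : Phi c j ∈ c.A j := by
  rw [← prod_ph]
  exact prod_mem fun s _ => ph_mem s j

theorem mono_mem (j : Fin 9) (i l o : ℕ) {g : F}
    (h : g = c.a j ^ i * c.b j ^ l * Phi c j ^ o) : g ∈ c.A j := by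
  rw [h]
  exact mul_mem (mul_mem (pow_mem (am j) i) (pow_mem (bm j) l)) (pow_mem (Phi_mem j) o)

/-! ### Identities for one block -/

section block

variable {m m' m'' U : F}

theorem blk_ne (hr : m * m' * m'' = 1) : m ≠ 0 ∧ m' ≠ 0 ∧ m'' ≠ 0 := by
  refine ⟨?_, ?_, ?_⟩ <;> rintro rfl <;> simp at hr

theorem blk_tb0 (hr : m * m' * m'' = 1) (hU : U ≠ 0) : (m * U)⁻¹ * m * U = 1 := by
  obtain ⟨h1, h2, h3⟩ := blk_ne hr
  field_simp

theorem blk_tb1 (hr : m * m' * m'' = 1) (hU : U ≠ 0) : m'' * (m''⁻¹ / U) * U = 1 := by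
  obtain ⟨h1, h2, h3⟩ := blk_ne hr
  field_simp

theorem blk_tb2 (hr : m * m' * m'' = 1) : m'' / m' * (m' / m'') * 1 = 1 := by
  obtain ⟨h1, h2, h3⟩ := blk_ne hr
  field_simp

theorem blk_ta0 (hr : m * m' * m'' = 1) : m / m' = m'' * m ^ 2 * U ^ (1 - 1 : ℤ) := by
  obtain ⟨h1, h2, h3⟩ := blk_ne hr
  rw [sub_self, zpow_zero, div_eq_iff h2]
  linear_combination (-m) * hr

theorem blk_ta1 (hr : m * m' * m'' = 1) (hU : U ≠ 0) :
    m = m'' / m' * (m''⁻¹ / U) ^ 2 * U ^ (1 - (-1) : ℤ) := by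
  obtain ⟨h1, h2, h3⟩ := blk_ne hr
  have e : (1 - (-1) : ℤ) = (2 : ℕ) := by norm_num
  rw [e, zpow_natCast]
  field_simp
  linear_combination hr

theorem blk_ta2 {t : F} (hr : m * m' * m'' = 1) (hU : 1 - t * (m'' / m') ≠ 0) :
    m''⁻¹ / (1 - t * (m'' / m'))
      = (m' * (m' / m'' - t))⁻¹ * (m' / m'') ^ 2 * (1 : F) ^ (1 - 0 : ℤ) := by
  obtain ⟨h1, h2, h3⟩ := blk_ne hr
  have e : m' / m'' - t = m' / m'' * (1 - t * (m'' / m')) := by
    field_simp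
  rw [e, one_zpow]
  generalize 1 - t * (m'' / m') = V at hU
  field_simp

theorem blk_b2 (hr : m * m' * m'' = 1) : m'' / m' = m * m'' ^ 2 := by
  obtain ⟨h1, h2, h3⟩ := blk_ne hr
  rw [div_eq_iff h2]
  linear_combination (-m'') * hr

/-- the monomials in the first chart of a block -/
theorem blk_c0 {a b : F} (hr : m * m' * m'' = 1) (hU : U ≠ 0) (ha : a = m / m')
    (hb : b = (m * U)⁻¹) :
    m = (b * U)⁻¹ ∧ m' = (a * b * U)⁻¹ ∧ m'' = a * b ^ 2 * U ^ 2 := by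
  obtain ⟨h1, h2, h3⟩ := blk_ne hr
  subst ha hb
  refine ⟨by field_simp, by field_simp, ?_⟩
  field_simp
  linear_combination hr

theorem blk_c1 (hr : m * m' * m'' = 1) : m' = (m * m'')⁻¹ :=
  eq_inv_of_mul_eq_one_left (by linear_combination hr)

/-- the monomials in the third chart of a block -/
theorem blk_c2 {a b : F} (hr : m * m' * m'' = 1) (hU : U ≠ 0) (ha : a = m''⁻¹ / U)
    (hb : b = m'' / m') :
    m = b * a ^ 2 * U ^ 2 ∧ m' = (a * b * U)⁻¹ ∧ m'' = (a * U)⁻¹ := by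
  obtain ⟨h1, h2, h3⟩ := blk_ne hr
  subst ha hb
  refine ⟨?_, by field_simp, by field_simp⟩
  field_simp
  linear_combination hr

end block

section

variable (hc : c.Good) (co : ∀ j, IsCoord k (c.a j) (c.b j))
include hc co

theorem tb : ∀ i, c.b i * c.a (i + 1) * c.u i = 1 := by
  have r0 := rel0 hc
  have r1 : c.y * c.z * c.x = 1 := by linear_combination r0
  have r2 : c.z * c.x * c.y = 1 := by linear_combination r0
  have h := u_ne co
  exact fin9 (blk_tb0 r0 (h 0)) (blk_tb1 r0 (h 1)) (blk_tb2 r0) (blk_tb0 r1 (h 3))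
    (blk_tb1 r1 (h 4)) (blk_tb2 r1) (blk_tb0 r2 (h 6)) (blk_tb1 r2 (h 7)) (blk_tb2 r2)

theorem ta : ∀ i, c.a i = c.b (i + 1) * c.a (i + 1) ^ 2 * c.u i ^ (1 - ue i) := by
  have r0 := rel0 hc
  have r1 : c.y * c.z * c.x = 1 := by linear_combination r0
  have r2 : c.z * c.x * c.y = 1 := by linear_combination r0
  have h := u_ne co
  refine fin9 (blk_ta0 r0) (blk_ta1 r0 (h 1)) ?_ (blk_ta0 r1) (blk_ta1 r1 (h 4)) ?_
    (blk_ta0 r2) (blk_ta1 r2 (h 7)) (blk_ta2 r2 (h 7))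
  · have := blk_ta2 (t := 1) r0 (by rw [one_mul]; exact h 1)
    rw [one_mul] at this
    exact this
  · have := blk_ta2 (t := 1) r1 (by rw [one_mul]; exact h 4)
    rw [one_mul] at this
    exact this

theorem te (i : Fin 9) : c.e (i + 1) = c.e i * c.u i ^ ue i := by
  have h1 := tb hc co i
  have h2 := ta hc co i
  have h3 := u_ne co i
  have h4 : c.u i ^ (1 - ue i) * c.u i ^ ue i = c.u i := by
    rw [← zpow_add₀ h3, sub_add_cancel, zpow_one]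
  unfold Ctx.e
  rw [h2]
  linear_combination (-(c.b (i + 1) * c.a (i + 1) ^ 2 * c.b i)) * h4
    - (c.a (i + 1) * c.b (i + 1)) * h1

omit hc in
theorem tph : ∀ i, i ≠ 8 → ∃ t : ℤ, c.ph 0 (i + 1) = c.ph 0 i * c.u i ^ t := by
  have o : ∀ v : F, ∃ t : ℤ, (1 : F) = 1 * v ^ t := fun v => ⟨0, by simp⟩
  refine fin9 (fun _ => ⟨-1, ?_⟩) (fun _ => o _) (fun _ => o _) (fun _ => o _) (fun _ => o _)
    (fun _ => o _) (fun _ => o _) (fun _ => ⟨1, ?_⟩) (fun h => absurd rfl h)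
  · change (1 : F) = c.u 0 * c.u 0 ^ (-1 : ℤ)
    rw [zpow_neg_one, mul_inv_cancel₀ (u_ne co 0)]
  · change c.u 7 = 1 * c.u 7 ^ (1 : ℤ)
    rw [zpow_one, one_mul]

theorem tph8 : c.ph 0 0 = c.ph 0 8 * c.a 0 := by
  have h : c.b 8 * c.a 0 * 1 = 1 := tb hc co 8
  change c.a 0 - c.l = (1 - c.l * c.b 8) * c.a 0
  linear_combination c.l * h

omit co in
theorem u_left : ∀ i, ∃ p ∈ c.A i, c.u i = algebraMap k F (c.cu i) + c.a i * p := by
  have r0 := rel0 hc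
  have r1 : c.y * c.z * c.x = 1 := by linear_combination r0
  have r2 : c.z * c.x * c.y = 1 := by linear_combination r0
  have o : ∀ j (v : F), ∃ p ∈ c.A j, (1 : F) = algebraMap k F 1 + v * p :=
    fun j v => ⟨0, zero_mem _, by simp⟩
  refine fin9 ⟨1, one_mem _, ?_⟩ ⟨-c.b 1 ^ 2, neg_mem (pow_mem (bm 1) 2), ?_⟩ (o _ _)
    ⟨1, one_mem _, ?_⟩ ⟨-c.b 4 ^ 2, neg_mem (pow_mem (bm 4) 2), ?_⟩ (o _ _)
    ⟨1, one_mem _, ?_⟩ ⟨-(c.l * c.b 7 ^ 2), neg_mem (mul_mem (lm 7) (pow_mem (bm 7) 2)), ?_⟩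
    (o _ _)
  · change c.a 0 - c.l = algebraMap k F (-c.lam) + c.a 0 * 1
    rw [map_neg, Ctx.l]; ring
  · change 1 - c.z / c.y = algebraMap k F 1 + c.x * -c.z ^ 2
    rw [map_one, blk_b2 r0]; ring
  · change c.a 3 - 1 = algebraMap k F (-1) + c.a 3 * 1
    rw [map_neg, map_one]; ring
  · change 1 - c.x / c.z = algebraMap k F 1 + c.y * -c.x ^ 2
    rw [map_one, blk_b2 r1]; ring
  · change c.a 6 - 1 = algebraMap k F (-1) + c.a 6 * 1
    rw [map_neg, map_one]; ring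
  · change 1 - c.l * (c.y / c.x) = algebraMap k F 1 + c.z * -(c.l * c.y ^ 2)
    rw [map_one, blk_b2 r2]; ring

theorem u_right : ∀ i, ∃ p ∈ c.A (i + 1),
    c.u i = algebraMap k F (c.cu i) + c.b (i + 1) * p := by
  have h := ta hc co
  have o : ∀ j (v : F), ∃ p ∈ c.A j, (1 : F) = algebraMap k F 1 + v * p :=
    fun j v => ⟨0, zero_mem _, by simp⟩
  have h0 : c.a 0 = c.b 1 * c.a 1 ^ 2 * c.u 0 ^ (1 - 1 : ℤ) := h 0
  have h3 : c.a 3 = c.b 4 * c.a 4 ^ 2 * c.u 3 ^ (1 - 1 : ℤ) := h 3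
  have h6 : c.a 6 = c.b 7 * c.a 7 ^ 2 * c.u 6 ^ (1 - 1 : ℤ) := h 6
  rw [sub_self, zpow_zero, mul_one] at h0 h3 h6
  refine fin9 ⟨c.a 1 ^ 2, pow_mem (am 1) 2, ?_⟩ ⟨-1, neg_mem (one_mem _), ?_⟩ (o _ _)
    ⟨c.a 4 ^ 2, pow_mem (am 4) 2, ?_⟩ ⟨-1, neg_mem (one_mem _), ?_⟩ (o _ _)
    ⟨c.a 7 ^ 2, pow_mem (am 7) 2, ?_⟩ ⟨-c.l, neg_mem (lm _), ?_⟩ (o _ _)
  · change c.a 0 - c.l = algebraMap k F (-c.lam) + c.b 1 * c.a 1 ^ 2
    rw [map_neg, Ctx.l, ← h0]; ring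
  · change 1 - c.b 2 = algebraMap k F 1 + c.b 2 * -1
    rw [map_one]; ring
  · change c.a 3 - 1 = algebraMap k F (-1) + c.b 4 * c.a 4 ^ 2
    rw [map_neg, map_one, ← h3]; ring
  · change 1 - c.b 5 = algebraMap k F 1 + c.b 5 * -1
    rw [map_one]; ring
  · change c.a 6 - 1 = algebraMap k F (-1) + c.b 7 * c.a 7 ^ 2
    rw [map_neg, map_one, ← h6]; ring
  · change 1 - c.l * c.b 8 = algebraMap k F 1 + c.b 8 * -c.l
    rw [map_one]; ring

omit hc co in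
theorem ue_nat : ∀ i, ∃ p q : ℕ, 1 - ue i = p ∧ p + q = 2 :=
  fin9 ⟨0, 2, rfl, rfl⟩ ⟨2, 0, rfl, rfl⟩ ⟨1, 1, rfl, rfl⟩ ⟨0, 2, rfl, rfl⟩ ⟨2, 0, rfl, rfl⟩
    ⟨1, 1, rfl, rfl⟩ ⟨0, 2, rfl, rfl⟩ ⟨2, 0, rfl, rfl⟩ ⟨1, 1, rfl, rfl⟩

theorem loc_right (i : Fin 9) :
    ∀ g ∈ c.A i, ∃ m : ℕ, (c.a (i + 1) * c.u i) ^ m * g ∈ c.A (i + 1) := by
  have hu : c.u i ∈ c.A (i + 1) := by
    obtain ⟨p, hp, h⟩ := u_right hc co i
    rw [h]
    exact add_mem (Subalgebra.algebraMap_mem _ _) (mul_mem (bm _) hp)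
  refine loc_gen (mul_mem (am _) hu) ⟨0, ?_⟩ ⟨1, ?_⟩
  · obtain ⟨p, q, h1, _⟩ := ue_nat i
    rw [pow_zero, one_mul, ta hc co i, h1, zpow_natCast]
    exact mul_mem (mul_mem (bm _) (pow_mem (am _) 2)) (pow_mem hu p)
  · have e : (c.a (i + 1) * c.u i) ^ 1 * c.b i = 1 := by linear_combination tb hc co i
    rw [e]
    exact one_mem _

theorem loc_left (i : Fin 9) :
    ∀ g ∈ c.A (i + 1), ∃ m : ℕ, (c.b i * c.u i) ^ m * g ∈ c.A i := by
  have hu : c.u i ∈ c.A i := by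
    obtain ⟨p, hp, h⟩ := u_left hc i
    rw [h]
    exact add_mem (Subalgebra.algebraMap_mem _ _) (mul_mem (am _) hp)
  refine loc_gen (mul_mem (bm _) hu) ⟨1, ?_⟩ ⟨0, ?_⟩
  · have e : (c.b i * c.u i) ^ 1 * c.a (i + 1) = 1 := by linear_combination tb hc co i
    rw [e]
    exact one_mem _
  · obtain ⟨p, q, h1, h2⟩ := ue_nat i
    have h3 := ta hc co i
    rw [h1, zpow_natCast] at h3
    have h4 := tb hc co i
    have h5 : c.u i ^ p * c.u i ^ q = c.u i ^ 2 := by rw [← pow_add, h2]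
    have e : (c.b i * c.u i) ^ 0 * c.b (i + 1) = c.a i * c.b i ^ 2 * c.u i ^ q := by
      rw [h3]
      linear_combination (-(c.b (i + 1) * c.a (i + 1) ^ 2 * c.b i ^ 2)) * h5
        - c.b (i + 1) * (c.b i * c.a (i + 1) * c.u i + 1) * h4
    rw [e]
    exact mul_mem (mul_mem (am _) (pow_mem (bm _) 2)) (pow_mem hu q)

/-- the three monomials in the nine charts -/
theorem charts :
    (c.x = (c.b 0 * Phi c 0)⁻¹ ∧ c.y = (c.a 0 * c.b 0 * Phi c 0)⁻¹ ∧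
      c.z = c.a 0 * c.b 0 ^ 2 * Phi c 0 ^ 2) ∧
    (c.x = c.a 1 ∧ c.y = (c.a 1 * c.b 1)⁻¹ ∧ c.z = c.b 1) ∧
    (c.x = c.b 2 * c.a 2 ^ 2 * Phi c 2 ^ 2 ∧ c.y = (c.a 2 * c.b 2 * Phi c 2)⁻¹ ∧
      c.z = (c.a 2 * Phi c 2)⁻¹) ∧
    (c.y = (c.b 3 * Phi c 3)⁻¹ ∧ c.z = (c.a 3 * c.b 3 * Phi c 3)⁻¹ ∧
      c.x = c.a 3 * c.b 3 ^ 2 * Phi c 3 ^ 2) ∧
    (c.y = c.a 4 ∧ c.z = (c.a 4 * c.b 4)⁻¹ ∧ c.x = c.b 4) ∧
    (c.y = c.b 5 * c.a 5 ^ 2 * Phi c 5 ^ 2 ∧ c.z = (c.a 5 * c.b 5 * Phi c 5)⁻¹ ∧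
      c.x = (c.a 5 * Phi c 5)⁻¹) ∧
    (c.z = (c.b 6 * Phi c 6)⁻¹ ∧ c.x = (c.a 6 * c.b 6 * Phi c 6)⁻¹ ∧
      c.y = c.a 6 * c.b 6 ^ 2 * Phi c 6 ^ 2) ∧
    (c.z = c.a 7 ∧ c.x = (c.a 7 * c.b 7)⁻¹ ∧ c.y = c.b 7) ∧
    (c.z = c.b 8 * c.a 8 ^ 2 * Phi c 8 ^ 2 ∧ c.x = (c.a 8 * c.b 8 * Phi c 8)⁻¹ ∧
      c.y = (c.a 8 * Phi c 8)⁻¹) := by
  have r0 := rel0 hc
  have r1 : c.y * c.z * c.x = 1 := by linear_combination r0
  have r2 : c.z * c.x * c.y = 1 := by linear_combination r0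
  have hp : ∀ j, Phi c j ≠ 0 := fun j => Finset.prod_ne_zero_iff.2 fun s _ => ph_ne co s j
  exact ⟨blk_c0 r0 (hp 0) rfl (by rw [Phi0]; rfl), ⟨rfl, blk_c1 r0, rfl⟩,
    blk_c2 r0 (hp 2) (by rw [Phi2]; rfl) rfl,
    blk_c0 r1 (hp 3) rfl (by rw [Phi3]; rfl), ⟨rfl, blk_c1 r1, rfl⟩,
    blk_c2 r1 (hp 5) (by rw [Phi5]; rfl) rfl,
    blk_c0 r2 (hp 6) rfl (by rw [Phi6]; rfl), ⟨rfl, blk_c1 r2, rfl⟩,
    blk_c2 r2 (hp 8) (by rw [Phi8]; rfl) rfl⟩

omit hc in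
theorem Phi_ne (j : Fin 9) : Phi c j ≠ 0 := by
  rw [← prod_ph]
  exact Finset.prod_ne_zero_iff.2 fun s _ => ph_ne co s j

omit hc co in
theorem mu33 : c.mu 3 3 0 = (c.a 0 * c.b 0 * Phi c 0) ^ 3 ∧
    c.mu 3 3 8 = (c.a 8 * c.b 8 * Phi c 8) ^ 3 ∧
    ∀ j, j ≠ 0 → j ≠ 8 → c.mu 3 3 j = (c.a j * c.b j) ^ 3 := by
  have e : ∀ j, c.mu 3 3 j = (c.a j * c.b j * c.ph 0 j) ^ 3 := by
    intro j
    rw [Ctx.mu, Ctx.e, zpow_ofNat, ← mul_pow]
  have o : ∀ j, c.ph 0 j = 1 → c.mu 3 3 j = (c.a j * c.b j) ^ 3 := by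
    intro j hj
    rw [e, hj, mul_one]
  refine ⟨by rw [e, Phi0]; rfl, by rw [e, Phi8]; rfl,
    fin9 (fun h => absurd rfl h) ?_ ?_ ?_ ?_ ?_ ?_ ?_ (fun _ h => absurd rfl h)⟩
  all_goals exact fun _ _ => o _ rfl

theorem gens33 : c.x * c.y ∈ c.M 3 3 ∧ c.x ^ 2 * c.y ∈ c.M 3 3 ∧ c.x * c.y ^ 2 ∈ c.M 3 3 := by
  obtain ⟨⟨x0, y0, -⟩, ⟨x1, y1, -⟩, ⟨x2, y2, -⟩, ⟨y3, -, x3⟩, ⟨y4, -, x4⟩, ⟨y5, -, x5⟩,
    ⟨-, x6, y6⟩, ⟨-, x7, y7⟩, ⟨-, x8, y8⟩⟩ := charts hc co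
  obtain ⟨m0, m8, mj⟩ := mu33 (c := c)
  have key : ∀ j, (c.x * c.y * c.mu 3 3 j ∈ c.A j ∧ c.x ^ 2 * c.y * c.mu 3 3 j ∈ c.A j) ∧
      c.x * c.y ^ 2 * c.mu 3 3 j ∈ c.A j := by
    refine fin9 ?_ ?_ ?_ ?_ ?_ ?_ ?_ ?_ ?_
    · have ha := a_ne (co 0); have hb := b_ne (co 0); have hp := Phi_ne co 0
      rw [m0, x0, y0]
      exact ⟨⟨mono_mem 0 2 1 1 (by field_simp), mono_mem 0 2 0 0 (by field_simp)⟩,
        mono_mem 0 1 0 0 (by field_simp)⟩
    · have ha := a_ne (co 1); have hb := b_ne (co 1)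
      rw [mj 1 (by decide) (by decide), y1, x1]
      exact ⟨⟨mono_mem 1 3 2 0 (by field_simp), mono_mem 1 4 2 0 (by field_simp)⟩,
        mono_mem 1 2 1 0 (by field_simp)⟩
    · have ha := a_ne (co 2); have hb := b_ne (co 2); have hp := Phi_ne co 2
      rw [mj 2 (by decide) (by decide), x2, y2]
      exact ⟨⟨mono_mem 2 4 3 1 (by field_simp), mono_mem 2 6 4 3 (by field_simp)⟩,
        mono_mem 2 3 2 0 (by field_simp)⟩
    · have ha := a_ne (co 3); have hb := b_ne (co 3); have hp := Phi_ne co 3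
      rw [mj 3 (by decide) (by decide), x3, y3]
      exact ⟨⟨mono_mem 3 4 4 1 (by field_simp), mono_mem 3 5 6 3 (by field_simp)⟩,
        mono_mem 3 4 3 0 (by field_simp)⟩
    · rw [mj 4 (by decide) (by decide), x4, y4]
      exact ⟨⟨mono_mem 4 4 4 0 (by ring), mono_mem 4 4 5 0 (by ring)⟩,
        mono_mem 4 5 4 0 (by ring)⟩
    · have ha := a_ne (co 5); have hb := b_ne (co 5); have hp := Phi_ne co 5
      rw [mj 5 (by decide) (by decide), x5, y5]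
      exact ⟨⟨mono_mem 5 4 4 1 (by field_simp), mono_mem 5 3 4 0 (by field_simp)⟩,
        mono_mem 5 6 5 3 (by field_simp)⟩
    · have ha := a_ne (co 6); have hb := b_ne (co 6); have hp := Phi_ne co 6
      rw [mj 6 (by decide) (by decide), x6, y6]
      exact ⟨⟨mono_mem 6 3 4 1 (by field_simp), mono_mem 6 2 3 0 (by field_simp)⟩,
        mono_mem 6 4 6 3 (by field_simp)⟩
    · have ha := a_ne (co 7); have hb := b_ne (co 7)
      rw [mj 7 (by decide) (by decide), x7, y7]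
      exact ⟨⟨mono_mem 7 2 3 0 (by field_simp), mono_mem 7 1 2 0 (by field_simp)⟩,
        mono_mem 7 2 4 0 (by field_simp)⟩
    · have ha := a_ne (co 8); have hb := b_ne (co 8); have hp := Phi_ne co 8
      rw [m8, x8, y8]
      exact ⟨⟨mono_mem 8 1 2 1 (by field_simp), mono_mem 8 0 1 0 (by field_simp)⟩,
        mono_mem 8 0 2 0 (by field_simp)⟩
  exact ⟨fun j => (key j).1.1, fun j => (key j).1.2, fun j => (key j).2⟩

omit hc co in
theorem mem_MM11 {g : F} (h : ∀ j, g * (c.a j * c.b j * Phi c j) ∈ c.A j) : g ∈ c.MM 1 1 := by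
  intro j
  simp only [Pi.one_apply, pow_one, zpow_one, prod_ph]
  exact h j

theorem gens11 : c.x ∈ c.MM 1 1 ∧ c.y ∈ c.MM 1 1 ∧ c.z ∈ c.MM 1 1 := by
  obtain ⟨⟨x0, y0, z0⟩, ⟨x1, y1, z1⟩, ⟨x2, y2, z2⟩, ⟨y3, z3, x3⟩, ⟨y4, z4, x4⟩, ⟨y5, z5, x5⟩,
    ⟨z6, x6, y6⟩, ⟨z7, x7, y7⟩, ⟨z8, x8, y8⟩⟩ := charts hc co
  have key : ∀ j, (c.x * (c.a j * c.b j * Phi c j) ∈ c.A j ∧
      c.y * (c.a j * c.b j * Phi c j) ∈ c.A j) ∧ c.z * (c.a j * c.b j * Phi c j) ∈ c.A j := by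
    refine fin9 ?_ ?_ ?_ ?_ ?_ ?_ ?_ ?_ ?_
    · have ha := a_ne (co 0); have hb := b_ne (co 0); have hp := Phi_ne co 0
      rw [x0, y0, z0]
      exact ⟨⟨mono_mem 0 1 0 0 (by field_simp), mono_mem 0 0 0 0 (by field_simp)⟩,
        mono_mem 0 2 3 3 (by field_simp)⟩
    · have ha := a_ne (co 1); have hb := b_ne (co 1)
      rw [y1, x1, z1]
      exact ⟨⟨mono_mem 1 2 1 1 (by field_simp), mono_mem 1 0 0 1 (by field_simp)⟩,
        mono_mem 1 1 2 1 (by field_simp)⟩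
    · have ha := a_ne (co 2); have hb := b_ne (co 2); have hp := Phi_ne co 2
      rw [x2, y2, z2]
      exact ⟨⟨mono_mem 2 3 2 3 (by field_simp), mono_mem 2 0 0 0 (by field_simp)⟩,
        mono_mem 2 0 1 0 (by field_simp)⟩
    · have ha := a_ne (co 3); have hb := b_ne (co 3); have hp := Phi_ne co 3
      rw [x3, y3, z3]
      exact ⟨⟨mono_mem 3 2 3 3 (by field_simp), mono_mem 3 1 0 0 (by field_simp)⟩,
        mono_mem 3 0 0 0 (by field_simp)⟩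
    · have ha := a_ne (co 4); have hb := b_ne (co 4)
      rw [x4, y4, z4]
      exact ⟨⟨mono_mem 4 1 2 1 (by field_simp), mono_mem 4 2 1 1 (by field_simp)⟩,
        mono_mem 4 0 0 1 (by field_simp)⟩
    · have ha := a_ne (co 5); have hb := b_ne (co 5); have hp := Phi_ne co 5
      rw [x5, y5, z5]
      exact ⟨⟨mono_mem 5 0 1 0 (by field_simp), mono_mem 5 3 2 3 (by field_simp)⟩,
        mono_mem 5 0 0 0 (by field_simp)⟩
    · have ha := a_ne (co 6); have hb := b_ne (co 6); have hp := Phi_ne co 6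
      rw [x6, y6, z6]
      exact ⟨⟨mono_mem 6 0 0 0 (by field_simp), mono_mem 6 2 3 3 (by field_simp)⟩,
        mono_mem 6 1 0 0 (by field_simp)⟩
    · have ha := a_ne (co 7); have hb := b_ne (co 7)
      rw [x7, y7, z7]
      exact ⟨⟨mono_mem 7 0 0 1 (by field_simp), mono_mem 7 1 2 1 (by field_simp)⟩,
        mono_mem 7 2 1 1 (by field_simp)⟩
    · have ha := a_ne (co 8); have hb := b_ne (co 8); have hp := Phi_ne co 8
      rw [x8, y8, z8]
      exact ⟨⟨mono_mem 8 0 0 0 (by field_simp), mono_mem 8 0 1 0 (by field_simp)⟩,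
        mono_mem 8 3 2 3 (by field_simp)⟩
  exact ⟨mem_MM11 fun j => (key j).1.1, mem_MM11 fun j => (key j).1.2,
    mem_MM11 fun j => (key j).2⟩

omit hc in
theorem e_ne (j : Fin 9) : c.e j ≠ 0 := mul_ne_zero (a_ne (co j)) (b_ne (co j))

omit hc in
theorem mu_mul (N : ℤ) (n : ℕ) (N' : ℤ) (n' : ℕ) (j : Fin 9) :
    c.mu (N + N') (n + n') j = c.mu N n j * c.mu N' n' j := by
  unfold Ctx.mu
  rw [zpow_add₀ (e_ne co j), pow_add]
  ring

end

theorem lam_facts (hc : c.Good) : c.lam ≠ 0 ∧ ∀ n : ℤ, c.lam ^ n = 1 → n = 0 := by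
  obtain ⟨v, h0, h1⟩ := hc.val
  refine ⟨?_, fun n hn => ?_⟩
  · rintro h
    rw [h, map_zero] at h0
    exact lt_irrefl _ h0
  · have h2 := congrArg v hn
    rw [map_zpow₀, map_one] at h2
    exact (zpow_eq_one_iff_right₀ h0.le h1.ne).1 h2

end GeoAux

open GeoAux in
theorem geo : S_Moves → S_Geo := by
  intro hm k F _ _ _ c hc
  have ok := ok_all hm hc
  have co : ∀ j, IsCoord k (c.a j) (c.b j) := fun j => (ok j).1
  have hl := lam_facts hc
  exact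
    { lam_ne := hl.1
      lam_zpow := hl.2
      coord := co
      gauss := fun w j => (ok j).2 w
      x_ne := a_ne hc.coord
      y_ne := b_ne hc.coord
      a_ne := fun j => a_ne (co j)
      b_ne := fun j => b_ne (co j)
      u_ne := u_ne co
      cu_ne := fin9 (neg_ne_zero.2 hl.1) one_ne_zero one_ne_zero (neg_ne_zero.2 one_ne_zero)
        one_ne_zero one_ne_zero (neg_ne_zero.2 one_ne_zero) one_ne_zero one_ne_zero
      ph_ne := ph_ne co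
      ph_mem := ph_mem
      A4 := fun g => by
        have e : c.A 4 = Rg k c.x c.y := rg_swap c.y c.x
        rw [e]
        exact Iff.rfl
      tb := tb hc co
      ta := ta hc co
      te := te hc co
      tph := tph co
      tph8 := tph8 hc co
      u_left := u_left hc
      u_right := u_right hc co
      loc_right := loc_right hc co
      loc_left := loc_left hc co
      normal := fun j => normal (co j)
      noeth := fun j => noeth (co j)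
      frac := fun j => frac (co j)
      int_mem := fun j => int_mem (co j)
      split_b := fun j => split_b
      split_a := fun j => split_a
      uniq_b := fun j P p hp => uniq_b (co j) P p hp
      uniq_a := fun j P p hp => uniq_a (co j) P p hp
      uniq_ph := fun P p hp => uniq_ph (co 0) c.lam P p hp
      prime_b := fun j => prime_b (co j)
      div_e := fun j => div_e (co j)
      mul_mem := fun N n N' n' g hg g' hg' j => by
        have := (c.A j).mul_mem (hg j) (hg' j)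
        rw [mu_mul co]
        convert this using 1
        ring
      mono := fun N n N' n' hN hn g hg j => by
        obtain ⟨d, rfl⟩ := Int.le.dest hN
        obtain ⟨d', rfl⟩ := Nat.exists_eq_add_of_le hn
        rw [mu_mul co, ← mul_assoc]
        refine (c.A j).mul_mem (hg j) ?_
        rw [Ctx.mu, zpow_natCast]
        exact mul_mem (pow_mem (mul_mem (am j) (bm j)) d) (pow_mem (ph_mem 0 j) d')
      one_mem := fun j => by
        rw [Ctx.mu, zpow_zero, pow_zero, one_mul, one_mul]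
        exact one_mem _
      xy_mem := (gens33 hc co).1
      xxy_mem := (gens33 hc co).2.1
      xyy_mem := (gens33 hc co).2.2
      a_mem := am
      b_mem := bm
      mu_ne := fun N n j =>
        mul_ne_zero (zpow_ne_zero _ (e_ne co j)) (pow_ne_zero _ (ph_ne co 0 j))
      mu_mul := mu_mul co
      M_eq := fun N n => by
        ext g
        change (∀ j, g * c.mu N n j ∈ c.A j) ↔
          ∀ j, g * (c.e j ^ N * ∏ s, c.ph s j ^ (![n, 0, 0] : Fin 3 → ℕ) s) ∈ c.A j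
        have e : ∀ j, ∏ s, c.ph s j ^ (![n, 0, 0] : Fin 3 → ℕ) s = c.ph 0 j ^ n := by
          intro j
          rw [Fin.prod_univ_three]
          change c.ph 0 j ^ n * c.ph 1 j ^ 0 * c.ph 2 j ^ 0 = _
          rw [pow_zero, pow_zero, mul_one, mul_one]
        simp only [e, Ctx.mu]
      MM_mul := fun N n N' n' g hg g' hg' j => by
        have := (c.A j).mul_mem (hg j) (hg' j)
        simp only [Pi.add_apply, pow_add, Finset.prod_mul_distrib, zpow_add₀ (e_ne co j)]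
        convert this using 1
        ring
      MM_gen := ⟨fun j => by simp, mem_MM11 fun j => mono_mem j 1 1 1 (by ring),
        gens11 hc co⟩ }

end

end Pool.Agent.P.MP_3a4479_al
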