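import Pool.Agent.P.MP_3a4479_al.Defs

set_option autoImplicit false

namespace Pool.Agent.P.MP_3a4479_al

open Polynomial
open scoped NNReal

noncomputable section

namespace JAux

variable {k F : Type} [Field k] [Field F] [Algebra k F] {c : Ctx k F}

theorem mem_cast {N N' : ℤ} {n n' : ℕ} {g : F} (hg : g ∈ c.M N n) (h1 : N = N') (h2 : n = n') :
    g ∈ c.M N' n' := by
  subst h1; subst h2; exact hg

theorem res_cast {N N' : ℤ} {n n' : ℕ} {g : F} {P : k[X]} (hg : c.IsRes N n g P) (h1 : N = N')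
    (h2 : n = n') : c.IsRes N' n' g P := by
  subst h1; subst h2; exact hg

theorem res_one : c.IsRes 0 0 1 1 :=
  ⟨0, (c.A 0).zero_mem, by simp [Ctx.mu]⟩

theorem res_const (t : k) : c.IsRes 0 0 (algebraMap k F t) (C t) :=
  ⟨0, (c.A 0).zero_mem, by simp [Ctx.mu]⟩

theorem mem_pow (h : GeoFacts c) {N : ℤ} {n : ℕ} {g : F} (hg : g ∈ c.M N n) (q : ℕ) :
    g ^ q ∈ c.M (q * N) (q * n) := by
  induction q with
  | zero => simpa using h.one_mem
  | succ q ih =>
    rw [pow_succ]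
    exact mem_cast (h.mul_mem _ _ _ _ _ ih _ hg) (by push_cast; ring) (by ring)

theorem res_pow (r : ResFacts c) {N : ℤ} {n : ℕ} {g : F} {P : k[X]} (hg : c.IsRes N n g P)
    (q : ℕ) : c.IsRes (q * N) (q * n) (g ^ q) (P ^ q) := by
  induction q with
  | zero => simpa using res_one
  | succ q ih =>
    rw [pow_succ, pow_succ]
    exact res_cast (r.mul _ _ _ _ _ _ _ _ ih hg) (by push_cast; ring) (by ring)

theorem res_sub (r : ResFacts c) {N : ℤ} {n : ℕ} {g g' : F} {P P' : k[X]} (hg : c.IsRes N n g P)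
    (hg' : c.IsRes N n g' P') : c.IsRes N n (g - g') (P - P') := by
  have := r.add _ _ _ _ _ _ hg (r.smul _ _ _ _ (-1) hg')
  simpa [sub_eq_add_neg] using this

theorem res_sum (r : ResFacts c) {N : ℤ} {n : ℕ} {ι : Type} (s : Finset ι) (g : ι → F)
    (hg : ∀ i ∈ s, c.IsRes N n (g i) 0) : c.IsRes N n (∑ i ∈ s, g i) 0 := by
  classical
  induction s using Finset.induction_on with
  | empty => exact ⟨0, (c.A 0).zero_mem, by simp⟩
  | insert a s ha ih =>
    rw [Finset.sum_insert ha]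
    have := r.add _ _ _ _ _ _ (hg a (Finset.mem_insert_self a s))
      (ih fun i hi => hg i (Finset.mem_insert_of_mem hi))
    simpa using this

theorem coprime_X (μ : k) (hμ : μ ≠ 0) : IsCoprime (X + C μ : k[X]) X := by
  refine ⟨C μ⁻¹, -C μ⁻¹, ?_⟩
  have : (C μ⁻¹ * C μ : k[X]) = 1 := by rw [← C_mul, inv_mul_cancel₀ hμ, C_1]
  linear_combination this

theorem monic_X_add (μ : k) (q : ℕ) : ((X + C μ : k[X]) ^ q).Monic := (monic_X_add_C μ).pow q

theorem natDegree_X_add (μ : k) (q : ℕ) : ((X + C μ : k[X]) ^ q).natDegree = q := by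
  rw [(monic_X_add_C μ).natDegree_pow, natDegree_X_add_C, mul_one]

theorem zneg (h : GeoFacts c) (r : ResFacts c) {σ : Str c} (hσ : σ.Good) (n M q : ℕ) (g g' : F)
    (hn : n < 2 * M) (hg : g ∈ c.M (2 * n) n) (hg' : g' ∈ c.M (2 * n) n)
    (hd : σ.s ^ (2 * M) * g' - σ.f ^ M * g ∈ c.M (2 * (n + 2 * M : ℕ) - q) (n + 2 * M)) :
    g ∈ c.M (2 * n - q) n ∧ g' ∈ c.M (2 * n - q) n := by
  have hμ : c.lam⁻¹ ≠ 0 := inv_ne_zero h.lam_ne
  have key : ∀ i : ℕ, i ≤ q → g ∈ c.M (2 * n - i) n ∧ g' ∈ c.M (2 * n - i) n := by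
    intro i
    induction i with
    | zero => intro _; simpa using ⟨hg, hg'⟩
    | succ i ih =>
      intro hi
      obtain ⟨h1, h2⟩ := ih (by omega)
      obtain ⟨P, hP, hPg⟩ := r.ex _ _ _ h1
      obtain ⟨P', hP', -⟩ := r.ex _ _ _ h2
      have e1 : c.IsRes (2 * (n + 2 * M : ℕ) - i) (n + 2 * M) (σ.s ^ (2 * M) * g')
          ((X + C c.lam⁻¹) ^ (2 * M) * P') :=
        res_cast (r.mul _ _ _ _ _ _ _ _ (res_pow r hσ.rs (2 * M)) hP') (by push_cast; ring)
          (by ring)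
      have e2 : c.IsRes (2 * (n + 2 * M : ℕ) - i) (n + 2 * M) (σ.f ^ M * g) (X ^ M * P) :=
        res_cast (r.mul _ _ _ _ _ _ _ _ (res_pow r hσ.rf M) hP) (by push_cast; ring) (by ring)
      have e3 := res_sub r e1 e2
      have e4 : c.IsRes (2 * (n + 2 * M : ℕ) - i) (n + 2 * M)
          (σ.s ^ (2 * M) * g' - σ.f ^ M * g) 0 :=
        r.low _ _ _ (h.mono _ _ _ _ (by push_cast at hi ⊢; omega) le_rfl hd)
      have e5 := r.uniq _ _ _ _ _ e3 e4
      have e6 : (X + C c.lam⁻¹) ^ (2 * M) ∣ P := by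
        have hc : IsCoprime ((X + C c.lam⁻¹ : k[X]) ^ (2 * M)) (X ^ M) :=
          (coprime_X _ hμ).pow
        refine hc.dvd_of_dvd_mul_left ⟨P', ?_⟩
        linear_combination -e5
      have hP0 : P = 0 := by
        by_contra hne
        have := natDegree_le_of_dvd e6 hne
        rw [natDegree_X_add] at this
        have := hPg.1
        omega
      have hP0' : P' = 0 := by
        rw [hP0, mul_zero, sub_zero] at e5
        exact (mul_eq_zero.mp e5).resolve_left (monic_X_add _ _).ne_zero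
      subst hP0; subst hP0'
      exact ⟨mem_cast (r.ker _ _ _ h1 hP) (by push_cast; ring) rfl,
        mem_cast (r.ker _ _ _ h2 hP') (by push_cast; ring) rfl⟩
  exact key q le_rfl

theorem glue_CX (N : ℤ) (t : k) : c.Glue N 2 (C t * X) := by
  refine ⟨?_, ?_⟩
  · compute_degree!
  · simp [coeff_X]

theorem part (h : GeoFacts c) (r : ResFacts c) (dm : DimFacts c) {σ : Str c} (hσ : σ.Good)
    (t : F) (ht : t = σ.s ^ 2 ∨ t = σ.f) :
    ∃ (m : ℕ) (d : Fin m → ℕ) (j i : Fin m → F),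
      (∀ l, d l ≤ 4 ∧ j l ∈ c.M (2 * d l - 1) (d l) ∧
        i l ∈ c.M (2 * (4 - d l : ℕ) + 1) (4 - d l)) ∧ t ^ 2 = ∑ l, j l * i l := by
  have h10 : (1 : F) ∈ c.M 1 0 := h.mono 0 0 1 0 (by norm_num) le_rfl h.one_mem
  obtain ⟨j2, hj2, rj2⟩ := dm.surjE 3 2 (by norm_num) (by norm_num) (C 1 * X) (glue_CX _ _)
  rcases ht with rfl | rfl
  · set μ := c.lam⁻¹ with hμ
    have g1 : c.Glue (1 : ℕ) 1 (X + C 1) := by
      refine ⟨?_, ?_⟩
      · compute_degree!
      · simp [coeff_X, coeff_one]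
    have g2 : c.Glue (7 : ℕ) 3
        (X ^ 3 + C (4 * μ - 1) * X ^ 2 + C (4 * μ ^ 3 - μ ^ 4) * X + C (μ ^ 4)) := by
      refine ⟨?_, ?_⟩
      · compute_degree!
      · simp only [coeff_add, coeff_C_mul, coeff_X_pow, coeff_X, coeff_C]
        norm_num
        rw [hμ, inv_pow]
    obtain ⟨j1, hj1, rj1⟩ := dm.surjE 1 1 le_rfl le_rfl _ g1
    obtain ⟨i1, hi1, ri1⟩ := dm.surjE 7 3 (by norm_num) (by norm_num) _ g2
    obtain ⟨i2, hi2, ri2⟩ := dm.surjE 5 2 (by norm_num) (by norm_num)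
      (C (6 * μ ^ 2 - (4 * μ - 1) - (4 * μ ^ 3 - μ ^ 4)) * X) (glue_CX _ _)
    have m0 : σ.s ^ 4 ∈ c.M 8 4 := mem_cast (mem_pow h hσ.hs 4) (by norm_num) (by norm_num)
    have m1 : j1 * i1 ∈ c.M 8 4 :=
      mem_cast (h.mul_mem _ _ _ _ _ hj1 _ hi1) (by norm_num) (by norm_num)
    have m2 : j2 * i2 ∈ c.M 8 4 :=
      mem_cast (h.mul_mem _ _ _ _ _ hj2 _ hi2) (by norm_num) (by norm_num)
    have r0 := res_cast (res_pow r hσ.rs 4) (N' := 8) (n' := 4) (by norm_num) (by norm_num)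
    have r1 := res_cast (r.mul _ _ _ _ _ _ _ _ rj1 ri1) (N' := 8) (n' := 4) (by norm_num)
      (by norm_num)
    have r2 := res_cast (r.mul _ _ _ _ _ _ _ _ rj2 ri2) (N' := 8) (n' := 4) (by norm_num)
      (by norm_num)
    have r3 := res_sub r (res_sub r r0 r1) r2
    have e0 : ((X + C c.lam⁻¹) ^ 4 - (X + C 1) *
        (X ^ 3 + C (4 * μ - 1) * X ^ 2 + C (4 * μ ^ 3 - μ ^ 4) * X + C (μ ^ 4)) -
        C 1 * X * (C (6 * μ ^ 2 - (4 * μ - 1) - (4 * μ ^ 3 - μ ^ 4)) * X) : k[X]) = 0 := by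
      rw [← hμ]
      simp only [map_sub, map_mul, map_pow, map_one, map_ofNat]
      ring
    rw [e0] at r3
    have m3 := r.ker _ _ _ (Submodule.sub_mem _ (Submodule.sub_mem _ m0 m1) m2) r3
    refine ⟨3, ![1, 2, 4], ![j1, j2, σ.s ^ 4 - j1 * i1 - j2 * i2], ![i1, i2, 1], ?_, ?_⟩
    · intro l
      fin_cases l
      · exact ⟨by simp, mem_cast hj1 (by simp) (by simp), mem_cast hi1 (by simp) (by simp)⟩
      · exact ⟨by simp, mem_cast hj2 (by simp) (by simp), mem_cast hi2 (by simp) (by simp)⟩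
      · exact ⟨by simp, mem_cast m3 (by simp) (by simp), mem_cast h10 (by simp) (by simp)⟩
    · simp [Fin.sum_univ_succ]
      ring
  · obtain ⟨i2, hi2, ri2⟩ := dm.surjE 5 2 (by norm_num) (by norm_num) (C 1 * X) (glue_CX _ _)
    have m0 : σ.f ^ 2 ∈ c.M 8 4 := mem_cast (mem_pow h hσ.hf 2) (by norm_num) (by norm_num)
    have m2 : j2 * i2 ∈ c.M 8 4 :=
      mem_cast (h.mul_mem _ _ _ _ _ hj2 _ hi2) (by norm_num) (by norm_num)
    have r0 := res_cast (res_pow r hσ.rf 2) (N' := 8) (n' := 4) (by norm_num) (by norm_num)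
    have r2 := res_cast (r.mul _ _ _ _ _ _ _ _ rj2 ri2) (N' := 8) (n' := 4) (by norm_num)
      (by norm_num)
    have r3 := res_sub r r0 r2
    have e0 : (X ^ 2 - C 1 * X * (C 1 * X) : k[X]) = 0 := by
      simp only [map_one]
      ring
    rw [e0] at r3
    have m3 := r.ker _ _ _ (Submodule.sub_mem _ m0 m2) r3
    refine ⟨2, ![2, 4], ![j2, σ.f ^ 2 - j2 * i2], ![i2, 1], ?_, ?_⟩
    · intro l
      fin_cases l
      · exact ⟨by simp, mem_cast hj2 (by simp) (by simp), mem_cast hi2 (by simp) (by simp)⟩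
      · exact ⟨by simp, mem_cast m3 (by simp) (by simp), mem_cast h10 (by simp) (by simp)⟩
    · simp [Fin.sum_univ_succ]

/-- splitting of a glued polynomial along the two coprime powers -/
theorem glue_split (h : GeoFacts c) (q : ℕ) (hq : 1 ≤ q) (i : ℕ) (P : k[X])
    (hP : c.Glue (2 * (3 * q + 1 : ℕ) - i) (3 * q + 1) P) :
    ∃ P₁ P₂ : k[X], c.Glue (2 * (2 * q + 1 : ℕ) - i) (2 * q + 1) P₁ ∧
      c.Glue (2 * (q + 1 : ℕ) - i) (q + 1) P₂ ∧
      P = (X + C c.lam⁻¹) ^ q * P₁ + X ^ q * P₂ := by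
  have hμ : c.lam⁻¹ ≠ 0 := inv_ne_zero h.lam_ne
  set S : k[X] := (X + C c.lam⁻¹) ^ q with hS
  have hSm : S.Monic := monic_X_add _ _
  have hSd : S.natDegree = q := natDegree_X_add _ _
  obtain ⟨A, B, hAB⟩ : IsCoprime S (X ^ (q + 1)) := (coprime_X _ hμ).pow
  set P₃ := (B * P) %ₘ S with hP₃
  have hS1 : S ≠ 1 := by
    intro h1
    rw [h1, natDegree_one] at hSd
    omega
  have hd3 : P₃.natDegree < q := hSd ▸ natDegree_modByMonic_lt _ hSm hS1
  have hdiv := modByMonic_add_div (B * P) S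
  set P₁ := A * P + X ^ (q + 1) * ((B * P) /ₘ S) with hP₁
  have hmain : P = S * P₁ + X ^ q * (X * P₃) := by
    rw [hP₁]
    linear_combination (-P) * hAB - X ^ (q + 1) * hdiv
  have hd2 : (X * P₃).natDegree ≤ q := by
    refine natDegree_mul_le.trans ?_
    rw [natDegree_X]
    omega
  have hd4 : (X ^ q * (X * P₃)).natDegree ≤ 2 * q := by
    refine natDegree_mul_le.trans ?_
    rw [natDegree_X_pow]
    omega
  have hd1 : P₁.natDegree ≤ 2 * q + 1 := by
    by_cases h0 : P₁ = 0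
    · rw [h0]; simp
    have e1 : S * P₁ = P - X ^ q * (X * P₃) := by linear_combination -hmain
    have e2 : (S * P₁).natDegree ≤ 3 * q + 1 := by
      rw [e1]
      exact (natDegree_sub_le _ _).trans (max_le hP.1 (by omega))
    rw [hSm.natDegree_mul' h0, hSd] at e2
    omega
  refine ⟨P₁, X * P₃, ⟨hd1, ?_⟩, ⟨by omega, ?_⟩, hmain⟩
  · have c0 : P.coeff 0 = c.lam⁻¹ ^ q * P₁.coeff 0 := by
      rw [hmain, coeff_add, mul_coeff_zero, mul_coeff_zero, mul_coeff_zero, hS,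
        coeff_zero_eq_eval_zero]
      simp
    have c1 : P.coeff (3 * q + 1) = P₁.coeff (2 * q + 1) := by
      have e3 : (X ^ q * (X * P₃)).coeff (3 * q + 1) = 0 :=
        coeff_eq_zero_of_natDegree_lt (by omega)
      have e4 : (S * P₁).coeff (q + (2 * q + 1)) = S.coeff q * P₁.coeff (2 * q + 1) :=
        coeff_mul_add_eq_of_natDegree_le hSd.le hd1
      have e5 : S.coeff q = 1 := by rw [← hSd]; exact hSm.coeff_natDegree
      rw [hmain, coeff_add, e3, add_zero, show 3 * q + 1 = q + (2 * q + 1) by ring, e4, e5,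
        one_mul]
    have c2 := hP.2
    rw [c0, c1] at c2
    have e6 : c.lam ^ (((2 * q + 1 : ℕ) : ℤ) - (2 * (2 * q + 1 : ℕ) - i)) =
        c.lam ^ q * c.lam ^ (((3 * q + 1 : ℕ) : ℤ) - (2 * (3 * q + 1 : ℕ) - i)) := by
      rw [← zpow_natCast, ← zpow_add₀ h.lam_ne]
      congr 1
      push_cast
      ring
    rw [e6, mul_assoc, ← c2, ← mul_assoc, ← mul_pow, mul_inv_cancel₀ h.lam_ne, one_pow, one_mul]
  · rw [coeff_eq_zero_of_natDegree_lt (p := X * P₃) (n := q + 1) (by omega)]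
    simp

theorem descent (h : GeoFacts c) (r : ResFacts c) (dm : DimFacts c) {σ : Str c} (hσ : σ.Good)
    (q : ℕ) (hq : 1 ≤ q) (w : F) (hw : w ∈ c.M (2 * (3 * q + 1 : ℕ)) (3 * q + 1)) (i : ℕ)
    (hi : i ≤ q) :
    ∃ G₁ G₂ z : F, G₁ ∈ c.M (2 * (2 * q + 1 : ℕ)) (2 * q + 1) ∧
      G₂ ∈ c.M (2 * (q + 1 : ℕ)) (q + 1) ∧ z ∈ c.M (2 * (3 * q + 1 : ℕ) - i) (3 * q + 1) ∧
      w = σ.s ^ q * G₁ + σ.f ^ q * G₂ + z := by
  induction i with
  | zero =>
    exact ⟨0, 0, w, Submodule.zero_mem _, Submodule.zero_mem _, by simpa using hw, by simp⟩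
  | succ i ih =>
    obtain ⟨G₁, G₂, z, h1, h2, hz, e⟩ := ih (by omega)
    obtain ⟨P, hP, hPg⟩ := r.ex _ _ _ hz
    obtain ⟨P₁, P₂, g1, g2, eP⟩ := glue_split h q hq i P hPg
    have n1 : ((2 * (2 * q + 1) - i : ℕ) : ℤ) = 2 * (2 * q + 1 : ℕ) - i := by
      rw [Nat.cast_sub (by omega)]; push_cast; ring
    have n2 : ((2 * (q + 1) - i : ℕ) : ℤ) = 2 * (q + 1 : ℕ) - i := by
      rw [Nat.cast_sub (by omega)]; push_cast; ring
    obtain ⟨a₁, ha₁, ra₁⟩ := dm.surjE (2 * (2 * q + 1) - i) (2 * q + 1) (by omega) (by omega) P₁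
      (by rw [n1]; exact g1)
    obtain ⟨a₂, ha₂, ra₂⟩ := dm.surjE (2 * (q + 1) - i) (q + 1) (by omega) (by omega) P₂
      (by rw [n2]; exact g2)
    rw [n1] at ha₁ ra₁
    rw [n2] at ha₂ ra₂
    have m1 : σ.s ^ q * a₁ ∈ c.M (2 * (3 * q + 1 : ℕ) - i) (3 * q + 1) :=
      mem_cast (h.mul_mem _ _ _ _ _ (mem_pow h hσ.hs q) _ ha₁) (by push_cast; ring) (by ring)
    have m2 : σ.f ^ q * a₂ ∈ c.M (2 * (3 * q + 1 : ℕ) - i) (3 * q + 1) :=
      mem_cast (h.mul_mem _ _ _ _ _ (mem_pow h hσ.hf q) _ ha₂) (by push_cast; ring) (by ring)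
    have r1 := res_cast (r.mul _ _ _ _ _ _ _ _ (res_pow r hσ.rs q) ra₁)
      (N' := 2 * (3 * q + 1 : ℕ) - i) (n' := 3 * q + 1) (by push_cast; ring) (by ring)
    have r2 := res_cast (r.mul _ _ _ _ _ _ _ _ (res_pow r hσ.rf q) ra₂)
      (N' := 2 * (3 * q + 1 : ℕ) - i) (n' := 3 * q + 1) (by push_cast; ring) (by ring)
    have r3 := res_sub r (res_sub r hP r1) r2
    rw [show P - (X + C c.lam⁻¹) ^ q * P₁ - X ^ q * P₂ = 0 by rw [eP]; ring] at r3
    have m3 := r.ker _ _ _ (Submodule.sub_mem _ (Submodule.sub_mem _ hz m1) m2) r3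
    refine ⟨G₁ + a₁, G₂ + a₂, z - σ.s ^ q * a₁ - σ.f ^ q * a₂,
      Submodule.add_mem _ h1 (h.mono _ _ _ _ (by omega) le_rfl ha₁),
      Submodule.add_mem _ h2 (h.mono _ _ _ _ (by omega) le_rfl ha₂),
      mem_cast m3 (by push_cast; ring) rfl, ?_⟩
    rw [e]
    ring

/-- a homogeneous element of the section ring -/
def hom (h : GeoFacts c) (n : ℕ) (g : F) (hg : g ∈ c.M (2 * n) n) : RR h :=
  ⟨monomial n g, GeoFacts.monomial_mem (q := 0) (by simpa using hg)⟩

theorem hom_val (h : GeoFacts c) (n : ℕ) (g : F) (hg : g ∈ c.M (2 * n) n) :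
    (hom h n g hg : F[X]) = monomial n g := rfl

theorem coeff_mem (h : GeoFacts c) (p : RR h) (n : ℕ) : (p : F[X]).coeff n ∈ c.M (2 * n) n := by
  have := p.2 n
  simpa using this

theorem coeff_mul_mono (p : F[X]) (d n : ℕ) (g : F) (hd : d ≤ n) :
    (p * monomial d g).coeff n = p.coeff (n - d) * g := by
  have := coeff_mul_monomial p d (n - d) g
  rwa [show n - d + d = n by omega] at this

theorem tc (hc : c.Good) (h : GeoFacts c) (r : ResFacts c) (dm : DimFacts c) {σ : Str c}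
    (hσ : σ.Good) (hJ : JFacts σ) : TC h := by
  have := hc.char
  have : CharP F 2 := charP_of_injective_algebraMap (algebraMap k F).injective 2
  have : Fact (Nat.Prime 2) := ⟨Nat.prime_two⟩
  have hμ : c.lam⁻¹ ≠ 0 := inv_ne_zero h.lam_ne
  obtain ⟨m, d, j, i, hji, hs4⟩ := hJ.part (σ.s ^ 2) (Or.inl rfl)
  have hj : ∀ l, j l ∈ c.M (2 * d l) (d l) := fun l =>
    h.mono _ _ _ _ (by omega) le_rfl (hji l).2.1
  have hs5 : σ.s ^ 5 ∈ c.M (2 * (5 : ℕ)) 5 :=
    mem_cast (mem_pow h hσ.hs 5) (by norm_num) (by norm_num)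
  have hf2 : σ.f ∈ c.M (2 * (2 : ℕ)) 2 := mem_cast hσ.hf (by norm_num) rfl
  have hu : σ.s ^ 4 * σ.h ∈ c.M (2 * (7 : ℕ)) 7 :=
    mem_cast (h.mul_mem _ _ _ _ _ (mem_pow h hσ.hs 4) _ hσ.hh) (by norm_num) (by norm_num)
  refine ⟨m + 1 + 1, Fin.cons (hom h 5 _ hs5) (Fin.cons (hom h 2 _ hf2)
    fun l => hom h (d l) (j l) (hj l)), hom h 7 _ hu, 8, ?_, ?_⟩
  · intro e
    set q := 2 ^ e with hqe
    have hq : 1 ≤ q := Nat.one_le_two_pow
    have hw : σ.h ^ q ∈ c.M (2 * (3 * q + 1 : ℕ)) (3 * q + 1) :=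
      h.mono _ _ _ _ (by push_cast; omega) (by omega) (mem_pow h hσ.hh q)
    obtain ⟨G₁, G₂, z, h1, h2, hz, eq⟩ := descent h r dm hσ q hq _ hw q le_rfl
    have h2' : σ.s ^ (4 * q) * G₂ ∈ c.M (2 * (5 * q + 1 : ℕ)) (5 * q + 1) :=
      mem_cast (h.mul_mem _ _ _ _ _ (mem_pow h hσ.hs (4 * q)) _ h2) (by push_cast; ring)
        (by ring)
    have h3 : ∀ l, i l ^ q * z ∈ c.M (2 * (q * (4 - d l) + (3 * q + 1) : ℕ))
        (q * (4 - d l) + (3 * q + 1)) := fun l =>
      mem_cast (h.mul_mem _ _ _ _ _ (mem_pow h (hji l).2.2 q) _ hz) (by push_cast; ring) rfl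
    refine ⟨Fin.cons (hom h _ _ h1) (Fin.cons (hom h _ _ h2') fun l => hom h _ _ (h3 l)), ?_, ?_⟩
    · intro l
      refine Fin.cases ?_ (fun l => Fin.cases ?_ (fun l => ?_) l) l
      · simp only [Fin.cons_zero, hom_val]
        exact (natDegree_monomial_le _).trans (by omega)
      · simp only [Fin.cons_succ, Fin.cons_zero, hom_val]
        exact (natDegree_monomial_le _).trans (by omega)
      · simp only [Fin.cons_succ, hom_val]
        refine (natDegree_monomial_le _).trans ?_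
        have : q * (4 - d l) ≤ q * 4 := Nat.mul_le_mul_left _ (by omega)
        omega
    · simp only [Fin.sum_univ_succ, Fin.cons_zero, Fin.cons_succ, hom_val, monomial_pow,
        monomial_mul_monomial]
      have e1 : ∀ l, (monomial (q * (4 - d l) + (3 * q + 1) + d l * q) (i l ^ q * z * j l ^ q) :
          F[X]) = monomial (7 * q + 1) (i l ^ q * z * j l ^ q) := by
        intro l
        congr 2
        obtain ⟨a, ha⟩ := Nat.exists_eq_add_of_le (hji l).1
        rw [show 4 - d l = a by omega]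
        calc q * a + (3 * q + 1) + d l * q = q * (d l + a) + (3 * q + 1) := by ring
          _ = 7 * q + 1 := by rw [← ha]; ring
      simp only [e1]
      rw [← map_sum, show 2 * q + 1 + 5 * q = 7 * q + 1 by ring,
        show 5 * q + 1 + 2 * q = 7 * q + 1 by ring, ← map_add, ← map_add, X_mul, monomial_mul_X]
      congr 1
      have e2 : σ.s ^ (4 * q) = ∑ l, j l ^ q * i l ^ q := by
        have := congrArg (· ^ q) hs4
        simp only [hqe, sum_pow_char_pow, mul_pow] at this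
        rw [← this, hqe]
        ring
      have e3 : ∑ l, i l ^ q * z * j l ^ q = σ.s ^ (4 * q) * z := by
        rw [e2, Finset.sum_mul]
        exact Finset.sum_congr rfl fun l _ => by ring
      rw [e3, mul_pow, eq]
      ring
  · intro w hw ρ heq
    have hw0 : (w : F[X]).coeff 0 ≠ 0 := by
      intro h0
      exact hw h0
    obtain ⟨t, ht⟩ := r.const _ _ (coeff_mem h w 0)
    have ht0 : t ≠ 0 := by
      rintro rfl
      exact hw0 (by simpa using ht)
    have e0 := congrArg (fun p : RR h => (p : F[X]).coeff 7) heq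
    simp only [Fin.sum_univ_succ, Fin.cons_zero, Fin.cons_succ, MulMemClass.coe_mul,
      AddMemClass.coe_add, AddSubmonoidClass.coe_finsetSum, hom_val, coeff_add,
      finsetSum_coeff] at e0
    rw [coeff_mul_mono _ _ _ _ le_rfl, coeff_mul_mono _ _ _ _ (by norm_num),
      coeff_mul_mono _ _ _ _ (by norm_num)] at e0
    have e1 : ∀ l : Fin m, ((ρ l.succ.succ : F[X]) * monomial (d l) (j l)).coeff 7 =
        (ρ l.succ.succ : F[X]).coeff (7 - d l) * j l := fun l =>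
      coeff_mul_mono _ _ _ _ (by have := (hji l).1; omega)
    simp only [e1] at e0
    obtain ⟨P₁, rP₁, gP₁⟩ := r.ex _ _ _ (coeff_mem h (ρ 0) (7 - 5))
    obtain ⟨P₂, rP₂, gP₂⟩ := r.ex _ _ _ (coeff_mem h (ρ (Fin.succ 0)) (7 - 2))
    have r1 := res_cast (r.mul _ _ _ _ _ _ _ _ rP₁ (res_pow r hσ.rs 5)) (N' := 14) (n' := 7)
      (by norm_num) (by norm_num)
    have r2 := res_cast (r.mul _ _ _ _ _ _ _ _ rP₂ hσ.rf) (N' := 14) (n' := 7)
      (by norm_num) (by norm_num)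
    have r3 : c.IsRes 14 7 (∑ l, (ρ l.succ.succ : F[X]).coeff (7 - d l) * j l) 0 := by
      refine res_sum r _ _ fun l _ => r.low _ _ _ ?_
      have hd := (hji l).1
      refine mem_cast (h.mul_mem _ _ _ _ _ (coeff_mem h _ _) _ (hji l).2.1) ?_ (by omega)
      rw [Nat.cast_sub (by omega)]
      push_cast
      ring
    have r4 := r.add _ _ _ _ _ _ r1 (r.add _ _ _ _ _ _ r2 r3)
    rw [← e0, show 7 - 7 = 0 from rfl, ht] at r4
    have r5 := res_cast (r.mul _ _ _ _ _ _ _ _ (res_const (c := c) t)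
      (r.mul _ _ _ _ _ _ _ _ (res_pow r hσ.rs 4) hσ.rh)) (N' := 14) (n' := 7)
      (by norm_num) (by norm_num)
    have e2 := r.uniq _ _ _ _ _ r4 r5
    set μ := c.lam⁻¹ with hμe
    have c0 : P₁.coeff 0 = 0 := by
      have := congrArg (eval 0) e2
      simp only [eval_add, eval_mul, eval_pow, eval_X, eval_C, mul_zero, add_zero, zero_add]
        at this
      rw [coeff_zero_eq_eval_zero]
      exact (mul_eq_zero.mp this).resolve_right (pow_ne_zero _ hμ)
    have c2 : P₁.coeff 2 = 0 := by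
      have := gP₁.2
      rw [c0] at this
      exact (mul_eq_zero.mp this.symm).resolve_left (zpow_ne_zero _ h.lam_ne)
    have c1 : P₁ = C (P₁.coeff 1) * X := by
      ext n
      rcases n with _ | _ | _ | n
      · simp [c0]
      · simp
      · simp [c2, coeff_X]
      · rw [coeff_eq_zero_of_natDegree_lt (lt_of_le_of_lt gP₁.1 (by omega))]
        simp [coeff_X]
    have e3 : P₂ = C t * (X + C μ) ^ 4 - C (P₁.coeff 1) * (X + C μ) ^ 5 := by
      have : X * (P₂ - (C t * (X + C μ) ^ 4 - C (P₁.coeff 1) * (X + C μ) ^ 5)) = 0 := by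
        rw [c1] at e2
        linear_combination e2
      exact sub_eq_zero.mp ((mul_eq_zero.mp this).resolve_left X_ne_zero)
    have c3 : P₂.coeff 0 = t * μ ^ 4 - P₁.coeff 1 * μ ^ 5 := by
      rw [e3, coeff_zero_eq_eval_zero]
      simp
    have c4 : P₂.coeff 5 = -P₁.coeff 1 := by
      have a1 : ((X + C μ : k[X]) ^ 4).coeff 5 = 0 :=
        coeff_eq_zero_of_natDegree_lt (by rw [natDegree_X_add]; norm_num)
      have a2 : ((X + C μ : k[X]) ^ 5).coeff 5 = 1 := by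
        have := (monic_X_add μ 5).coeff_natDegree
        rwa [natDegree_X_add] at this
      rw [e3, coeff_sub, coeff_C_mul, coeff_C_mul, a1, a2]
      ring
    have c5 := gP₂.2
    have c6 : c.lam ^ (((7 - 2 : ℕ) : ℤ) - 2 * (7 - 2 : ℕ)) = μ ^ 5 := by
      rw [hμe, inv_pow]
      norm_num
    rw [c6, c3, show 7 - 2 = 5 from rfl, c4] at c5
    have : t * μ ^ 4 = 0 := by linear_combination c5
    exact mul_ne_zero ht0 (pow_ne_zero _ hμ) this

end JAux

theorem jS : S_J := fun _ _ _ _ _ _ _ _ h r dm hσ =>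
  ⟨JAux.zneg h r hσ, JAux.part h r dm hσ⟩

theorem tcS : S_TC := fun _ _ _ _ _ _ h _ hc r dm hσ hJ => JAux.tc hc h r dm hσ hJ

end

end Pool.Agent.P.MP_3a4479_al
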