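import Pool.Agent.P.MP_3a4479_al.Defs

set_option autoImplicit false

namespace Pool.Agent.P.MP_3a4479_al

open Polynomial
open scoped NNReal

namespace LabelAux

theorem val_prod_sub_one {L ι : Type} [Field L] (W : Valuation L ℝ≥0) (s : Finset ι) (t : ι → L)
    (h : ∀ i ∈ s, W (t i - 1) < 1) : W (∏ i ∈ s, t i - 1) < 1 := by
  classical
  induction s using Finset.induction_on with
  | empty => simp
  | insert a s ha ih =>
    rw [Finset.prod_insert ha]
    have h1 := h a (Finset.mem_insert_self _ _)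
    have h2 := ih fun i hi => h i (Finset.mem_insert_of_mem hi)
    have e : t a * ∏ i ∈ s, t i - 1 =
        (t a - 1) * (∏ i ∈ s, t i - 1) + ((t a - 1) + (∏ i ∈ s, t i - 1)) := by ring
    rw [e]
    refine W.map_add_lt ?_ (W.map_add_lt h1 h2)
    rw [map_mul]
    exact mul_lt_one_of_nonneg_of_lt_one_left zero_le h1 h2.le

theorem val_prod_lt {L ι : Type} [Field L] (W : Valuation L ℝ≥0) (s : Finset ι) (t : ι → L)
    (hs : s.Nonempty) (h : ∀ i ∈ s, W (t i) < 1) : W (∏ i ∈ s, t i) < 1 := by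
  classical
  obtain ⟨a, ha⟩ := hs
  rw [← Finset.mul_prod_erase s t ha, map_mul, map_prod]
  exact mul_lt_one_of_nonneg_of_lt_one_left zero_le (h a ha)
    (Finset.prod_le_one' fun i hi => (h i (Finset.mem_of_mem_erase hi)).le)

/-- some iterated square of an algebraic element is separable -/
theorem exists_pow_sep {K E : Type} [Field K] [Field E] [Algebra K E] [CharP K 2] (z : E)
    (hz : IsAlgebraic K z) : ∃ r : ℕ, z ^ 2 ^ r ∈ separableClosure K E := by
  obtain ⟨g, hg, m, hm⟩ := (minpoly.irreducible hz.isIntegral).hasSeparableContraction 2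
  refine ⟨m, hg.of_dvd (minpoly.dvd K _ ?_)⟩
  rw [← Polynomial.expand_aeval, hm, minpoly.aeval]

theorem exists_pow_sep_fin {K E ι : Type} [Field K] [Field E] [Algebra K E] [CharP K 2]
    [Finite ι] (z : ι → E) (hz : ∀ i, IsAlgebraic K (z i)) :
    ∃ r : ℕ, ∀ i, z i ^ 2 ^ r ∈ separableClosure K E := by
  choose r hr using fun i => exists_pow_sep (z i) (hz i)
  obtain ⟨R, hR⟩ := (Set.finite_range r).bddAbove
  refine ⟨R, fun i => ?_⟩
  obtain ⟨d, hd⟩ := Nat.exists_eq_add_of_le (hR ⟨i, rfl⟩)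
  rw [hd, pow_add, pow_mul]
  exact pow_mem (hr i) _

variable {k F : Type} [Field k] [Field F] [Algebra k F]

theorem small_pow {L : Type} [Field L] [Algebra F L] {c : Ctx k F} (hg : GeoFacts c) {j : Fin 9}
    {z : L} (h : Small c j z) {Q : ℕ} (hQ : 1 ≤ Q) : Small c j (z ^ Q) := by
  obtain ⟨U, hU, hUb, hint⟩ := h
  obtain ⟨Q, rfl⟩ : ∃ Q', Q = Q' + 1 := ⟨Q - 1, by omega⟩
  refine ⟨U ^ (Q + 1), pow_mem hU _, ?_, ?_⟩
  · clear hQ
    induction Q with
    | zero => simpa using hUb
    | succ Q ih =>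
      intro p hp e
      rw [pow_succ] at e
      rcases hg.prime_b j _ (pow_mem hU _) _ hU p hp e with ⟨r, hr, e'⟩ | ⟨r, hr, e'⟩
      · exact ih r hr e'
      · exact hUb r hr e'
  · have hb : IsIntegral (c.A j) (algebraMap F L (c.b j)) :=
      isIntegral_algebraMap (R := c.A j) (x := ⟨c.b j, hg.b_mem j⟩)
    have := (hb.pow Q).mul (hint.pow (Q + 1))
    have hb0 : algebraMap F L (c.b j) ≠ 0 := by simpa using hg.b_ne j
    have e : algebraMap F L (U ^ (Q + 1) / c.b j) * z ^ (Q + 1) =
        algebraMap F L (c.b j) ^ Q * (algebraMap F L (U / c.b j) * z) ^ (Q + 1) := by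
      simp only [map_div₀, map_pow, map_mul, mul_pow, div_pow, pow_succ]
      field_simp
    rw [e]
    exact this

theorem small_coe {E : Type} [Field E] [Algebra F E] {c : Ctx k F} {j : Fin 9}
    (L : IntermediateField F E) (z : L) (h : Small c j (z : E)) : Small c j z := by
  obtain ⟨U, hU, hUb, hint⟩ := h
  exact ⟨U, hU, hUb, IntermediateField.coe_isIntegral_iff.mp hint⟩

theorem s_ne {c : Ctx k F} (hg : GeoFacts c) {σ : Str c} (hσ : σ.Good) : σ.s ≠ 0 := by
  intro h0
  obtain ⟨p, hp, e⟩ := hσ.rs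
  rw [h0, zero_mul] at e
  have := hg.uniq_b 0 (X + C c.lam⁻¹) (-p) (neg_mem hp) (by linear_combination -e)
  exact X_add_C_ne_zero _ this

theorem f_ne {c : Ctx k F} (hg : GeoFacts c) {σ : Str c} (hσ : σ.Good) : σ.f ≠ 0 := by
  intro h0
  obtain ⟨p, hp, e⟩ := hσ.rf
  rw [h0, zero_mul] at e
  have := hg.uniq_b 0 X (-p) (neg_mem hp) (by linear_combination -e)
  exact X_ne_zero this

end LabelAux

open LabelAux

theorem labelS : S_Label := by
  classical
  intro k F L _ _ _ _ _ _ _ c ν w hc hg hν hext hpl hconn hAS hθ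
  have := hc.char
  obtain ⟨θ, κ, hκ, hθ⟩ := hθ
  set χ : (L ≃ₐ[F] L) → k := fun g => θ (0, g) - θ (0, 1) with hχ
  have hδ : ∀ (g : L ≃ₐ[F] L) (p p' : Pl F L),
      θ (p.1, p.2 * g) - θ p = θ (p'.1, p'.2 * g) - θ p' := by
    intro g p p'
    induction hconn p p' with
    | rel p p' h =>
      obtain ⟨i, h⟩ := h
      have h1 := hθ i p p' h
      have h2 := hθ i _ _ (hpl.inv i p.1 p'.1 p.2 p'.2 g h)
      simp only at h2
      linear_combination h2 - h1
    | refl p => rfl
    | symm p p' _ ih => exact ih.symm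
    | trans p p' p'' _ _ ih1 ih2 => exact ih1.trans ih2
  have hmul : ∀ j (σ g : L ≃ₐ[F] L), θ (j, σ * g) = θ (j, σ) + χ g := by
    intro j σ g
    have := hδ g (j, σ) (0, 1)
    simp only [one_mul] at this
    simp only [hχ]
    linear_combination this
  have hχmul : ∀ g g', χ (g * g') = χ g + χ g' := by
    intro g g'
    have := hmul 0 g g'
    simp only [hχ] at this ⊢
    linear_combination this
  by_cases hall : ∀ g, χ g = 0
  · have hj : ∀ j σ, θ (j, σ) = θ (j, 1) := fun j σ => by
      have := hmul j 1 σ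
      rwa [one_mul, hall, add_zero] at this
    have hstep : ∀ i : Fin 9, θ (i, 1) + (if i = 0 then κ else 0) = θ (i + 1, 1) := by
      intro i
      obtain ⟨σ', h⟩ := hpl.next i 1
      have := hθ i _ _ h
      simp only [and_self] at this
      rw [this, hj, if_neg, add_zero]
      rintro ⟨rfl, h⟩
      exact absurd h (by decide)
    have hsum := Finset.sum_congr (s₁ := Finset.univ) rfl fun i _ => hstep i
    rw [Finset.sum_add_distrib, Finset.sum_ite_eq', if_pos (Finset.mem_univ _),
      Equiv.sum_comp (Equiv.addRight (1 : Fin 9)) (fun i => θ (i, 1)) |>.symm] at hsum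
    exact hκ (by simpa using hsum)
  push Not at hall
  obtain ⟨g₀, hg₀⟩ := hall
  let := ZMod.algebra k 2
  obtain ⟨l, hl⟩ := Module.Projective.exists_dual_eq_one (ZMod 2) hg₀
  have hχ1 : χ 1 = 0 := by simp [hχ]
  have hχinv : ∀ g, χ g⁻¹ = -χ g := fun g => by
    have := hχmul g g⁻¹
    rw [mul_inv_cancel, hχ1] at this
    linear_combination -this
  let H : Subgroup (L ≃ₐ[F] L) :=
    { carrier := {g | l (χ g) = 0}
      mul_mem' := fun {a b} ha hb => by
        change l (χ (a * b)) = 0
        rw [hχmul, map_add, show l (χ a) = 0 from ha, show l (χ b) = 0 from hb, add_zero]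
      one_mem' := by change l (χ 1) = 0; rw [hχ1, map_zero]
      inv_mem' := fun {a} ha => by
        change l (χ a⁻¹) = 0
        rw [hχinv, map_neg, show l (χ a) = 0 from ha, neg_zero] }
  have hH : ∀ g, g ∈ H ↔ l (χ g) = 0 := fun g => Iff.rfl
  have hcases : ∀ t : ZMod 2, t = 0 ∨ t = 1 := by decide
  let S : Fin 9 → Set (Pl F L) := fun i =>
    {p | l (θ p + (if i = 0 ∧ p.1 = 0 then κ else 0)) = 0}
  have hS : ∀ i j σ g, ((j, σ * g) : Pl F L) ∈ S i ↔
      l (θ (j, σ) + (if i = 0 ∧ j = 0 then κ else 0)) + l (χ g) = 0 := by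
    intro i j σ g
    change l (θ (j, σ * g) + (if i = 0 ∧ j = 0 then κ else 0)) = 0 ↔ _
    rw [hmul, ← map_add, add_right_comm]
  choose t ht using fun i => hpl.crt i (S i) fun p p' h => by
    change l _ = 0 ↔ l _ = 0
    rw [hθ i p p' h]
  let β : Fin 9 → L := fun i => ∏ h : H, (h : L ≃ₐ[F] L) (t i)
  have hβint : ∀ i, IsIntegral (c.A i) (β i) := fun i =>
    IsIntegral.prod _ fun h _ => (ht i).1.map (h : L ≃ₐ[F] L)
  have hβ1 : ∀ i j σ, InCh i ((j, σ) : Pl F L) → ((j, σ) : Pl F L) ∈ S i →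
      w j (σ (β i) - 1) < 1 := by
    intro i j σ hin hp
    simp only [β, map_prod]
    refine val_prod_sub_one _ _ _ fun h _ => ?_
    have := ((ht i).2 (j, σ * h) hin).1 (by
      rw [hS, (hH _).mp h.2, add_zero]; exact hp)
    simpa [wp] using this
  have hβ0 : ∀ i j σ, InCh i ((j, σ) : Pl F L) → ((j, σ) : Pl F L) ∉ S i →
      w j (σ (β i)) < 1 := by
    intro i j σ hin hp
    rw [show σ (β i) = ∏ h : H, σ ((h : L ≃ₐ[F] L) (t i)) from map_prod σ _ _]
    refine val_prod_lt (w j) Finset.univ _ ⟨(1 : H), Finset.mem_univ _⟩ fun h _ => ?_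
    have := ((ht i).2 (j, σ * h) hin).2 (by
      rw [hS, (hH _).mp h.2, add_zero]; exact hp)
    simpa [wp] using this
  have hsmall : ∀ i j, InCh i ((j, 1) : Pl F L) → w j (β i + g₀ (β i) - 1) < 1 := by
    intro i j hin
    have hin' : InCh i ((j, g₀) : Pl F L) := hin
    have hiff := hS i j 1 g₀
    rw [one_mul, hl] at hiff
    by_cases hp : ((j, 1) : Pl F L) ∈ S i
    · have hp' : ((j, g₀) : Pl F L) ∉ S i := by
        rw [hiff, show l (θ (j, 1) + (if i = 0 ∧ j = 0 then κ else 0)) = 0 from hp]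
        decide
      have e : β i + g₀ (β i) - 1 = (β i - 1) + g₀ (β i) := by ring
      rw [e]
      exact (w j).map_add_lt (hβ1 i j 1 hin hp) (hβ0 i j g₀ hin' hp')
    · have hp' : ((j, g₀) : Pl F L) ∈ S i := by
        rw [hiff, (hcases _).resolve_left hp]
        decide
      have e : β i + g₀ (β i) - 1 = β i + (g₀ (β i) - 1) := by ring
      rw [e]
      exact (w j).map_add_lt (hβ0 i j 1 hin hp) (hβ1 i j g₀ hin' hp')
  have hK1 : ∀ z ∈ IntermediateField.fixedField H, g₀ z ∈ IntermediateField.fixedField H := by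
    intro z hz
    rw [IntermediateField.mem_fixedField_iff] at hz ⊢
    intro h hh
    have hm : g₀⁻¹ * h * g₀ ∈ H := by
      rw [hH, hχmul, hχmul, hχinv, map_add, map_add, map_neg, (hH h).mp hh]
      ring
    have := congrArg g₀ (hz _ hm)
    simpa using this
  have hK2 : ∀ z ∈ IntermediateField.fixedField H, g₀ (g₀ z) = z := by
    intro z hz
    rw [IntermediateField.mem_fixedField_iff] at hz
    exact hz (g₀ * g₀) (by rw [hH, hχmul, map_add, hl]; decide)
  have hK3 : ∀ z ∈ IntermediateField.fixedField H, g₀ z = z → z ∈ (algebraMap F L).range := by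
    intro z hz h0
    rw [IntermediateField.mem_fixedField_iff] at hz
    have : z ∈ (⊥ : IntermediateField F L) := by
      rw [IsGalois.mem_bot_iff_fixed]
      intro g
      rcases hcases (l (χ g)) with h | h
      · exact hz g h
      · have hm : g * g₀ ∈ H := by rw [hH, hχmul, map_add, h, hl]; decide
        have := hz _ hm
        rwa [AlgEquiv.mul_apply, h0] at this
    exact IntermediateField.mem_bot.mp this
  have hβK : ∀ i, β i ∈ IntermediateField.fixedField H := by
    intro i
    rw [IntermediateField.mem_fixedField_iff]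
    intro h hh
    simp only [β, map_prod]
    exact Equiv.prod_comp (Equiv.mulLeft (⟨h, hh⟩ : H)) fun h' : H => (h' : L ≃ₐ[F] L) (t i)
  refine hAS L (IntermediateField.fixedField H) g₀ β hK1 hK2 hK3 fun i => ⟨hβK i, hβint i, ?_⟩
  obtain ⟨f, hf⟩ := hK3 (β i + g₀ (β i)) (add_mem (hβK i) (hK1 _ (hβK i)))
    (by rw [map_add, hK2 _ (hβK i), add_comm])
  have hfint : IsIntegral (c.A i) f := by
    have h1 : IsIntegral (c.A i) (β i + g₀ (β i)) := (hβint i).add ((hβint i).map g₀)
    rw [← hf] at h1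
    exact (isIntegral_algebraMap_iff (algebraMap F L).injective).mp h1
  have hf1 : ∀ j, InCh i ((j, 1) : Pl F L) → ν j (f - 1) < 1 := by
    intro j hin
    rw [← hext, map_sub, map_one, hf]
    exact hsmall i j hin
  obtain ⟨p, hp, e⟩ := hν.lt_e i (f - 1) (sub_mem (hg.int_mem i f hfint) (one_mem _))
    (hf1 i (Or.inl rfl)) (hf1 (i + 1) (Or.inr rfl))
  exact ⟨p, hp, by rw [← hf, ← e, add_sub_cancel]⟩

theorem galS : S_Gal := by
  classical
  intro k F E _ _ _ _ _ _ c σ q β β' hc hg _ hGR
  have := hc.char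
  have : CharP F 2 := charP_of_injective_algebraMap (algebraMap k F).injective 2
  have : CharP E 2 := charP_of_injective_algebraMap (algebraMap F E).injective 2
  have : Algebra.IsAlgebraic F E := IsAlgClosure.isAlgebraic
  obtain ⟨r, hr⟩ := exists_pow_sep_fin (K := F) (Sum.elim β β')
    fun i => Algebra.IsAlgebraic.isAlgebraic _
  set T : Set E := Set.range fun i => Sum.elim β β' i ^ 2 ^ r with hT
  have : Finite T := Set.finite_range _
  have : FiniteDimensional F (IntermediateField.adjoin F T) :=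
    IntermediateField.finiteDimensional_adjoin fun x _ => Algebra.IsIntegral.isIntegral x
  have : Algebra.IsSeparable F (IntermediateField.adjoin F T) :=
    (IntermediateField.isSeparable_adjoin_iff_isSeparable F E).mpr
      (by rintro _ ⟨i, rfl⟩; exact hr i)
  set L := IntermediateField.normalClosure F (IntermediateField.adjoin F T) E with hL
  have hsep : Algebra.IsSeparable F L :=
    (le_separableClosure_iff F E L).mp (normalClosure_le_iff.mpr fun f =>
      have : Algebra.IsSeparable F f.fieldRange :=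
        AlgEquiv.Algebra.isSeparable (AlgEquiv.ofInjectiveField f)
      le_separableClosure F E _)
  have hmem : ∀ i, Sum.elim β β' i ^ 2 ^ r ∈ L := fun i =>
    IntermediateField.le_normalClosure _ (IntermediateField.subset_adjoin F T ⟨i, rfl⟩)
  have hQ : 1 ≤ 2 ^ r := Nat.one_le_two_pow
  refine ⟨L, inferInstance, {}, q * 2 ^ r, fun j => ⟨β j ^ 2 ^ r, hmem (Sum.inl j)⟩,
    fun j => ⟨β' j ^ 2 ^ r, hmem (Sum.inr j)⟩, Nat.mul_pos hGR.qpos hQ, fun j => ?_, fun j => ?_,
    fun i => small_coe L _ ?_, small_coe L _ ?_, small_coe L _ ?_⟩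
  · obtain ⟨M, hM⟩ := hGR.ints j
    refine ⟨M * 2 ^ r, IntermediateField.coe_isIntegral_iff.mp ?_⟩
    have := hM.pow (2 ^ r)
    rw [mul_pow, ← pow_mul] at this
    exact this
  · obtain ⟨M, hM⟩ := hGR.intf j
    refine ⟨M * 2 ^ r, IntermediateField.coe_isIntegral_iff.mp ?_⟩
    have := hM.pow (2 ^ r)
    rw [mul_pow, ← pow_mul] at this
    exact this
  · have := small_pow hg (hGR.difs i) hQ
    rw [sub_pow_char_pow] at this
    exact this
  · have := small_pow hg hGR.diff hQ
    rw [sub_pow_char_pow] at this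
    exact this
  · have := small_pow hg hGR.jump hQ
    rw [sub_pow_char_pow, sub_pow_char_pow, ← map_pow, ← pow_mul] at this
    exact this

theorem sepS : S_Sep := by
  classical
  intro k F K Ω _ _ _ _ _ _ _ _ _ _ c h σ q M n ys yf j t hc hσ hR
  have := hc.char
  have : CharP F 2 := charP_of_injective_algebraMap (algebraMap k F).injective 2
  have : CharP K 2 := charP_of_injective_algebraMap (IsFractionRing.injective F[X] K) 2
  have : CharP Ω 2 := charP_of_injective_algebraMap (algebraMap K Ω).injective 2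
  have hinj : Function.Injective (algebraMap F[X] Ω) := by
    rw [IsScalarTower.algebraMap_eq F[X] K Ω]
    exact (algebraMap K Ω).injective.comp (IsFractionRing.injective F[X] K)
  have halg : ∀ z : Ω, IsIntegral (RR h) z → IsIntegral K z := fun z hz =>
    (hz.tower_top (A := F[X])).tower_top
  have halg' : ∀ (x : F[X]) (y : Ω), x ≠ 0 →
      IsIntegral (RR h) (algebraMap F[X] Ω x ^ M * y) → IsIntegral K y := by
    intro x y hx hy
    have hx0 : algebraMap F[X] Ω x ≠ 0 := fun h0 => hx (hinj (by rw [h0, map_zero]))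
    have h1 : IsIntegral K (algebraMap K Ω ((algebraMap F[X] K x ^ M)⁻¹)) := isIntegral_algebraMap
    have := h1.mul (halg _ hy)
    rwa [map_inv₀, map_pow, ← IsScalarTower.algebraMap_apply, ← mul_assoc,
      inv_mul_cancel₀ (pow_ne_zero _ hx0), one_mul] at this
  let z : Option (Option (Fin n)) → Ω := fun o => o.elim ys fun o' => o'.elim yf t
  have hz : ∀ o, IsIntegral K (z o) := by
    rintro (_ | _ | i)
    · exact halg' _ _ (by simpa using s_ne h hσ) hR.sint
    · exact halg' _ _ (by simpa using f_ne h hσ) hR.fint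
    · exact halg _ (hR.tint i)
  obtain ⟨r, hr⟩ := exists_pow_sep_fin (K := K) z fun o => (hz o).isAlgebraic
  set T : Set Ω := Set.range fun o => z o ^ 2 ^ r with hT
  have : Finite T := Set.finite_range _
  set L := IntermediateField.adjoin K T with hL
  have hmem : ∀ o, z o ^ 2 ^ r ∈ L := fun o => IntermediateField.subset_adjoin K T ⟨o, rfl⟩
  have hQ : 1 ≤ 2 ^ r := Nat.one_le_two_pow
  have hco : ∀ y : L, IsIntegral (RR h) (y : Ω) → IsIntegral (RR h) y := by
    intro y hy
    obtain ⟨p, hp, e⟩ := hy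
    refine ⟨p, hp, ?_⟩
    apply (algebraMap L Ω).injective
    rw [Polynomial.hom_eval₂, map_zero, ← e]
    congr 1
  have hcoe : ∀ x : F[X], ((algebraMap F[X] L x : L) : Ω) = algebraMap F[X] Ω x := fun x => rfl
  refine ⟨L, IntermediateField.finiteDimensional_adjoin
      (by rintro _ ⟨o, rfl⟩; exact (hz o).pow _),
    (IntermediateField.isSeparable_adjoin_iff_isSeparable K Ω).mpr
      (by rintro _ ⟨o, rfl⟩; exact hr o),
    q * 2 ^ r, M * 2 ^ r, ⟨ys ^ 2 ^ r, hmem none⟩, ⟨yf ^ 2 ^ r, hmem (some none)⟩,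
    fun i => j i ^ 2 ^ r, fun i => ⟨t i ^ 2 ^ r, hmem (some (some i))⟩,
    Nat.mul_pos hR.qpos hQ, fun i => ?_, fun i => hco _ ((hR.tint i).pow _), hco _ ?_, hco _ ?_,
    ?_⟩
  · have h0 : j i ∈ RR h := fun m =>
      h.mono _ _ _ _ (by omega) le_rfl (hR.jmem i m)
    obtain ⟨Q, hQ'⟩ : ∃ Q, 2 ^ r = Q + 1 := ⟨2 ^ r - 1, by omega⟩
    rw [hQ', pow_succ]
    simpa using h.JJ_mul ((RR h).pow_mem h0 Q) (hR.jmem i)
  · have := hR.sint.pow (2 ^ r)
    rw [mul_pow, ← pow_mul] at this
    simpa [hcoe] using this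
  · have := hR.fint.pow (2 ^ r)
    rw [mul_pow, ← pow_mul] at this
    simpa [hcoe] using this
  · apply Subtype.ext
    have := congrArg (· ^ 2 ^ r) hR.rel
    simp only [mul_pow, sum_pow_char_pow, add_pow_char_pow, sub_pow_char_pow] at this
    rw [← pow_mul, ← map_pow (algebraMap F[X] Ω) (C _), ← map_pow (C : F →+* F[X]),
      ← pow_mul] at this
    push_cast [hcoe]
    simpa only [map_mul, map_pow] using this

end Pool.Agent.P.MP_3a4479_al
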