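import Pool.Agent.P.MP_3a4479_al.Defs

set_option autoImplicit false

namespace Pool.Agent.P.MP_3a4479_al

open Polynomial Filter
open scoped NNReal

namespace MonoAux

/-- logarithm of a valuation -/
noncomputable def lg {L : Type} [Field L] (W : Valuation L ℝ≥0) (z : L) : ℝ :=
  Real.log (W z : ℝ)

section Lg

variable {L : Type} [Field L] (W : Valuation L ℝ≥0)

theorem val_pos {z : L} (hz : z ≠ 0) : (0 : ℝ) < (W z : ℝ) := by
  have : W z ≠ 0 := (Valuation.ne_zero_iff W).mpr hz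
  exact_mod_cast pos_iff_ne_zero.mpr this

theorem lg_mul {z z' : L} (hz : z ≠ 0) (hz' : z' ≠ 0) : lg W (z * z') = lg W z + lg W z' := by
  unfold lg
  rw [map_mul, NNReal.coe_mul, Real.log_mul (val_pos W hz).ne' (val_pos W hz').ne']

theorem lg_pow (z : L) (n : ℕ) : lg W (z ^ n) = n * lg W z := by
  unfold lg
  rw [map_pow, NNReal.coe_pow, Real.log_pow]

theorem lg_zpow (z : L) (n : ℤ) : lg W (z ^ n) = n * lg W z := by
  unfold lg
  rw [map_zpow₀, NNReal.coe_zpow, Real.log_zpow]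

theorem lg_prod {ι : Type} (s : Finset ι) (z : ι → L) (hz : ∀ i, z i ≠ 0) :
    lg W (∏ i ∈ s, z i) = ∑ i ∈ s, lg W (z i) := by
  unfold lg
  rw [map_prod, NNReal.coe_prod, Real.log_prod fun i _ => (val_pos W (hz i)).ne']

theorem lg_le {W' : Valuation L ℝ≥0} {z z' : L} (hz : z ≠ 0) (hz' : z' ≠ 0) {ρ : ℝ≥0}
    (hρ : 1 ≤ ρ) (m : ℕ) (h : W z ≤ ρ ^ m * W' z') : lg W z ≤ m * Real.log ρ + lg W' z' := by
  unfold lg
  have hρ' : (0 : ℝ) < ρ := by exact_mod_cast lt_of_lt_of_le one_pos hρ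
  rw [← Real.log_pow, ← Real.log_mul (pow_pos hρ' m).ne' (val_pos W' hz').ne']
  refine Real.log_le_log (val_pos W hz) ?_
  exact_mod_cast h

theorem ev_one {T Ψ : L} (hΨ : Ψ ≠ 0) (hT : W (T - 1) < 1) :
    ∀ᶠ Q : ℕ in atTop, W (T ^ Q * Ψ + (1 - T) ^ Q) = W Ψ := by
  have hT1 : W T = 1 := by
    have := W.map_one_add_of_lt hT
    rwa [add_sub_cancel] at this
  have h1 : W (1 - T) < 1 := by rwa [W.map_sub_swap]
  have h2 : 0 < W Ψ := pos_iff_ne_zero.mpr ((Valuation.ne_zero_iff W).mpr hΨ)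
  have h3 := (NNReal.tendsto_pow_atTop_nhds_zero_of_lt_one h1).eventually (gt_mem_nhds h2)
  filter_upwards [h3] with Q hQ
  have h4 : W (T ^ Q * Ψ) = W Ψ := by rw [map_mul, map_pow, hT1, one_pow, one_mul]
  rw [W.map_add_eq_of_lt_left (by rw [h4, map_pow]; exact hQ), h4]

theorem ev_zero {T : L} (Ψ : L) (hT : W T < 1) :
    ∀ᶠ Q : ℕ in atTop, W (T ^ Q * Ψ + (1 - T) ^ Q) = 1 := by
  have h1 : W (1 - T) = 1 := W.map_one_sub_of_lt hT
  have h3 := ((NNReal.tendsto_pow_atTop_nhds_zero_of_lt_one hT).mul_const (W Ψ)).eventually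
    (gt_mem_nhds (by simp : (0 : ℝ≥0) * W Ψ < 1))
  filter_upwards [h3] with Q hQ
  have h4 : W ((1 - T) ^ Q) = 1 := by rw [map_pow, h1, one_pow]
  rw [W.map_add_eq_of_lt_right (by rw [h4, map_mul, map_pow]; exact hQ), h4]

end Lg

theorem exists_ratio {L I J : Type} [Field L] [Finite I] [Finite J] (U : I → Valuation L ℝ≥0)
    (s : J → L) (hs : ∀ j, s j ≠ 0) :
    ∃ ρ : ℝ≥0, 1 ≤ ρ ∧ ∀ i i' j, U i (s j) ≤ ρ * U i' (s j) := by
  obtain ⟨ρ, hρ⟩ := (Set.finite_range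
    fun p : I × I × J => U p.1 (s p.2.2) / U p.2.1 (s p.2.2)).bddAbove
  refine ⟨max 1 ρ, le_max_left _ _, fun i i' j => ?_⟩
  have h1 : U i (s j) / U i' (s j) ≤ ρ := hρ ⟨(i, i', j), rfl⟩
  have h2 : 0 < U i' (s j) := pos_iff_ne_zero.mpr ((Valuation.ne_zero_iff _).mpr (hs j))
  rw [div_le_iff₀ h2] at h1
  exact h1.trans (by gcongr; exact le_max_right _ _)

theorem gauss_le {k F : Type} [Field k] [Field F] [Algebra k F] (W W' : Valuation F ℝ≥0)
    (a b : F) (hk : ∀ r : k, W (algebraMap k F r) = W' (algebraMap k F r))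
    (hG : IsGauss k W' a b) {ρ : ℝ≥0} (hρ : 1 ≤ ρ) (ha : W a ≤ ρ * W' a) (hb : W b ≤ ρ * W' b)
    (P : P2 k) {D : ℕ} (hD : P.totalDegree ≤ D) :
    W (ev2 k a b P) ≤ ρ ^ D * W' (ev2 k a b P) := by
  have h0 : ev2 k a b P = ∑ d ∈ P.support, algebraMap k F (P.coeff d) * (a ^ d 0 * b ^ d 1) := by
    unfold ev2
    rw [MvPolynomial.aeval_def, MvPolynomial.eval₂_eq']
    refine Finset.sum_congr rfl fun d _ => ?_
    rw [Fin.prod_univ_two]
    rfl
  conv_lhs => rw [h0]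
  refine W.map_sum_le fun d hd => ?_
  have h1 : d 0 + d 1 ≤ D := by
    have := MvPolynomial.le_totalDegree hd
    rw [Finsupp.sum_fintype _ _ (fun _ => rfl), Fin.sum_univ_two] at this
    exact this.trans hD
  have h2 := hG P d
  rw [map_mul, map_mul, map_pow, map_pow, hk]
  calc W' (algebraMap k F (P.coeff d)) * (W a ^ d 0 * W b ^ d 1)
      ≤ W' (algebraMap k F (P.coeff d)) * ((ρ * W' a) ^ d 0 * (ρ * W' b) ^ d 1) := by gcongr
    _ = ρ ^ (d 0 + d 1) * (W' (algebraMap k F (P.coeff d)) * W' a ^ d 0 * W' b ^ d 1) := by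
        rw [mul_pow, mul_pow, pow_add]; ring
    _ ≤ ρ ^ D * W' (ev2 k a b P) := by gcongr

open Classical in
theorem fibre {G Cl : Type} [Group G] [Fintype G] (cl0 : G → Cl) (act : Cl → G → Cl)
    (hact : ∀ σ g, cl0 (σ * g) = act (cl0 σ) g) (hsurj : ∀ C, ∃ σ, cl0 σ = C) :
    ∃ h : ℕ, 1 ≤ h ∧ ∀ κ : G → Cl, (∀ σ g, κ (σ * g) = act (κ σ) g) → ∀ C,
      (Finset.univ.filter fun σ => κ σ = C).card = h := by
  refine ⟨(Finset.univ.filter fun σ => cl0 σ = cl0 1).card, ?_, fun κ hκ C => ?_⟩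
  · exact Finset.card_pos.mpr ⟨1, by simp⟩
  · obtain ⟨g0, hg0⟩ := hsurj (κ 1)
    obtain ⟨g1, hg1⟩ := hsurj C
    have h1 : ∀ σ, κ σ = cl0 (g0 * σ) := fun σ => by
      rw [hact, hg0, ← hκ, one_mul]
    have h2 : ∀ σ σ' g, cl0 σ = cl0 σ' → cl0 (σ * g) = cl0 (σ' * g) := fun σ σ' g h => by
      rw [hact, hact, h]
    refine Finset.card_bij' (fun σ _ => g0 * σ * g1⁻¹) (fun σ _ => g0⁻¹ * σ * g1) ?_ ?_ ?_ ?_
    · intro σ hσ
      simp only [Finset.mem_filter, Finset.mem_univ, true_and] at hσ ⊢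
      rw [h1, ← hg1] at hσ
      simpa using h2 _ _ g1⁻¹ hσ
    · intro σ hσ
      simp only [Finset.mem_filter, Finset.mem_univ, true_and] at hσ ⊢
      rw [h1, ← hg1]
      simpa [mul_assoc] using h2 _ _ g1 hσ
    · intro σ _; group
    · intro σ _; group

open Classical in
theorem sum_comp {G Cl M : Type} [Fintype G] [Fintype Cl] [AddCommMonoid M] (κ : G → Cl) {h : ℕ}
    (hκ : ∀ C, (Finset.univ.filter fun σ => κ σ = C).card = h) (φ : Cl → M) :
    ∑ σ, φ (κ σ) = h • ∑ C, φ C := by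
  rw [← Finset.sum_fiberwise' Finset.univ κ φ, Finset.smul_sum]
  refine Finset.sum_congr rfl fun C _ => ?_
  rw [Finset.sum_const, hκ]

theorem two_zpow_sum {ι : Type} (s : Finset ι) (φ : ι → ℤ) :
    (2 : ℝ≥0) ^ (∑ i ∈ s, φ i) = ∏ i ∈ s, (2 : ℝ≥0) ^ φ i := by
  classical
  induction s using Finset.induction_on with
  | empty => simp
  | insert a s ha ih =>
    rw [Finset.sum_insert ha, Finset.prod_insert ha, zpow_add₀ (by norm_num), ih]

section Main

variable {k F L : Type} [Field k] [Field F] [Algebra k F] [Field L] [Algebra F L]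
  [FiniteDimensional F L] [IsGalois F L]

theorem norm_mem {c : Ctx k F} (hg : GeoFacts c) (i : Fin 9) {z : L} (hz : IsIntegral (c.A i) z) :
    Algebra.norm F z ∈ c.A i := by
  refine hg.int_mem i _ ((isIntegral_algebraMap_iff (algebraMap F L).injective).mp ?_)
  rw [Algebra.norm_eq_prod_automorphisms]
  exact IsIntegral.prod _ fun σ _ => hz.map σ

omit [FiniteDimensional F L] [IsGalois F L] in
theorem int_alg {c : Ctx k F} (i : Fin 9) {g : F} (hg : g ∈ c.A i) :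
    IsIntegral (c.A i) (algebraMap F L g) :=
  isIntegral_algebraMap (R := c.A i) (A := L) (x := ⟨g, hg⟩)

theorem e_ne {c : Ctx k F} (hg : GeoFacts c) (i : Fin 9) : c.e i ≠ 0 :=
  mul_ne_zero (hg.a_ne i) (hg.b_ne i)

theorem e_mem {c : Ctx k F} (hg : GeoFacts c) (i : Fin 9) : c.e i ∈ c.A i :=
  (c.A i).mul_mem (hg.a_mem i) (hg.b_mem i)

theorem mu_shift {c : Ctx k F} (hg : GeoFacts c) (N : ℤ) (M n : ℕ) (i : Fin 9) :
    ∃ m m' : ℕ, c.e i ^ m * c.mu N n i = c.e i ^ m' * c.mu M n i := by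
  refine ⟨(M - N).toNat, (N - M).toNat, ?_⟩
  unfold Ctx.mu
  rw [← mul_assoc, ← mul_assoc, ← zpow_natCast (c.e i), ← zpow_natCast (c.e i),
    ← zpow_add₀ (e_ne hg i), ← zpow_add₀ (e_ne hg i)]
  congr 2
  omega

theorem nu_mu {c : Ctx k F} {ν : Fin 9 → Valuation F ℝ≥0} (hn : NuFacts c ν) (N : ℤ) (n : ℕ)
    (i j : Fin 9) (hj : j = i ∨ j = i + 1) : ν j (c.mu N n i) = 2 ^ (-N) := by
  unfold Ctx.mu
  rw [map_mul, map_zpow₀, map_pow]
  rcases hj with rfl | rfl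
  · rw [(hn.val_e _).1, (hn.val_ph 0 _).1, one_pow, mul_one, inv_zpow']
  · rw [(hn.val_e _).2, (hn.val_ph 0 _).2, one_pow, mul_one, inv_zpow']

theorem norm_M {Cl : Type} [Fintype Cl] {c : Ctx k F} {ν : Fin 9 → Valuation F ℝ≥0}
    {w : Fin 9 → Valuation L ℝ≥0} {cls : Pl F L → Cl} (hg : GeoFacts c) (hn : NuFacts c ν)
    (he : Ext ν w) {h : ℕ} (hh : ∀ j (φ : Cl → ℤ), ∑ σ, φ (cls (j, σ)) = h • ∑ C, φ C)
    {N : Cl → ℤ} {n : ℕ} {f : L} (hV : VV c w cls N n f) :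
    Algebra.norm F f ∈ c.M (h * ∑ C, N C) (Module.finrank F L * n) := by
  have hν : ∀ j, ν j (Algebra.norm F f) ≤ 2 ^ ((h : ℤ) * ∑ C, N C) := by
    intro j
    rw [← he, Algebra.norm_eq_prod_automorphisms, map_prod]
    calc ∏ σ : L ≃ₐ[F] L, w j (σ f) ≤ ∏ σ : L ≃ₐ[F] L, (2 : ℝ≥0) ^ N (cls (j, σ)) :=
          Finset.prod_le_prod' fun σ _ => hV.2 (j, σ)
      _ = 2 ^ ((h : ℤ) * ∑ C, N C) := by
          rw [← nsmul_eq_mul, ← hh j N]
          exact (two_zpow_sum _ _).symm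
  intro j
  obtain ⟨M, hM⟩ := hV.1 j
  have h1 := norm_mem hg j hM
  rw [map_mul, Algebra.norm_algebraMap] at h1
  obtain ⟨m, m', hm⟩ := mu_shift hg ((h : ℤ) * ∑ C, N C) (Module.finrank F L * M)
    (Module.finrank F L * n) j
  have h2 : c.mu (Module.finrank F L * M : ℕ) (Module.finrank F L * n) j
      = c.mu M n j ^ Module.finrank F L := by
    unfold Ctx.mu
    rw [zpow_natCast, zpow_natCast, mul_pow, ← pow_mul, ← pow_mul, mul_comm M, mul_comm n]
  have hval : ∀ j', j' = j ∨ j' = j + 1 → ν j' (Algebra.norm F f *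
      c.mu ((h : ℤ) * ∑ C, N C) (Module.finrank F L * n) j) ≤ 1 := by
    intro j' hj'
    rw [map_mul, nu_mu hn _ _ j j' hj']
    calc _ ≤ (2 : ℝ≥0) ^ ((h : ℤ) * ∑ C, N C) * 2 ^ (-((h : ℤ) * ∑ C, N C)) := by
          gcongr; exact hν j'
      _ = 1 := by rw [← zpow_add₀ (by norm_num), add_neg_cancel, zpow_zero]
  refine hn.crit j _ m ?_ (hval j (Or.inl rfl)) (hval _ (Or.inr rfl))
  rw [mul_left_comm, hm, h2, mul_left_comm, mul_comm (Algebra.norm F f)]
  exact (c.A j).mul_mem ((c.A j).pow_mem (e_mem hg j) m') h1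

open Classical in
omit [IsGalois F L] in
theorem ev_sep {Cl : Type} (W : Valuation L ℝ≥0) (κ : (L ≃ₐ[F] L) → Cl) (t : Cl → L)
    (hs : Sep W κ t) (C : Cl) {ψ : L} (hψ : ψ ≠ 0) :
    ∀ᶠ Q : ℕ in atTop, ∀ σ : L ≃ₐ[F] L,
      W (σ (t C ^ Q * ψ + (1 - t C) ^ Q)) = if κ σ = C then W (σ ψ) else 1 := by
  refine eventually_all.mpr fun σ => ?_
  simp only [map_add, map_mul, map_pow, map_sub, map_one]
  split_ifs with hC
  · exact ev_one W ((map_ne_zero σ).mpr hψ) ((hs σ C).1 hC)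
  · exact ev_zero W _ ((hs σ C).2 hC)

open Classical in
theorem lg_norm {Cl : Type} (W : Valuation L ℝ≥0) (κ : (L ≃ₐ[F] L) → Cl) (C : Cl) {h : ℕ}
    (hh : (Finset.univ.filter fun σ => κ σ = C).card = h) {f z : L} {m : F} (hf : f ≠ 0)
    (hm : m ≠ 0) (hz0 : z ≠ 0)
    (hz : ∀ σ : L ≃ₐ[F] L, W (σ z) = if κ σ = C then W (σ (algebraMap F L m * f)) else 1) :
    lg W (algebraMap F L (Algebra.norm F z)) =
      ∑ σ ∈ Finset.univ.filter fun σ => κ σ = C, lg W (σ f) + h * lg W (algebraMap F L m) := by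
  rw [Algebra.norm_eq_prod_automorphisms, lg_prod W _ _ fun σ => (map_ne_zero σ).mpr hz0]
  have h1 : ∀ σ : L ≃ₐ[F] L, lg W (σ z) =
      if κ σ = C then lg W (σ f) + lg W (algebraMap F L m) else 0 := by
    intro σ
    split_ifs with hC
    · rw [← lg_mul W ((map_ne_zero σ).mpr hf) ((_root_.map_ne_zero _).mpr hm)]
      unfold lg
      rw [hz, if_pos hC, map_mul σ, AlgEquiv.commutes, mul_comm]
    · unfold lg
      rw [hz, if_neg hC]
      simp
  simp only [h1]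
  rw [← Finset.sum_filter, Finset.sum_add_distrib, Finset.sum_const, hh, nsmul_eq_mul]

open Classical in
omit [IsGalois F L] in
/-- the cut-off section in chart `i` -/
theorem exists_alpha {Cl : Type} {c : Ctx k F} {ν : Fin 9 → Valuation F ℝ≥0}
    {w : Fin 9 → Valuation L ℝ≥0} {cls : Pl F L → Cl} {act : Cl → (L ≃ₐ[F] L) → Cl}
    {v : Valuation k ℝ≥0} {ε : ℝ≥0} {Y Z : Fin 9 → Valuation L ℝ≥0}
    {κY κZ : Fin 9 → (L ≃ₐ[F] L) → Cl} {t : Fin 9 → Cl → L}
    (hg : GeoFacts c) (hn : NuFacts c ν) (he : Ext ν w) (hp : PlFacts c w)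
    (hT : Tube c w cls act v ε Y Z κY κZ t) {N : Cl → ℤ} {n : ℕ} {f : L} (hf : f ≠ 0)
    (hV : VV c w cls N n f) (i : Fin 9) (C : Cl) :
    ∃ z : L, z ≠ 0 ∧ IsIntegral (c.A i) z ∧
      (∀ σ : L ≃ₐ[F] L, Y i (σ z) =
        if κY i σ = C then Y i (σ (algebraMap F L (c.mu (N C) n i) * f)) else 1) ∧
      (∀ σ : L ≃ₐ[F] L, Y (i + 1) (σ z) =
        if κY (i + 1) σ = C then Y (i + 1) (σ (algebraMap F L (c.mu (N C) n i) * f)) else 1) ∧
      (∀ σ : L ≃ₐ[F] L, Z i (σ z) =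
        if κZ i σ = C then Z i (σ (algebraMap F L (c.mu (N C) n i) * f)) else 1) := by
  obtain ⟨ψ, hψ⟩ : ∃ ψ : L, ψ = algebraMap F L (c.mu (N C) n i) * f := ⟨_, rfl⟩
  rw [← hψ]
  have hψ0 : ψ ≠ 0 := by
    rw [hψ]; exact mul_ne_zero ((_root_.map_ne_zero _).mpr (hg.mu_ne _ _ _)) hf
  have hsep : ∀ j, j = i ∨ j = i + 1 → Sep (w j) (fun σ => cls (j, σ)) (t i) := by
    intro j hj σ C'
    have := hT.tpl i C' (j, σ) hj
    simpa [wp] using this
  obtain ⟨Q, ⟨⟨⟨⟨h1, h2⟩, h3⟩, h4⟩, h5⟩⟩ :=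
    (((((ev_sep _ _ _ (hT.sepY i) C hψ0).and (ev_sep _ _ _ (hT.sepY' i) C hψ0)).and
      (ev_sep _ _ _ (hT.sepZ i) C hψ0)).and (ev_sep _ _ _ (hsep i (Or.inl rfl)) C hψ0)).and
      (ev_sep _ _ _ (hsep _ (Or.inr rfl)) C hψ0)).exists
  refine ⟨t i C ^ Q * ψ + (1 - t i C) ^ Q, ?_, ?_, h1, h2, h3⟩
  · intro h0
    have := h1 1
    rw [h0, map_zero, map_zero] at this
    split_ifs at this
    · exact (Valuation.ne_zero_iff _).mpr ((_root_.map_ne_zero _).mpr hψ0) this.symm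
    · exact zero_ne_one this
  · obtain ⟨M, hM⟩ := hV.1 i
    obtain ⟨m, m', hm⟩ := mu_shift hg (N C) M n i
    have hei : IsIntegral (c.A i) (algebraMap F L (c.e i)) := int_alg i (e_mem hg i)
    refine hp.crit i _ m ?_ ?_
    · have h6 : algebraMap F L (c.e i) ^ m * (t i C ^ Q * ψ + (1 - t i C) ^ Q) =
          t i C ^ Q * (algebraMap F L (c.e i) ^ m' * (algebraMap F L (c.mu M n i) * f)) +
            algebraMap F L (c.e i) ^ m * (1 - t i C) ^ Q := by
        have h7 := congrArg (algebraMap F L) hm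
        rw [map_mul, map_mul, map_pow, map_pow] at h7
        rw [hψ, ← mul_assoc (algebraMap F L (c.e i) ^ m'), ← h7]
        ring
      rw [h6]
      exact (((hT.tint i C).pow Q).mul ((hei.pow m').mul hM)).add
        ((hei.pow m).mul ((isIntegral_one.sub (hT.tint i C)).pow Q))
    · rintro ⟨j, σ⟩ hj
      have h6 : w j (σ (t i C ^ Q * ψ + (1 - t i C) ^ Q)) =
          if cls (j, σ) = C then w j (σ ψ) else 1 := by
        rcases hj with hj | hj
        · obtain rfl : j = i := hj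
          exact h4 σ
        · obtain rfl : j = i + 1 := hj
          exact h5 σ
      change w j (σ _) ≤ 1
      rw [h6]
      split_ifs with hC
      · rw [hψ, map_mul, AlgEquiv.commutes, map_mul, he, nu_mu hn _ _ i j hj]
        have h7 : w j (σ f) ≤ 2 ^ N (cls (j, σ)) := hV.2 (j, σ)
        rw [hC] at h7
        calc _ ≤ (2 : ℝ≥0) ^ (-N C) * 2 ^ N C := by gcongr
          _ = 1 := by rw [← zpow_add₀ (by norm_num), neg_add_cancel, zpow_zero]
      · exact le_rfl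

theorem v_cu_zpow (c : Ctx k F) (v : Valuation k ℝ≥0) (i : Fin 9) :
    v (c.cu i) ^ (1 - ue i) = 1 := by
  fin_cases i <;> simp [Ctx.cu, ue]

theorem v_cu_le (c : Ctx k F) (v : Valuation k ℝ≥0) (h : v c.lam < 1) (i : Fin 9) :
    v (c.cu i) ≤ 1 := by
  fin_cases i <;> simp [Ctx.cu, h.le]

theorem sum_log_cu (c : Ctx k F) (v : Valuation k ℝ≥0) :
    ∑ i, Real.log (v (c.cu i) : ℝ) = Real.log (v c.lam : ℝ) := by
  simp [Fin.sum_univ_succ, Ctx.cu]

/-- the pure estimate -/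
theorem arith {Cl : Type} [Fintype Cl] (DY DY' : Cl → ℝ) (B : ℝ) (h1 : ∀ C, 0 ≤ DY C)
    (h2 : ∀ C, 0 ≤ DY' C) (h3 : ∑ C, DY C ≤ B) (h4 : ∑ C, DY' C ≤ B) (C : Cl) :
    |DY' C - DY C| ≤ B := by
  have h5 : DY C ≤ B := (Finset.single_le_sum (fun C _ => h1 C) (Finset.mem_univ C)).trans h3
  have h6 : DY' C ≤ B := (Finset.single_le_sum (fun C _ => h2 C) (Finset.mem_univ C)).trans h4
  have := h1 C
  have := h2 C
  rw [abs_le]
  constructor <;> linarith

omit [FiniteDimensional F L] [IsGalois F L] in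
theorem lg_box {c : Ctx k F} (hg : GeoFacts c) (W W' : Valuation L ℝ≥0)
    (hk : ∀ r : k, W (algebraMap F L (algebraMap k F r)) = W' (algebraMap F L (algebraMap k F r)))
    (hG : IsGauss k (W'.comap (algebraMap F L)) c.x c.y) {ρ : ℝ≥0} (hρ : 1 ≤ ρ)
    (hx : W (algebraMap F L c.x) ≤ ρ * W' (algebraMap F L c.x))
    (hy : W (algebraMap F L c.y) ≤ ρ * W' (algebraMap F L c.y))
    (hx' : W' (algebraMap F L c.x) ≤ ρ * W (algebraMap F L c.x))
    (hy' : W' (algebraMap F L c.y) ≤ ρ * W (algebraMap F L c.y))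
    {g : F} (hg0 : g ≠ 0) {N' : ℕ} {P : P2 k} (hP : g * (c.x * c.y) ^ N' = ev2 k c.x c.y P)
    (hD : P.totalDegree ≤ 3 * N') :
    lg W (algebraMap F L g) ≤ 5 * N' * Real.log ρ + lg W' (algebraMap F L g) := by
  have hx0 : algebraMap F L c.x ≠ 0 := (_root_.map_ne_zero _).mpr hg.x_ne
  have hy0 : algebraMap F L c.y ≠ 0 := (_root_.map_ne_zero _).mpr hg.y_ne
  have hg1 : algebraMap F L g ≠ 0 := (_root_.map_ne_zero _).mpr hg0
  have h1 := gauss_le (W.comap (algebraMap F L)) (W'.comap (algebraMap F L)) c.x c.y hk hG hρ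
    hx hy P hD
  rw [← hP] at h1
  have h0 : algebraMap F L (g * (c.x * c.y) ^ N') ≠ 0 :=
    (_root_.map_ne_zero _).mpr (mul_ne_zero hg0 (pow_ne_zero _ (mul_ne_zero hg.x_ne hg.y_ne)))
  have h2 := lg_le W (W' := W') h0 h0 hρ (3 * N') h1
  have h3 : ∀ V : Valuation L ℝ≥0, lg V (algebraMap F L (g * (c.x * c.y) ^ N')) =
      lg V (algebraMap F L g) + N' * (lg V (algebraMap F L c.x) + lg V (algebraMap F L c.y)) := by
    intro V
    rw [map_mul, map_pow, map_mul, lg_mul V hg1 (pow_ne_zero _ (mul_ne_zero hx0 hy0)), lg_pow,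
      lg_mul V hx0 hy0]
  have h4 := lg_le W' (W' := W) hx0 hx0 hρ 1 (by rwa [pow_one])
  have h5 := lg_le W' (W' := W) hy0 hy0 hρ 1 (by rwa [pow_one])
  rw [h3, h3] at h2
  push_cast at h2 h4 h5
  have h6 : (0 : ℝ) ≤ N' := Nat.cast_nonneg _
  nlinarith [mul_le_mul_of_nonneg_left h4 h6, mul_le_mul_of_nonneg_left h5 h6]

omit [FiniteDimensional F L] [IsGalois F L] in
theorem lg_mu {c : Ctx k F} (hg : GeoFacts c) (W : Valuation L ℝ≥0) (N : ℤ) (n : ℕ) (i : Fin 9) :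
    lg W (algebraMap F L (c.mu N n i)) =
      N * lg W (algebraMap F L (c.e i)) + n * lg W (algebraMap F L (c.ph 0 i)) := by
  unfold Ctx.mu
  rw [map_mul, map_zpow₀, map_pow, lg_mul, lg_zpow, lg_pow]
  · exact zpow_ne_zero _ ((_root_.map_ne_zero _).mpr (e_ne hg i))
  · exact pow_ne_zero _ ((_root_.map_ne_zero _).mpr (hg.ph_ne 0 i))

omit [FiniteDimensional F L] [IsGalois F L] in
theorem lg_chart {c : Ctx k F} (hg : GeoFacts c) (i : Fin 9) (W W' : Valuation L ℝ≥0)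
    (hk : ∀ r : k, W (algebraMap F L (algebraMap k F r)) = W' (algebraMap F L (algebraMap k F r)))
    (hG : IsGauss k (W'.comap (algebraMap F L)) c.x c.y)
    (ha : W (algebraMap F L (c.a i)) ≤ W' (algebraMap F L (c.a i)))
    (hb : W (algebraMap F L (c.b i)) ≤ W' (algebraMap F L (c.b i)))
    {g : F} (hg0 : g ≠ 0) (hgA : g ∈ c.A i) :
    lg W (algebraMap F L g) ≤ lg W' (algebraMap F L g) := by
  obtain ⟨P, rfl⟩ := hgA
  have h1 := gauss_le (W.comap (algebraMap F L)) (W'.comap (algebraMap F L)) (c.a i) (c.b i) hk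
    ((hg.gauss _ i).mpr hG) (le_refl 1) (by rwa [one_mul]) (by rwa [one_mul]) P le_rfl
  have h0 := (_root_.map_ne_zero (algebraMap F L)).mpr hg0
  have h2 := lg_le W (W' := W') h0 h0 (le_refl 1) _ h1
  simpa using h2

end Main

end MonoAux

open MonoAux in
theorem monoS : S_Mono := by
  intro k F L Cl _ _ _ _ _ _ _ _ c ν w cls act v ε Y Z κY κZ t _ hg hn he hp hcls hv0 hv1 hT
  classical
  obtain ⟨h, hh1, hh⟩ := fibre (fun σ => cls (0, σ)) act (hcls.act 0) (hcls.surj 0)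
  obtain ⟨ρ, hρ1, hρ⟩ := exists_ratio (Sum.elim Y Z : Fin 9 ⊕ Fin 9 → Valuation L ℝ≥0)
    (fun j : Fin 2 ⊕ Fin 9 ⊕ Fin 9 =>
      algebraMap F L (Sum.elim ![c.x, c.y] (Sum.elim c.e (c.ph 0)) j)) (by
      rintro (j | j | j)
      · fin_cases j
        · exact (_root_.map_ne_zero _).mpr hg.x_ne
        · exact (_root_.map_ne_zero _).mpr hg.y_ne
      · exact (_root_.map_ne_zero _).mpr (e_ne hg j)
      · exact (_root_.map_ne_zero _).mpr (hg.ph_ne 0 j))
  obtain ⟨R, hR⟩ : ∃ R : ℝ, R = Real.log ρ := ⟨_, rfl⟩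
  have hR0 : 0 ≤ R := hR ▸ Real.log_nonneg (by exact_mod_cast hρ1)
  obtain ⟨lm, hlm⟩ : ∃ lm : ℝ, lm = -Real.log (v c.lam : ℝ) := ⟨_, rfl⟩
  have hlm0 : 0 < lm := by
    rw [hlm, neg_pos]
    exact Real.log_neg (by exact_mod_cast hv0) (by exact_mod_cast hv1)
  obtain ⟨r, hr⟩ : ∃ r : ℕ, r = Fintype.card Cl := ⟨_, rfl⟩
  refine ⟨⌈(63 + 9 * r) * R / lm⌉₊, fun N n f C hf hV => ?_⟩
  obtain ⟨S, hS⟩ : ∃ S : ℤ, S = ∑ C', N C' := ⟨_, rfl⟩
  have hM := norm_M hg hn he (fun j φ => sum_comp _ (hh _ (hcls.act j)) φ) hV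
  have hg0 : Algebra.norm F f ≠ 0 := Algebra.norm_ne_zero_iff.mpr hf
  obtain ⟨N', P, hN', hP, hD⟩ := hn.box _ _ _ hM hg0
  rw [← hS] at hN' ⊢
  have hN'R : (N' : ℝ) = h * S := by exact_mod_cast hN'.symm
  have hh0 : (0 : ℝ) < h := by exact_mod_cast hh1
  have hS0 : (0 : ℝ) ≤ S := by
    have : (0 : ℝ) ≤ h * S := hN'R ▸ Nat.cast_nonneg _
    exact le_of_mul_le_mul_left (by simpa using this) hh0
  have hn0 : (0 : ℝ) ≤ n := Nat.cast_nonneg _
  have he0 : ∀ i, algebraMap F L (c.e i) ≠ 0 := fun i => (_root_.map_ne_zero _).mpr (e_ne hg i)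
  have hph0 : ∀ i, algebraMap F L (c.ph 0 i) ≠ 0 :=
    fun i => (_root_.map_ne_zero _).mpr (hg.ph_ne 0 i)
  -- values of the coordinates of chart `i` at `Y (i + 1)`
  have hYa : ∀ i, Y (i + 1) (algebraMap F L (c.a i)) = ε := by
    intro i
    rw [hg.ta i]
    simp only [map_mul, map_pow, map_zpow₀, hT.aY, hT.bY, hT.uY, v_cu_zpow, one_pow, mul_one]
  have hYb : ∀ i, Y (i + 1) (algebraMap F L (c.b i)) * v (c.cu i) = 1 := by
    intro i
    have := congrArg (fun z => Y (i + 1) (algebraMap F L z)) (hg.tb i)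
    simpa only [map_mul, map_one, hT.aY, hT.uY, mul_one] using this
  have hcu0 : ∀ i, (0 : ℝ) < v (c.cu i) := fun i => val_pos v (hg.cu_ne i)
  have hYe : ∀ i, lg (Y (i + 1)) (algebraMap F L (c.e i)) =
      lg (Y i) (algebraMap F L (c.e i)) - Real.log (v (c.cu i) : ℝ) := by
    intro i
    have h1 : Y (i + 1) (algebraMap F L (c.e i)) * v (c.cu i) = Y i (algebraMap F L (c.e i)) := by
      unfold Ctx.e
      rw [map_mul, map_mul, map_mul, hYa, hT.aY, hT.bY, mul_assoc, hYb, mul_one, one_mul]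
    unfold lg
    rw [← h1, NNReal.coe_mul, Real.log_mul (val_pos _ (he0 i)).ne' (hcu0 i).ne']
    ring
  obtain ⟨φ, hφ⟩ : ∃ φ : Fin 9 → ℝ, ∀ i,
      φ i = ∑ σ ∈ Finset.univ.filter fun σ => κY i σ = C, lg (Y i) (σ f) := ⟨_, fun _ => rfl⟩
  have key : ∀ i, |φ (i + 1) - φ i + h * (N C * (-Real.log (v (c.cu i) : ℝ)) +
      n * (lg (Y (i + 1)) (algebraMap F L (c.ph 0 i)) - lg (Y i) (algebraMap F L (c.ph 0 i))))|
      ≤ h * (6 * S + r * n) * R := by
    intro i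
    choose z hz0 hzi hz1 hz2 hz3 using fun C' => exists_alpha hg hn he hp hT hf hV i C'
    have hα0 : ∀ C', Algebra.norm F (z C') ≠ 0 := fun C' => Algebra.norm_ne_zero_iff.mpr (hz0 C')
    have hαA : ∀ C', Algebra.norm F (z C') ∈ c.A i := fun C' => norm_mem hg i (hzi C')
    have hZ := fun C' => lg_norm (Z i) (κZ i) C' (hh _ (hT.actZ i) C') hf (hg.mu_ne _ _ _)
      (hz0 C') (hz3 C')
    have hsum : ∀ (W : Valuation L ℝ≥0) (κ : (L ≃ₐ[F] L) → Cl),
        (∀ C', lg W (algebraMap F L (Algebra.norm F (z C'))) =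
          ∑ σ ∈ Finset.univ.filter fun σ => κ σ = C', lg W (σ f) +
            h * lg W (algebraMap F L (c.mu (N C') n i))) →
        ∑ C', lg W (algebraMap F L (Algebra.norm F (z C'))) =
          lg W (algebraMap F L (Algebra.norm F f)) + h * (S * lg W (algebraMap F L (c.e i)) +
            r * n * lg W (algebraMap F L (c.ph 0 i))) := by
      intro W κ hW
      simp only [hW, lg_mu hg]
      rw [Finset.sum_add_distrib, Finset.sum_fiberwise Finset.univ κ fun σ => lg W (σ f),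
        ← Finset.mul_sum, Finset.sum_add_distrib,
        ← Finset.sum_mul, Finset.sum_const, Finset.card_univ, ← hr, nsmul_eq_mul,
        Algebra.norm_eq_prod_automorphisms, lg_prod W _ _ fun σ => (map_ne_zero σ).mpr hf, hS]
      push_cast
      ring
    have hgen : ∀ j : Fin 9, ε ≤ Y j (algebraMap F L (c.a i)) → ε ≤ Y j (algebraMap F L (c.b i)) →
        (∀ C', lg (Y j) (algebraMap F L (Algebra.norm F (z C'))) =
          ∑ σ ∈ Finset.univ.filter fun σ => κY j σ = C', lg (Y j) (σ f) +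
            h * lg (Y j) (algebraMap F L (c.mu (N C') n i))) →
        (∀ C', 0 ≤ lg (Y j) (algebraMap F L (Algebra.norm F (z C'))) -
          lg (Z i) (algebraMap F L (Algebra.norm F (z C')))) ∧
        ∑ C', (lg (Y j) (algebraMap F L (Algebra.norm F (z C'))) -
          lg (Z i) (algebraMap F L (Algebra.norm F (z C')))) ≤ h * (6 * S + r * n) * R := by
      intro j ha hb hW
      refine ⟨fun C' => sub_nonneg.mpr (lg_chart hg i (Z i) (Y j)
        (fun r => by rw [hT.vY, hT.vZ]) (hT.gY j) (by rwa [hT.aZ]) (by rwa [hT.bZ])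
        (hα0 C') (hαA C')), ?_⟩
      rw [Finset.sum_sub_distrib, hsum _ _ hW, hsum _ _ hZ]
      have h1 := lg_box hg (Y j) (Z i) (fun r => by rw [hT.vY, hT.vZ]) (hT.gZ i) hρ1
        (hρ (.inl j) (.inr i) (.inl 0)) (hρ (.inl j) (.inr i) (.inl 1))
        (hρ (.inr i) (.inl j) (.inl 0)) (hρ (.inr i) (.inl j) (.inl 1)) hg0 hP hD
      have h2 := lg_le (Y j) (W' := Z i) (he0 i) (he0 i) hρ1 1
        (by rw [pow_one]; exact hρ (.inl j) (.inr i) (.inr (.inl i)))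
      have h3 := lg_le (Y j) (W' := Z i) (hph0 i) (hph0 i) hρ1 1
        (by rw [pow_one]; exact hρ (.inl j) (.inr i) (.inr (.inr i)))
      rw [← hR] at h1 h2 h3
      rw [hN'R] at h1
      push_cast at h2 h3
      have h4 := mul_le_mul_of_nonneg_left h2 (mul_nonneg hh0.le hS0)
      have h5 := mul_le_mul_of_nonneg_left h3
        (mul_nonneg hh0.le (mul_nonneg (Nat.cast_nonneg r) hn0))
      nlinarith
    have hY1 := fun C' => lg_norm (Y i) (κY i) C' (hh _ (hT.actY i) C') hf (hg.mu_ne _ _ _)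
      (hz0 C') (hz1 C')
    have hY2 := fun C' => lg_norm (Y (i + 1)) (κY (i + 1)) C' (hh _ (hT.actY (i + 1)) C') hf
      (hg.mu_ne _ _ _) (hz0 C') (hz2 C')
    obtain ⟨h1, h2⟩ := hgen i (by rw [hT.aY]; exact hT.eps_le) (by rw [hT.bY]) hY1
    obtain ⟨h3, h4⟩ := hgen (i + 1) (by rw [hYa]) (by
      refine hT.eps_le.trans ?_
      calc 1 = Y (i + 1) (algebraMap F L (c.b i)) * v (c.cu i) := (hYb i).symm
        _ ≤ Y (i + 1) (algebraMap F L (c.b i)) * 1 := by gcongr; exact v_cu_le c v hv1 i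
        _ = _ := mul_one _) hY2
    have h5 := arith _ _ _ h1 h3 h2 h4 C
    rw [hY1, hY2, ← hφ, ← hφ, lg_mu hg, lg_mu hg, hYe] at h5
    convert h5 using 2
    ring
  have hph : ∀ i, |lg (Y (i + 1)) (algebraMap F L (c.ph 0 i)) -
      lg (Y i) (algebraMap F L (c.ph 0 i))| ≤ R := by
    intro i
    have h2 := lg_le (Y (i + 1)) (W' := Y i) (hph0 i) (hph0 i) hρ1 1
      (by rw [pow_one]; exact hρ (.inl (i + 1)) (.inl i) (.inr (.inr i)))
    have h3 := lg_le (Y i) (W' := Y (i + 1)) (hph0 i) (hph0 i) hρ1 1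
      (by rw [pow_one]; exact hρ (.inl i) (.inl (i + 1)) (.inr (.inr i)))
    rw [← hR] at h2 h3
    push_cast at h2 h3
    rw [abs_le]
    constructor <;> linarith
  have key2 : ∀ i, |φ (i + 1) - φ i + h * (N C * (-Real.log (v (c.cu i) : ℝ)))|
      ≤ h * (6 * S + r * n) * R + h * n * R := by
    intro i
    have h1 := abs_le.mp (key i)
    have h2 := abs_le.mp (hph i)
    have h3 := mul_le_mul_of_nonneg_left h2.1 (mul_nonneg hh0.le hn0)
    have h4 := mul_le_mul_of_nonneg_left h2.2 (mul_nonneg hh0.le hn0)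
    rw [abs_le]
    constructor <;> nlinarith [h1.1, h1.2]
  have htot : ∑ i, (φ (i + 1) - φ i + h * (N C * (-Real.log (v (c.cu i) : ℝ)))) =
      h * (N C * lm) := by
    rw [Finset.sum_add_distrib, Finset.sum_sub_distrib, ← Finset.mul_sum, ← Finset.mul_sum,
      Finset.sum_neg_distrib, sum_log_cu, ← hlm,
      Fintype.sum_equiv (Equiv.addRight (1 : Fin 9)) (fun i => φ (i + 1)) φ fun _ => rfl]
    ring
  have h1 : |h * (N C * lm)| ≤ 9 * (h * (6 * S + r * n) * R + h * n * R) := by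
    rw [← htot]
    refine (Finset.abs_sum_le_sum_abs _ _).trans ?_
    refine (Finset.sum_le_sum fun i _ => key2 i).trans ?_
    rw [Finset.sum_const, Finset.card_univ, Fintype.card_fin, nsmul_eq_mul]
    norm_num
  rw [abs_mul, abs_mul, abs_of_pos hh0, abs_of_pos hlm0] at h1
  have h2 : |(N C : ℝ)| * lm ≤ (63 + 9 * r) * R * (S + n) := by
    refine le_of_mul_le_mul_left (h1.trans ?_) hh0
    have h3 : (0 : ℝ) ≤ r := Nat.cast_nonneg _
    have h4 : 0 ≤ h * R * S := by positivity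
    have h5 : 0 ≤ h * R * n := by positivity
    have h6 : 0 ≤ h * R * S * r := by positivity
    nlinarith
  have h3 : |(N C : ℝ)| ≤ (⌈(63 + 9 * r) * R / lm⌉₊ : ℝ) * (|(S : ℝ)| + n) := by
    rw [abs_of_nonneg hS0]
    calc |(N C : ℝ)| ≤ (63 + 9 * r) * R / lm * (S + n) := by
          rw [div_mul_eq_mul_div, le_div_iff₀ hlm0]; exact h2
      _ ≤ _ := by gcongr; exact Nat.le_ceil _
  exact_mod_cast h3

end Pool.Agent.P.MP_3a4479_al
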