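import Pool.Agent.P.MP_3a4479_al.Defs

/-! The nine boundary valuations. -/

set_option autoImplicit false

namespace Pool.Agent.P.MP_3a4479_al

open Polynomial
open scoped NNReal

namespace NuAux

variable {k F : Type} [Field k] [Field F] [Algebra k F]

/-- the valuation is trivial on the ground field -/
def Triv (k : Type) [Field k] {F : Type} [Field F] [Algebra k F] (w : Valuation F ℝ≥0) : Prop :=
  ∀ t : k, t ≠ 0 → w (algebraMap k F t) = 1

lemma Triv.le {w : Valuation F ℝ≥0} (h : Triv k w) (t : k) : w (algebraMap k F t) ≤ 1 := by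
  by_cases ht : t = 0
  · simp [ht]
  · exact (h t ht).le

lemma half_lt : (2⁻¹ : ℝ≥0) < 1 := inv_lt_one_of_one_lt₀ one_lt_two

lemma ev2_le {w : Valuation F ℝ≥0} (h : Triv k w) {a b : F} (ha : w a ≤ 1) (hb : w b ≤ 1)
    (P : P2 k) : w (ev2 k a b P) ≤ 1 := by
  induction P using MvPolynomial.induction_on with
  | C t => simpa [ev2] using h.le t
  | add p q hp hq => rw [map_add]; exact w.map_add_le hp hq
  | mul_X p i hp =>
    rw [map_mul, map_mul]
    refine mul_le_one' hp ?_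
    fin_cases i
    · simpa [ev2] using ha
    · simpa [ev2] using hb

lemma aeval_le {w : Valuation F ℝ≥0} (h : Triv k w) {a : F} (ha : w a ≤ 1) (P : k[X]) :
    w (aeval a P) ≤ 1 := by
  induction P using Polynomial.induction_on' with
  | add p q hp hq => rw [map_add]; exact w.map_add_le hp hq
  | monomial n t =>
    rw [aeval_monomial, map_mul, map_pow]
    exact mul_le_one' (h.le t) (pow_le_one' ha n)

lemma coeff_aeval_X (i : Fin 2) (P : k[X]) (n : ℕ) :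
    (aeval (MvPolynomial.X i : P2 k) P).coeff (Finsupp.single i n) = P.coeff n := by
  classical
  induction P using Polynomial.induction_on' with
  | add p q hp hq => rw [map_add, MvPolynomial.coeff_add, hp, hq, coeff_add]
  | monomial m t =>
    rw [aeval_monomial, MvPolynomial.algebraMap_eq, MvPolynomial.C_mul_X_pow_eq_monomial,
      MvPolynomial.coeff_monomial, coeff_monomial]
    simp only [(Finsupp.single_injective i).eq_iff]

lemma gauss_a {w : Valuation F ℝ≥0} (h : Triv k w) {a b : F} (hg : IsGauss k w a b)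
    (ha : w a = 1) {P : k[X]} (hP : P ≠ 0) : w (aeval a P) = 1 := by
  refine le_antisymm (aeval_le h ha.le P) ?_
  have := hg (aeval (MvPolynomial.X 0) P) (Finsupp.single 0 P.natDegree)
  rw [coeff_aeval_X, coeff_natDegree, h _ (leadingCoeff_ne_zero.2 hP), ← aeval_algHom_apply] at this
  simpa [ha, ev2] using this

lemma gauss_b {w : Valuation F ℝ≥0} (h : Triv k w) {a b : F} (hg : IsGauss k w a b)
    (hb : w b = 1) {P : k[X]} (hP : P ≠ 0) : w (aeval b P) = 1 := by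
  refine le_antisymm (aeval_le h hb.le P) ?_
  have := hg (aeval (MvPolynomial.X 1) P) (Finsupp.single 1 P.natDegree)
  rw [coeff_aeval_X, coeff_natDegree, h _ (leadingCoeff_ne_zero.2 hP), ← aeval_algHom_apply] at this
  simpa [hb, ev2] using this

lemma add_small {w : Valuation F ℝ≥0} {g t p : F} (hg : w g = 1) (ht : w t = 2⁻¹) (hp : w p ≤ 1) :
    w (g + t * p) = 1 := by
  rw [w.map_add_eq_of_lt_left, hg]
  rw [hg, map_mul, ht]
  exact (mul_le_of_le_one_right' hp).trans_lt half_lt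

variable {c : Ctx k F} {ν : Fin 9 → Valuation F ℝ≥0}

lemma triv (hν : c.IsNu ν) (j : Fin 9) : Triv k (ν j) := (hν j).1

lemma le_own (hν : c.IsNu ν) (j : Fin 9) {g : F} (hg : g ∈ c.A j) : ν j g ≤ 1 := by
  obtain ⟨P, rfl⟩ := hg
  exact ev2_le (triv hν j) (hν j).2.2.1.le ((hν j).2.2.2.trans_le half_lt.le) P

lemma val_u (h : GeoFacts c) (hν : c.IsNu ν) (i : Fin 9) : ν (i + 1) (c.u i) = 1 := by
  obtain ⟨p, hp, e⟩ := h.u_right i
  rw [e]
  exact add_small (triv hν _ _ (h.cu_ne i)) (hν _).2.2.2 (le_own hν _ hp)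

lemma left_b (h : GeoFacts c) (hν : c.IsNu ν) (i : Fin 9) : ν (i + 1) (c.b i) = 1 := by
  have := congrArg (ν (i + 1)) (h.tb i)
  rwa [map_mul, map_mul, val_u h hν, (hν _).2.2.1, map_one, mul_one, mul_one] at this

lemma left_a (h : GeoFacts c) (hν : c.IsNu ν) (i : Fin 9) : ν (i + 1) (c.a i) = 2⁻¹ := by
  rw [h.ta i, map_mul, map_mul, map_pow, map_zpow₀, val_u h hν, (hν _).2.2.1, (hν _).2.2.2]
  simp

lemma le_next (h : GeoFacts c) (hν : c.IsNu ν) (i : Fin 9) {g : F} (hg : g ∈ c.A i) :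
    ν (i + 1) g ≤ 1 := by
  obtain ⟨P, rfl⟩ := hg
  exact ev2_le (triv hν _) ((left_a h hν i).trans_le half_lt.le) (left_b h hν i).le P

lemma gaussxy (h : GeoFacts c) (hν : c.IsNu ν) (j : Fin 9) : IsGauss k (ν j) c.x c.y :=
  (h.gauss _ j).1 (hν j).2.1

lemma val_poly (hν : c.IsNu ν) (j : Fin 9) {P : k[X]} (hP : P ≠ 0) :
    ν j (aeval (c.a j) P) = 1 := gauss_a (triv hν j) (hν j).2.1 (hν j).2.2.1 hP

lemma val_poly' (h : GeoFacts c) (hν : c.IsNu ν) (i : Fin 9) {P : k[X]} (hP : P ≠ 0) :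
    ν (i + 1) (aeval (c.b i) P) = 1 :=
  gauss_b (triv hν _) ((h.gauss _ i).2 (gaussxy h hν _)) (left_b h hν i) hP

lemma phA (h : GeoFacts c) (hν : c.IsNu ν) (i : Fin 9) {t : k} (ht : t ≠ 0) :
    ν i (c.a i - algebraMap k F t) = 1 ∧ ν (i + 1) (c.a i - algebraMap k F t) = 1 := by
  constructor
  · simpa using val_poly hν i (X_sub_C_ne_zero t)
  · have := add_small (w := ν (i + 1)) (g := -algebraMap k F t) (p := 1)
      (by rw [Valuation.map_neg]; exact triv hν _ t ht) (left_a h hν i) (by simp)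
    rwa [mul_one, neg_add_eq_sub] at this

lemma phB (h : GeoFacts c) (hν : c.IsNu ν) (i : Fin 9) (t : k) :
    ν i (1 - algebraMap k F t * c.b i) = 1 ∧ ν (i + 1) (1 - algebraMap k F t * c.b i) = 1 := by
  constructor
  · have := add_small (w := ν i) (g := 1) (p := -algebraMap k F t) (map_one _) (hν i).2.2.2
      (by rw [Valuation.map_neg]; exact (triv hν _).le t)
    rwa [mul_neg, mul_comm, ← sub_eq_add_neg] at this
  · have hP : (1 - C t * X : k[X]) ≠ 0 := fun e => by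
      simpa using congrArg (fun P : k[X] => P.coeff 0) e
    simpa using val_poly' h hν i hP

lemma val_ph (h : GeoFacts c) (hν : c.IsNu ν) (s : Fin 3) (i : Fin 9) :
    ν i (c.ph s i) = 1 ∧ ν (i + 1) (c.ph s i) = 1 := by
  have a0 := phA h hν 0 h.lam_ne
  have a3 := phA h hν 3 (one_ne_zero (α := k))
  have a6 := phA h hν 6 (one_ne_zero (α := k))
  have b8 := phB h hν 8 c.lam
  have b2 := phB h hν 2 1
  have b5 := phB h hν 5 1
  rw [map_one] at a3 a6
  rw [map_one, one_mul] at b2 b5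
  have o : ∀ j : Fin 9, ν j 1 = 1 ∧ ν (j + 1) 1 = 1 := fun j => ⟨map_one _, map_one _⟩
  fin_cases s <;> fin_cases i
  exacts [a0, o _, o _, o _, o _, o _, o _, o _, b8, o _, o _, b2, a3, o _, o _, o _, o _, o _,
    o _, o _, o _, o _, o _, b5, a6, o _, o _]

lemma val_e (h : GeoFacts c) (hν : c.IsNu ν) (i : Fin 9) :
    ν i (c.e i) = 2⁻¹ ∧ ν (i + 1) (c.e i) = 2⁻¹ := by
  simp [Ctx.e, left_a h hν, left_b h hν, (hν i).2.2.1, (hν i).2.2.2]

lemma val_x0 (h : GeoFacts c) (hν : c.IsNu ν) : ν 0 c.x = 2 := by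
  have h1 : ν 0 (c.x * (c.a 0 - algebraMap k F c.lam))⁻¹ = 2⁻¹ := (hν 0).2.2.2
  rw [map_inv₀, map_mul, (phA h hν 0 h.lam_ne).1, mul_one] at h1
  exact inv_injective h1

lemma val_y0 (h : GeoFacts c) (hν : c.IsNu ν) : ν 0 c.y = 2 := by
  have h1 : ν 0 (c.x / c.y) = 1 := (hν 0).2.2.1
  rw [map_div₀, val_x0 h hν] at h1
  exact (eq_of_div_eq_one h1).symm

lemma lt_b (h : GeoFacts c) (hν : c.IsNu ν) (i : Fin 9) {g : F} (hg : g ∈ c.A i)
    (hl : ν i g < 1) : ∃ p ∈ c.A i, g = c.b i * p := by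
  obtain ⟨P, p, hp, e⟩ := h.split_b i g hg
  by_cases hP : P = 0
  · exact ⟨p, hp, by simpa [hP] using e⟩
  · rw [e, add_small (val_poly hν i hP) (hν i).2.2.2 (le_own hν i hp)] at hl
    exact absurd hl (lt_irrefl _)

lemma lt_a (h : GeoFacts c) (hν : c.IsNu ν) (i : Fin 9) {g : F} (hg : g ∈ c.A i)
    (hl : ν (i + 1) g < 1) : ∃ p ∈ c.A i, g = c.a i * p := by
  obtain ⟨P, p, hp, e⟩ := h.split_a i g hg
  by_cases hP : P = 0
  · exact ⟨p, hp, by simpa [hP] using e⟩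
  · rw [e, add_small (val_poly' h hν i hP) (left_a h hν i) (le_next h hν i hp)] at hl
    exact absurd hl (lt_irrefl _)

lemma lt_e (h : GeoFacts c) (hν : c.IsNu ν) (i : Fin 9) {g : F} (hg : g ∈ c.A i)
    (hl : ν i g < 1) (hl' : ν (i + 1) g < 1) : ∃ p ∈ c.A i, g = c.e i * p := by
  obtain ⟨p, hp, e⟩ := lt_b h hν i hg hl
  obtain ⟨p', hp', e'⟩ := lt_a h hν i hg hl'
  obtain ⟨r, hr, e''⟩ := h.div_e i p' hp' p hp (e'.symm.trans e)
  exact ⟨r, hr, by rw [e', e'', Ctx.e, mul_assoc]⟩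

lemma crit (h : GeoFacts c) (hν : c.IsNu ν) (i : Fin 9) (m : ℕ) : ∀ g : F,
    c.e i ^ m * g ∈ c.A i → ν i g ≤ 1 → ν (i + 1) g ≤ 1 → g ∈ c.A i := by
  induction m with
  | zero => intro g hg _ _; simpa using hg
  | succ m ih =>
    intro g hg h1 h2
    have l1 : ν i (c.e i * g) < 1 := by
      rw [map_mul, (val_e h hν i).1]
      exact (mul_le_of_le_one_right' h1).trans_lt half_lt
    have l2 : ν (i + 1) (c.e i * g) < 1 := by
      rw [map_mul, (val_e h hν i).2]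
      exact (mul_le_of_le_one_right' h2).trans_lt half_lt
    have h3 := ih (c.e i * g) (by rwa [← mul_assoc, ← pow_succ]) l1.le l2.le
    obtain ⟨p, hp, e⟩ := lt_e h hν i h3 l1 l2
    rwa [mul_left_cancel₀ (mul_ne_zero (h.a_ne i) (h.b_ne i)) e]

lemma decomp_aux (h : GeoFacts c) (hν : c.IsNu ν) (j : Fin 9) (n : ℕ) : ∀ P ∈ c.A j,
    2⁻¹ ^ n < ν j P → ∃ (m : ℕ), ∃ P' ∈ c.A j, P = c.b j ^ m * P' ∧ ν j P' = 1 := by
  induction n with
  | zero => intro P hP hl; exact absurd (le_own hν j hP) (by simpa using hl)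
  | succ n ih =>
    intro P hP hl
    rcases (le_own hν j hP).eq_or_lt with e | e
    · exact ⟨0, P, hP, by simp, e⟩
    · obtain ⟨p, hp, rfl⟩ := lt_b h hν j hP e
      rw [map_mul, (hν j).2.2.2, pow_succ'] at hl
      obtain ⟨m, P', hP', e1, e2⟩ := ih p hp (lt_of_mul_lt_mul_left' hl)
      exact ⟨m + 1, P', hP', by rw [e1]; ring, e2⟩

lemma decomp (h : GeoFacts c) (hν : c.IsNu ν) (j : Fin 9) {P : F} (hP : P ∈ c.A j) (h0 : P ≠ 0) :
    ∃ (m : ℕ), ∃ P' ∈ c.A j, P = c.b j ^ m * P' ∧ ν j P' = 1 := by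
  obtain ⟨n, hn⟩ := exists_pow_lt_of_lt_one ((ν j).pos_iff.2 h0) half_lt
  exact decomp_aux h hν j n P hP hn

lemma quot' (h : GeoFacts c) (hν : c.IsNu ν) (j : Fin 9) {g : F} (h0 : g ≠ 0) (hg : ν j g ≤ 1) :
    ∃ t : ℕ, ∃ P ∈ c.A j, ∃ Q ∈ c.A j, ν j P = 1 ∧ ν j Q = 1 ∧ g * Q = c.b j ^ t * P := by
  obtain ⟨P, Q, hQ, e⟩ := (h.coord j).frac g
  have hQ' : ev2 k (c.a j) (c.b j) Q ≠ 0 := (map_ne_zero_iff _ (h.coord j).inj).2 hQ
  obtain ⟨m, P', hP', e1, v1⟩ := decomp h hν j (P := ev2 k (c.a j) (c.b j) P) ⟨P, rfl⟩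
    (e ▸ mul_ne_zero h0 hQ')
  obtain ⟨n, Q', hQ'', e2, v2⟩ := decomp h hν j (P := ev2 k (c.a j) (c.b j) Q) ⟨Q, rfl⟩ hQ'
  rw [e1, e2] at e
  have hv := congrArg (ν j) e
  simp only [map_mul, map_pow, v1, v2, (hν j).2.2.2, mul_one] at hv
  have hmn : n ≤ m := by
    have : (2⁻¹ : ℝ≥0) ^ m ≤ 2⁻¹ ^ n := hv ▸ mul_le_of_le_one_left' hg
    exact (pow_le_pow_iff_right_of_lt_one₀ (by norm_num) half_lt).1 this
  obtain ⟨t, rfl⟩ := Nat.exists_eq_add_of_le hmn
  refine ⟨t, P', hP', Q', hQ'', v1, v2, mul_left_cancel₀ (pow_ne_zero n (h.b_ne j)) ?_⟩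
  linear_combination e

lemma quot (h : GeoFacts c) (hν : c.IsNu ν) (j : Fin 9) (g : F) (hg : ν j g ≤ 1) :
    ∃ P ∈ c.A j, ∃ Q ∈ c.A j, ν j Q = 1 ∧ g * Q = P := by
  by_cases h0 : g = 0
  · exact ⟨0, zero_mem _, 1, one_mem _, map_one _, by simp [h0]⟩
  · obtain ⟨t, P, hP, Q, hQ, -, v, e⟩ := quot' h hν j h0 hg
    exact ⟨_, mul_mem (pow_mem (h.b_mem j) t) hP, Q, hQ, v, e⟩

lemma disc (h : GeoFacts c) (hν : c.IsNu ν) (j : Fin 9) (g : F) (hg : ν j g < 1) :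
    ν j g ≤ 2⁻¹ := by
  by_cases h0 : g = 0
  · simp [h0]
  · obtain ⟨t, P, -, Q, -, v1, v2, e⟩ := quot' h hν j h0 hg.le
    have hv := congrArg (ν j) e
    simp only [map_mul, map_pow, v1, v2, (hν j).2.2.2, mul_one] at hv
    rw [hv] at hg ⊢
    rcases t with _ | t
    · simp at hg
    · rw [pow_succ']
      exact mul_le_of_le_one_right' (pow_le_one' half_lt.le t)

lemma resid (h : GeoFacts c) (hν : c.IsNu ν) (j : Fin 9) (g : F) (hg : ν j g ≤ 1) :
    ∃ P Q : k[X], Q ≠ 0 ∧ ν j (g - aeval (c.a j) P / aeval (c.a j) Q) < 1 := by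
  obtain ⟨P, hP, Q, hQ, v, e⟩ := quot h hν j g hg
  obtain ⟨P₁, p, hp, e1⟩ := h.split_b j P hP
  obtain ⟨Q₁, q, hq, e2⟩ := h.split_b j Q hQ
  have hQ₁ : Q₁ ≠ 0 := by
    rintro rfl
    rw [e2, map_zero, zero_add, map_mul, (hν j).2.2.2] at v
    exact ((mul_le_of_le_one_right' (le_own hν j hq)).trans_lt half_lt).ne v
  have v1 := val_poly hν j hQ₁
  have n1 : aeval (c.a j) Q₁ ≠ 0 := fun e => by simp [e] at v1
  refine ⟨P₁, Q₁, hQ₁, ?_⟩
  have e3 : g - aeval (c.a j) P₁ / aeval (c.a j) Q₁ = c.b j * (p - g * q) / aeval (c.a j) Q₁ := by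
    rw [e1, e2] at e
    field_simp
    linear_combination e
  rw [e3, map_div₀, v1, div_one, map_mul, (hν j).2.2.2]
  refine (mul_le_of_le_one_right' ((ν j).map_sub_le (le_own hν j hp) ?_)).trans_lt half_lt
  rw [map_mul]
  exact mul_le_one' hg (le_own hν j hq)

lemma box (h : GeoFacts c) (hν : c.IsNu ν) (N : ℤ) (n : ℕ) (g : F) (hg : g ∈ c.M N n)
    (h0 : g ≠ 0) : ∃ (N' : ℕ) (P : P2 k), N = N' ∧
      g * (c.x * c.y) ^ N' = ev2 k c.x c.y P ∧ P.totalDegree ≤ 3 * N' := by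
  have h1 := le_own hν 0 (hg 0)
  rw [Ctx.mu, map_mul, map_mul, map_zpow₀, map_pow, (val_e h hν 0).1, (val_ph h hν 0 0).1, one_pow,
    mul_one] at h1
  obtain ⟨P, hP⟩ := (h.A4 _).1 (hg 4)
  have e4 : c.mu N n 4 = (c.x * c.y) ^ N := by
    have : c.mu N n 4 = (c.y * c.x) ^ N * 1 ^ n := rfl
    rw [this, one_pow, mul_one, mul_comm]
  rw [e4] at hP
  have two : (2 : ℝ≥0) ≠ 0 := two_ne_zero
  have hv : ν 0 (ev2 k c.x c.y P) ≤ 2 ^ (3 * N) := by
    rw [hP, map_mul, map_zpow₀, map_mul, val_x0 h hν, val_y0 h hν]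
    have e : ((2 : ℝ≥0) * 2) ^ N = 2⁻¹ ^ N * 2 ^ (3 * N) := by
      rw [inv_zpow', ← zpow_add₀ two, mul_zpow, ← zpow_add₀ two]
      congr 1
      ring
    rw [e, ← mul_assoc]
    exact mul_le_of_le_one_left' h1
  have key : ∀ d ∈ P.support, ((d 0 + d 1 : ℕ) : ℤ) ≤ 3 * N := by
    intro d hd
    have h2 := (gaussxy h hν 0 P d).trans hv
    rw [triv hν 0 _ (MvPolynomial.mem_support_iff.1 hd), val_x0 h hν, val_y0 h hν, one_mul,
      ← pow_add, ← zpow_natCast] at h2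
    exact (zpow_le_zpow_iff_right₀ one_lt_two).1 h2
  have hP0 : P ≠ 0 := by
    rintro rfl
    rw [map_zero] at hP
    exact mul_ne_zero h0 (zpow_ne_zero _ (mul_ne_zero h.x_ne h.y_ne)) hP.symm
  obtain ⟨d, hd⟩ := MvPolynomial.support_nonempty.2 hP0
  obtain ⟨N', rfl⟩ := Int.eq_ofNat_of_zero_le (show 0 ≤ N by have := key d hd; omega)
  refine ⟨N', P, rfl, by rw [hP, zpow_natCast], Finset.sup_le fun d hd => ?_⟩
  have := key d hd
  rw [Finsupp.sum_fintype _ _ (fun _ => rfl), Fin.sum_univ_two]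
  omega

end NuAux

open NuAux in
theorem nu : S_GaussEx → S_Nu := by
  intro hG k F _ _ _ c _ h
  classical
  choose ν h1 h2 h3 h4 using fun j => hG k F (1 : Valuation k ℝ≥0) (c.a j) (c.b j) (h.coord j) 1 2⁻¹
    one_pos (by norm_num)
  have hν : c.IsNu ν := fun j =>
    ⟨fun t ht => by rw [h1, Valuation.one_apply_of_ne_zero ht], h4 j, h2 j, h3 j⟩
  exact ⟨ν, hν, left_a h hν, left_b h hν, val_u h hν, val_ph h hν, val_e h hν, val_x0 h hν,
    val_y0 h hν, fun i g hg => ⟨le_own hν i hg, le_next h hν i hg⟩,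
    fun i g hg => lt_b h hν i hg, fun i g hg => lt_a h hν i hg, fun i g hg => lt_e h hν i hg,
    fun i g m => crit h hν i m g, disc h hν, quot h hν, resid h hν,
    fun j P hP => val_poly hν j hP, box h hν⟩

end Pool.Agent.P.MP_3a4479_al
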