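import Pool.Agent.P.MP_3a4479_al.Defs

set_option autoImplicit false

namespace Pool.Agent.P.MP_3a4479_al

open Polynomial

namespace RFAux

variable {k F : Type} [Field k] [Field F] [Algebra k F]

theorem weight_wt (d : Fin 3 →₀ ℕ) : Finsupp.weight wt d = d 0 + d 1 + 2 * d 2 := by
  rw [Finsupp.weight_apply, Finsupp.sum_fintype _ _ (fun _ => by simp), Fin.sum_univ_three]
  simp [wt]
  ring

theorem al_homog {c : Ctx k F} (σ : Str c) {n : ℕ} {P : P3 k}
    (hP : P.IsWeightedHomogeneous wt n) : σ.al P = monomial n (σ.al0 P) := by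
  conv_lhs => rw [P.as_sum, map_sum]
  conv_rhs => rw [P.as_sum, map_sum, map_sum]
  refine Finset.sum_congr rfl fun d hd => ?_
  have h1 := hP (MvPolynomial.mem_support_iff.1 hd)
  rw [weight_wt] at h1
  rw [Str.al, Str.al0, MvPolynomial.aeval_monomial, MvPolynomial.aeval_monomial,
    Finsupp.prod_fintype _ _ (fun _ => by simp), Finsupp.prod_fintype _ _ (fun _ => by simp),
    Fin.prod_univ_three, Fin.prod_univ_three]
  simp only [Matrix.cons_val_zero, Matrix.cons_val_one, Matrix.cons_val_two, Matrix.head_cons,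
    Matrix.tail_cons, one_pow, one_mul]
  rw [Polynomial.algebraMap_apply, ← monomial_zero_left, ← monomial_one_right_eq_X_pow,
    monomial_pow, monomial_pow, monomial_mul_monomial, monomial_mul_monomial,
    monomial_mul_monomial, ← h1]
  congr 1
  · congr 1
    ring
  · ring

theorem totalDegree_le_of_homog {n : ℕ} {P : P3 k} (hP : P.IsWeightedHomogeneous wt n) :
    P.totalDegree ≤ n := by
  refine Finset.sup_le fun d hd => ?_
  have h1 := hP (MvPolynomial.mem_support_iff.1 hd)
  rw [weight_wt] at h1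
  rw [Finsupp.sum_fintype _ _ (fun _ => rfl), Fin.sum_univ_three]
  omega

theorem al_mem {c : Ctx k F} (h : GeoFacts c) {σ : Str c} (hσ : σ.Good) (P : P3 k) :
    σ.al P ∈ RR h := by
  induction P using MvPolynomial.induction_on with
  | C a => rw [← MvPolynomial.algebraMap_eq, AlgHom.commutes]; exact (RR h).algebraMap_mem a
  | add p q hp hq => rw [map_add]; exact (RR h).add_mem hp hq
  | mul_X p i hp =>
    rw [map_mul]
    refine (RR h).mul_mem hp ?_
    rw [Str.al, MvPolynomial.aeval_X]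
    fin_cases i
    · have : (monomial 1 (1 : F) : F[X]) ∈ c.JJ 0 :=
        GeoFacts.monomial_mem (h.mono 0 0 _ _ (by norm_num) (by norm_num) h.one_mem)
      exact this
    · exact GeoFacts.monomial_mem (q := 0) (by simpa using hσ.hs)
    · exact GeoFacts.monomial_mem (q := 0) (by simpa using hσ.hf)

/-- expansion in a homogeneous basis, with a bound for the degrees -/
theorem exists_coord {c : Ctx k F} {σ : Str c} {κ : ℤ} {d : Fin 6 → ℕ} {β : Fin 6 → F}
    (hβ : IsBasis σ κ d β) (p : F[X]) (hp : p ∈ c.JJ κ) :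
    ∃ P : Fin 6 → P3 k, (∀ l, (P l).totalDegree ≤ p.natDegree) ∧
      p = ∑ l, σ.al (P l) * monomial (d l) (β l) := by
  choose P hP1 hP2 hP3 using fun n => hβ.span n _ (hp n)
  refine ⟨fun l => ∑ n ∈ p.support, P n l, fun l => ?_, ?_⟩
  · refine MvPolynomial.totalDegree_finsetSum_le fun n hn => ?_
    exact (totalDegree_le_of_homog (hP1 n l)).trans
      ((Nat.sub_le _ _).trans (le_natDegree_of_mem_supp n hn))
  · simp only [map_sum, Finset.sum_mul]
    rw [Finset.sum_comm]
    conv_lhs => rw [p.as_sum_support]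
    refine Finset.sum_congr rfl fun n _ => ?_
    rw [hP3 n, map_sum]
    refine Finset.sum_congr rfl fun l _ => ?_
    by_cases hl : n < d l
    · simp [hP2 n l hl]
    · rw [al_homog σ (hP1 n l), monomial_mul_monomial, Nat.sub_add_cancel (by omega)]

theorem reg1_poly (a b : ℕ) (P P' : P3 k)
    (e : MvPolynomial.X 1 ^ a * P = MvPolynomial.X 2 ^ b * P') :
    ∃ Q, P = MvPolynomial.X 2 ^ b * Q := by
  have hp : Prime (MvPolynomial.X 2 : P3 k) := MvPolynomial.X_prime
  refine hp.pow_dvd_of_dvd_mul_left b (fun h => ?_) ⟨P', e⟩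
  have := MvPolynomial.X_dvd_X.1 (hp.dvd_of_dvd_pow h)
  exact absurd this (by decide)

theorem reg2_poly (a b : ℕ) (P P₁ P₂ : P3 k)
    (e : MvPolynomial.X 0 * P = MvPolynomial.X 1 ^ a * P₁ + MvPolynomial.X 2 ^ b * P₂) :
    ∃ Q₁ Q₂, P = MvPolynomial.X 1 ^ a * Q₁ + MvPolynomial.X 2 ^ b * Q₂ := by
  have hI : Ideal.span ({MvPolynomial.X 1 ^ a, MvPolynomial.X 2 ^ b} : Set (P3 k)) =
      Ideal.span ((fun s => MvPolynomial.monomial s (1 : k)) ''
        ({Finsupp.single 1 a, Finsupp.single 2 b} : Set (Fin 3 →₀ ℕ))) := by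
    rw [Set.image_pair, MvPolynomial.X_pow_eq_monomial, MvPolynomial.X_pow_eq_monomial]
  have h1 : MvPolynomial.X 0 * P ∈
      Ideal.span ({MvPolynomial.X 1 ^ a, MvPolynomial.X 2 ^ b} : Set (P3 k)) :=
    Ideal.mem_span_pair.2 ⟨P₁, P₂, by rw [e]; ring⟩
  have h2 : P ∈ Ideal.span ({MvPolynomial.X 1 ^ a, MvPolynomial.X 2 ^ b} : Set (P3 k)) := by
    rw [hI, MvPolynomial.mem_ideal_span_monomial_image] at h1 ⊢
    intro m hm
    obtain ⟨s, hs, hle⟩ := h1 (Finsupp.single 0 1 + m) (by
      rw [MvPolynomial.mem_support_iff, MvPolynomial.coeff_X_mul]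
      exact MvPolynomial.mem_support_iff.1 hm)
    refine ⟨s, hs, ?_⟩
    rcases hs with rfl | rfl
    · rw [Finsupp.single_le_iff] at hle ⊢
      simpa using hle
    · rw [Finsupp.single_le_iff] at hle ⊢
      simpa using hle
  obtain ⟨Q₁, Q₂, h3⟩ := Ideal.mem_span_pair.1 h2
  exact ⟨Q₁, Q₂, by rw [← h3]; ring⟩

theorem pow_mem {c : Ctx k F} (h : GeoFacts c) {g : F} (hg : g ∈ c.M 3 3) (m : ℕ) :
    g ^ m ∈ c.M (3 * m : ℕ) (3 * m) := by
  induction m with
  | zero => simpa using h.one_mem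
  | succ m ih =>
    have := h.mul_mem _ _ _ _ _ ih _ hg
    rw [pow_succ]
    convert this using 2 <;> push_cast <;> ring

theorem ev_mem {c : Ctx k F} (h : GeoFacts c) (D : ℕ) (P : P2 k) (hP : P.totalDegree ≤ D) :
    (c.x * c.y) ^ D * ev2 k c.x c.y P ∈ c.M (3 * D : ℕ) (3 * D) := by
  rw [P.as_sum, map_sum, Finset.mul_sum]
  refine Submodule.sum_mem _ fun d hd => ?_
  have h1 : d 0 + d 1 ≤ D := by
    have := (MvPolynomial.le_totalDegree hd).trans hP
    rwa [Finsupp.sum_fintype _ _ (fun _ => rfl), Fin.sum_univ_two] at this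
  obtain ⟨m, rfl⟩ := Nat.exists_eq_add_of_le h1
  have h2 := h.mul_mem _ _ _ _ _ (h.mul_mem _ _ _ _ _ (pow_mem h h.xxy_mem (d 0)) _
    (pow_mem h h.xyy_mem (d 1))) _ (pow_mem h h.xy_mem m)
  have h3 := Submodule.smul_mem _ (MvPolynomial.coeff d P) h2
  convert h3 using 1
  · congr 1
    · push_cast
      ring
    · ring
  · rw [ev2, MvPolynomial.aeval_monomial, Finsupp.prod_fintype _ _ (fun _ => by simp),
      Fin.prod_univ_two, Algebra.smul_def]
    simp only [Matrix.cons_val_zero, Matrix.cons_val_one]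
    ring

theorem frac {c : Ctx k F} (h : GeoFacts c) (hc : c.Good) (p : F[X]) :
    ∃ r : RR h, r ≠ 0 ∧ (r : F[X]) * p ∈ RR h := by
  induction p using Polynomial.induction_on' with
  | add p q hp hq =>
    obtain ⟨r, hr, h1⟩ := hp
    obtain ⟨r', hr', h2⟩ := hq
    refine ⟨r * r', mul_ne_zero hr hr', ?_⟩
    have := (RR h).add_mem ((RR h).mul_mem r'.2 h1) ((RR h).mul_mem r.2 h2)
    convert this using 1
    push_cast
    ring
  | monomial n g =>
    obtain ⟨P, Q, hQ, e⟩ := hc.coord.frac g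
    set D := max P.totalDegree Q.totalDegree with hD
    have h1 := ev_mem h D Q (le_max_right _ _)
    have h2 := ev_mem h D P (le_max_left _ _)
    have hQ' : ev2 k c.x c.y Q ≠ 0 := fun h0 => hQ (hc.coord.inj (by rw [h0, map_zero]))
    refine ⟨⟨monomial (3 * D) ((c.x * c.y) ^ D * ev2 k c.x c.y Q),
      GeoFacts.monomial_mem (q := 0) (h.mono _ _ _ _ (by push_cast; omega) le_rfl h1)⟩,
      fun h0 => ?_, ?_⟩
    · have h3 := congrArg Subtype.val h0
      simp only [ZeroMemClass.coe_zero, monomial_eq_zero_iff] at h3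
      exact mul_ne_zero (pow_ne_zero _ (mul_ne_zero h.x_ne h.y_ne)) hQ' h3
    · simp only [monomial_mul_monomial]
      rw [mul_assoc, mul_comm _ g, e]
      exact GeoFacts.monomial_mem (q := 0) (h.mono _ _ _ _ (by push_cast; omega) (by omega) h2)

end RFAux

open RFAux

theorem rfS : S_RF := by
  classical
  intro k F _ _ _ c h σ β hc hσ hβ0 hβ
  let al : P3 k →ₐ[k] RR h := σ.al.codRestrict (RR h) (al_mem h hσ)
  have hal : ∀ P, (al P : F[X]) = σ.al P := fun P => rfl
  let B : Fin 6 → RR h := fun l => ⟨monomial (dR l) (β l), GeoFacts.monomial_mem (hβ.mem l)⟩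
  have hval : ∀ P : Fin 6 → P3 k, ((∑ l, al (P l) * B l : RR h) : F[X]) =
      ∑ l, σ.al (P l) * monomial (dR l) (β l) := fun P => by
    push_cast
    rfl
  have hex : ∀ r : RR h, ∃ P : Fin 6 → P3 k, (∀ l, (P l).totalDegree ≤ (r : F[X]).natDegree) ∧
      r = ∑ l, al (P l) * B l := by
    intro r
    obtain ⟨P, h1, h2⟩ := exists_coord hβ (r : F[X]) r.2
    exact ⟨P, h1, Subtype.ext (by rw [hval]; exact h2)⟩
  choose co hdeg hco using hex
  have huniq : ∀ (r : RR h) (P : Fin 6 → P3 k), r = ∑ l, al (P l) * B l → ∀ l, co r l = P l := by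
    intro r P hP l
    have h1 : ∑ l, al (co r l - P l) * B l = 0 := by
      simp only [map_sub, sub_mul, Finset.sum_sub_distrib]
      rw [← hco, ← hP, sub_self]
    have h2 := congrArg Subtype.val h1
    rw [hval] at h2
    exact sub_eq_zero.1 (hβ.indep _ h2 l)
  have hadd : ∀ r r' l, co (r + r') l = co r l + co r' l := by
    intro r r'
    refine huniq _ (fun l => co r l + co r' l) ?_
    simp only [map_add, add_mul, Finset.sum_add_distrib]
    rw [← hco, ← hco]
  have hmul : ∀ a r l, co (al a * r) l = a * co r l := by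
    intro a r
    refine huniq _ (fun l => a * co r l) ?_
    simp only [map_mul, mul_assoc]
    rw [← Finset.mul_sum, ← hco]
  refine ⟨al, hal, ?_, ⟨B, fun r => ⟨co r, hco r⟩⟩, ?_, ?_, ?_, frac h hc⟩
  · let _ : Algebra (P3 k) (RR h) := al.toRingHom.toAlgebra
    have : IsScalarTower k (P3 k) (RR h) :=
      IsScalarTower.of_algebraMap_eq fun a => (al.commutes a).symm
    have : Module.Finite (P3 k) (RR h) := by
      refine ⟨⟨Finset.univ.image B, eq_top_iff.2 fun r _ => ?_⟩⟩
      rw [hco r]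
      exact Submodule.sum_mem _ fun l _ => Submodule.smul_mem _ (co r l)
        (Submodule.subset_span (by simp))
    exact Algebra.FiniteType.trans (S := P3 k) inferInstance inferInstance
  · intro a b r r' e
    rw [← map_pow, ← map_pow] at e
    choose Q hQ using fun l => reg1_poly a b (co r l) (co r' l) (by rw [← hmul, e, hmul])
    refine ⟨∑ l, al (Q l) * B l, ?_⟩
    rw [hco r, Finset.mul_sum]
    exact Finset.sum_congr rfl fun l _ => by rw [hQ l, map_mul, map_pow, mul_assoc]
  · intro a b r r₁ r₂ e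
    rw [← map_pow, ← map_pow] at e
    choose Q₁ Q₂ hQ using fun l => reg2_poly a b (co r l) (co r₁ l) (co r₂ l)
      (by rw [← hmul, e, hadd, hmul, hmul])
    refine ⟨∑ l, al (Q₁ l) * B l, ∑ l, al (Q₂ l) * B l, ?_⟩
    rw [hco r, Finset.mul_sum, Finset.mul_sum, ← Finset.sum_add_distrib]
    refine Finset.sum_congr rfl fun l _ => ?_
    rw [hQ l, map_add, map_mul, map_mul, map_pow, map_pow]
    ring
  · refine ⟨AddMonoidHom.mk' (fun r => co r 0) fun r r' => hadd r r' 0, fun a r => hmul a r 0, ?_,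
      fun r => hdeg r 0⟩
    have := huniq 1 (Pi.single 0 1) (by
      rw [Finset.sum_eq_single 0 (fun l _ hl => by simp [hl]) (by simp)]
      refine Subtype.ext ?_
      simp [B, dR, hβ0]) 0
    simpa using this

end Pool.Agent.P.MP_3a4479_al
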