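import Pool.Agent.P.MP_3a4479_al.Defs

set_option autoImplicit false

namespace Pool.Agent.P.MP_3a4479_al

open Polynomial

namespace ResFAux

variable {k F : Type} [Field k] [Field F] [Algebra k F]

theorem ev2_aeval (u v : F) (p q R : P2 k) :
    ev2 k u v (MvPolynomial.aeval ![p, q] R) = ev2 k (ev2 k u v p) (ev2 k u v q) R := by
  have : (ev2 k u v).comp (MvPolynomial.aeval ![p, q]) = ev2 k (ev2 k u v p) (ev2 k u v q) := by
    ext i
    fin_cases i <;> simp [ev2]
  exact AlgHom.congr_fun this R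

/-- monomials below the diagonal -/
def W (r : ℕ) (p : P2 k) : Prop := ∀ d ∈ p.support, d 1 + r ≤ d 0

theorem W.mul {r r' : ℕ} {p p' : P2 k} (h : W r p) (h' : W r' p') : W (r + r') (p * p') := by
  classical
  intro d hd
  obtain ⟨u, hu, v, hv, rfl⟩ := Finset.mem_add.1 (MvPolynomial.support_mul p p' hd)
  have := h u hu
  have := h' v hv
  simp only [Finsupp.add_apply]
  omega

theorem W.add {r : ℕ} {p p' : P2 k} (h : W r p) (h' : W r p') : W r (p + p') := by
  classical
  intro d hd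
  rcases Finset.mem_union.1 (MvPolynomial.support_add hd) with h1 | h1
  exacts [h d h1, h' d h1]

theorem W_monomial (r : ℕ) (d : Fin 2 →₀ ℕ) (c : k) (h : d 1 + r ≤ d 0) :
    W r (MvPolynomial.monomial d c) := by
  classical
  intro d' hd
  rw [Finset.mem_singleton.1 (MvPolynomial.support_monomial_subset hd)]
  exact h

theorem split (G : P2 k) : ∃ (P : k[X]) (p : P2 k),
    G = aeval (MvPolynomial.X 1) P + MvPolynomial.X 0 * p ∧
      ∀ i, P.coeff i = G.coeff (Finsupp.single 1 i) := by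
  classical
  induction G using MvPolynomial.induction_on' with
  | add a b ha hb =>
    obtain ⟨P, p, h1, h2⟩ := ha
    obtain ⟨Q, q, h3, h4⟩ := hb
    exact ⟨P + Q, p + q, by rw [map_add, h1, h3]; ring, fun i => by simp [h2, h4]⟩
  | monomial d c =>
    by_cases h : d 0 = 0
    · have hd : d = Finsupp.single 1 (d 1) := by
        ext i
        fin_cases i <;> simp [h]
      refine ⟨monomial (d 1) c, 0, ?_, fun i => ?_⟩
      · rw [hd]
        simp [MvPolynomial.C_mul_X_pow_eq_monomial]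
      · rw [hd]
        simp only [coeff_monomial, MvPolynomial.coeff_monomial, Finsupp.single_eq_same,
          (Finsupp.single_injective (1 : Fin 2)).eq_iff]
    · refine ⟨0, MvPolynomial.monomial (d - Finsupp.single 0 1) c, ?_, fun i => ?_⟩
      · rw [map_zero, MvPolynomial.X, MvPolynomial.monomial_mul, add_tsub_cancel_of_le
          (Finsupp.single_le_iff.2 (Nat.pos_of_ne_zero h))]
        simp
      · rw [MvPolynomial.coeff_monomial, if_neg fun hd => h (by simp [hd])]
        simp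

theorem part1 (a b a1 b1 : F) (al : k) (hinj : Function.Injective (ev2 k a b))
    (h1 : b * a1 * (a - algebraMap k F al) = 1) (h2 : a = b1 * a1 ^ 2) {G : F} {t : ℤ}
    (hG : G ∈ (ev2 k a b).range)
    (hH : G * (a - algebraMap k F al) ^ t ∈ (ev2 k a1 b1).range) :
    ∃ P : k[X], (∃ p ∈ (ev2 k a b).range, G = aeval b P + (a - algebraMap k F al) * p) ∧
      ∀ i : ℕ, t < i → P.coeff i = 0 := by
  set Φ := a - algebraMap k F al with hΦ
  have e1 : ∀ R, ev2 k a b (MvPolynomial.aeval ![MvPolynomial.X 0 - MvPolynomial.C al,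
      MvPolynomial.X 1] R) = ev2 k Φ b R := fun R => by
    rw [ev2_aeval]
    simp [ev2, hΦ]
  have e2 : ∀ R, ev2 k Φ b (MvPolynomial.aeval ![MvPolynomial.X 0 + MvPolynomial.C al,
      MvPolynomial.X 1] R) = ev2 k a b R := fun R => by
    rw [ev2_aeval]
    simp [ev2, hΦ]
  have inj : Function.Injective (ev2 k Φ b) := by
    intro R R' h
    have h3 := hinj ((e1 R).trans (h.trans (e1 R').symm))
    have : (MvPolynomial.aeval ![MvPolynomial.X 0 + MvPolynomial.C al, MvPolynomial.X 1]).comp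
        (MvPolynomial.aeval ![MvPolynomial.X 0 - MvPolynomial.C al, MvPolynomial.X 1]) =
        AlgHom.id k (P2 k) := by
      ext i : 1
      fin_cases i <;> simp
    rw [← show _ = R from AlgHom.congr_fun this R, AlgHom.comp_apply, h3]
    exact AlgHom.congr_fun this R'
  have e3 : ∀ d c, ev2 k Φ b (MvPolynomial.monomial d c) = algebraMap k F c * (Φ ^ d 0 * b ^ d 1) :=
    fun d c => by simp [ev2, MvPolynomial.aeval_monomial, Finsupp.prod_fintype]
  have key : ∀ Q, ∃ M : ℕ, ∃ R, W 0 R ∧ (b * Φ) ^ M * ev2 k a1 b1 Q = ev2 k Φ b R := by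
    intro Q
    induction Q using MvPolynomial.induction_on with
    | C c => exact ⟨0, MvPolynomial.monomial 0 c, W_monomial _ _ _ le_rfl, by simp⟩
    | add p q hp hq =>
      obtain ⟨M, R, h3, h4⟩ := hp
      obtain ⟨M', R', h5, h6⟩ := hq
      refine ⟨M + M', MvPolynomial.monomial (Finsupp.single 0 M' + Finsupp.single 1 M') 1 * R +
        MvPolynomial.monomial (Finsupp.single 0 M + Finsupp.single 1 M) 1 * R',
        ((W_monomial 0 _ _ (by simp)).mul h3).add ((W_monomial 0 _ _ (by simp)).mul h5), ?_⟩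
      simp only [map_add, map_mul, e3, ← h4, ← h6]
      simp
      ring
    | mul_X p i hp =>
      obtain ⟨M, R, h3, h4⟩ := hp
      fin_cases i
      · refine ⟨M + 1, R, h3, ?_⟩
        simp only [map_mul, ← h4]
        simp only [ev2, Fin.zero_eta, MvPolynomial.aeval_X, Matrix.cons_val_zero]
        linear_combination (b * Φ) ^ M * MvPolynomial.aeval ![a1, b1] p * h1
      · refine ⟨M, R * (MvPolynomial.monomial (Finsupp.single 0 3 + Finsupp.single 1 2) 1 +
          MvPolynomial.monomial (Finsupp.single 0 2 + Finsupp.single 1 2) al),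
          h3.mul ((W_monomial 0 _ _ (by simp)).add (W_monomial 0 _ _ (by simp))), ?_⟩
        have h5 : b1 = (Φ + algebraMap k F al) * (b * Φ) ^ 2 := by
          rw [hΦ, sub_add_cancel, ← hΦ]
          linear_combination -(b * Φ) ^ 2 * h2 - b1 * (b * a1 * Φ + 1) * h1
        simp only [map_mul, map_add, e3, ← h4]
        simp [ev2]
        linear_combination (b * Φ) ^ M * MvPolynomial.aeval ![a1, b1] p * h5
  obtain ⟨G0, rfl⟩ := hG
  obtain ⟨Q, hQ⟩ := hH
  obtain ⟨M, R, h3, h4⟩ := key Q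
  obtain ⟨P, p, h5, h6⟩ := split (MvPolynomial.aeval ![MvPolynomial.X 0 + MvPolynomial.C al,
    MvPolynomial.X 1] G0)
  refine ⟨P, ⟨_, ⟨_, e1 p⟩, ?_⟩, fun i hi => ?_⟩
  · rw [← show _ = (ev2 k a b).toRingHom G0 from e2 G0, h5, map_add, map_mul, ← aeval_algHom_apply]
    simp [ev2]
  · have h0 : Φ ≠ 0 := right_ne_zero_of_mul_eq_one h1
    obtain ⟨T, T', hT⟩ : ∃ T T' : ℕ, t + T = T' := ⟨(-t).toNat, t.toNat, by omega⟩
    have h7 : MvPolynomial.monomial (Finsupp.single 0 (M + T') + Finsupp.single 1 M) 1 *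
        MvPolynomial.aeval ![MvPolynomial.X 0 + MvPolynomial.C al, MvPolynomial.X 1] G0 =
        MvPolynomial.monomial (Finsupp.single 0 T) 1 * R := inj (by
      have : Φ ^ T' = Φ ^ t * Φ ^ T := by rw [← zpow_natCast, ← hT, zpow_add₀ h0, zpow_natCast]
      rw [map_mul, map_mul, e2, e3, e3, ← h4, show ev2 k a1 b1 Q = ev2 k a b G0 * Φ ^ t from hQ]
      simp [pow_add, this]
      ring)
    by_contra hc
    have h8 := ((W_monomial T (Finsupp.single 0 T) 1 (by simp)).mul h3)
      (Finsupp.single 0 (M + T') + Finsupp.single 1 M + Finsupp.single 1 i) (by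
        rw [← h7, MvPolynomial.mem_support_iff, MvPolynomial.coeff_monomial_mul, one_mul, ← h6]
        exact hc)
    simp at h8
    omega

end ResFAux

open ResFAux in
theorem resF : S_Moves → S_ResF := by
  intro _ k F _ _ _ c _ geo s N n g hg
  obtain ⟨al, f1, f2, f3, f4, f5, f6, f7, f8, f9, f10, f11⟩ : ∃ al : k,
      c.ph s (i0 s) = c.a (i0 s) - algebraMap k F al ∧ c.u (i0 s) = c.ph s (i0 s) ∧
      ue (i0 s) = 1 ∧ (∀ m : Fin 3 → ℕ, ∏ s', c.ph s' (i0 s) ^ m s' = c.ph s (i0 s) ^ m s) ∧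
      (∀ s', c.ph s' (i0 s + 1) = 1) ∧
      c.ph s (i0 s - 1) = 1 - algebraMap k F al * c.b (i0 s - 1) ∧ c.u (i0 s - 1) = 1 ∧
      ue (i0 s - 1) = 0 ∧
      (∀ m : Fin 3 → ℕ, ∏ s', c.ph s' (i0 s - 1) ^ m s' = c.ph s (i0 s - 1) ^ m s) ∧
      (∀ j, j ≠ i0 s → j ≠ i0 s - 1 → c.ph s j = 1) ∧ i0 s - 1 + 1 = i0 s := by
    refine ⟨![c.lam, 1, 1] s, ?_, ?_, ?_, fun m => ?_, fun s' => ?_, ?_, ?_, ?_, fun m => ?_,
      fun j => ?_, sub_add_cancel _ _⟩
    any_goals fin_cases s'
    any_goals fin_cases j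
    all_goals fin_cases s <;> simp [Ctx.ph, Ctx.u, ue, i0, Ctx.l, Fin.prod_univ_three,
      show (-1 : Fin 9) = 8 from rfl]
  have g1 := hg (i0 s)
  rw [f4] at g1
  refine ⟨?_, fun hn ⟨p, hp, h⟩ j => ?_⟩
  · have g2 := hg (i0 s + 1)
    have h1 := geo.tb (i0 s)
    have h2 := geo.ta (i0 s)
    rw [f2, f1] at h1
    rw [f3, sub_self, zpow_zero, mul_one] at h2
    simp only [f5, one_pow, Finset.prod_const_one, mul_one, geo.te, f3, zpow_one, f2] at g2
    rw [f1] at g1 g2 ⊢
    refine part1 _ _ _ _ al (geo.coord _).inj h1 h2 g1 ?_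
    have h0 := right_ne_zero_of_mul_eq_one h1
    rw [zpow_sub₀ h0, zpow_natCast]
    rw [mul_zpow] at g2
    exact (congrArg (· ∈ c.A (i0 s + 1)) (by field_simp)).mp g2
  obtain ⟨r, hr⟩ : ∃ r, n s = r + 1 := ⟨n s - 1, by omega⟩
  have h1 : g * (c.e (i0 s) ^ N * c.ph s (i0 s) ^ r) = p :=
    mul_left_cancel₀ (geo.ph_ne s (i0 s)) (by rw [← h, hr]; ring)
  by_cases j1 : j = i0 s
  · rw [j1, f4, Function.update_self, hr, Nat.add_sub_cancel, h1]
    exact hp
  by_cases j2 : j = i0 s - 1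
  · have g2 := hg (i0 s - 1)
    have h2 := geo.tb (i0 s - 1)
    have h3 := geo.te (i0 s - 1)
    obtain ⟨m, hm⟩ := geo.loc_left (i0 s - 1) p (f11.symm ▸ hp)
    rw [f7, f11, mul_one] at h2
    rw [f8, f11, zpow_zero, mul_one] at h3
    rw [f9, hr] at g2
    rw [f7, mul_one, ← h1, h3, show c.ph s (i0 s) = c.a (i0 s) * c.ph s (i0 s - 1) by
      rw [f1, f6]; linear_combination algebraMap k F al * h2] at hm
    rw [j2, f9, Function.update_self, hr, Nat.add_sub_cancel]
    have hb := geo.b_mem (i0 s - 1)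
    have h4 := add_mem (mul_mem (sum_mem (t := Finset.range m) fun i _ =>
      pow_mem (mul_mem (Subalgebra.algebraMap_mem _ al) hb) i) g2)
      (mul_mem (mul_mem (pow_mem (Subalgebra.algebraMap_mem _ al) m) (pow_mem hb r)) hm)
    convert h4 using 1
    have h5 := mul_neg_geom_sum (algebraMap k F al * c.b (i0 s - 1)) m
    have h6 : c.b (i0 s - 1) ^ r * c.a (i0 s) ^ r = 1 := by rw [← mul_pow, h2, one_pow]
    rw [← f6, mul_pow] at h5
    rw [mul_pow]
    linear_combination (-(g * (c.e (i0 s - 1) ^ N * c.ph s (i0 s - 1) ^ r))) * h5 -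
      g * (c.e (i0 s - 1) ^ N * c.ph s (i0 s - 1) ^ r) * algebraMap k F al ^ m *
        c.b (i0 s - 1) ^ m * h6
  · convert hg j using 3
    refine Finset.prod_congr rfl fun s' _ => ?_
    by_cases h2 : s' = s
    · simp [h2, f10 j j1 j2]
    · rw [Function.update_of_ne h2]

end Pool.Agent.P.MP_3a4479_al
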