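import Pool.Agent.P.MP_3a4479_al.Str1

set_option autoImplicit false

namespace Pool.Agent.P.MP_3a4479_al

open Polynomial

namespace StrAux

variable {k F : Type} [Field k] [Field F] [Algebra k F] {c : Ctx k F}

theorem ph00 (c : Ctx k F) : c.ph 0 0 = c.a 0 - algebraMap k F c.lam := rfl

theorem aeval_mem {S : Subalgebra k F} {x : F} (hx : x ∈ S) (P : k[X]) : aeval x P ∈ S := by
  rw [aeval_eq_sum_range]
  exact S.sum_mem fun i _ => S.smul_mem (S.pow_mem hx i) _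

/-! ### Restriction to the exceptional curve -/

theorem resF_add {N : ℤ} {n : ℕ} (g g' : F) (P P' : k[X]) (h : c.IsResF N n g P)
    (h' : c.IsResF N n g' P') : c.IsResF N n (g + g') (P + P') := by
  obtain ⟨p, hp, h⟩ := h
  obtain ⟨p', hp', h'⟩ := h'
  exact ⟨p + p', add_mem hp hp', by rw [add_mul, h, h', map_add]; ring⟩

theorem resF_smul {N : ℤ} {n : ℕ} (g : F) (P : k[X]) (t : k) (h : c.IsResF N n g P) :
    c.IsResF N n (t • g) (t • P) := by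
  obtain ⟨p, hp, h⟩ := h
  exact ⟨t • p, (c.A 0).smul_mem hp t, by rw [smul_mul_assoc, h, map_smul, smul_add, mul_smul_comm]⟩

theorem resF_uniq (hG : GeoFacts c) {N : ℤ} {n : ℕ} (g : F) (P P' : k[X]) (h : c.IsResF N n g P)
    (h' : c.IsResF N n g P') : P = P' := by
  obtain ⟨p, hp, h⟩ := h
  obtain ⟨p', hp', h'⟩ := h'
  refine sub_eq_zero.mp (hG.uniq_ph _ (p' - p) (sub_mem hp' hp) ?_)
  rw [map_sub]
  linear_combination h' - h

theorem resF_mul (hG : GeoFacts c) {N N' : ℤ} {n n' : ℕ} {g g' : F} {P P' : k[X]}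
    (h : c.IsResF N n g P) (h' : c.IsResF N' n' g' P') :
    c.IsResF (N + N') (n + n') (g * g') (P * P') := by
  obtain ⟨p, hp, h⟩ := h
  obtain ⟨p', hp', h'⟩ := h'
  refine ⟨p * aeval (c.b 0) P' + aeval (c.b 0) P * p' + c.ph 0 0 * p * p',
    add_mem (add_mem (mul_mem hp (aeval_mem (hG.b_mem 0) _)) (mul_mem (aeval_mem (hG.b_mem 0) _) hp'))
      (mul_mem (mul_mem (hG.ph_mem 0 0) hp) hp'), ?_⟩
  rw [hG.mu_mul, map_mul, mul_mul_mul_comm, h, h']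
  ring

theorem resF_low {N : ℤ} {n : ℕ} (g : F) (hg : g ∈ c.M N n) : c.IsResF N (n + 1) g 0 :=
  ⟨g * c.mu N n 0, hg 0, by simp only [Ctx.mu, map_zero]; ring⟩

theorem resF_zero (N : ℤ) (n : ℕ) : c.IsResF N n 0 0 := ⟨0, zero_mem _, by simp⟩

theorem resF_one : c.IsResF 0 0 1 1 := ⟨0, zero_mem _, by simp [Ctx.mu]⟩

theorem res_one : c.IsRes 0 0 1 1 := ⟨0, zero_mem _, by simp [Ctx.mu]⟩

theorem res_one' : c.IsRes 0 1 1 (X - C c.lam) := ⟨0, zero_mem _, by simp [Ctx.mu, ph00]⟩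

theorem resF_e (hG : GeoFacts c) : c.IsResF 1 0 1 (C c.lam * X) :=
  ⟨c.b 0, hG.b_mem 0, by simp [Ctx.mu, ph00, Ctx.e]; ring⟩

/-- A multiplicative family of relations. -/
theorem fam (hG : GeoFacts c) (Rel : ℤ → ℕ → F → k[X] → Prop) (one : Rel 0 0 1 1)
    (mul : ∀ N n N' n' g g' P P', Rel N n g P → Rel N' n' g' P' →
      Rel (N + N') (n + n') (g * g') (P * P'))
    {s f g : F} {S T r : k[X]} {κ : ℤ} {d : ℕ} (hs : s ∈ c.M 2 1 ∧ Rel 2 1 s S)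
    (hf : f ∈ c.M 4 2 ∧ Rel 4 2 f T) (hg : g ∈ c.M (2 * d - κ) d ∧ Rel (2 * d - κ) d g r)
    (i j n : ℕ) (hn : i + 2 * j + d = n) :
    s ^ i * f ^ j * g ∈ c.M (2 * n - κ) n ∧
      Rel (2 * n - κ) n (s ^ i * f ^ j * g) (S ^ i * T ^ j * r) := by
  have hp : ∀ (N : ℤ) (m : ℕ) (x : F) (P : k[X]), x ∈ c.M N m ∧ Rel N m x P → ∀ i : ℕ,
      x ^ i ∈ c.M (i * N) (i * m) ∧ Rel (i * N) (i * m) (x ^ i) (P ^ i) := by
    intro N m x P hx i
    induction i with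
    | zero => simpa using ⟨hG.one_mem, one⟩
    | succ i ih =>
      rw [pow_succ, pow_succ, Nat.cast_succ, add_mul, add_mul, one_mul, one_mul]
      exact ⟨hG.mul_mem _ _ _ _ _ ih.1 _ hx.1, mul _ _ _ _ _ _ _ _ ih.2 hx.2⟩
  have h1 := hp _ _ _ _ hs i
  have h2 := hp _ _ _ _ hf j
  have e1 : (2 * n - κ : ℤ) = i * 2 + j * 4 + (2 * d - κ) := by
    rw [← hn]; push_cast; ring
  have e2 : n = i * 1 + j * 2 + d := by omega
  rw [e1]
  conv => enter [1, 1, 3]; rw [e2]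
  conv => enter [2, 2]; rw [e2]
  exact ⟨hG.mul_mem _ _ _ _ _ (hG.mul_mem _ _ _ _ _ h1.1 _ h2.1) _ hg.1,
    mul _ _ _ _ _ _ _ _ (mul _ _ _ _ _ _ _ _ h1.2 h2.2) hg.2⟩

/-! ### The boundary levels -/

/-- The glueing condition as a submodule. -/
def GlueS (c : Ctx k F) (N : ℤ) (n : ℕ) : Submodule k k[X] where
  carrier := {P | c.Glue N n P}
  add_mem' := by
    rintro P Q ⟨h1, h2⟩ ⟨h3, h4⟩
    exact ⟨(natDegree_add_le _ _).trans (max_le h1 h3), by rw [coeff_add, coeff_add, h2, h4]; ring⟩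
  zero_mem' := ⟨by simp, by simp⟩
  smul_mem' := by
    rintro t P ⟨h1, h2⟩
    exact ⟨(natDegree_smul_le _ _).trans h1, by
      rw [coeff_smul, coeff_smul, h2, smul_eq_mul, smul_eq_mul]; ring⟩

theorem glue_mul (hG : GeoFacts c) (κ : ℤ) (n : ℕ) (w : k[X]) (hw : w.natDegree ≤ n) :
    c.Glue (2 * (n + 1 : ℕ) - κ) (n + 1) ((X + C c.lam⁻¹) * w) ↔ c.Glue (2 * n - κ) n w := by
  have h0 := hG.lam_ne
  have h1 : ((X + C c.lam⁻¹) * w).natDegree ≤ n + 1 :=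
    natDegree_mul_le.trans (by rw [natDegree_X_add_C]; omega)
  have h2 : w.coeff (n + 1) = 0 := coeff_eq_zero_of_natDegree_lt (by omega)
  have h3 : (((n + 1 : ℕ) : ℤ) - (2 * (n + 1 : ℕ) - κ)) = (n - (2 * n - κ)) - 1 := by
    push_cast; ring
  simp only [Ctx.Glue, h1, hw, true_and]
  rw [h3, zpow_sub_one₀ h0, add_mul, coeff_add, coeff_add, coeff_X_mul, coeff_C_mul, coeff_C_mul,
    h2, mul_zero, add_zero, coeff_X_mul_zero, zero_add, mul_comm (_ ^ _), mul_assoc]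
  exact mul_right_inj' (inv_ne_zero h0)

theorem levelE (hG : GeoFacts c) (hR : ResFacts c) {σ : Str c} (hσ : σ.Good) (κ : ℤ)
    (p : Fin 6 → Prop) (d : Fin 6 → ℕ) (β : Fin 6 → F) (r : Fin 6 → k[X])
    (hβ : ∀ l, p l → β l ∈ c.M (2 * d l - κ) (d l) ∧ c.IsRes (2 * d l - κ) (d l) (β l) (r l))
    (hr : ∀ l, p l → (r l).eval (-c.lam⁻¹) ≠ 0)
    (he' : ∀ n, (∃ l j, p l ∧ 2 * j + d l = n) ∨ (n = 0 ∧ κ ≠ 0) ∨ (n = 1 ∧ κ = 0))
    (hpar : ∀ l l', p l → p l' → d l % 2 = d l' % 2 → l = l') (n : ℕ) :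
    c.M (2 * n - κ) n ≤ c.M (2 * n - κ - 1) n ⊔ Submodule.span k {x | ∃ t : Fin 6 × ℕ × ℕ,
      (p t.1 ∧ t.2.1 + 2 * t.2.2 + d t.1 = n) ∧ x = σ.s ^ t.2.1 * σ.f ^ t.2.2 * β t.1} ∧
    ∀ (A : Finset (Fin 6 × ℕ × ℕ)) (a : Fin 6 × ℕ × ℕ → k),
      (∀ t ∈ A, p t.1 ∧ t.2.1 + 2 * t.2.2 + d t.1 = n) →
      ∑ t ∈ A, a t • (σ.s ^ t.2.1 * σ.f ^ t.2.2 * β t.1) ∈ c.M (2 * n - κ - 1) n →
      ∀ t ∈ A, a t = 0 := by
  have h0 := hG.lam_ne
  have hc : ∀ n : ℕ, ∀ w ∈ GlueS c (2 * (n + 1 : ℕ) - κ) (n + 1), leval (-c.lam⁻¹) w = 0 →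
      ∃ w' ∈ GlueS c (2 * n - κ) n, w = (X + C c.lam⁻¹) * w' := by
    intro n w hw hw0
    obtain ⟨w', rfl⟩ : X + C c.lam⁻¹ ∣ w := by
      rw [← sub_neg_eq_add, ← C_neg]
      exact dvd_iff_isRoot.mpr hw0
    refine ⟨w', (glue_mul hG κ n w' ?_).mp hw, rfl⟩
    by_cases h : w' = 0
    · simp [h]
    · have := hw.1
      rw [natDegree_mul (X_add_C_ne_zero _) h, natDegree_X_add_C] at this
      omega
  refine sec_level _ _ (c.IsRes (2 * n - κ) n) (GlueS c (2 * n - κ) n) _ _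
    (fun t => (X + C c.lam⁻¹) ^ t.2.1 * X ^ t.2.2 * r t.1)
    (fun g hg => ?_) (hR.ker _ _) (hR.low _ _) (hR.uniq _ _) (hR.add _ _) (hR.smul _ _)
    (fun t ht => fam hG c.IsRes res_one hR.mul ⟨hσ.hs, hσ.rs⟩ ⟨hσ.hf, hσ.rf⟩ (hβ _ ht.1) _ _ _ ht.2)
    (poly_level (X + C c.lam⁻¹) X (X_add_C_ne_zero _) (fun n => GlueS c (2 * n - κ) n)
      (fun _ => leval (-c.lam⁻¹)) p d r (fun l hl => ?_)
      (fun n w hw => (glue_mul hG κ n w hw.1).mpr hw) (fun n w hw => ⟨?_, ?_⟩)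
      (fun n w _ => by simp) hc (fun w hw hw0 => ?_) (fun l j hl => ?_) (fun n => ?_) hpar n)
  · obtain ⟨P, h1, h2⟩ := hR.ex _ _ g hg
    exact ⟨P, h2, h1⟩
  · obtain ⟨P, h1, h2⟩ := hR.ex _ _ _ (hβ l hl).1
    rw [← hR.uniq _ _ _ _ _ h1 (hβ l hl).2]
    exact h2
  · have := hw.1
    exact natDegree_mul_le.trans (by rw [natDegree_X]; omega)
  · have := hw.1
    rw [coeff_X_mul_zero, coeff_X_mul, coeff_eq_zero_of_natDegree_lt (by omega), mul_zero]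
  · rw [eq_C_of_natDegree_le_zero hw.1] at hw0 ⊢
    simpa using hw0
  · simpa [h0] using hr l hl
  · rcases he' n with h | ⟨rfl, h⟩ | ⟨rfl, rfl⟩
    · exact Or.inl h
    · refine Or.inr fun w hw => ?_
      have h1 : w.coeff 0 = 0 := by
        by_contra h2
        have h3 := hw.2
        apply h
        have h4 := hG.lam_zpow _ (mul_right_cancel₀ h2 (h3.symm.trans (one_mul _).symm))
        simpa using h4
      rw [eq_C_of_natDegree_le_zero hw.1, h1]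
      simp
    · refine Or.inr fun w hw => ?_
      have h3 := hw.2
      rw [leval_apply, eval_eq_sum_range' (Nat.lt_succ_of_le hw.1), Finset.sum_range_succ,
        Finset.sum_range_one, h3]
      norm_num
      ring

/-! ### The exceptional level -/

/-- Polynomials of degree at most `m`. -/
def DegS (k : Type) [Field k] (m : ℤ) : Submodule k k[X] where
  carrier := {P | ∀ i : ℕ, m < i → P.coeff i = 0}
  add_mem' := fun h1 h2 i hi => by rw [coeff_add, h1 i hi, h2 i hi, add_zero]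
  zero_mem' := fun _ _ => rfl
  smul_mem' := fun t P h i hi => by rw [coeff_smul, h i hi, smul_zero]

theorem levelF (hG : GeoFacts c) (hR : ResFacts c) (hD : DimFacts c) {σ : Str c} (hσ : σ.Good)
    {γ : k} (hγ : γ ≠ 0) (hs : c.IsResF 2 1 σ.s (C γ)) {T : k[X]} (hf : c.IsResF 4 2 σ.f T)
    (hT : T.natDegree ≤ 2) (hT2 : T.coeff 2 = 1) (κ : ℕ) (hκ : 1 ≤ κ)
    (p : Fin 6 → Prop) (d : Fin 6 → ℕ) (β : Fin 6 → F)
    (hβ : ∀ l, p l → κ ≤ d l ∧ β l ∈ c.M (2 * d l - κ) (d l) ∧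
      c.IsResF (2 * d l - κ) (d l) (β l) (X ^ (d l - κ)))
    (he' : ∀ n, (∃ l j, p l ∧ 2 * j + d l = n) ∨ n < κ)
    (hpar : ∀ l l', p l → p l' → d l % 2 = d l' % 2 → l = l') (n : ℕ) :
    c.M (2 * n - κ) n ≤ c.M (2 * n - κ) (n - 1) ⊔ Submodule.span k {x | ∃ t : Fin 6 × ℕ × ℕ,
      (p t.1 ∧ t.2.1 + 2 * t.2.2 + d t.1 = n) ∧ x = σ.s ^ t.2.1 * σ.f ^ t.2.2 * β t.1} ∧
    ∀ (A : Finset (Fin 6 × ℕ × ℕ)) (a : Fin 6 × ℕ × ℕ → k),
      (∀ t ∈ A, p t.1 ∧ t.2.1 + 2 * t.2.2 + d t.1 = n) →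
      ∑ t ∈ A, a t • (σ.s ^ t.2.1 * σ.f ^ t.2.2 * β t.1) ∈ c.M (2 * n - κ) (n - 1) →
      ∀ t ∈ A, a t = 0 := by
  refine sec_level _ _ (c.IsResF (2 * n - κ) n) (DegS k (n - κ)) _ _
    (fun t => C γ ^ t.2.1 * T ^ t.2.2 * X ^ (d t.1 - κ))
    (fun g hg => ?_) (fun g hg h => ?_) (fun g hg => ?_) (resF_uniq hG) resF_add resF_smul
    (fun t ht => fam hG c.IsResF resF_one (fun _ _ _ _ _ _ _ _ => resF_mul hG) ⟨hσ.hs, hs⟩
      ⟨hσ.hf, hf⟩ (hβ _ ht.1).2 _ _ _ ht.2)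
    (poly_level (C γ) T (C_ne_zero.mpr hγ) (fun n => DegS k (n - κ))
      (fun n => lcoeff k (n - κ)) p d (fun l => X ^ (d l - κ)) (fun l hl i hi => ?_)
      (fun n w hw i hi => ?_) (fun n w hw i hi => ?_)
      (fun n w hw => ?_) (fun n w hw hw0 => ⟨C γ⁻¹ * w, fun i hi => ?_, ?_⟩)
      (fun w hw _ => ?_) (fun l j hl => ?_) (fun n => ?_) hpar n)
  · obtain ⟨P, h1, h2⟩ := hD.exF _ _ g hg
    exact ⟨P, fun i hi => h2 i (by omega), h1⟩
  · cases n with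
    | zero => exact hg
    | succ n => exact hD.kerF _ _ g hg h
  · cases n with
    | zero =>
      rw [hR.neg _ (by omega) g hg]
      exact resF_zero _ _
    | succ n => exact resF_low g hg
  · have := (hβ l hl).1
    rw [coeff_X_pow, if_neg (by omega)]
  · rw [coeff_C_mul, hw i (by push_cast at hi; omega), mul_zero]
  · rw [coeff_mul]
    refine Finset.sum_eq_zero fun t ht => ?_
    have := Finset.HasAntidiagonal.mem_antidiagonal.mp ht
    by_cases h : 2 < t.1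
    · rw [coeff_eq_zero_of_natDegree_lt (by omega), zero_mul]
    · rw [hw t.2 (by push_cast at hi; omega), mul_zero]
  · rw [lcoeff_apply, coeff_C_mul, hw _ (by omega), mul_zero]
  · rw [coeff_C_mul]
    by_cases h : i = n + 1 - κ
    · rw [h, ← lcoeff_apply, hw0, mul_zero]
    · rw [hw i (by push_cast; omega), mul_zero]
  · rw [← mul_assoc, ← C_mul, mul_inv_cancel₀ hγ, C_1, one_mul]
  · ext i
    exact hw i (by push_cast; omega)
  · have := (hβ l hl).1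
    rw [lcoeff_apply, show 2 * j + d l - κ = j * 2 + (d l - κ) by omega, coeff_mul_X_pow,
      coeff_pow_of_natDegree_le hT, hT2, one_pow]
    exact one_ne_zero
  · rcases he' n with h | h
    · exact Or.inl h
    · exact Or.inr fun w hw => hw _ (by omega)

/-- The three step filtration. -/
theorem three (hG : GeoFacts c) (hR : ResFacts c) (σ : Str c) (κ : ℕ) (d : Fin 6 → ℕ)
    (β : Fin 6 → F) (lev : Fin 6 → ℕ) (hlev : ∀ l, lev l ≤ 2) (hs : σ.s ∈ c.M 2 1)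
    (hf : σ.f ∈ c.M 4 2) (mem : ∀ l, β l ∈ c.M (2 * d l - (κ + lev l : ℕ)) (d l))
    (hE : ∀ e < 2, ∀ n : ℕ, c.M (2 * n - (κ + e : ℕ)) n ≤ c.M (2 * n - (κ + e : ℕ) - 1) n ⊔
      Submodule.span k {x | ∃ t : Fin 6 × ℕ × ℕ, (lev t.1 = e ∧ t.2.1 + 2 * t.2.2 + d t.1 = n) ∧
        x = σ.s ^ t.2.1 * σ.f ^ t.2.2 * β t.1} ∧
      ∀ (A : Finset (Fin 6 × ℕ × ℕ)) (a : Fin 6 × ℕ × ℕ → k),
        (∀ t ∈ A, lev t.1 = e ∧ t.2.1 + 2 * t.2.2 + d t.1 = n) →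
        ∑ t ∈ A, a t • (σ.s ^ t.2.1 * σ.f ^ t.2.2 * β t.1) ∈ c.M (2 * n - (κ + e : ℕ) - 1) n →
        ∀ t ∈ A, a t = 0)
    (hF : ∀ n : ℕ, c.M (2 * n - (κ + 2 : ℕ)) n ≤ c.M (2 * n - (κ + 2 : ℕ)) (n - 1) ⊔
      Submodule.span k {x | ∃ t : Fin 6 × ℕ × ℕ, (lev t.1 = 2 ∧ t.2.1 + 2 * t.2.2 + d t.1 = n) ∧
        x = σ.s ^ t.2.1 * σ.f ^ t.2.2 * β t.1} ∧
      ∀ (A : Finset (Fin 6 × ℕ × ℕ)) (a : Fin 6 × ℕ × ℕ → k),
        (∀ t ∈ A, lev t.1 = 2 ∧ t.2.1 + 2 * t.2.2 + d t.1 = n) →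
        ∑ t ∈ A, a t • (σ.s ^ t.2.1 * σ.f ^ t.2.2 * β t.1) ∈ c.M (2 * n - (κ + 2 : ℕ)) (n - 1) →
        ∀ t ∈ A, a t = 0) :
    IsBasis σ κ d β := by
  let H : ℕ → Submodule k F := fun m =>
    c.M (2 * ((m - 1) / 3 : ℕ) - κ - 2 + ((m - 1) % 3 : ℕ)) ((m - 1) / 3)
  have hH : ∀ (m : ℕ) (N : ℤ) (n : ℕ), N = 2 * ((m - 1) / 3 : ℕ) - κ - 2 + ((m - 1) % 3 : ℕ) →
      n = (m - 1) / 3 → H m = c.M N n := by
    rintro m _ _ rfl rfl
    rfl
  have key := filt (fun t : Fin 6 × ℕ × ℕ => σ.s ^ t.2.1 * σ.f ^ t.2.2 * β t.1)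
    (fun t => 3 * (t.2.1 + 2 * t.2.2 + d t.1) + (2 - lev t.1)) H
    (fun m m' h => hG.mono _ _ _ _ (by omega) (by omega))
    (eq_bot_iff.mpr fun g hg => hR.neg _ (by omega) g hg) (fun t => by
      have := hlev t.1
      rw [hH _ (2 * (t.2.1 + 2 * t.2.2 + d t.1 : ℕ) - (κ + lev t.1 : ℕ)) (t.2.1 + 2 * t.2.2 + d t.1)
        (by omega) (by omega)]
      exact (fam hG (fun _ _ _ _ => True) trivial (fun _ _ _ _ _ _ _ _ _ _ => trivial)
        (S := 0) (T := 0) (r := 0) ⟨hs, trivial⟩ ⟨hf, trivial⟩ ⟨mem t.1, trivial⟩ _ _ _ rfl).1)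
    (fun m => by
      obtain ⟨n, e, he, rfl⟩ : ∃ n e, e ≤ 2 ∧ m = 3 * n + (2 - e) :=
        ⟨m / 3, 2 - m % 3, by omega, by omega⟩
      have hq : ∀ t : Fin 6 × ℕ × ℕ,
          3 * (t.2.1 + 2 * t.2.2 + d t.1) + (2 - lev t.1) = 3 * n + (2 - e) ↔
            lev t.1 = e ∧ t.2.1 + 2 * t.2.2 + d t.1 = n := by
        intro t
        have := hlev t.1
        omega
      simp only [hq]
      rw [hH _ (2 * n - (κ + e : ℕ)) n (by omega) (by omega)]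
      rcases Nat.lt_or_ge e 2 with h | h
      · rw [hH _ (2 * n - (κ + e : ℕ) - 1) n (by omega) (by omega)]
        exact hE e h n
      · obtain rfl : e = 2 := by omega
        rw [hH _ (2 * n - (κ + 2 : ℕ)) (n - 1) (by omega) (by omega)]
        exact hF n)
  refine isBasis_of σ κ d β (fun l => hG.mono _ _ _ _ (by omega) le_rfl (mem l)) (fun n => ?_) key.2
  rw [← hH (3 * n + 3) (2 * n - κ) n (by omega) (by omega)]
  refine (key.1 _).trans (Submodule.span_mono ?_)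
  rintro _ ⟨t, ht, rfl⟩
  exact ⟨t, by omega, rfl⟩

theorem exists_s (hG : GeoFacts c) (hR : ResFacts c) (hD : DimFacts c) :
    ∃ s ∈ c.M 2 1, c.IsRes 2 1 s (X + C c.lam⁻¹) ∧ ∃ γ : k, γ ≠ 0 ∧ c.IsResF 2 1 s (C γ) := by
  obtain ⟨g, hg, hgF⟩ := hD.surjF 2 1 le_rfl (by norm_num) 1 (by simp)
  obtain ⟨P, hP, h1, h2⟩ := hR.ex _ _ g hg
  have h3 : P = P.coeff 1 • (X + C c.lam⁻¹) := by
    conv_lhs => rw [as_sum_range' P 2 (Nat.lt_succ_of_le h1), Finset.sum_range_succ,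
      Finset.sum_range_one, h2]
    norm_num
    rw [mul_comm, add_comm, ← C_mul_X_eq_monomial, smul_eq_C_mul]
  have h4 : P.coeff 1 ≠ 0 := by
    intro h0
    rw [h0, zero_smul] at h3
    obtain ⟨p, hp, hP⟩ := hP
    obtain ⟨p', hp', hF⟩ := hgF
    obtain ⟨Q, p'', hp'', hQ⟩ := hG.split_b 0 p' hp'
    have h5 := hG.uniq_b 0 (1 + (X - C c.lam) * Q) (p - c.ph 0 0 * p'')
      (sub_mem hp (mul_mem (hG.ph_mem 0 0) hp'')) (by
        rw [h3, map_zero, zero_add] at hP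
        rw [map_one, hQ] at hF
        simp only [map_add, map_mul, map_sub, map_one, aeval_X, aeval_C, ← ph00]
        linear_combination hP - hF)
    have h6 := congrArg (eval c.lam) h5
    simp at h6
  refine ⟨(P.coeff 1)⁻¹ • g, Submodule.smul_mem _ _ hg, ?_, (P.coeff 1)⁻¹, inv_ne_zero h4, ?_⟩
  · have := hR.smul _ _ _ _ (P.coeff 1)⁻¹ hP
    conv at this => enter [5, 2]; rw [h3]
    rwa [smul_smul, inv_mul_cancel₀ h4, one_smul] at this
  · have := resF_smul _ _ (P.coeff 1)⁻¹ hgF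
    rwa [smul_eq_C_mul, mul_one] at this

theorem exists_X (hD : DimFacts c) (N n : ℕ) (h1 : 2 ≤ n) (h2 : n ≤ N) :
    ∃ g ∈ c.M N n, c.IsRes N n g X :=
  hD.surjE N n (by omega) h2 X ⟨by rw [natDegree_X]; omega, by
    rw [coeff_X_zero, coeff_X_of_ne_one (by omega), mul_zero]⟩

theorem exists_f (hG : GeoFacts c) (hR : ResFacts c) (hD : DimFacts c) :
    ∃ f ∈ c.M 4 2, c.IsRes 4 2 f X ∧
      ∃ T : k[X], c.IsResF 4 2 f T ∧ T.natDegree ≤ 2 ∧ T.coeff 2 = 1 := by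
  obtain ⟨f₀, hf₀, hr₀⟩ := exists_X hD 4 2 le_rfl (by norm_num)
  obtain ⟨Q, hQ, hQ2⟩ := hD.exF _ _ f₀ hf₀
  obtain ⟨g, hg, hgF⟩ := hD.surjF 3 2 (by norm_num) (by norm_num)
    (C ((1 - Q.coeff 2) / c.lam) * X) ((natDegree_C_mul_le _ _).trans (by simp))
  have h1 := resF_mul hG (resF_e hG) hgF
  rw [one_mul] at h1
  have h2 := hR.add _ _ _ _ _ _ hr₀ (hR.low 4 2 g hg)
  rw [add_zero] at h2
  refine ⟨f₀ + g, add_mem hf₀ (hG.mono _ _ _ _ (by norm_num) le_rfl hg), h2, _,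
    resF_add _ _ _ _ hQ h1, ?_, ?_⟩
  · refine (natDegree_add_le _ _).trans (max_le ?_ ?_)
    · exact natDegree_le_iff_coeff_eq_zero.mpr fun i hi => hQ2 i (by push_cast; omega)
    · compute_degree
  · rw [mul_mul_mul_comm, ← C_mul, mul_div_cancel₀ _ hG.lam_ne, ← sq, coeff_add, coeff_C_mul,
      coeff_X_pow]
    simp

end StrAux

open StrAux in
theorem strS : S_Str := by
  intro k F _ _ _ c _ hG hR hD
  obtain ⟨s, hs, rs, γ, hγ, hsF⟩ := exists_s hG hR hD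
  obtain ⟨f, hf, rf, T, hfF, hT, hT2⟩ := exists_f hG hR hD
  obtain ⟨h, hh, rh⟩ := exists_X hD 6 3 (by norm_num) (by norm_num)
  obtain ⟨g₁, hg₁, rg₁⟩ := hD.surjE 1 1 le_rfl le_rfl (X + C 1)
    ⟨by rw [natDegree_X_add_C], by simp [coeff_one]⟩
  obtain ⟨g₂, hg₂, rg₂⟩ := exists_X hD 3 2 le_rfl (by norm_num)
  obtain ⟨g₃, hg₃, rg₃⟩ := exists_X hD 2 2 le_rfl le_rfl
  obtain ⟨u₂, hu₂, ru₂⟩ := hD.surjF 2 2 (by norm_num) le_rfl (X ^ 0) (by simp)
  obtain ⟨u₃, hu₃, ru₃⟩ := hD.surjF 4 3 (by norm_num) (by norm_num) (X ^ 1) (by simp)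
  obtain ⟨w₃, hw₃, rw₃⟩ := hD.surjF 3 3 (by norm_num) le_rfl (X ^ 0) (by simp)
  obtain ⟨w₄, hw₄, rw₄⟩ := hD.surjF 5 4 (by norm_num) (by norm_num) (X ^ 1) (by simp)
  have h01 : (1 : F) ∈ c.M 0 1 := hG.mono _ _ _ _ le_rfl (by norm_num) hG.one_mem
  have h0 := hG.lam_ne
  have e1 : eval (-c.lam⁻¹) (X : k[X]) ≠ 0 := by simpa using h0
  have e2 : eval (-c.lam⁻¹) (X + C 1 : k[X]) ≠ 0 := by
    intro e
    rw [eval_add, eval_X, eval_C, neg_add_eq_zero] at e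
    have := hG.lam_zpow (-1) (by rw [zpow_neg_one, e])
    omega
  have e3 : eval (-c.lam⁻¹) (X - C c.lam : k[X]) ≠ 0 := by
    intro e
    rw [eval_sub, eval_X, eval_C, sub_eq_zero] at e
    have e' : c.lam * c.lam = -1 := by
      nth_rewrite 1 [← e]
      rw [neg_mul, inv_mul_cancel₀ h0]
    have := hG.lam_zpow 4 (by
      rw [show (4 : ℤ) = (4 : ℕ) from rfl, zpow_natCast]
      linear_combination (c.lam * c.lam - 1) * e')
    omega
  have hσ : (⟨s, f, h⟩ : Str c).Good := ⟨hs, hf, hh, rs, rf, rh⟩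
  refine ⟨⟨s, f, h⟩, ![1, g₁, g₂, u₂, h, u₃], ![w₄, w₃, g₂, g₃, g₁, 1], hσ, rfl, ?_, ?_⟩
  · refine three hG hR _ 0 dR _ ![0, 1, 1, 2, 0, 2] (by decide) hs hf (fun l => ?_)
      (fun e he => levelE hG hR hσ _ (fun l => (![0, 1, 1, 2, 0, 2] : Fin 6 → ℕ) l = e) dR _
        ![1, X + C 1, X, 0, X, 0] (fun l hl => ?_) (fun l hl => ?_) (fun n => ?_) ?_)
      (levelF hG hR hD hσ hγ hsF hfF hT hT2 _ (by norm_num)
        (fun l => (![0, 1, 1, 2, 0, 2] : Fin 6 → ℕ) l = 2) dR _ (fun l hl => ?_) (fun n => ?_)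
        (by decide))
    · fin_cases l
      exacts [hG.one_mem, hg₁, hg₂, hu₂, hh, hu₃]
    · subst hl
      fin_cases l
      exacts [⟨hG.one_mem, res_one⟩, ⟨hg₁, rg₁⟩, ⟨hg₂, rg₂⟩, absurd he (by decide), ⟨hh, rh⟩,
        absurd he (by decide)]
    · subst hl
      fin_cases l
      exacts [by simp, e2, e1, absurd he (by decide), e1, absurd he (by decide)]
    · interval_cases e
      · rcases Nat.mod_two_eq_zero_or_one n with h2 | h2
        · exact Or.inl ⟨0, n / 2, rfl, by change _ + 0 = _; omega⟩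
        · by_cases h3 : n = 1
          · exact Or.inr (Or.inr ⟨h3, rfl⟩)
          · exact Or.inl ⟨4, (n - 3) / 2, rfl, by change _ + 3 = _; omega⟩
      · rcases Nat.mod_two_eq_zero_or_one n with h2 | h2
        · by_cases h3 : n = 0
          · exact Or.inr (Or.inl ⟨h3, by norm_num⟩)
          · exact Or.inl ⟨2, (n - 2) / 2, rfl, by change _ + 2 = _; omega⟩
        · exact Or.inl ⟨1, n / 2, rfl, by change _ + 1 = _; omega⟩
    · interval_cases e <;> decide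
    · fin_cases l
      exacts [absurd hl (by decide), absurd hl (by decide), absurd hl (by decide),
        ⟨le_rfl, hu₂, ru₂⟩, absurd hl (by decide), ⟨by decide, hu₃, ru₃⟩]
    · by_cases h3 : n < 2
      · exact Or.inr h3
      · rcases Nat.mod_two_eq_zero_or_one n with h2 | h2
        · exact Or.inl ⟨3, (n - 2) / 2, rfl, by change _ + 2 = _; omega⟩
        · exact Or.inl ⟨5, (n - 3) / 2, rfl, by change _ + 3 = _; omega⟩
  · refine three hG hR _ 1 dJ _ ![2, 2, 0, 1, 0, 1] (by decide) hs hf (fun l => ?_)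
      (fun e he => levelE hG hR hσ _ (fun l => (![2, 2, 0, 1, 0, 1] : Fin 6 → ℕ) l = e) dJ _
        ![0, 0, X, X, X + C 1, X - C c.lam] (fun l hl => ?_) (fun l hl => ?_) (fun n => ?_) ?_)
      (levelF hG hR hD hσ hγ hsF hfF hT hT2 _ (by norm_num)
        (fun l => (![2, 2, 0, 1, 0, 1] : Fin 6 → ℕ) l = 2) dJ _ (fun l hl => ?_) (fun n => ?_)
        (by decide))
    · fin_cases l
      exacts [hw₄, hw₃, hg₂, hg₃, hg₁, h01]
    · subst hl
      fin_cases l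
      exacts [absurd he (by decide), absurd he (by decide), ⟨hg₂, rg₂⟩, ⟨hg₃, rg₃⟩, ⟨hg₁, rg₁⟩,
        ⟨h01, res_one'⟩]
    · subst hl
      fin_cases l
      exacts [absurd he (by decide), absurd he (by decide), e1, e1, e2, e3]
    · by_cases h3 : n = 0
      · exact Or.inr (Or.inl ⟨h3, by push_cast; omega⟩)
      · interval_cases e
        · rcases Nat.mod_two_eq_zero_or_one n with h2 | h2
          · exact Or.inl ⟨2, (n - 2) / 2, rfl, by change _ + 2 = _; omega⟩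
          · exact Or.inl ⟨4, n / 2, rfl, by change _ + 1 = _; omega⟩
        · rcases Nat.mod_two_eq_zero_or_one n with h2 | h2
          · exact Or.inl ⟨3, (n - 2) / 2, rfl, by change _ + 2 = _; omega⟩
          · exact Or.inl ⟨5, n / 2, rfl, by change _ + 1 = _; omega⟩
    · interval_cases e <;> decide
    · fin_cases l
      exacts [⟨by decide, hw₄, rw₄⟩, ⟨le_rfl, hw₃, rw₃⟩, absurd hl (by decide),
        absurd hl (by decide), absurd hl (by decide), absurd hl (by decide)]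
    · by_cases h3 : n < 3
      · exact Or.inr h3
      · rcases Nat.mod_two_eq_zero_or_one n with h2 | h2
        · exact Or.inl ⟨0, (n - 4) / 2, rfl, by change _ + 4 = _; omega⟩
        · exact Or.inl ⟨1, (n - 3) / 2, rfl, by change _ + 3 = _; omega⟩

end Pool.Agent.P.MP_3a4479_al
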