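import Pool.Agent.P.MP_3a4479_al.Theta2

set_option autoImplicit false

namespace Pool.Agent.P.MP_3a4479_al

open Polynomial
open scoped NNReal

namespace ThetaAux

variable {k F : Type} [Field k] [Field F] [Algebra k F]
variable {c : Ctx k F} {ν : Fin 9 → Valuation F ℝ≥0} {σ : Str c}
variable {L : Type} [Field L] [Algebra F L] {Γ : Type} [LinearOrderedCommGroupWithZero Γ]

/-- `v` is centred at a point of chart `i` that lies on the curve of `W` -/
structure Dom (c : Ctx k F) (ν : Fin 9 → Valuation F ℝ≥0) (i j : Fin 9) (W : Valuation L ℝ≥0)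
    (v : Valuation L Γ) : Prop where
  inch : j = i ∨ j = i + 1
  ext : ∀ z, W (algebraMap F L z) = ν j z
  le : ∀ z, IsIntegral (c.A i) z → v z ≤ 1
  lt : ∀ z, IsIntegral (c.A i) z → W z < 1 → v z < 1

theorem isInt {i : Fin 9} {g : F} (hg : g ∈ c.A i) : IsIntegral (c.A i) (algebraMap F L g) :=
  isIntegral_algebraMap (x := (⟨g, hg⟩ : c.A i))

theorem isIntk (i : Fin 9) (t : k) : IsIntegral (c.A i) (algebraMap F L (algebraMap k F t)) :=
  isInt ((c.A i).algebraMap_mem t)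

theorem ext_le (hn : NuFacts c ν) {i j : Fin 9} (hij : j = i ∨ j = i + 1) {W : Valuation L ℝ≥0}
    (hW : ∀ z, W (algebraMap F L z) = ν j z) {z : L} (hz : IsIntegral (c.A i) z) : W z ≤ 1 := by
  refine int_le W (fun r : c.A i => (hW r).trans_le ?_) hz
  rcases hij with rfl | rfl
  · exact (hn.le_one _ r r.2).1
  · exact (hn.le_one _ r r.2).2

namespace Dom

variable {i j : Fin 9} {W : Valuation L ℝ≥0} {v : Valuation L Γ}

theorem const (h : Dom c ν i j W v) {t : k} (ht : t ≠ 0) :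
    v (algebraMap F L (algebraMap k F t)) = 1 := by
  refine le_antisymm (h.le _ (isIntk i t)) ?_
  have h1 := h.le _ (isIntk i t⁻¹)
  rw [map_inv₀, map_inv₀, map_inv₀] at h1
  exact (inv_le_one₀ ((Valuation.pos_iff _).mpr (by simpa using ht))).mp h1

theorem eq_zero (h : Dom c ν i j W v) {t : k} (ht : v (algebraMap F L (algebraMap k F t)) < 1) :
    t = 0 := by
  by_contra h0
  exact absurd (h.const h0) ht.ne

theorem small (h : Dom c ν i j W v) {g : F} (hg : g ∈ c.A i) (h1 : ν j g < 1) :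
    v (algebraMap F L g) < 1 :=
  h.lt _ (isInt hg) (by rw [h.ext]; exact h1)

theorem rel1 (hn : NuFacts c ν) (h : Dom c ν i j W v) {U : F} (hU : U ∈ c.A i) {M : ℕ} {y : L}
    (hy : IsIntegral (c.A i) (algebraMap F L U ^ M * y)) {t : k}
    (ht : W (y - algebraMap F L (algebraMap k F t)) < 1) :
    v (algebraMap F L U ^ M * y - algebraMap F L U ^ M * algebraMap F L (algebraMap k F t)) < 1 := by
  refine h.lt _ (hy.sub (((isInt hU).pow M).mul (isIntk i t))) ?_
  rw [← mul_sub]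
  exact mul_lt' W (ext_le hn h.inch h.ext ((isInt hU).pow M)) ht

theorem rel2 (hn : NuFacts c ν) (h : Dom c ν i j W v) {U r η : F} (hU : U ∈ c.A i)
    (hr : r ∈ c.A i) {M q : ℕ} {y : L}
    (hy : IsIntegral (c.A i) (algebraMap F L U ^ M * y)) {t : k}
    (ht : W (y + algebraMap F L (η ^ q) - algebraMap F L (algebraMap k F t)) < 1)
    (he : ν j (η * U - r) < 1) :
    v (algebraMap F L U ^ q * (algebraMap F L U ^ M * y)
      + algebraMap F L U ^ M * algebraMap F L r ^ q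
      - algebraMap F L U ^ (M + q) * algebraMap F L (algebraMap k F t)) < 1 := by
  refine h.lt _ (((((isInt hU).pow q).mul hy).add (((isInt hU).pow M).mul ((isInt hr).pow q))).sub
    (((isInt hU).pow _).mul (isIntk i t))) ?_
  have h1 := mul_lt' W (ext_le hn h.inch h.ext ((isInt hU).pow (M + q))) ht
  have h2 := mul_lt' W (ext_le hn h.inch h.ext ((isInt hU).pow M))
    (pow_sub_lt W (x := algebraMap F L (η * U)) (ext_le hn h.inch h.ext (isInt hr))
      (by rw [← map_sub, h.ext]; exact he) q)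
  have h3 := W.map_sub_lt h1 h2
  rw [map_mul, map_pow] at h3
  convert h3 using 2
  ring

theorem fin (h : Dom c ν i j W v) {U X : L} (hU : v U = 1) {N : ℕ} {t t' : k}
    (h1 : v (X - U ^ N * algebraMap F L (algebraMap k F t)) < 1)
    (h2 : v (X - U ^ N * algebraMap F L (algebraMap k F t')) < 1) : t = t' := by
  have h3 := v.map_sub_lt h2 h1
  rw [show X - U ^ N * algebraMap F L (algebraMap k F t') - (X - U ^ N * algebraMap F L
    (algebraMap k F t)) = U ^ N * algebraMap F L (algebraMap k F (t - t')) by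
      rw [map_sub, map_sub]; ring] at h3
  exact sub_eq_zero.mp (h.eq_zero (cancel v hU N h3))

variable {q : ℕ} {β β' : Fin 9 → L}

theorem gen (hn : NuFacts c ν) (hσ : σ.Good) (hz : Z0 ν σ) (hG : GR σ q β β')
    (h : Dom c ν i j W v) (hj : j ≠ 0) {t : k}
    (ht : W (β j - algebraMap F L (algebraMap k F t)) < 1) {M : ℕ}
    (hM : IsIntegral (c.A i) (algebraMap F L (σ.sj i) ^ M * β i)) :
    v (algebraMap F L (σ.sj i)) = 1 ∧ v (algebraMap F L (σ.sj i) ^ M * β i
      - algebraMap F L (σ.sj i) ^ M * algebraMap F L (algebraMap k F t)) < 1 := by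
  have h1 : (∃ γ : k, γ ≠ 0 ∧ ν j (σ.sj i - algebraMap k F γ) < 1) ∧
      W (β i - algebraMap F L (algebraMap k F t)) < 1 := by
    rcases h.inch with rfl | rfl
    · exact ⟨hz.sl _ hj, ht⟩
    · refine ⟨hz.sr i (by rintro rfl; exact hj rfl), ?_⟩
      have := W.map_sub_lt ht (small_lt hn h.ext (hG.difs i))
      rwa [sub_sub_sub_cancel_left] at this
  obtain ⟨⟨γ, h0, h2⟩, h3⟩ := h1
  refine ⟨eq_one v (h.const h0) ?_, h.rel1 hn (hσ.hs i) hM h3⟩
  rw [← map_sub]
  exact h.small ((c.A i).sub_mem (hσ.hs i) ((c.A i).algebraMap_mem γ)) h2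

theorem jump (hn : NuFacts c ν) (hG : GR σ q β β') (h : Dom c ν i 0 W v) {t : k}
    (ht : W (β' 0 - algebraMap F L (algebraMap k F t)) < 1) :
    W (β 0 + algebraMap F L (σ.eta ^ q) - algebraMap F L (algebraMap k F t)) < 1 := by
  have := W.map_sub_lt ht (small_lt hn h.ext hG.jump)
  convert this using 2
  ring

theorem jump8 (hn : NuFacts c ν) (hG : GR σ q β β') (h : Dom c ν i 0 W v) {t : k}
    (ht : W (β' 0 - algebraMap F L (algebraMap k F t)) < 1) :
    W (β 8 + algebraMap F L (σ.eta ^ q) - algebraMap F L (algebraMap k F t)) < 1 := by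
  have h1 : Small c 0 (β 0 - β 8) := hG.difs 8
  have := W.map_sub_lt (h.jump hn hG ht) (small_lt hn h.ext h1)
  convert this using 2
  ring

theorem sj0 (hg : GeoFacts c) (hσ : σ.Good) (hz : Z0 ν σ) (h : Dom c ν 0 0 W v)
    (ha : v (algebraMap F L (c.a 0)) < 1) :
    v (algebraMap F L (σ.sj 0) - algebraMap F L (algebraMap k F c.lam⁻¹)) < 1 := by
  have h1 := h.small ((c.A 0).sub_mem (hσ.hs 0)
    ((c.A 0).add_mem (hg.a_mem 0) ((c.A 0).algebraMap_mem c.lam⁻¹))) hz.s0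
  have h2 := v.map_add_lt h1 ha
  convert h2 using 2
  simp only [Str.sj, map_sub, map_add]
  ring

theorem sj8 (hg : GeoFacts c) (hσ : σ.Good) (hz : Z0 ν σ) (h : Dom c ν 8 0 W v)
    (hb : v (algebraMap F L (c.b 8)) < 1) : v (algebraMap F L (σ.sj 8)) = 1 := by
  have h1 := h.small ((c.A 8).sub_mem (hσ.hs 8) ((c.A 8).add_mem (c.A 8).one_mem
    ((c.A 8).mul_mem ((c.A 8).algebraMap_mem c.lam⁻¹) (hg.b_mem 8)))) hz.s8
  have h2 := v.map_add_lt h1 (mul_lt' v (h.le _ (isIntk 8 c.lam⁻¹)) hb)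
  refine eq_one v (map_one v) ?_
  convert h2 using 2
  simp only [Str.sj, map_sub, map_add, map_mul, map_one]
  ring

variable {j' : Fin 9} {W' : Valuation L ℝ≥0} {t t' : k}

theorem GG (hn : NuFacts c ν) (hσ : σ.Good) (hz : Z0 ν σ) (hG : GR σ q β β')
    (h : Dom c ν i j W v) (h' : Dom c ν i j' W' v) (hj : j ≠ 0) (hj' : j' ≠ 0)
    (ht : W (β j - algebraMap F L (algebraMap k F t)) < 1)
    (ht' : W' (β j' - algebraMap F L (algebraMap k F t')) < 1) : t = t' := by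
  obtain ⟨M, hM⟩ := hG.ints i
  obtain ⟨a1, a2⟩ := h.gen hn hσ hz hG hj ht hM
  exact h.fin a1 a2 (h'.gen hn hσ hz hG hj' ht' hM).2

theorem ZZ0 (hg : GeoFacts c) (hn : NuFacts c ν) (hσ : σ.Good) (hz : Z0 ν σ) (hG : GR σ q β β')
    (h : Dom c ν 0 0 W v) (h' : Dom c ν 0 0 W' v)
    (ht : W (β' 0 - algebraMap F L (algebraMap k F t)) < 1)
    (ht' : W' (β' 0 - algebraMap F L (algebraMap k F t')) < 1) : t = t' := by
  rcases (h.le _ (isInt (hg.a_mem 0))).eq_or_lt with ha | ha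
  · obtain ⟨M, hM⟩ := hG.intf 0
    refine h.fin (eq_one v ha ?_) (h.rel1 hn (hσ.hf 0) hM ht) (h'.rel1 hn (hσ.hf 0) hM ht')
    rw [← map_sub]
    exact h.small ((c.A 0).sub_mem (hσ.hf 0) (hg.a_mem 0)) hz.f0
  · obtain ⟨M, hM⟩ := hG.ints 0
    exact h.fin (eq_one v (h.const (inv_ne_zero hg.lam_ne)) (h.sj0 hg hσ hz ha))
      (h.rel2 hn (hσ.hs 0) (c.A 0).one_mem hM (h.jump hn hG ht) hz.e0)
      (h'.rel2 hn (hσ.hs 0) (c.A 0).one_mem hM (h'.jump hn hG ht') hz.e0)

theorem ZZ8 (hg : GeoFacts c) (hn : NuFacts c ν) (hσ : σ.Good) (hz : Z0 ν σ) (hG : GR σ q β β')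
    (h : Dom c ν 8 0 W v) (h' : Dom c ν 8 0 W' v)
    (ht : W (β' 0 - algebraMap F L (algebraMap k F t)) < 1)
    (ht' : W' (β' 0 - algebraMap F L (algebraMap k F t')) < 1) : t = t' := by
  rcases (h.le _ (isInt (hg.b_mem 8))).eq_or_lt with hb | hb
  · obtain ⟨M, hM⟩ := hG.intf 8
    have a1 := W.map_sub_lt ht (small_lt hn h.ext hG.diff)
    have a2 := W'.map_sub_lt ht' (small_lt hn h'.ext hG.diff)
    rw [sub_sub_sub_cancel_left] at a1 a2
    refine h.fin (eq_one v hb ?_) (h.rel1 hn (hσ.hf 8) hM a1) (h'.rel1 hn (hσ.hf 8) hM a2)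
    rw [← map_sub]
    exact h.small ((c.A 8).sub_mem (hσ.hf 8) (hg.b_mem 8)) hz.f8
  · obtain ⟨M, hM⟩ := hG.ints 8
    exact h.fin (h.sj8 hg hσ hz hb)
      (h.rel2 hn (hσ.hs 8) (hg.b_mem 8) hM (h.jump8 hn hG ht) hz.e8)
      (h'.rel2 hn (hσ.hs 8) (hg.b_mem 8) hM (h'.jump8 hn hG ht') hz.e8)

theorem ZG0 (hg : GeoFacts c) (hn : NuFacts c ν) (hσ : σ.Good) (hz : Z0 ν σ) (hG : GR σ q β β')
    (h : Dom c ν 0 0 W v) (h' : Dom c ν 0 j' W' v) (hj' : j' ≠ 0)
    (ht : W (β' 0 - algebraMap F L (algebraMap k F t)) < 1)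
    (ht' : W' (β j' - algebraMap F L (algebraMap k F t')) < 1) : t + -c.lam ^ q = t' := by
  obtain ⟨M, hM⟩ := hG.ints 0
  obtain ⟨a1, a2⟩ := h'.gen hn hσ hz hG hj' ht' hM
  have ha : v (algebraMap F L (c.a 0)) < 1 := h'.small (hg.a_mem 0) (by
    rw [h'.inch.resolve_left hj', hn.left_a]; exact half_lt)
  have a3 := h.rel2 hn (U := σ.sj 0) (hσ.hs 0) (c.A 0).one_mem hM (h.jump hn hG ht) hz.e0
  have a4 := v.map_sub_lt a3 (mul_lt' v (pow_le v a1.le q) a2)
  have a5 := mul_lt v (pow_sub_lt v (h.le _ (isIntk 0 c.lam⁻¹)) (h.sj0 hg hσ hz ha) q)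
    (h.le _ (isIntk 0 (t' - t)))
  have a6 : v (algebraMap F L (σ.sj 0) ^ q * algebraMap F L (algebraMap k F (t' - t)) + 1) < 1 := by
    refine cancel v a1 M ?_
    convert a4 using 2
    simp only [map_sub, map_one]
    ring
  have a7 : c.lam⁻¹ ^ q * (t' - t) + 1 = 0 := by
    refine h.eq_zero ?_
    convert v.map_sub_lt a6 a5 using 2
    simp only [map_add, map_mul, map_pow, map_one]
    ring
  have a8 : c.lam ^ q * c.lam⁻¹ ^ q = 1 := by
    rw [← mul_pow, mul_inv_cancel₀ hg.lam_ne, one_pow]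
  linear_combination -c.lam ^ q * a7 + (t' - t) * a8

theorem ZG8 (hg : GeoFacts c) (hn : NuFacts c ν) (hσ : σ.Good) (hz : Z0 ν σ) (hG : GR σ q β β')
    (h : Dom c ν 8 0 W v) (h' : Dom c ν 8 j' W' v) (hj' : j' ≠ 0)
    (ht : W (β' 0 - algebraMap F L (algebraMap k F t)) < 1)
    (ht' : W' (β j' - algebraMap F L (algebraMap k F t')) < 1) : t = t' := by
  obtain ⟨M, hM⟩ := hG.ints 8
  obtain ⟨a1, a2⟩ := h'.gen hn hσ hz hG hj' ht' hM
  have hb : v (algebraMap F L (c.b 8)) < 1 := h'.small (hg.b_mem 8) (by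
    rw [h'.inch.resolve_right hj', (hn.isNu 8).2.2.2]; exact half_lt)
  have a3 := h.rel2 hn (U := σ.sj 8) (hσ.hs 8) (hg.b_mem 8) hM (h.jump8 hn hG ht) hz.e8
  have a4 : v (algebraMap F L (c.b 8) ^ q) < 1 := by
    rw [map_pow]; exact pow_lt_one₀ zero_le hb (Nat.one_le_iff_ne_zero.mp hG.qpos)
  refine h.fin (X := algebraMap F L (σ.sj 8) ^ q * (algebraMap F L (σ.sj 8) ^ M * β 8)) a1
    (N := M + q) ?_ ?_
  · convert v.map_sub_lt a3 (mul_lt' v (pow_le v a1.le M) a4) using 2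
    ring
  · convert mul_lt' v (pow_le v a1.le q) a2 using 2
    ring

end Dom

end ThetaAux

open ThetaAux in
theorem thetaS : S_Theta := by
  intro k F L _ _ _ _ _ c ν w σ q β β' hc hg hn hr hσ hw hG
  have hz := z0 hg hn hr hσ
  have hext : ∀ p : Pl F L, ∀ z, (w p.1).comap (p.2 : L →+* L) (algebraMap F L z) = ν p.1 z :=
    fun p z => by
      rw [← hw p.1 z, Valuation.comap_apply]
      exact congrArg _ (p.2.commutes z)
  choose θ hθ using fun p : Pl F L => exists_theta hc hg hn hz hG p.1 _ (hext p)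
  refine ⟨θ, -c.lam ^ q, neg_ne_zero.mpr (pow_ne_zero _ hg.lam_ne), fun i p p' h => ?_⟩
  obtain ⟨V, h1, h2, h3⟩ := exists_dom (c.A i) ((w p.1).comap (p.2 : L →+* L))
    ((w p'.1).comap (p'.2 : L →+* L)) (fun z => ext_le hn h.1 (hext p))
    (fun z => ext_le hn h.2.1 (hext p')) h.2.2
  have d : Dom c ν i p.1 _ V.valuation := ⟨h.1, hext p, h1, h2⟩
  have d' : Dom c ν i p'.1 _ V.valuation := ⟨h.2.1, hext p', h1, h3⟩
  have t := hθ p
  have t' := hθ p'
  have hi : ∀ j : Fin 9, j = 0 → j = i ∨ j = i + 1 → i = 0 ∨ i = 8 := by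
    clear * -
    revert i
    decide
  obtain ⟨j, g⟩ := p
  obtain ⟨j', g'⟩ := p'
  dsimp only at d d' t t' ⊢
  by_cases hj : j = 0
  · have hi' := hi j hj d.inch
    subst hj
    rw [if_pos rfl] at t
    by_cases hj' : j' = 0
    · subst hj'
      rw [if_pos rfl] at t'
      congr 1
      rcases hi' with rfl | rfl
      · exact d.ZZ0 hg hn hσ hz hG d' t t'
      · exact d.ZZ8 hg hn hσ hz hG d' t t'
    · rw [if_neg hj'] at t'
      rcases hi' with rfl | rfl
      · rw [if_pos ⟨rfl, rfl⟩, if_neg fun h => hj' h.2, add_zero]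
        exact d.ZG0 hg hn hσ hz hG d' hj' t t'
      · rw [if_neg (by decide), if_neg fun h => hj' h.2]
        exact congrArg (· + 0) (d.ZG8 hg hn hσ hz hG d' hj' t t')
  · rw [if_neg hj] at t
    by_cases hj' : j' = 0
    · have hi' := hi j' hj' d'.inch
      subst hj'
      rw [if_pos rfl] at t'
      rcases hi' with rfl | rfl
      · rw [if_neg fun h => hj h.2, if_pos ⟨rfl, rfl⟩, add_zero]
        exact (d'.ZG0 hg hn hσ hz hG d hj t' t).symm
      · rw [if_neg fun h => hj h.2, if_neg (by decide)]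
        exact congrArg (· + 0) (d'.ZG8 hg hn hσ hz hG d hj t' t).symm
    · rw [if_neg hj'] at t'
      rw [if_neg fun h => hj h.2, if_neg fun h => hj' h.2]
      exact congrArg (· + 0) (d.GG hn hσ hz hG d' hj hj' t t')

end Pool.Agent.P.MP_3a4479_al
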