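import Pool.Agent.P.MP_3a4479_al.Main
import Pool.Agent.P.MP_3a4479_al.Geo
import Pool.Agent.P.MP_3a4479_al.Nu
import Pool.Agent.P.MP_3a4479_al.Res
import Pool.Agent.P.MP_3a4479_al.ResF
import Pool.Agent.P.MP_3a4479_al.Dim
import Pool.Agent.P.MP_3a4479_al.AA
import Pool.Agent.P.MP_3a4479_al.Str
import Pool.Agent.P.MP_3a4479_al.RF
import Pool.Agent.P.MP_3a4479_al.Dual
import Pool.Agent.P.MP_3a4479_al.J
import Pool.Agent.P.MP_3a4479_al.BF
import Pool.Agent.P.MP_3a4479_al.NoCurve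
import Pool.Agent.P.MP_3a4479_al.AS
import Pool.Agent.P.MP_3a4479_al.Pl
import Pool.Agent.P.MP_3a4479_al.Count
import Pool.Agent.P.MP_3a4479_al.Tube
import Pool.Agent.P.MP_3a4479_al.Mono
import Pool.Agent.P.MP_3a4479_al.Theta
import Pool.Agent.P.MP_3a4479_al.Label
import Pool.Agent.P.MP_3a4479_al.Fib1
import Pool.Agent.P.MP_3a4479_al.Fib2
import Pool.Agent.P.MP_3a4479_al.Core

set_option autoImplicit false

namespace Pool.Agent.P.MP_3a4479_al

theorem partB : PartB :=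
  ⟨geo moves, nu gaussEx, res, resF moves, dimS, aaS, strS, rfS, dualS, jS, tcS, bfS, noCurve,
    noAS, plS, connS, countS, tubeS, monoS, thetaS, labelS, galS, sepS, fib1, fib2, coreS⟩

end Pool.Agent.P.MP_3a4479_al
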