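import Pool.Agent.P.MP_3a4479_al.Defs0

set_option autoImplicit false

namespace Pool.Agent.P.MP_3a4479_al

namespace CompatAux

universe u

variable {R : Type} [CommRing R]

/-- additive maps that are `2 ^ (-e)`-linear -/
def Lin (e : ℕ) (φ : R →+ R) : Prop := ∀ r s, φ (r ^ 2 ^ e * s) = r * φ s

/-- the ring seen as an algebra over itself through the Frobenius map -/
def Tw (R : Type) : Type := R

instance : CommRing (Tw R) := inferInstanceAs (CommRing R)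

theorem split_one [IsDomain R] [ExpChar R 2] (hF : (frobenius R 2).Finite) (hS : Splinter R) :
    ∃ σ : R →+ R, Lin 1 σ ∧ σ 1 = 1 := by
  let : Algebra R (Tw R) := RingHom.toAlgebra (frobenius R 2 : R →+* Tw R)
  obtain ⟨φ, hφ⟩ := hS (Tw R) (frobenius_inj R 2) hF
  refine ⟨φ.toAddMonoidHom, fun r s => ?_, hφ⟩
  have := φ.map_smul r s
  rw [Algebra.smul_def] at this
  exact this

theorem Lin.comp {e e' : ℕ} {φ ψ : R →+ R} (hφ : Lin e φ) (hψ : Lin e' ψ) :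
    Lin (e' + e) (ψ.comp φ) := by
  intro r s
  rw [AddMonoidHom.comp_apply, AddMonoidHom.comp_apply, pow_add, pow_mul, hφ, hψ]

theorem split_all {σ : R →+ R} (hσ : Lin 1 σ) (h1 : σ 1 = 1) (e : ℕ) :
    ∃ φ : R →+ R, Lin e φ ∧ φ 1 = 1 := by
  induction e with
  | zero => exact ⟨AddMonoidHom.id R, fun r s => by simp, rfl⟩
  | succ e ih =>
    obtain ⟨φ, hφ, hφ1⟩ := ih
    exact ⟨φ.comp σ, hσ.comp hφ, by simp [h1, hφ1]⟩

theorem raise {σ : R →+ R} (hσ : Lin 1 σ) (h1 : σ 1 = 1) (c : R) {e : ℕ} {φ : R →+ R}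
    (hφ : Lin e φ) (e' : ℕ) : ∃ ψ : R →+ R, Lin (e + e') ψ ∧ ψ c = φ c := by
  induction e' with
  | zero => exact ⟨φ, hφ, rfl⟩
  | succ e' ih =>
    obtain ⟨ψ, hψ, hc⟩ := ih
    refine ⟨(ψ.comp σ).comp (AddMonoidHom.mulLeft c), fun r s => ?_, ?_⟩
    · have := (hσ.comp hψ) r (c * s)
      simp only [AddMonoidHom.comp_apply, AddMonoidHom.coe_mulLeft] at this ⊢
      rw [← this, mul_left_comm]
      rfl
    · have := hσ c 1
      simp only [AddMonoidHom.comp_apply, AddMonoidHom.coe_mulLeft]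
      rw [← hc]
      congr 1
      rw [h1, mul_one, mul_one, pow_one, pow_two] at this
      exact this

/-- the smallest compatible ideal containing `c` -/
def gen {σ : R →+ R} (hσ : Lin 1 σ) (h1 : σ 1 = 1) (c : R) : Ideal R where
  carrier := {x | ∃ (e : ℕ) (φ : R →+ R), Lin e φ ∧ φ c = x}
  add_mem' := by
    rintro _ _ ⟨e, φ, hφ, rfl⟩ ⟨e', φ', hφ', rfl⟩
    obtain ⟨ψ, hψ, hc⟩ := raise hσ h1 c hφ e'
    obtain ⟨ψ', hψ', hc'⟩ := raise hσ h1 c hφ' e
    rw [add_comm e' e] at hψ'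
    refine ⟨e + e', ψ + ψ', fun r s => ?_, by simp [hc, hc']⟩
    simp only [AddMonoidHom.add_apply]
    rw [hψ, hψ', mul_add]
  zero_mem' := ⟨0, 0, fun r s => by simp, rfl⟩
  smul_mem' := by
    rintro a _ ⟨e, φ, hφ, rfl⟩
    refine ⟨e, (AddMonoidHom.mulLeft a).comp φ, fun r s => ?_, rfl⟩
    simp only [AddMonoidHom.comp_apply, AddMonoidHom.coe_mulLeft]
    rw [hφ, mul_left_comm]

theorem splinter_univ (hS : Splinter R) (S : Type u) [CommRing S] [Algebra R S]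
    (hi : Function.Injective (algebraMap R S)) (hf : Module.Finite R S) :
    ∃ φ : S →ₗ[R] R, φ 1 = 1 := by
  obtain ⟨n, f, hf'⟩ := Algebra.FiniteType.iff_quotient_mvPolynomial''.mp
    (inferInstance : Algebra.FiniteType R S)
  let e := Ideal.quotientKerAlgEquivOfSurjective hf'
  obtain ⟨φ, hφ⟩ := hS (MvPolynomial (Fin n) R ⧸ RingHom.ker f)
    (fun a b hab => hi (by rw [← e.commutes, ← e.commutes, hab]))
    (Module.Finite.equiv e.symm.toLinearEquiv)
  exact ⟨φ.comp e.symm.toLinearMap, by simpa using hφ⟩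

theorem main [IsDomain R] [ExpChar R 2] (hF : (frobenius R 2).Finite) (hS : Splinter R)
    {n : ℕ} {g : Fin n → R} {u c : R} (hc : c ≠ 0)
    (h1 : ∀ e : ℕ, ∃ r : Fin n → R, c * u ^ 2 ^ e = ∑ i, r i * g i ^ 2 ^ e)
    (h2 : ∀ r : Fin n → R, u ≠ ∑ i, r i * g i) :
    (∀ e, ∃ φ : R →+ R, Lin e φ ∧ φ 1 = 1) ∧
    ∃ I : Ideal R, I ≠ ⊥ ∧ I ≠ ⊤ ∧ (∀ e φ, Lin e φ → ∀ s ∈ I, φ s ∈ I) ∧
      ∀ (S : Type u) [CommRing S] [Algebra R S], Module.Finite R S →
        (I : Set R) ≠ {x | ∃ ψ : S →ₗ[R] R, ψ 1 = x} := by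
  obtain ⟨σ, hσ, hσ1⟩ := split_one hF hS
  have hb : gen hσ hσ1 c ≠ ⊥ := by
    intro h
    have : c ∈ gen hσ hσ1 c := ⟨0, AddMonoidHom.id R, fun r s => by simp, rfl⟩
    rw [h] at this
    exact hc this
  have ht : gen hσ hσ1 c ≠ ⊤ := by
    intro h
    have : (1 : R) ∈ gen hσ hσ1 c := by rw [h]; trivial
    obtain ⟨e, φ, hφ, hφc⟩ := this
    obtain ⟨r, hr⟩ := h1 e
    refine h2 (fun i => φ (r i)) ?_
    have := hφ u c
    rw [hφc, mul_one, mul_comm, hr, map_sum] at this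
    rw [← this]
    refine Finset.sum_congr rfl fun i _ => ?_
    rw [mul_comm, hφ, mul_comm]
  refine ⟨split_all hσ hσ1, gen hσ hσ1 c, hb, ht, ?_, ?_⟩
  · rintro e' ψ hψ _ ⟨e, φ, hφ, rfl⟩
    exact ⟨e' + e, ψ.comp φ, hφ.comp hψ, rfl⟩
  · intro S _ _ hf hI
    by_cases hi : Function.Injective (algebraMap R S)
    · obtain ⟨φ, hφ⟩ := splinter_univ hS S hi hf
      apply ht
      rw [Ideal.eq_top_iff_one, ← SetLike.mem_coe, hI]
      exact ⟨φ, hφ⟩
    · apply hb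
      rw [injective_iff_map_eq_zero] at hi
      push Not at hi
      obtain ⟨a, ha, ha0⟩ := hi
      rw [eq_bot_iff]
      intro x hx
      rw [← SetLike.mem_coe, hI] at hx
      obtain ⟨ψ, rfl⟩ := hx
      have := ψ.map_smul a 1
      rw [Algebra.smul_def, ha, zero_mul, map_zero, smul_eq_mul] at this
      exact (mul_eq_zero.mp this.symm).resolve_left ha0

end CompatAux

end Pool.Agent.P.MP_3a4479_al
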