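import Pool.Agent.P.MP_3a4479_al.Defs

set_option autoImplicit false

namespace Pool.Agent.P.MP_3a4479_al

open Polynomial
open scoped NNReal

noncomputable section

namespace CountAux

theorem half_lt_one' : (2⁻¹ : ℝ≥0) < 1 := inv_lt_one_of_one_lt₀ one_lt_two

/-- the lattice bound inside an ambient module -/
theorem lat' (hLat : S_Lat) {k E X : Type} [Field k] [Field E] [Algebra k E] [AddCommGroup X]
    [Module E X] [Module k X] [IsScalarTower k E X] (W : Submodule E X) [Module.Finite E W]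
    (a : E) (ha : Transcendental k a)
    (hf : ∀ z : E, ∃ P Q : k[X], Q ≠ 0 ∧ z * aeval a Q = aeval a P)
    (S₁ S₂ : Finset X) (h1 : ∀ s ∈ S₁, s ∈ W) (h2 : ∀ s ∈ S₂, s ∈ W) :
    ∃ C : ℕ, ∀ n : ℕ, ∀ U : Submodule k X,
      U ≤ Submodule.span k {t : X | ∃ s ∈ S₁, ∃ i : ℕ, t = a ^ i • s} →
      U ≤ Submodule.span k {t : X | ∃ s ∈ S₂, ∃ i : ℕ, t = (a ^ n / a ^ i) • s} →
      Module.Finite k U ∧ Module.finrank k U ≤ Module.finrank E W * n + C := by
  classical
  obtain ⟨C, hC⟩ := hLat k E W a ha hf (S₁.subtype (· ∈ W)) (S₂.subtype (· ∈ W))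
  refine ⟨C, fun n U hU1 hU2 => ?_⟩
  let ι : W →ₗ[k] X := W.subtype.restrictScalars k
  have hι : Function.Injective ι := Subtype.val_injective
  have key : ∀ (S : Finset X) (c : ℕ → E), (∀ s ∈ S, s ∈ W) →
      Submodule.span k {t : X | ∃ s ∈ S, ∃ i : ℕ, t = c i • s} =
        (Submodule.span k {t : W | ∃ s ∈ S.subtype (· ∈ W), ∃ i : ℕ, t = c i • s}).map ι := by
    intro S c hS
    rw [Submodule.map_span]
    congr 1
    ext t
    constructor
    · rintro ⟨s, hs, i, rfl⟩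
      exact ⟨c i • ⟨s, hS s hs⟩, ⟨⟨s, hS s hs⟩, Finset.mem_subtype.2 hs, i, rfl⟩, rfl⟩
    · rintro ⟨_, ⟨s, hs, i, rfl⟩, rfl⟩
      exact ⟨s, Finset.mem_subtype.1 hs, i, rfl⟩
  rw [key S₁ (fun i => a ^ i) h1] at hU1
  rw [key S₂ (fun i => a ^ n / a ^ i) h2] at hU2
  obtain ⟨hfin, hle⟩ := hC n (U.comap ι)
    (fun z hz => by
      obtain ⟨y, hy, hyz⟩ := hU1 hz
      rwa [← hι hyz])
    (fun z hz => by
      obtain ⟨y, hy, hyz⟩ := hU2 hz
      rwa [← hι hyz])
  have hU : (U.comap ι).map ι = U :=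
    Submodule.map_comap_eq_of_le (hU1.trans (LinearMap.map_le_range))
  have e : (U.comap ι) ≃ₗ[k] U :=
    (Submodule.equivMapOfInjective ι hι _).trans (LinearEquiv.ofEq _ _ hU)
  exact ⟨Module.Finite.equiv e, e.finrank_eq ▸ hle⟩

/-- cutting a finite dimensional space by a linear map with small image -/
theorem cut {k L X : Type} [Field k] [AddCommGroup L] [Module k L] [AddCommGroup X] [Module k X]
    (ψ : L →ₗ[k] X) (V : Submodule k L) [Module.Finite k V] (Y : Submodule k X)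
    [Module.Finite k Y] (h : ∀ f ∈ V, ψ f ∈ Y) :
    ∃ V' : Submodule k L, V' ≤ V ∧
      Module.finrank k V ≤ Module.finrank k V' + Module.finrank k Y ∧ ∀ f ∈ V', ψ f = 0 := by
  refine ⟨(LinearMap.ker (ψ.domRestrict V)).map V.subtype, Submodule.map_subtype_le _ _, ?_, ?_⟩
  · rw [Submodule.finrank_map_subtype_eq, ← (ψ.domRestrict V).finrank_range_add_finrank_ker,
      add_comm]
    refine Nat.add_le_add_left (Submodule.finrank_mono ?_) _
    rintro _ ⟨f, rfl⟩
    exact h f f.2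
  · rintro _ ⟨f, hf, rfl⟩
    exact hf

/-- several cuts one after the other -/
theorem cuts {k L ι : Type} [Field k] [AddCommGroup L] [Module k L] (P : L → Prop)
    (Q : ι → L → Prop) (ℓ : ι → ℕ)
    (h : ∀ i, ∀ V : Submodule k L, Module.Finite k V → (∀ f ∈ V, P f) →
      ∃ V' : Submodule k L, V' ≤ V ∧ Module.finrank k V ≤ Module.finrank k V' + ℓ i ∧
        ∀ f ∈ V', Q i f) (s : Finset ι) :
    ∀ V : Submodule k L, Module.Finite k V → (∀ f ∈ V, P f) →
      ∃ V' : Submodule k L, V' ≤ V ∧ Module.finrank k V ≤ Module.finrank k V' + ∑ i ∈ s, ℓ i ∧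
        ∀ i ∈ s, ∀ f ∈ V', Q i f := by
  classical
  induction s using Finset.induction_on with
  | empty => exact fun V _ _ => ⟨V, le_rfl, by simp, by simp⟩
  | insert i s hi ih =>
    intro V hV hP
    obtain ⟨V1, h1, h2, h3⟩ := ih V hV hP
    obtain ⟨V2, h4, h5, h6⟩ := h i V1 (Submodule.finiteDimensional_of_le h1)
      fun f hf => hP f (h1 hf)
    refine ⟨V2, h4.trans h1, ?_, ?_⟩
    · rw [Finset.sum_insert hi]
      omega
    · intro j hj f hf
      rcases Finset.mem_insert.1 hj with rfl | hj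
      · exact h6 f hf
      · exact h3 j hj f (h4 hf)

/-- independent subspaces of a finite dimensional space -/
theorem sum_le {k X ι : Type} [Field k] [AddCommGroup X] [Module k X] [Fintype ι]
    (U : Submodule k X) [Module.Finite k U] (Y : ι → Submodule k X) (hY : ∀ i, Y i ≤ U)
    (h : ∀ y : ι → X, (∀ i, y i ∈ Y i) → ∑ i, y i = 0 → ∀ i, y i = 0) :
    ∑ i, Module.finrank k (Y i) ≤ Module.finrank k U := by
  classical
  have : ∀ i, Module.Finite k (Y i) := fun i => Submodule.finiteDimensional_of_le (hY i)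
  rw [← Module.finrank_pi_fintype k]
  let φ : (∀ i, Y i) →ₗ[k] U := ∑ i, (Submodule.inclusion (hY i)).comp (LinearMap.proj i)
  refine LinearMap.finrank_le_finrank_of_injective (f := φ) ?_
  rw [injective_iff_map_eq_zero]
  intro y hy
  have h1 : ∑ i, (y i : X) = 0 := by
    have h2 := congrArg Subtype.val hy
    simpa [φ] using h2
  ext i
  exact h (fun i => y i) (fun i => (y i).2) h1 i

section Abstract

variable {k E F L : Type} [Field k] [Field E] [Field F] [Field L]
  [Algebra k E] [Algebra E F] [Algebra F L] [Algebra E L] [Algebra k L]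
  [IsScalarTower E F L] [IsScalarTower k E L]

theorem val_smul (w : Valuation L ℝ≥0) (σ : L ≃ₐ[F] L) (g : F) (z : L) :
    w (σ (g • z)) = w (algebraMap F L g) * w (σ z) := by
  rw [map_smul, Algebra.smul_def, map_mul]

/-- elements all of whose conjugates are bounded -/
def Bd (w : Valuation L ℝ≥0) (hE : ∀ e : E, w (algebraMap F L (algebraMap E F e)) ≤ 1)
    (ρ : (L ≃ₐ[F] L) → ℝ≥0) : Submodule E L where
  carrier := {z | ∀ σ : L ≃ₐ[F] L, w (σ z) ≤ ρ σ}
  add_mem' := fun {x y} hx hy σ => by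
    rw [map_add]
    exact w.map_add_le (hx σ) (hy σ)
  zero_mem' := fun σ => by simp
  smul_mem' := fun e z hz σ => by
    rw [← algebraMap_smul F e z, val_smul]
    exact (mul_le_of_le_one_left' (hE e)).trans (hz σ)

theorem mem_Bd {w : Valuation L ℝ≥0} {hE : ∀ e : E, w (algebraMap F L (algebraMap E F e)) ≤ 1}
    {ρ : (L ≃ₐ[F] L) → ℝ≥0} {z : L} : z ∈ Bd w hE ρ ↔ ∀ σ : L ≃ₐ[F] L, w (σ z) ≤ ρ σ := Iff.rfl

theorem rank_layer [FiniteDimensional F L] (w : Valuation L ℝ≥0)
    (hE : ∀ e : E, w (algebraMap F L (algebraMap E F e)) ≤ 1)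
    (hres : ∀ g : F, w (algebraMap F L g) ≤ 1 →
      ∃ e : E, w (algebraMap F L (g - algebraMap E F e)) ≤ 2⁻¹) :
    Module.rank E ((Bd w hE fun _ => 1).map (Bd w hE fun _ => 2⁻¹).mkQ) ≤ Module.finrank F L := by
  classical
  refine rank_le fun s hs => ?_
  have hz : ∀ x : s, ∃ z : L, z ∈ (Bd w hE fun _ => 1) ∧
      (Bd w hE fun _ => 2⁻¹).mkQ z = (x.1 : L ⧸ (Bd w hE fun _ => 2⁻¹)) := fun x => x.1.2
  choose z hz1 hz2 using hz
  have hli : LinearIndependent F z := by
    rw [Fintype.linearIndependent_iff]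
    intro g hg
    by_contra hne
    obtain ⟨x1, hx1⟩ := not_forall.1 hne
    obtain ⟨x0, -, hx0⟩ := Finset.exists_max_image Finset.univ
      (fun x => w (algebraMap F L (g x))) ⟨x1, Finset.mem_univ _⟩
    have hpos : w (algebraMap F L (g x0)) ≠ 0 := by
      intro h0
      have h1 := hx0 x1 (Finset.mem_univ _)
      rw [h0, nonpos_iff_eq_zero, Valuation.zero_iff, map_eq_zero] at h1
      exact hx1 h1
    have hg0 : g x0 ≠ 0 := by
      intro h0
      exact hpos (by rw [h0, map_zero, map_zero])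
    have hle : ∀ x, w (algebraMap F L (g x / g x0)) ≤ 1 := by
      intro x
      rw [map_div₀, map_div₀]
      exact div_le_one_of_le₀ (hx0 x (Finset.mem_univ _)) (zero_le)
    choose e he using fun x => hres _ (hle x)
    have hsum : ∑ x, e x • z x ∈ (Bd w hE fun _ => 2⁻¹) := by
      have h1 : ∑ x, e x • z x = -∑ x, (g x / g x0 - algebraMap E F (e x)) • z x := by
        simp only [sub_smul, Finset.sum_sub_distrib, algebraMap_smul, div_eq_inv_mul, mul_smul]
        rw [← Finset.smul_sum, hg, smul_zero, zero_sub, neg_neg]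
      rw [h1]
      refine Submodule.neg_mem _ (Submodule.sum_mem _ fun x _ σ => ?_)
      rw [val_smul]
      exact (mul_le_of_le_one_right' (hz1 x σ)).trans (he x)
    have h2 : ∑ x : s, e x • x.1 = 0 := by
      apply Subtype.val_injective
      have h3 := (Submodule.Quotient.mk_eq_zero _).2 hsum
      rw [← Submodule.mkQ_apply, map_sum] at h3
      simp only [map_smul, hz2] at h3
      simpa using h3
    have h4 := Fintype.linearIndependent_iff.1 hs e h2 x0
    have h5 := he x0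
    rw [h4, map_zero, sub_zero, div_self hg0, map_one, map_one] at h5
    exact absurd h5 (not_le.2 half_lt_one')
  have h6 := hli.fintype_card_le_finrank
  rw [Fintype.card_coe] at h6
  exact_mod_cast h6

/-- the layer bound along one boundary curve -/
theorem layer (hLat : S_Lat) [FiniteDimensional F L] {Cl : Type} [Fintype Cl]
    (w : Valuation L ℝ≥0) (κ : (L ≃ₐ[F] L) → Cl)
    (hE : ∀ e : E, w (algebraMap F L (algebraMap E F e)) ≤ 1)
    (hres : ∀ g : F, w (algebraMap F L g) ≤ 1 →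
      ∃ e : E, w (algebraMap F L (g - algebraMap E F e)) ≤ 2⁻¹)
    (a : E) (ha : Transcendental k a)
    (hf : ∀ z : E, ∃ P Q : k[X], Q ≠ 0 ∧ z * aeval a Q = aeval a P)
    (S₁ S₂ : Finset L) (h1 : ∀ s ∈ S₁, ∀ σ : L ≃ₐ[F] L, w (σ s) ≤ 1)
    (h2 : ∀ s ∈ S₂, ∀ σ : L ≃ₐ[F] L, w (σ s) ≤ 1) :
    ∃ C₀ : ℕ, ∀ n : ℕ, ∃ ℓ : Cl → ℕ, ∑ C, ℓ C ≤ Module.finrank F L * n + C₀ ∧
      ∀ (C : Cl) (g : L) (V : Submodule k L), Module.Finite k V →
        (∀ f ∈ V, (∀ σ : L ≃ₐ[F] L, w (σ (g * f)) ≤ 1 ∧ (κ σ ≠ C → w (σ (g * f)) ≤ 2⁻¹)) ∧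
          (∃ z ∈ Submodule.span k {t : L | ∃ s ∈ S₁, ∃ i : ℕ, t = algebraMap E F a ^ i • s},
            ∀ σ : L ≃ₐ[F] L, w (σ (g * f - z)) ≤ 2⁻¹) ∧
          (∃ z ∈ Submodule.span k {t : L | ∃ s ∈ S₂, ∃ i : ℕ,
              t = (algebraMap E F a ^ n / algebraMap E F a ^ i) • s},
            ∀ σ : L ≃ₐ[F] L, w (σ (g * f - z)) ≤ 2⁻¹)) →
        ∃ V' : Submodule k L, V' ≤ V ∧ Module.finrank k V ≤ Module.finrank k V' + ℓ C ∧
          ∀ f ∈ V', ∀ σ : L ≃ₐ[F] L, w (σ (g * f)) ≤ 2⁻¹ := by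
  classical
  set D' : Submodule E L := Bd w hE fun _ => 2⁻¹ with hD'
  set W : Submodule E (L ⧸ D') := (Bd w hE fun _ => 1).map D'.mkQ with hW
  have hrank : Module.rank E W ≤ Module.finrank F L := rank_layer w hE hres
  have : Module.Finite E W :=
    Module.rank_lt_aleph0_iff.1 (hrank.trans_lt (Cardinal.natCast_lt_aleph0))
  have hfr : Module.finrank E W ≤ Module.finrank F L := Module.finrank_le_of_rank_le hrank
  obtain ⟨C₀, hC₀⟩ := lat' (k := k) hLat W a ha hf (S₁.image D'.mkQ) (S₂.image D'.mkQ)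
    (fun s hs => by
      obtain ⟨s', hs', rfl⟩ := Finset.mem_image.1 hs
      exact ⟨s', h1 s' hs', rfl⟩)
    (fun s hs => by
      obtain ⟨s', hs', rfl⟩ := Finset.mem_image.1 hs
      exact ⟨s', h2 s' hs', rfl⟩)
  refine ⟨C₀, fun n => ?_⟩
  set U : Submodule k (L ⧸ D') :=
    Submodule.span k {t | ∃ s ∈ S₁.image D'.mkQ, ∃ i : ℕ, t = a ^ i • s} ⊓
      Submodule.span k {t | ∃ s ∈ S₂.image D'.mkQ, ∃ i : ℕ, t = (a ^ n / a ^ i) • s} with hU
  obtain ⟨hUfin, hUle⟩ := hC₀ n U inf_le_left inf_le_right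
  let π : L →ₗ[k] L ⧸ D' := D'.mkQ.restrictScalars k
  let Y : Cl → Submodule k (L ⧸ D') := fun C =>
    U ⊓ ((Bd w hE fun σ => if κ σ = C then 1 else 2⁻¹).map D'.mkQ).restrictScalars k
  have hYU : ∀ C, Y C ≤ U := fun C => inf_le_left
  have hspan : ∀ (S : Finset L) (c : ℕ → E) (z : L),
      z ∈ Submodule.span k {t : L | ∃ s ∈ S, ∃ i : ℕ, t = algebraMap E F (c i) • s} →
      π z ∈ Submodule.span k {t | ∃ s ∈ S.image D'.mkQ, ∃ i : ℕ, t = c i • s} := by
    intro S c z hz
    have h3 := Submodule.mem_map_of_mem (f := π) hz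
    rw [Submodule.map_span] at h3
    refine Submodule.span_mono ?_ h3
    rintro _ ⟨_, ⟨s, hs, i, rfl⟩, rfl⟩
    refine ⟨D'.mkQ s, Finset.mem_image_of_mem _ hs, i, ?_⟩
    rw [algebraMap_smul]
    exact map_smul D'.mkQ (c i) s
  refine ⟨fun C => Module.finrank k (Y C), ?_, fun C g V hV h => ?_⟩
  · refine (sum_le U Y hYU fun y hy hsum C => ?_).trans
      (hUle.trans (Nat.add_le_add_right (Nat.mul_le_mul_right _ hfr) _))
    choose z hz1 hz2 using fun C => (hy C).2
    have h3 : ∑ C, z C ∈ D' := by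
      rw [← Submodule.Quotient.mk_eq_zero, ← Submodule.mkQ_apply, map_sum, ← hsum]
      exact Finset.sum_congr rfl fun C _ => hz2 C
    rw [← hz2 C, Submodule.mkQ_apply, Submodule.Quotient.mk_eq_zero]
    intro σ
    by_cases hσ : κ σ = C
    · have h4 : z C = ∑ C', z C' - ∑ C' ∈ Finset.univ.erase C, z C' := by
        rw [← Finset.add_sum_erase _ _ (Finset.mem_univ C), add_sub_cancel_right]
      rw [h4, map_sub]
      refine w.map_sub_le (h3 σ) ?_
      rw [map_sum]
      refine w.map_sum_le fun C' hC' => ?_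
      have h5 := hz1 C' σ
      simp only [hσ, if_neg (Finset.ne_of_mem_erase hC').symm] at h5
      exact h5
    · have h5 := hz1 C σ
      simp only [if_neg hσ] at h5
      exact h5
  · have : Module.Finite k (Y C) := Submodule.finiteDimensional_of_le (hYU C)
    obtain ⟨V', h3, h4, h5⟩ := cut (π.comp (LinearMap.mulLeft k g)) V (Y C) fun f hf => by
      obtain ⟨ha1, ⟨z1, hz1, hz1'⟩, z2, hz2, hz2'⟩ := h f hf
      have e1 : π (g * f) = π z1 := (Submodule.Quotient.eq D').2 hz1'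
      have e2 : π (g * f) = π z2 := (Submodule.Quotient.eq D').2 hz2'
      refine ⟨⟨?_, ?_⟩, g * f, fun σ => ?_, rfl⟩
      · change π (g * f) ∈ _
        rw [e1]
        refine hspan S₁ (fun i => a ^ i) z1 ?_
        simpa only [map_pow] using hz1
      · change π (g * f) ∈ _
        rw [e2]
        refine hspan S₂ (fun i => a ^ n / a ^ i) z2 ?_
        simpa only [map_pow, map_div₀] using hz2
      · by_cases hσ : κ σ = C
        · simp only [if_pos hσ]
          exact (ha1 σ).1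
        · simp only [if_neg hσ]
          exact (ha1 σ).2 hσ
    refine ⟨V', h3, h4, fun f hf => ?_⟩
    exact (Submodule.Quotient.mk_eq_zero D').1 (h5 f hf)

end Abstract

end CountAux

end

end Pool.Agent.P.MP_3a4479_al
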