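import Pool.Agent.P.MP_3a4479_al.Count1

set_option autoImplicit false

namespace Pool.Agent.P.MP_3a4479_al

open Polynomial Filter Topology
open scoped NNReal IntermediateField

noncomputable section

namespace CountAux

section Val

variable {k F : Type} [Field k] [Field F] [Algebra k F] (ν : Valuation F ℝ≥0)

theorem val_aeval_le (hk : ∀ t : k, ν (algebraMap k F t) ≤ 1) {x : F} (hx : ν x ≤ 1)
    (P : k[X]) : ν (aeval x P) ≤ 1 := by
  rw [aeval_eq_sum_range]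
  refine ν.map_sum_le fun i _ => ?_
  rw [Algebra.smul_def, map_mul, map_pow]
  exact mul_le_one' (hk _) (pow_le_one' hx _)

theorem approx (hk : ∀ t : k, ν (algebraMap k F t) ≤ 1) {x α β : F} (hx : ν x ≤ 1)
    (hα1 : ν α ≤ 1) (hβ1 : ν β ≤ 1) (hα : ∃ P : k[X], ν (α - aeval x P) ≤ 2⁻¹)
    (hβ : ∃ P : k[X], ν (β - aeval x P) ≤ 2⁻¹) :
    ∀ g ∈ (ev2 k α β).range, ∃ P : k[X], ν (g - aeval x P) ≤ 2⁻¹ := by
  rintro _ ⟨Q, rfl⟩
  change ∃ P : k[X], ν (ev2 k α β Q - aeval x P) ≤ 2⁻¹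
  have step : ∀ g γ : F, ν γ ≤ 1 → (∃ P : k[X], ν (g - aeval x P) ≤ 2⁻¹) →
      (∃ P : k[X], ν (γ - aeval x P) ≤ 2⁻¹) → ∃ P : k[X], ν (g * γ - aeval x P) ≤ 2⁻¹ := by
    rintro g γ h1 ⟨P, hP⟩ ⟨P', hP'⟩
    refine ⟨P * P', ?_⟩
    have e : g * γ - aeval x (P * P') = (g - aeval x P) * γ + aeval x P * (γ - aeval x P') := by
      rw [map_mul]; ring
    rw [e]
    refine ν.map_add_le ?_ ?_
    · rw [map_mul]
      exact (mul_le_of_le_one_right' h1).trans hP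
    · rw [map_mul]
      exact (mul_le_of_le_one_left' (val_aeval_le ν hk hx P)).trans hP'
  induction Q using MvPolynomial.induction_on with
  | C t => exact ⟨C t, by simp [ev2]⟩
  | add p q hp hq =>
    obtain ⟨P, hP⟩ := hp
    obtain ⟨P', hP'⟩ := hq
    refine ⟨P + P', ?_⟩
    have e : ev2 k α β (p + q) - aeval x (P + P') =
        (ev2 k α β p - aeval x P) + (ev2 k α β q - aeval x P') := by
      rw [map_add, map_add]; ring
    rw [e]
    exact ν.map_add_le hP hP'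
  | mul_X p i hp =>
    rw [map_mul]
    have e : ev2 k α β (MvPolynomial.X i) = α ∨ ev2 k α β (MvPolynomial.X i) = β := by
      fin_cases i <;> simp [ev2]
    rcases e with e | e
    · rw [e]
      exact step _ _ hα1 hp hα
    · rw [e]
      exact step _ _ hβ1 hp hβ

theorem pow_approx {u c : F} (hu : ν u = 1) (hc : ν c = 1) (h : ν (u - c) ≤ 2⁻¹) (T : ℕ) :
    ν (u ^ T - c ^ T) ≤ 2⁻¹ := by
  induction T with
  | zero => simp
  | succ T ih =>
    have e : u ^ (T + 1) - c ^ (T + 1) = (u ^ T - c ^ T) * u + c ^ T * (u - c) := by ring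
    rw [e]
    refine ν.map_add_le ?_ ?_
    · rw [map_mul, hu, mul_one]
      exact ih
    · rw [map_mul, map_pow, hc, one_pow, one_mul]
      exact h

theorem zpow_approx {u c : F} (hu : ν u = 1) (hc : ν c = 1) (h : ν (u - c) ≤ 2⁻¹) (T : ℤ) :
    ν (u ^ T - c ^ T) ≤ 2⁻¹ := by
  have hu0 : u ≠ 0 := by
    rintro rfl
    simp at hu
  have hc0 : c ≠ 0 := by
    rintro rfl
    simp at hc
  obtain ⟨T, rfl | rfl⟩ := T.eq_nat_or_neg
  · simpa only [zpow_natCast] using pow_approx ν hu hc h T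
  · have e : u ^ (-(T : ℤ)) - c ^ (-(T : ℤ)) = -(u ^ T - c ^ T) / (u ^ T * c ^ T) := by
      rw [zpow_neg, zpow_neg, zpow_natCast, zpow_natCast]
      field_simp
      ring
    rw [e, map_div₀, Valuation.map_neg, map_mul, map_pow, map_pow, hu, hc, one_pow, mul_one,
      div_one]
    exact pow_approx ν hu hc h T

end Val

variable {k F L : Type} [Field k] [Field F] [Algebra k F] [Field L] [Algebra F L]

theorem span_approx [Algebra k L] [IsScalarTower k F L] (w : Valuation L ℝ≥0)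
    (R : Subalgebra k F) (S : Finset L) (hS : ∀ s ∈ S, ∀ σ : L ≃ₐ[F] L, w (σ s) ≤ 1) (x : F)
    (hR : ∀ g ∈ R, ∃ P : k[X], w (algebraMap F L (g - aeval x P)) ≤ 2⁻¹) {z : L}
    (hz : z ∈ Submodule.span R (S : Set L)) :
    ∃ z' ∈ Submodule.span k {t : L | ∃ s ∈ S, ∃ i : ℕ, t = x ^ i • s},
      ∀ σ : L ≃ₐ[F] L, w (σ (z - z')) ≤ 2⁻¹ := by
  obtain ⟨f, -, rfl⟩ := Submodule.mem_span_finset.1 hz
  choose P hP using fun s : L => hR (f s) (f s).2
  refine ⟨∑ s ∈ S, aeval x (P s) • s, Submodule.sum_mem _ fun s hs => ?_, fun σ => ?_⟩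
  · rw [aeval_eq_sum_range, Finset.sum_smul]
    refine Submodule.sum_mem _ fun i _ => ?_
    rw [smul_assoc]
    exact Submodule.smul_mem _ _ (Submodule.subset_span ⟨s, hs, i, rfl⟩)
  · rw [← Finset.sum_sub_distrib, map_sum]
    refine w.map_sum_le fun s hs => ?_
    have e : f s • s - aeval x (P s) • s = ((f s : F) - aeval x (P s)) • s := by
      rw [sub_smul]; rfl
    rw [e, val_smul]
    exact (mul_le_of_le_one_right' (hS s hs σ)).trans (hP s)

theorem exists_gens (R : Subalgebra k F) (h : Module.Finite R (integralClosure R L)) :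
    ∃ S : Finset L, (∀ s ∈ S, IsIntegral R s) ∧
      ∀ z : L, IsIntegral R z → z ∈ Submodule.span R (S : Set L) := by
  obtain ⟨S, hS⟩ :=
    (Module.Finite.iff_fg (N := Subalgebra.toSubmodule (integralClosure R L))).1 h
  refine ⟨S, fun s hs => ?_, fun z hz => ?_⟩
  · have h1 : s ∈ Submodule.span R (S : Set L) := Submodule.subset_span hs
    rw [hS] at h1
    exact h1
  · rw [hS]
    exact hz

variable {c : Ctx k F} {ν : Fin 9 → Valuation F ℝ≥0} {w : Fin 9 → Valuation L ℝ≥0}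

theorem val_k (hν : NuFacts c ν) (j : Fin 9) (t : k) : ν j (algebraMap k F t) ≤ 1 := by
  by_cases ht : t = 0
  · simp [ht]
  · exact ((hν.isNu j).1 t ht).le

theorem val_ucu (hg : GeoFacts c) (hν : NuFacts c ν) (i : Fin 9) :
    ν (i + 1) (c.u i - algebraMap k F (c.cu i)) ≤ 2⁻¹ := by
  obtain ⟨p, hp, e⟩ := hg.u_right i
  rw [e, add_sub_cancel_left, map_mul, (hν.isNu (i + 1)).2.2.2]
  exact mul_le_of_le_one_right' (hν.le_one (i + 1) p hp).1

theorem approx_right (hν : NuFacts c ν) (j : Fin 9) :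
    ∀ g ∈ c.A j, ∃ P : k[X], ν j (g - aeval (c.a j) P) ≤ 2⁻¹ := by
  obtain ⟨-, -, ha, hb⟩ := hν.isNu j
  refine approx (ν j) (val_k hν j) ha.le ha.le (hb.le.trans half_lt_one'.le) ⟨X, by simp⟩
    ⟨0, ?_⟩
  rw [map_zero, sub_zero, hb]

theorem approx_left (hg : GeoFacts c) (hν : NuFacts c ν) (i : Fin 9) :
    ∀ g ∈ c.A i, ∃ P : k[X], ν (i + 1) (g - aeval (c.a (i + 1))⁻¹ P) ≤ 2⁻¹ := by
  obtain ⟨hk, -, ha, -⟩ := hν.isNu (i + 1)
  refine approx (ν (i + 1)) (val_k hν (i + 1)) (by rw [map_inv₀, ha, inv_one])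
    ((hν.left_a i).le.trans half_lt_one'.le) (hν.left_b i).le ⟨0, ?_⟩ ⟨C (c.cu i)⁻¹ * X, ?_⟩
  · rw [map_zero, sub_zero, hν.left_a]
  · have h1 := hg.tb i
    have h2 := hg.a_ne (i + 1)
    have h3 := hg.u_ne i
    have h4 : algebraMap k F (c.cu i) ≠ 0 := (_root_.map_ne_zero _).2 (hg.cu_ne i)
    have h5 : c.b i = (c.a (i + 1) * c.u i)⁻¹ := by
      rw [mul_assoc] at h1
      exact eq_inv_of_mul_eq_one_left h1
    have e : c.b i - aeval (c.a (i + 1))⁻¹ (C (c.cu i)⁻¹ * X) =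
        -(c.u i - algebraMap k F (c.cu i)) /
          (c.a (i + 1) * c.u i * algebraMap k F (c.cu i)) := by
      rw [map_mul, aeval_C, aeval_X, map_inv₀, h5]
      field_simp
      ring
    rw [e, map_div₀, Valuation.map_neg, map_mul, map_mul, ha, hν.val_u, hk _ (hg.cu_ne i),
      mul_one, mul_one, div_one]
    exact val_ucu hg hν i

/-- the layer bound for the curve `i + 1` -/
theorem layerC [Algebra k L] [IsScalarTower k F L] [FiniteDimensional F L] {Cl : Type}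
    [Fintype Cl] (hLat : S_Lat) (hg : GeoFacts c) (hν : NuFacts c ν) (hw : Ext ν w)
    (hP : PlFacts c w) (cls : Pl F L → Cl) (i : Fin 9) :
    ∃ C₀ : ℕ, ∀ n : ℕ, ∃ ℓ : Cl → ℕ, ∑ C, ℓ C ≤ Module.finrank F L * n + C₀ ∧
      ∀ (C : Cl) (g : L) (V : Submodule k L), Module.Finite k V →
        (∀ f ∈ V, (∀ σ : L ≃ₐ[F] L, cls (i + 1, σ) ≠ C → w (i + 1) (σ (g * f)) ≤ 2⁻¹) ∧
          IsIntegral (c.A (i + 1)) (g * f) ∧
          ∃ (γ : k) (z : L), IsIntegral (c.A i) z ∧ ∀ σ : L ≃ₐ[F] L,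
            w (i + 1) (σ (g * f - (algebraMap k F γ * c.a (i + 1) ^ n) • z)) ≤ 2⁻¹) →
        ∃ V' : Submodule k L, V' ≤ V ∧ Module.finrank k V ≤ Module.finrank k V' + ℓ C ∧
          ∀ f ∈ V', ∀ σ : L ≃ₐ[F] L, w (i + 1) (σ (g * f)) ≤ 2⁻¹ := by
  obtain ⟨S₁, hS₁, hS₁'⟩ := exists_gens (c.A (i + 1)) (hP.fin (i + 1))
  obtain ⟨S₂, hS₂, hS₂'⟩ := exists_gens (c.A i) (hP.fin i)
  have hle1 : ∀ z : L, IsIntegral (c.A (i + 1)) z → ∀ σ : L ≃ₐ[F] L, w (i + 1) (σ z) ≤ 1 :=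
    fun z hz σ => hP.le_one (i + 1) (i + 1, σ) z (Or.inl rfl) hz
  have hle2 : ∀ z : L, IsIntegral (c.A i) z → ∀ σ : L ≃ₐ[F] L, w (i + 1) (σ z) ≤ 1 :=
    fun z hz σ => hP.le_one i (i + 1, σ) z (Or.inr rfl) hz
  set a : F := c.a (i + 1) with ha
  have hval : ∀ P : k[X], P ≠ 0 → ν (i + 1) (aeval a P) = 1 := hν.val_poly (i + 1)
  have hva : ν (i + 1) a = 1 := (hν.isNu (i + 1)).2.2.1
  have hne : ∀ P : k[X], P ≠ 0 → aeval a P ≠ 0 := by
    intro P hP h0
    have h1 := hval P hP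
    rw [h0, map_zero] at h1
    exact zero_ne_one h1
  let α : k⟮a⟯ := IntermediateField.AdjoinSimple.gen k a
  have hα : algebraMap k⟮a⟯ F α = a := rfl
  have hev : ∀ P : k[X], algebraMap k⟮a⟯ F (aeval α P) = aeval a P := fun P => by
    rw [← aeval_algebraMap_apply, hα]
  have hfr : ∀ z : k⟮a⟯, ∃ P Q : k[X], Q ≠ 0 ∧ z * aeval α Q = aeval α P := by
    intro z
    obtain ⟨P, Q, hz⟩ := (IntermediateField.mem_adjoin_simple_iff k (z : F)).1 z.2
    by_cases hQ : Q = 0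
    · refine ⟨0, 1, one_ne_zero, ?_⟩
      rw [hQ, map_zero, div_zero] at hz
      have : z = 0 := Subtype.ext hz
      rw [this, zero_mul, map_zero]
    · refine ⟨P, Q, hQ, (algebraMap k⟮a⟯ F).injective ?_⟩
      rw [map_mul, hev, hev]
      change (z : F) * _ = _
      rw [hz, div_mul_cancel₀ _ (hne Q hQ)]
  have hE : ∀ e : k⟮a⟯, w (i + 1) (algebraMap F L (algebraMap k⟮a⟯ F e)) ≤ 1 := by
    intro e
    obtain ⟨P, Q, hQ, h⟩ := hfr e
    have h1 := congrArg (fun z => ν (i + 1) (algebraMap k⟮a⟯ F z)) h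
    simp only [map_mul, hev] at h1
    rw [hval Q hQ, mul_one] at h1
    rw [hw, h1]
    exact val_aeval_le _ (val_k hν _) hva.le P
  have hres : ∀ g : F, w (i + 1) (algebraMap F L g) ≤ 1 →
      ∃ e : k⟮a⟯, w (i + 1) (algebraMap F L (g - algebraMap k⟮a⟯ F e)) ≤ 2⁻¹ := by
    intro g h
    rw [hw] at h
    obtain ⟨P, Q, -, h1⟩ := hν.resid (i + 1) g h
    refine ⟨aeval α P / aeval α Q, ?_⟩
    rw [hw, map_div₀, hev, hev]
    exact hν.disc _ _ h1
  have htr : Transcendental k α := by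
    rintro ⟨P, hP0, hP1⟩
    refine hne P hP0 ?_
    rw [← hev, hP1, map_zero]
  obtain ⟨C₀, hC₀⟩ := layer (k := k) hLat (w (i + 1)) (fun σ => cls (i + 1, σ)) hE hres α htr hfr
    S₁ S₂ (fun s hs => hle1 s (hS₁ s hs)) (fun s hs => hle2 s (hS₂ s hs))
  refine ⟨C₀, fun n => ?_⟩
  obtain ⟨ℓ, h1, h2⟩ := hC₀ n
  refine ⟨ℓ, h1, fun C g V hV h => h2 C g V hV fun f hf => ?_⟩
  obtain ⟨h3, h4, γ, z, h5, h6⟩ := h f hf
  refine ⟨fun σ => ⟨hle1 _ h4 σ, h3 σ⟩, ?_, ?_⟩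
  · exact span_approx (w (i + 1)) (c.A (i + 1)) S₁ (fun s hs => hle1 s (hS₁ s hs)) a
      (fun g hg' => by simpa only [hw (i + 1)] using approx_right hν (i + 1) g hg') (hS₁' _ h4)
  · obtain ⟨z', hz', hz''⟩ := span_approx (w (i + 1)) (c.A i) S₂
      (fun s hs => hle2 s (hS₂ s hs)) a⁻¹
      (fun g hg' => by simpa only [hw (i + 1)] using approx_left hg hν i g hg') (hS₂' _ h5)
    refine ⟨γ • (a ^ n • z'), Submodule.smul_mem _ _ ?_, fun σ => ?_⟩
    · have h7 := Submodule.mem_map_of_mem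
        (f := (LinearMap.lsmul F L (a ^ n)).restrictScalars k) hz'
      rw [Submodule.map_span] at h7
      refine Submodule.span_mono ?_ h7
      rintro _ ⟨_, ⟨s, hs, l, rfl⟩, rfl⟩
      refine ⟨s, hs, l, ?_⟩
      change a ^ n • (a⁻¹ ^ l • s) = _
      rw [hα, smul_smul, inv_pow, div_eq_mul_inv]
    · have e : g * f - γ • (a ^ n • z') =
          (g * f - (algebraMap k F γ * a ^ n) • z) + (algebraMap k F γ * a ^ n) • (z - z') := by
        rw [smul_sub, mul_smul _ _ z', algebraMap_smul]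
        abel
      rw [e, map_add]
      refine (w (i + 1)).map_add_le (h6 σ) ?_
      rw [val_smul, hw, map_mul, map_pow, hva, one_pow, mul_one]
      exact (mul_le_of_le_one_left' (val_k hν _ γ)).trans (hz'' σ)

end CountAux

end

end Pool.Agent.P.MP_3a4479_al
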