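import Mathlib

set_option autoImplicit false

namespace Pool.Agent.P.MP_3a4479_al

open Polynomial
open scoped NNReal

noncomputable section

/-! ## Part 0. Polynomial rings, coordinates, Gauss valuations -/

abbrev P2 (k : Type) [Field k] : Type := MvPolynomial (Fin 2) k
abbrev P3 (k : Type) [Field k] : Type := MvPolynomial (Fin 3) k

/-- evaluation of a two variable polynomial at `(a, b)` -/
def ev2 (k : Type) [Field k] {F : Type} [Field F] [Algebra k F] (a b : F) : P2 k →ₐ[k] F :=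
  MvPolynomial.aeval ![a, b]

/-- `(a, b)` is algebraically independent over `k` and generates the field `F` -/
structure IsCoord (k : Type) [Field k] {F : Type} [Field F] [Algebra k F] (a b : F) : Prop where
  inj : Function.Injective (ev2 k a b)
  frac : ∀ z : F, ∃ P Q : P2 k, Q ≠ 0 ∧ z * ev2 k a b Q = ev2 k a b P

/-- the monomials in `(a, b)` are orthogonal for `w` -/
def IsGauss (k : Type) [Field k] {F : Type} [Field F] [Algebra k F]
    (w : Valuation F ℝ≥0) (a b : F) : Prop :=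
  ∀ (P : P2 k) (d : Fin 2 →₀ ℕ),
    w (algebraMap k F (P.coeff d)) * w a ^ d 0 * w b ^ d 1 ≤ w (ev2 k a b P)

/-! ## Part 1. Abstract statements -/

def S_ExtVal : Prop :=
  ∀ (K L : Type) [Field K] [Field L] [Algebra K L] [Algebra.IsAlgebraic K L]
    (v : Valuation K ℝ≥0), ∃ w : Valuation L ℝ≥0, ∀ z : K, w (algebraMap K L z) = v z

def S_GaussEx : Prop :=
  ∀ (k F : Type) [Field k] [Field F] [Algebra k F] (v : Valuation k ℝ≥0) (a b : F),
    IsCoord k a b → ∀ r s : ℝ≥0, 0 < r → 0 < s →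
      ∃ w : Valuation F ℝ≥0, (∀ z : k, w (algebraMap k F z) = v z) ∧ w a = r ∧ w b = s ∧
        IsGauss k w a b

/-- elementary moves preserve coordinates and Gauss valuations -/
def S_Moves : Prop :=
  ∀ (k F : Type) [Field k] [Field F] [Algebra k F] (a b : F), IsCoord k a b →
    (IsCoord k b a ∧ ∀ w, IsGauss k w a b → IsGauss k w b a) ∧
    (IsCoord k a⁻¹ b ∧ ∀ w, IsGauss k w a b → IsGauss k w a⁻¹ b) ∧
    (∀ U : k[X], U ≠ 0 → IsCoord k a (b * aeval a U) ∧ IsCoord k a (b / aeval a U) ∧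
      ∀ w, IsGauss k w a b → IsGauss k w a (b * aeval a U) ∧ IsGauss k w a (b / aeval a U))

def S_Split : Prop :=
  ∀ (k : Type) [Field k] (N : Type) [AddCommGroup N] [Module (P3 k) N]
    [Module.Finite (P3 k) N] (w : N),
    (∀ (t : ℕ) (u : Fin 3 → N),
      (MvPolynomial.X 0 * MvPolynomial.X 1 * MvPolynomial.X 2 : P3 k) ^ t • w ≠
        ∑ i, (MvPolynomial.X i : P3 k) ^ (t + 1) • u i) →
    ∃ Λ : N →ₗ[P3 k] P3 k, MvPolynomial.constantCoeff (Λ w) ≠ 0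

def S_Hull : Prop :=
  ∀ (R K L : Type) [CommRing R] [IsDomain R] [IsNoetherianRing R] [Field K] [Algebra R K]
    [IsFractionRing R K] [Field L] [Algebra K L] [Algebra R L] [IsScalarTower R K L]
    [FiniteDimensional K L] (S : Finset L), (∀ z ∈ S, IsIntegral R z) →
    ∃ (n m : ℕ) (Ψ : L →ₗ[K] (Fin n → K)) (Θ : Matrix (Fin m) (Fin n) R) (T : Subalgebra R L),
      Function.Injective Ψ ∧
      (∀ u : Fin n → K, (Θ.map (algebraMap R K)).mulVec u = 0 ↔ u ∈ LinearMap.range Ψ) ∧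
      (∀ z ∈ S, z ∈ T) ∧ (∀ z, z ∈ T ↔ ∀ i, Ψ z i ∈ (algebraMap R K).range) ∧
      (∀ z ∈ T, IsIntegral R z)

def S_Kill : Prop :=
  ∀ (R Ω : Type) [CommRing R] [IsDomain R] [IsNoetherianRing R] [CharP R 2] [Field Ω]
    [IsAlgClosed Ω] [Algebra R Ω], Function.Injective (algebraMap R Ω) →
    ∀ v s f : R, s ≠ 0 → f ≠ 0 →
    (∀ (a b : ℕ) (r r' : R), s ^ a * r = f ^ b * r' → ∃ r'', r = f ^ b * r'') →
    (∀ (a b : ℕ) (r r₁ r₂ : R), v * r = s ^ a * r₁ + f ^ b * r₂ →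
      ∃ r₁' r₂', r = s ^ a * r₁' + f ^ b * r₂') →
    ∀ (t : ℕ) (z u₁ u₂ : Ω), IsIntegral R z → IsIntegral R u₁ → IsIntegral R u₂ →
      algebraMap R Ω v ^ t * z = algebraMap R Ω s ^ t * u₁ + algebraMap R Ω f ^ t * u₂ →
      ∃ (ys yf : Ω) (M : ℕ), IsIntegral R (algebraMap R Ω s ^ M * ys) ∧
        IsIntegral R (algebraMap R Ω f ^ M * yf) ∧
        z = (algebraMap R Ω s * algebraMap R Ω f) ^ t * (yf - ys)

def S_FFin : Prop :=
  ∀ (k B : Type) [Field k] [IsAlgClosed k] [CommRing B] [Algebra k B] [Algebra.FiniteType k B]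
    [ExpChar B 2], (frobenius B 2).Finite

def S_NC : Prop :=
  ∀ (T : Type) [CommRing T] [IsDomain T] [IsNoetherianRing T] [IsIntegrallyClosed T]
    [ExpChar T 2], (frobenius T 2).Finite → ∀ τ e : T, τ ≠ 0 → ∀ N : ℕ, ∃ i m : ℕ,
      ∀ g u w : T, g ^ 2 ^ i = τ ^ (N * (2 ^ i - 1)) * u + e ^ m * w →
        ∃ u' w', g = τ ^ N * u' + e * w'

def S_S2 : Prop :=
  ∀ (A K L : Type) [CommRing A] [IsDomain A] [IsIntegrallyClosed A] [Field K] [Algebra A K]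
    [IsFractionRing A K] [Field L] [Algebra K L] [Algebra A L] [IsScalarTower A K L] (p q : A),
    p ≠ 0 → q ≠ 0 → (∀ (i : ℕ) (r r' : A), p ^ i * r = q ^ i * r' → ∃ r'', r' = p ^ i * r'') →
    ∀ (z : L) (M M' : ℕ), IsIntegral A (algebraMap A L p ^ M * z) →
      IsIntegral A (algebraMap A L q ^ M' * z) → IsIntegral A z

def S_Clear : Prop :=
  ∀ (k D L : Type) [CommRing k] [CommRing D] [Algebra k D] [CommRing L] [Algebra D L]
    (A B : Subalgebra k D) (u : D), u ∈ A → (∀ z ∈ B, ∃ M : ℕ, u ^ M * z ∈ A) →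
    ∀ z : L, IsIntegral B z → ∃ M : ℕ, IsIntegral A (algebraMap D L u ^ M * z)

/-- `Y` agrees modulo `e ^ μ`, away from `x τ = 0`, with an element whose pole along `τ = 0`
has order at most `N` -/
def Near (A : Type) {L : Type} [CommRing A] [Field L] [Algebra A L] (x τ e : A) (N μ : ℕ)
    (Y : L) : Prop :=
  ∃ (g : L) (M : ℕ), IsIntegral A (algebraMap A L x ^ M * algebraMap A L τ ^ N * g) ∧
    IsIntegral A (algebraMap A L x ^ M * algebraMap A L τ ^ M * (Y - g) / algebraMap A L e ^ μ)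

def S_Step : Prop :=
  ∀ (k A K L : Type) [Field k] [IsAlgClosed k] [CommRing A] [IsDomain A] [IsIntegrallyClosed A]
    [CharP A 2] [Algebra k A] [Algebra.FiniteType k A] [Field K] [Algebra A K]
    [IsFractionRing A K] [Field L] [Algebra K L] [Algebra A L] [IsScalarTower A K L]
    [FiniteDimensional K L] [Algebra.IsSeparable K L] (x τ e : A), x ≠ 0 → τ ≠ 0 → e ≠ 0 →
    (∀ (i : ℕ) (r r' : A), e ^ i * r = τ ^ i * r' → ∃ r'', r' = e ^ i * r'') →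
    ∀ N : ℕ, ∃ i μ₀ : ℕ, ∀ μ, μ₀ ≤ μ → ∀ Y : L,
      Near A x τ e N μ Y → Near A x τ e N μ (Y ^ 2 ^ i) → Near A x τ e 0 1 Y

def S_Spec : Prop :=
  ∀ (F L E : Type) [Field F] [Field L] [Algebra F[X] L] [Field E] [IsAlgClosed E] [Algebra F E],
    Function.Injective (algebraMap F[X] L) →
    ∃ ρ : integralClosure F[X] L →+* E,
      ∀ p : F[X], ρ (algebraMap F[X] (integralClosure F[X] L) p) = algebraMap F E (p.coeff 0)

def S_Cartier : Prop :=
  ∀ (k : Type) [Field k] [IsAlgClosed k] [CharP k 2] (n e : ℕ) (d₀ : Fin n →₀ ℕ),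
    (∀ i, d₀ i < 2 ^ e) →
    ∃ Φ : MvPolynomial (Fin n) k →+ MvPolynomial (Fin n) k,
      (∀ a P, Φ (a ^ 2 ^ e * P) = a * Φ P) ∧
      ∀ P d, ((Φ P).coeff d) ^ 2 ^ e = P.coeff (2 ^ e • d + d₀)

def S_Solid : Prop :=
  ∀ (k : Type) [Field k] [IsAlgClosed k] [CharP k 2] (R : Type) [CommRing R]
    (al : P3 k →+* R) (deg : R → ℕ) (π : R →+ P3 k) (n : ℕ) (g : Fin n → R) (u : R) (C : ℕ),
    (∀ a r, π (al a * r) = a * π r) → π 1 = 1 →
    (∀ r r', deg (r * r') ≤ deg r + deg r') → deg 1 = 0 → (∀ r, (π r).totalDegree ≤ deg r) →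
    (∀ e : ℕ, ∃ r : Fin n → R, (∀ i, deg (r i) ≤ C * 2 ^ e) ∧
      al (MvPolynomial.X 0) * u ^ 2 ^ e = ∑ i, r i * g i ^ 2 ^ e) →
    ∃ (S : Type) (_ : CommRing S) (_ : Algebra R S) (Λ : S →+ P3 k),
      (∀ a z, Λ (algebraMap R S (al a) * z) = a * Λ z) ∧ Λ ≠ 0 ∧
      ∃ Y : Fin n → S, algebraMap R S u = ∑ i, algebraMap R S (g i) * Y i

def Splinter (R : Type) [CommRing R] : Prop :=
  ∀ (T : Type) [CommRing T] [Algebra R T], Function.Injective (algebraMap R T) →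
    Module.Finite R T → ∃ φ : T →ₗ[R] R, φ 1 = 1

def S_Loc1 : Prop :=
  ∀ (R Ω Rl : Type) [CommRing R] [IsDomain R] [ExpChar R 2] [Field Ω] [IsAlgClosed Ω]
    [Algebra R Ω] (m : Ideal R) [m.IsPrime] [CommRing Rl] [Algebra R Rl]
    [IsLocalization.AtPrime Rl m] [ExpChar Rl 2],
    Function.Injective (algebraMap R Ω) → (frobenius R 2).Finite →
    (∀ T : Subalgebra R Ω, Module.Finite R T → ∃ φ : T →ₗ[R] R, φ 1 ∉ m) →
    (frobenius Rl 2).Finite ∧ Splinter Rl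

def S_Loc2 : Prop :=
  ∀ (R Rl S : Type) [CommRing R] [IsDomain R] (m : Ideal R) [m.IsPrime] [CommRing Rl]
    [Algebra R Rl] [IsLocalization.AtPrime Rl m] [CommRing S] [Algebra R S]
    (n : ℕ) (g : Fin n → R) (u : R) (Y : Fin n → S),
    (∃ φ : S →ₗ[R] R, φ ≠ 0) → algebraMap R S u = ∑ i, algebraMap R S (g i) * Y i →
    (∀ w, w ∉ m → ∀ r : Fin n → R, w * u ≠ ∑ i, r i * g i) →
    ∃ (S' : Type) (_ : CommRing S') (_ : Algebra Rl S'),
      (∃ φ : S' →ₗ[Rl] Rl, φ ≠ 0) ∧ ¬ ∃ ψ : S' →ₗ[Rl] Rl, ψ 1 = 1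

def S_UL : Prop :=
  ∀ (B K L : Type) [CommRing B] [IsNoetherianRing B] [Field K] [Algebra B K] [Field L]
    [Algebra K L] [Algebra B L] [IsScalarTower B K L], Function.Injective (algebraMap B K) →
    ∀ (x : B) (jj : Ideal B) (JL : ℕ → Submodule B K) (n m : ℕ) (Ψ : L →ₗ[K] (Fin n → K))
      (Θ : Matrix (Fin m) (Fin n) B), Function.Injective Ψ →
      (∀ u : Fin n → K, (Θ.map (algebraMap B K)).mulVec u = 0 ↔ u ∈ LinearMap.range Ψ) →
      (∀ z : L, (∀ i, Ψ z i ∈ (algebraMap B K).range) →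
        ∃ N : ℕ, IsIntegral B (algebraMap B L x ^ N * z)) →
      Antitone JL → (∀ q, ∀ z ∈ JL q, ∃ M : ℕ, algebraMap B K x ^ M * z ∈ (algebraMap B K).range) →
      (∀ q, ∀ b ∈ jj ^ q, algebraMap B K b ∈ JL q) →
      (∀ q b, algebraMap B K b ∈ JL (2 * q) → b ∈ jj ^ q) →
      ∃ N : ℕ, ∀ μ : ℕ, ∃ q₀ : ℕ, ∀ q, q₀ ≤ q → ∀ y : L,
        (∀ i, ∃ b : B, Ψ y i - algebraMap B K b ∈ JL q) →
        ∃ (z : L) (M : ℕ), IsIntegral B (algebraMap B L x ^ N * z) ∧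
          algebraMap B L x ^ M * (y - z) ∈
            (jj ^ μ) • Subalgebra.toSubmodule (integralClosure B L)

def S_Lat : Prop :=
  ∀ (k E W : Type) [Field k] [Field E] [Algebra k E] [AddCommGroup W] [Module E W] [Module k W]
    [IsScalarTower k E W] [Module.Finite E W] (a : E), Transcendental k a →
    (∀ z : E, ∃ P Q : k[X], Q ≠ 0 ∧ z * aeval a Q = aeval a P) →
    ∀ S₁ S₂ : Finset W, ∃ C : ℕ, ∀ n : ℕ, ∀ U : Submodule k W,
      (∀ z ∈ U, z ∈ Submodule.span k {t : W | ∃ s ∈ S₁, ∃ i : ℕ, t = a ^ i • s}) →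
      (∀ z ∈ U, z ∈ Submodule.span k {t : W | ∃ s ∈ S₂, ∃ i : ℕ, t = (a ^ n / a ^ i) • s}) →
      Module.Finite k U ∧ Module.finrank k U ≤ Module.finrank E W * n + C

def S_CharPoly : Prop :=
  ∀ (k F L : Type) [Field k] [Field F] [Algebra k F] [Field L] [Algebra F L]
    [FiniteDimensional F L] [IsGalois F L] (z : L),
    ∃ (d : ℕ) (γ : Fin d → F), 0 < d ∧
      (∀ σ : L ≃ₐ[F] L, σ z ^ d = ∑ l, algebraMap F L (γ l) * σ z ^ (l : ℕ)) ∧
      (∀ (w : Valuation L ℝ≥0) (ρ : ℝ≥0), ρ ≤ 1 → (∀ σ : L ≃ₐ[F] L, w (σ z) ≤ ρ) →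
        ∀ l, w (algebraMap F L (γ l)) ≤ ρ) ∧
      (∀ (A : Subalgebra k F) (u : F), u ∈ A → IsIntegral A (algebraMap F L u * z) →
        ∀ l, IsIntegral A (u ^ d * γ l))

end

end Pool.Agent.P.MP_3a4479_al
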