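import Pool.Agent.P.MP_3a4479_al.Defs

set_option autoImplicit false

namespace Pool.Agent.P.MP_3a4479_al

open Polynomial
open scoped NNReal

noncomputable section

namespace GeoAux

variable {k F : Type} [Field k] [Field F] [Algebra k F]

/-! ### The coordinate ring of a chart -/

/-- the ring generated by two elements -/
abbrev Rg (k : Type) [Field k] {F : Type} [Field F] [Algebra k F] (a b : F) : Subalgebra k F :=
  (ev2 k a b).range

theorem ev2_X0 (a b : F) : ev2 k a b (MvPolynomial.X 0) = a := by simp [ev2]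

theorem ev2_X1 (a b : F) : ev2 k a b (MvPolynomial.X 1) = b := by simp [ev2]

theorem ev2_C (a b : F) (t : k) : ev2 k a b (MvPolynomial.C t) = algebraMap k F t := by
  simp [ev2]

theorem a_mem (a b : F) : a ∈ Rg k a b := ⟨MvPolynomial.X 0, ev2_X0 a b⟩

theorem b_mem (a b : F) : b ∈ Rg k a b := ⟨MvPolynomial.X 1, ev2_X1 a b⟩

theorem rg_le {a b : F} {S : Subalgebra k F} (ha : a ∈ S) (hb : b ∈ S) : Rg k a b ≤ S := by
  rintro _ ⟨P, rfl⟩
  change ev2 k a b P ∈ S
  induction P using MvPolynomial.induction_on with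
  | C t => rw [ev2_C]; exact S.algebraMap_mem t
  | add p q hp hq => rw [map_add]; exact S.add_mem hp hq
  | mul_X p i hp =>
    rw [map_mul]
    refine S.mul_mem hp ?_
    fin_cases i
    · exact (ev2_X0 (k := k) a b).symm ▸ ha
    · exact (ev2_X1 (k := k) a b).symm ▸ hb

theorem rg_swap (a b : F) : Rg k a b = Rg k b a :=
  le_antisymm (rg_le (b_mem b a) (a_mem b a)) (rg_le (b_mem a b) (a_mem a b))

theorem rg_ind {a b : F} (p : F → Prop) (hC : ∀ t : k, p (algebraMap k F t)) (ha : p a)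
    (hb : p b) (hadd : ∀ g g', p g → p g' → p (g + g'))
    (hmul : ∀ g g', p g → p g' → p (g * g')) : ∀ g ∈ Rg k a b, p g := by
  let S : Subalgebra k F :=
    { carrier := {g | p g}
      mul_mem' := fun h1 h2 => hmul _ _ h1 h2
      add_mem' := fun h1 h2 => hadd _ _ h1 h2
      algebraMap_mem' := hC }
  exact fun g hg => rg_le (S := S) ha hb hg

theorem aeval_mem {S : Subalgebra k F} {a : F} (ha : a ∈ S) (P : k[X]) : aeval a P ∈ S := by
  induction P using Polynomial.induction_on' with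
  | add p q hp hq => rw [map_add]; exact S.add_mem hp hq
  | monomial n t =>
    rw [aeval_monomial]
    exact S.mul_mem (S.algebraMap_mem t) (S.pow_mem ha n)

theorem split_b {a b : F} : ∀ g ∈ Rg k a b,
    ∃ P : k[X], ∃ p ∈ Rg k a b, g = aeval a P + b * p := by
  refine rg_ind _ (fun t => ⟨C t, 0, zero_mem _, by simp⟩) ⟨X, 0, zero_mem _, by simp⟩
    ⟨0, 1, one_mem _, by simp⟩ ?_ ?_
  · rintro _ _ ⟨P, p, hp, rfl⟩ ⟨Q, q, hq, rfl⟩
    exact ⟨P + Q, p + q, add_mem hp hq, by rw [map_add]; ring⟩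
  · rintro _ _ ⟨P, p, hp, rfl⟩ ⟨Q, q, hq, rfl⟩
    refine ⟨P * Q, aeval a P * q + p * aeval a Q + b * p * q, ?_, by rw [map_mul]; ring⟩
    exact add_mem (add_mem (mul_mem (aeval_mem (a_mem a b) P) hq)
      (mul_mem hp (aeval_mem (a_mem a b) Q))) (mul_mem (mul_mem (b_mem a b) hp) hq)

theorem split_a {a b : F} : ∀ g ∈ Rg k a b,
    ∃ P : k[X], ∃ p ∈ Rg k a b, g = aeval b P + a * p := by
  rw [rg_swap a b]
  exact split_b

/-- uniqueness by substitution -/
theorem uniq_gen {a b : F} (h : Function.Injective (ev2 k a b)) (i : Fin 2) (G : P2 k)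
    (φ : P2 k →ₐ[k] k[X]) (h1 : φ (MvPolynomial.X i) = X) (h2 : φ G = 0) (P : k[X])
    (p : F) (hp : p ∈ Rg k a b)
    (he : aeval (ev2 k a b (MvPolynomial.X i)) P = ev2 k a b G * p) : P = 0 := by
  obtain ⟨Q, rfl⟩ := hp
  have e1 : aeval (MvPolynomial.X i : P2 k) P = G * Q := by
    apply h
    rw [map_mul, ← Polynomial.aeval_algHom_apply]
    exact he
  have e2 := congrArg φ e1
  rw [map_mul, h2, zero_mul, ← Polynomial.aeval_algHom_apply, h1, aeval_X_left_apply] at e2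
  exact e2

theorem uniq_b {a b : F} (h : IsCoord k a b) (P : k[X]) (p : F) (hp : p ∈ Rg k a b)
    (he : aeval a P = b * p) : P = 0 := by
  refine uniq_gen h.inj 0 (MvPolynomial.X 1) (MvPolynomial.aeval ![X, 0]) (by simp) (by simp)
    P p hp ?_
  rw [ev2_X0, ev2_X1]
  exact he

theorem uniq_ph {a b : F} (h : IsCoord k a b) (t : k) (P : k[X]) (p : F) (hp : p ∈ Rg k a b)
    (he : aeval b P = (a - algebraMap k F t) * p) : P = 0 := by
  refine uniq_gen h.inj 1 (MvPolynomial.X 0 - MvPolynomial.C t) (MvPolynomial.aeval ![C t, X])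
    (by simp) (by simp) P p hp ?_
  rw [map_sub, ev2_X0, ev2_X1, ev2_C]
  exact he

theorem uniq_a {a b : F} (h : IsCoord k a b) (P : k[X]) (p : F) (hp : p ∈ Rg k a b)
    (he : aeval b P = a * p) : P = 0 := by
  refine uniq_ph h 0 P p hp ?_
  rw [map_zero, sub_zero]
  exact he

theorem aeval_a_ne {a b : F} (h : IsCoord k a b) {P : k[X]} (hP : P ≠ 0) : aeval a P ≠ 0 :=
  fun h0 => hP (uniq_b h P 0 (zero_mem _) (by rw [h0, mul_zero]))

theorem aeval_b_ne {a b : F} (h : IsCoord k a b) {P : k[X]} (hP : P ≠ 0) : aeval b P ≠ 0 :=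
  fun h0 => hP (uniq_a h P 0 (zero_mem _) (by rw [h0, mul_zero]))

theorem a_ne {a b : F} (h : IsCoord k a b) : a ≠ 0 := by
  simpa using aeval_a_ne h (P := X) X_ne_zero

theorem b_ne {a b : F} (h : IsCoord k a b) : b ≠ 0 := by
  simpa using aeval_b_ne h (P := X) X_ne_zero

theorem a_sub_ne {a b : F} (h : IsCoord k a b) (t : k) : a - algebraMap k F t ≠ 0 := by
  simpa using aeval_a_ne h (P := X - C t) (X_sub_C_ne_zero t)

theorem lin_ne (t : k) : (1 - C t * X : k[X]) ≠ 0 := by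
  intro h
  have := congrArg (fun P : k[X] => P.coeff 0) h
  simp at this

theorem one_sub_ne {a b : F} (h : IsCoord k a b) (t : k) : 1 - algebraMap k F t * b ≠ 0 := by
  simpa using aeval_b_ne h (lin_ne t)

theorem prime_b {a b : F} (h : IsCoord k a b) : ∀ g ∈ Rg k a b, ∀ g' ∈ Rg k a b,
    ∀ p ∈ Rg k a b, g * g' = b * p →
    (∃ r ∈ Rg k a b, g = b * r) ∨ ∃ r ∈ Rg k a b, g' = b * r := by
  intro g hg g' hg' p hp he
  obtain ⟨P, q, hq, rfl⟩ := split_b g hg
  obtain ⟨P', q', hq', rfl⟩ := split_b g' hg'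
  have h0 : P * P' = 0 := by
    refine uniq_b h _ (p - (aeval a P * q' + q * aeval a P' + b * q * q')) ?_ ?_
    · exact sub_mem hp (add_mem (add_mem (mul_mem (aeval_mem (a_mem a b) P) hq')
        (mul_mem hq (aeval_mem (a_mem a b) P'))) (mul_mem (mul_mem (b_mem a b) hq) hq'))
    · rw [map_mul]
      linear_combination he
  rcases mul_eq_zero.1 h0 with rfl | rfl
  · exact Or.inl ⟨q, hq, by simp⟩
  · exact Or.inr ⟨q', hq', by simp⟩

theorem div_e {a b : F} (h : IsCoord k a b) : ∀ p ∈ Rg k a b, ∀ p' ∈ Rg k a b,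
    a * p = b * p' → ∃ r ∈ Rg k a b, p = b * r := by
  intro p hp p' hp' he
  rcases prime_b h a (a_mem a b) p hp p' hp' he with ⟨r, hr, h1⟩ | h1
  · exact absurd (uniq_b h X r hr (by simpa using h1)) X_ne_zero
  · exact h1

theorem normal {a b : F} (h : IsCoord k a b) : IsIntegrallyClosed (Rg k a b) :=
  IsIntegrallyClosed.of_equiv (AlgEquiv.ofInjective (ev2 k a b) h.inj).toRingEquiv

theorem noeth {a b : F} (h : IsCoord k a b) : IsNoetherianRing (Rg k a b) :=
  isNoetherianRing_of_ringEquiv _ (AlgEquiv.ofInjective (ev2 k a b) h.inj).toRingEquiv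

theorem frac {a b : F} (h : IsCoord k a b) : IsFractionRing (Rg k a b) F := by
  refine IsFractionRing.of_field _ _ fun z => ?_
  obtain ⟨P, Q, hQ, he⟩ := h.frac z
  refine ⟨⟨_, P, rfl⟩, ⟨_, Q, rfl⟩, ?_⟩
  have h0 : ev2 k a b Q ≠ 0 := fun h0 => hQ (h.inj (by rw [h0, map_zero]))
  change z = ev2 k a b P / ev2 k a b Q
  rw [eq_div_iff h0, he]

theorem int_mem {a b : F} (h : IsCoord k a b) (g : F) (hg : IsIntegral (Rg k a b) g) :
    g ∈ Rg k a b := by
  have := normal h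
  have := frac h
  obtain ⟨y, rfl⟩ := IsIntegrallyClosed.algebraMap_eq_of_integral hg
  exact y.2

/-- localisation statement from its value on the generators -/
theorem loc_gen {a b : F} {S : Subalgebra k F} {d : F} (hd : d ∈ S)
    (ha : ∃ m : ℕ, d ^ m * a ∈ S) (hb : ∃ m : ℕ, d ^ m * b ∈ S) :
    ∀ g ∈ Rg k a b, ∃ m : ℕ, d ^ m * g ∈ S := by
  refine rg_ind _ (fun t => ⟨0, by simp⟩) ha hb ?_ ?_
  · rintro g g' ⟨m, hm⟩ ⟨m', hm'⟩
    refine ⟨m + m', ?_⟩
    have e : d ^ (m + m') * (g + g') = d ^ m' * (d ^ m * g) + d ^ m * (d ^ m' * g') := by ring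
    rw [e]
    exact add_mem (mul_mem (pow_mem hd _) hm) (mul_mem (pow_mem hd _) hm')
  · rintro g g' ⟨m, hm⟩ ⟨m', hm'⟩
    refine ⟨m + m', ?_⟩
    have e : d ^ (m + m') * (g * g') = (d ^ m * g) * (d ^ m' * g') := by ring
    rw [e]
    exact mul_mem hm hm'

/-! ### Moves -/

/-- `(a, b)` are coordinates with the same Gauss valuations as `(x, y)` -/
def Ok (k : Type) [Field k] {F : Type} [Field F] [Algebra k F] (x y a b : F) : Prop :=
  IsCoord k a b ∧ ∀ w : Valuation F ℝ≥0, IsGauss k w a b ↔ IsGauss k w x y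

variable {x y a b : F}

theorem Ok.swap (hm : S_Moves) (h : Ok k x y a b) : Ok k x y b a := by
  have h1 := (hm k F a b h.1).1
  have h2 := (hm k F b a h1.1).1
  exact ⟨h1.1, fun w => ⟨fun hw => (h.2 w).1 (h2.2 w hw), fun hw => h1.2 w ((h.2 w).2 hw)⟩⟩

theorem Ok.inv (hm : S_Moves) (h : Ok k x y a b) : Ok k x y a⁻¹ b := by
  have h1 := (hm k F a b h.1).2.1
  have h2 := (hm k F a⁻¹ b h1.1).2.1
  rw [inv_inv] at h2
  exact ⟨h1.1, fun w => ⟨fun hw => (h.2 w).1 (h2.2 w hw), fun hw => h1.2 w ((h.2 w).2 hw)⟩⟩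

theorem Ok.mul (hm : S_Moves) (h : Ok k x y a b) {U : k[X]} (hU : U ≠ 0) :
    Ok k x y a (b * aeval a U) := by
  have h1 := (hm k F a b h.1).2.2 U hU
  have h2 := (hm k F a _ h1.1).2.2 U hU
  rw [mul_div_cancel_right₀ b (aeval_a_ne h.1 hU)] at h2
  exact ⟨h1.1, fun w => ⟨fun hw => (h.2 w).1 (h2.2.2 w hw).2,
    fun hw => (h1.2.2 w ((h.2 w).2 hw)).1⟩⟩

theorem Ok.div (hm : S_Moves) (h : Ok k x y a b) {U : k[X]} (hU : U ≠ 0) :
    Ok k x y a (b / aeval a U) := by
  have h1 := (hm k F a b h.1).2.2 U hU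
  have h2 := (hm k F a _ h1.2.1).2.2 U hU
  rw [div_mul_cancel₀ b (aeval_a_ne h.1 hU)] at h2
  exact ⟨h1.2.1, fun w => ⟨fun hw => (h.2 w).1 (h2.2.2 w hw).1,
    fun hw => (h1.2.2 w ((h.2 w).2 hw)).2⟩⟩

variable {m m' m'' : F}

theorem Ok.next (hm : S_Moves) (h : Ok k x y m m'') (hr : m * m' * m'' = 1) :
    Ok k x y m' m := by
  have h1 := ((h.mul hm (U := X) X_ne_zero).swap hm).inv hm
  have e : (m'' * aeval m (X : k[X]))⁻¹ = m' := by
    rw [aeval_X]
    exact inv_eq_of_mul_eq_one_right (by linear_combination hr)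
  rwa [e] at h1

theorem Ok.first (hm : S_Moves) (h : Ok k x y m m'') (hr : m * m' * m'' = 1) (t : k) :
    Ok k x y (m / m') (m * (m / m' - algebraMap k F t))⁻¹ := by
  have hm' : m' ≠ 0 := by
    rintro rfl
    simp at hr
  have h1 := h.mul hm (U := X ^ 2) (pow_ne_zero 2 X_ne_zero)
  have e : m'' * aeval m (X ^ 2 : k[X]) = m / m' := by
    rw [map_pow, aeval_X, eq_div_iff hm']
    linear_combination m * hr
  rw [e] at h1
  have h2 := ((h1.inv hm).swap hm).div hm (X_sub_C_ne_zero t)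
  have e2 : m⁻¹ / aeval (m / m') (X - C t : k[X]) = (m * (m / m' - algebraMap k F t))⁻¹ := by
    rw [map_sub, aeval_X, aeval_C, mul_inv, div_eq_mul_inv]
  rwa [e2] at h2

theorem Ok.third (hm : S_Moves) (h : Ok k x y m m'') (hr : m * m' * m'' = 1) (t : k) :
    Ok k x y (m''⁻¹ / (1 - algebraMap k F t * (m'' / m'))) (m'' / m') := by
  have hm' : m' ≠ 0 := by
    rintro rfl
    simp at hr
  have h1 := (h.swap hm).mul hm (U := X ^ 2) (pow_ne_zero 2 X_ne_zero)
  have e : m * aeval m'' (X ^ 2 : k[X]) = m'' / m' := by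
    rw [map_pow, aeval_X, eq_div_iff hm']
    linear_combination m'' * hr
  rw [e] at h1
  have h2 := (((h1.inv hm).swap hm).div hm (lin_ne t)).swap hm
  have e2 : aeval (m'' / m') (1 - C t * X : k[X]) = 1 - algebraMap k F t * (m'' / m') := by
    rw [map_sub, map_one, map_mul, aeval_X, aeval_C]
  rwa [e2] at h2

end GeoAux

end

end Pool.Agent.P.MP_3a4479_al
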