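import Pool.Agent.P.MP_3a4479_al.Defs0

set_option autoImplicit false

namespace Pool.Agent.P.MP_3a4479_al

open Polynomial

namespace KillAux

/-- the additive polynomial `Y ^ 2 ^ I - ∑ c i * Y ^ 2 ^ i` -/
def gg {R : Type} (A : Type) [CommRing R] [CommRing A] [Algebra R A] (c : ℕ → R) (I : ℕ) (y : A) :
    A :=
  y ^ 2 ^ I - ∑ i ∈ Finset.range I, algebraMap R A (c i) * y ^ 2 ^ i

theorem gg_sub {R A : Type} [CommRing R] [CommRing A] [Algebra R A] [CharP A 2] (c : ℕ → R)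
    (I : ℕ) (y y' : A) : gg A c I (y - y') = gg A c I y - gg A c I y' := by
  have : Fact (Nat.Prime 2) := ⟨Nat.prime_two⟩
  simp only [gg, sub_pow_char_pow, mul_sub, Finset.sum_sub_distrib]
  ring

theorem gg_map {R A B : Type} [CommRing R] [CommRing A] [Algebra R A] [CommRing B] [Algebra R B]
    (φ : A →ₐ[R] B) (c : ℕ → R) (I : ℕ) (y : A) : φ (gg A c I y) = gg B c I (φ y) := by
  simp [gg]

theorem degree_lt {A : Type} [CommRing A] (e : ℕ → A) (b : A) (I : ℕ) :
    (∑ i ∈ Finset.range I, C (e i) * X ^ 2 ^ i + C b : A[X]).degree < ((2 ^ I : ℕ) : WithBot ℕ) := by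
  refine (degree_add_le _ _).trans_lt (max_lt ?_ ?_)
  · refine (degree_sum_le _ _).trans_lt ?_
    rw [Finset.sup_lt_iff (WithBot.bot_lt_coe _)]
    intro i hi
    refine (degree_C_mul_X_pow_le _ _).trans_lt ?_
    exact_mod_cast Nat.pow_lt_pow_right (by norm_num) (Finset.mem_range.1 hi)
  · refine degree_C_le.trans_lt ?_
    exact_mod_cast Nat.pos_of_ne_zero (by positivity)

theorem gg_surj {R Ω : Type} [CommRing R] [Field Ω] [IsAlgClosed Ω] [Algebra R Ω] (c : ℕ → R)
    (I : ℕ) (b : Ω) : ∃ y, gg Ω c I y = b := by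
  have h := degree_lt (fun i => algebraMap R Ω (c i)) b I
  have hd : (X ^ 2 ^ I - (∑ i ∈ Finset.range I, C (algebraMap R Ω (c i)) * X ^ 2 ^ i + C b) :
      Polynomial Ω).degree ≠ 0 := by
    rw [degree_sub_eq_left_of_degree_lt (by rwa [degree_X_pow]), degree_X_pow]
    exact_mod_cast (by positivity : (2 : ℕ) ^ I ≠ 0)
  obtain ⟨y, hy⟩ := IsAlgClosed.exists_root _ hd
  refine ⟨y, ?_⟩
  simp only [IsRoot.def, eval_sub, eval_pow, eval_X, eval_add, eval_finsetSum, eval_mul,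
    eval_C] at hy
  rw [gg]
  linear_combination hy

theorem gg_integral {R Ω : Type} [CommRing R] [CommRing Ω] [Algebra R Ω] (c : ℕ → R) (I : ℕ)
    (x : R) (M : ℕ) (y : Ω) (h : IsIntegral R (algebraMap R Ω x ^ M * gg Ω c I y)) :
    IsIntegral R (algebraMap R Ω x ^ M * y) := by
  let β : integralClosure R Ω := ⟨_, h⟩
  let e : ℕ → integralClosure R Ω := fun i =>
    algebraMap R _ (c i * x ^ (M * (2 ^ I - 2 ^ i)))
  let b : integralClosure R Ω := algebraMap R _ (x ^ (M * (2 ^ I - 1))) * β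
  refine isIntegral_trans (A := integralClosure R Ω) _
    ⟨X ^ 2 ^ I - (∑ i ∈ Finset.range I, C (e i) * X ^ 2 ^ i + C b),
      monic_X_pow_sub (degree_lt e b I), ?_⟩
  have h1 : ∀ i ∈ Finset.range I,
      algebraMap (integralClosure R Ω) Ω (e i) * (algebraMap R Ω x ^ M * y) ^ 2 ^ i =
        algebraMap R Ω x ^ (M * 2 ^ I) * (algebraMap R Ω (c i) * y ^ 2 ^ i) := by
    intro i hi
    have h2 : 2 ^ i ≤ 2 ^ I := Nat.pow_le_pow_right (by norm_num) (Finset.mem_range.1 hi).le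
    have h3 : M * 2 ^ I = M * (2 ^ I - 2 ^ i) + M * 2 ^ i := by
      rw [← mul_add, Nat.sub_add_cancel h2]
    simp only [e]
    rw [← IsScalarTower.algebraMap_apply, h3, map_mul, map_pow, pow_add, mul_pow, ← pow_mul]
    ring
  have h4 : algebraMap (integralClosure R Ω) Ω b =
      algebraMap R Ω x ^ (M * 2 ^ I) * gg Ω c I y := by
    have h2 : 1 ≤ 2 ^ I := Nat.one_le_two_pow
    have h3 : M * 2 ^ I = M * (2 ^ I - 1) + M := by
      conv_rhs => rw [← mul_add_one, Nat.sub_add_cancel h2]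
    simp only [b]
    rw [map_mul, ← IsScalarTower.algebraMap_apply, h3, map_pow, pow_add, mul_assoc]
    rfl
  simp only [eval₂_sub, eval₂_add, eval₂_finsetSum, eval₂_mul, eval₂_C, eval₂_X_pow]
  rw [Finset.sum_congr rfl h1, h4, ← Finset.mul_sum, gg, mul_pow, ← pow_mul]
  ring

/-- in a Noetherian module some term of a sequence is a combination of the earlier ones -/
theorem exists_relation {R V : Type} [CommRing R] [AddCommGroup V] [Module R V] [IsNoetherian R V]
    (γ : ℕ → V) : ∃ (I : ℕ) (c : ℕ → R), γ I = ∑ i ∈ Finset.range I, c i • γ i := by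
  let N : ℕ →o Submodule R V :=
    ⟨fun k => Submodule.span R (γ '' (Finset.range k : Set ℕ)), fun a b hab =>
      Submodule.span_mono (Set.image_mono (by
        intro i hi
        simp only [Finset.coe_range, Set.mem_Iio] at hi ⊢
        omega))⟩
  obtain ⟨I, hI⟩ := monotone_stabilizes_iff_noetherian.2 inferInstance N
  have h1 : γ I ∈ N I := by
    rw [hI (I + 1) (Nat.le_succ I)]
    exact Submodule.subset_span ⟨I, by simp, rfl⟩
  obtain ⟨c, hc⟩ := (Submodule.mem_span_image_finset_iff_exists_fun' R).1 h1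
  exact ⟨I, c, hc.symm⟩

section core

variable {R K L : Type} [CommRing R] [Field K] [Algebra R K] [IsFractionRing R K] [Field L]
  [Algebra K L] [Algebra R L] [IsScalarTower R K L] {n m : ℕ} (Ψ : L →ₗ[K] (Fin n → K))
  (Θ : Matrix (Fin m) (Fin n) R) (T : Subalgebra R L)

omit [IsFractionRing R K] in
theorem Psi_mul (r : R) (w : L) : Ψ (algebraMap R L r * w) = algebraMap R K r • Ψ w := by
  rw [← map_smul, Algebra.smul_def, ← IsScalarTower.algebraMap_apply]

omit [IsFractionRing R K] in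
theorem mulVec_comp (a : Fin n → R) :
    (Θ.map (algebraMap R K)).mulVec (algebraMap R K ∘ a) = algebraMap R K ∘ Θ.mulVec a := by
  funext l
  exact (RingHom.map_mulVec (algebraMap R K) Θ a l).symm

/-- one half of the splitting -/
theorem piece (hΘ : ∀ u : Fin n → K, (Θ.map (algebraMap R K)).mulVec u = 0 ↔ u ∈ LinearMap.range Ψ)
    (hT : ∀ z, z ∈ T ↔ ∀ i, Ψ z i ∈ (algebraMap R K).range) (x : R) (hx : x ≠ 0) (t : ℕ)
    (a : ℕ → Fin n → R) (γ : ℕ → Fin m → R) (ha : ∀ i, Θ.mulVec (a i) = x ^ (t * 2 ^ i) • γ i)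
    (I : ℕ) (c : ℕ → R) (hγ : γ I = ∑ i ∈ Finset.range I, c i • γ i) :
    ∃ b : L, algebraMap R L x ^ (t * 2 ^ I) * b ∈ T ∧
      Ψ b = (algebraMap R K x ^ (t * 2 ^ I))⁻¹ • (algebraMap R K ∘ a I) -
        ∑ i ∈ Finset.range I, algebraMap R K (c i) •
          ((algebraMap R K x ^ (t * 2 ^ i))⁻¹ • (algebraMap R K ∘ a i)) := by
  have hx' : algebraMap R K x ≠ 0 := fun h => hx (IsFractionRing.injective R K (by simpa using h))
  have h1 : ∀ i, (Θ.map (algebraMap R K)).mulVec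
      ((algebraMap R K x ^ (t * 2 ^ i))⁻¹ • (algebraMap R K ∘ a i)) = algebraMap R K ∘ γ i := by
    intro i
    rw [Matrix.mulVec_smul, mulVec_comp, ha]
    funext l
    simp only [Pi.smul_apply, Function.comp, smul_eq_mul, map_mul, map_pow]
    rw [inv_mul_cancel_left₀ (pow_ne_zero _ hx')]
  obtain ⟨b, hb⟩ := (hΘ ((algebraMap R K x ^ (t * 2 ^ I))⁻¹ • (algebraMap R K ∘ a I) -
        ∑ i ∈ Finset.range I, algebraMap R K (c i) •
          ((algebraMap R K x ^ (t * 2 ^ i))⁻¹ • (algebraMap R K ∘ a i)))).1 (by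
    rw [Matrix.mulVec_sub, Matrix.mulVec_sum, h1]
    simp only [Matrix.mulVec_smul _ (algebraMap R K (c _)), h1]
    rw [hγ]
    funext l
    simp [Finset.sum_apply, Algebra.smul_def])
  refine ⟨b, ?_, hb⟩
  rw [hT, ← map_pow, Psi_mul, hb]
  intro j
  refine ⟨a I j - ∑ i ∈ Finset.range I, c i * (x ^ (t * 2 ^ I - t * 2 ^ i) * a i j), ?_⟩
  simp only [map_sub, map_sum, map_mul, map_pow, Pi.smul_apply, Pi.sub_apply, Finset.sum_apply,
    Function.comp, smul_eq_mul, mul_sub, Finset.mul_sum]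
  rw [mul_inv_cancel_left₀ (pow_ne_zero _ hx')]
  congr 1
  refine Finset.sum_congr rfl fun i hi => ?_
  have h2 : t * 2 ^ i ≤ t * 2 ^ I :=
    Nat.mul_le_mul_left _ (Nat.pow_le_pow_right (by norm_num) (Finset.mem_range.1 hi).le)
  rw [pow_sub₀ _ hx' h2]
  ring

theorem core [IsDomain R] [IsNoetherianRing R] [CharP L 2] (hΨ : Function.Injective Ψ)
    (hΘ : ∀ u : Fin n → K, (Θ.map (algebraMap R K)).mulVec u = 0 ↔ u ∈ LinearMap.range Ψ)
    (hT : ∀ z, z ∈ T ↔ ∀ i, Ψ z i ∈ (algebraMap R K).range) (v s f : R) (hs : s ≠ 0) (hf : f ≠ 0)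
    (H1 : ∀ (a b : ℕ) (r r' : R), s ^ a * r = f ^ b * r' → ∃ r'', r = f ^ b * r'')
    (H2 : ∀ (a b : ℕ) (r r₁ r₂ : R), v * r = s ^ a * r₁ + f ^ b * r₂ →
      ∃ r₁' r₂', r = s ^ a * r₁' + f ^ b * r₂')
    (t : ℕ) (z u₁ u₂ : L) (hz : z ∈ T) (hu₁ : u₁ ∈ T) (hu₂ : u₂ ∈ T)
    (h : algebraMap R L v ^ t * z = algebraMap R L s ^ t * u₁ + algebraMap R L f ^ t * u₂) :
    ∃ (I M : ℕ) (c : ℕ → R) (bf bs : L), algebraMap R L f ^ M * bf ∈ T ∧
      algebraMap R L s ^ M * bs ∈ T ∧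
      gg L c I (z / (algebraMap R L s * algebraMap R L f) ^ t) = bf + bs := by
  have : Fact (Nat.Prime 2) := ⟨Nat.prime_two⟩
  have hinj := IsFractionRing.injective R K
  have H3 : ∀ (e a b : ℕ) (r r₁ r₂ : R), v ^ e * r = s ^ a * r₁ + f ^ b * r₂ →
      ∃ r₁' r₂', r = s ^ a * r₁' + f ^ b * r₂' := by
    intro e a b
    induction e with
    | zero => intro r r₁ r₂ h; exact ⟨r₁, r₂, by simpa using h⟩
    | succ e ih =>
      intro r r₁ r₂ h
      rw [pow_succ', mul_assoc] at h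
      obtain ⟨r₁', r₂', h'⟩ := H2 a b _ _ _ h
      exact ih r _ _ h'
  have key : ∀ i : ℕ, ∃ (a a' : Fin n → R) (γ : Fin m → R),
      Ψ (z ^ 2 ^ i) = algebraMap R K ∘ (s ^ (t * 2 ^ i) • a + f ^ (t * 2 ^ i) • a') ∧
      Θ.mulVec a = f ^ (t * 2 ^ i) • γ ∧ Θ.mulVec a' = s ^ (t * 2 ^ i) • (-γ) := by
    intro i
    choose Z hZ using (hT _).1 (T.pow_mem hz (2 ^ i))
    choose U₁ hU₁ using (hT _).1 (T.pow_mem hu₁ (2 ^ i))
    choose U₂ hU₂ using (hT _).1 (T.pow_mem hu₂ (2 ^ i))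
    have e1 : algebraMap R L (v ^ (t * 2 ^ i)) * z ^ 2 ^ i =
        algebraMap R L (s ^ (t * 2 ^ i)) * u₁ ^ 2 ^ i +
          algebraMap R L (f ^ (t * 2 ^ i)) * u₂ ^ 2 ^ i := by
      have := congrArg (· ^ 2 ^ i) h
      simp only [add_pow_char_pow, mul_pow, ← pow_mul] at this
      simpa only [map_pow] using this
    have e2 := congrArg Ψ e1
    rw [map_add, Psi_mul, Psi_mul, Psi_mul] at e2
    have e3 : ∀ j, ∃ r₁ r₂, Z j = s ^ (t * 2 ^ i) * r₁ + f ^ (t * 2 ^ i) * r₂ := by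
      intro j
      refine H3 (t * 2 ^ i) _ _ _ (U₁ j) (U₂ j) (hinj ?_)
      have := congrFun e2 j
      simp only [Pi.smul_apply, Pi.add_apply, smul_eq_mul] at this
      rw [map_add, map_mul, map_mul, map_mul, hZ, hU₁, hU₂, this]
    choose a a' haa using e3
    have e4 : Z = s ^ (t * 2 ^ i) • a + f ^ (t * 2 ^ i) • a' := funext fun j => haa j
    have e5 : Ψ (z ^ 2 ^ i) = algebraMap R K ∘ Z := funext fun j => (hZ j).symm
    have e6 : Θ.mulVec Z = 0 := by
      have := (hΘ _).2 ⟨z ^ 2 ^ i, rfl⟩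
      rw [e5, mulVec_comp] at this
      funext l
      exact hinj (by simpa using congrFun this l)
    rw [e4, Matrix.mulVec_add, Matrix.mulVec_smul, Matrix.mulVec_smul] at e6
    have e7 : ∀ l, ∃ g, Θ.mulVec a l = f ^ (t * 2 ^ i) * g := by
      intro l
      refine H1 (t * 2 ^ i) _ _ (-Θ.mulVec a' l) ?_
      have := congrFun e6 l
      simp only [Pi.add_apply, Pi.smul_apply, smul_eq_mul, Pi.zero_apply] at this
      linear_combination this
    choose γ hγ using e7
    refine ⟨a, a', γ, by rw [e5, e4], funext fun l => hγ l, funext fun l => ?_⟩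
    have := congrFun e6 l
    simp only [Pi.add_apply, Pi.smul_apply, smul_eq_mul, Pi.zero_apply, hγ] at this
    refine mul_left_cancel₀ (pow_ne_zero (t * 2 ^ i) hf) ?_
    simp only [Pi.smul_apply, Pi.neg_apply, smul_eq_mul]
    linear_combination this
  choose a a' γ hz' ha ha' using key
  obtain ⟨I, c, hc⟩ := exists_relation (R := R) γ
  obtain ⟨bf, hbf, ebf⟩ := piece Ψ Θ T hΘ hT f hf t a γ ha I c hc
  obtain ⟨bs, hbs, ebs⟩ := piece Ψ Θ T hΘ hT s hs t a' (fun i => -γ i) ha' I c (by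
    rw [hc, ← Finset.sum_neg_distrib]
    simp only [smul_neg])
  refine ⟨I, t * 2 ^ I, c, bf, bs, hbf, hbs, hΨ ?_⟩
  have hs' : algebraMap R K s ≠ 0 := fun h => hs (hinj (by simpa using h))
  have hf' : algebraMap R K f ≠ 0 := fun h => hf (hinj (by simpa using h))
  have e8 : ∀ i : ℕ, Ψ ((z / (algebraMap R L s * algebraMap R L f) ^ t) ^ 2 ^ i) =
      (algebraMap R K f ^ (t * 2 ^ i))⁻¹ • (algebraMap R K ∘ a i) +
        (algebraMap R K s ^ (t * 2 ^ i))⁻¹ • (algebraMap R K ∘ a' i) := by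
    intro i
    have : (z / (algebraMap R L s * algebraMap R L f) ^ t) ^ 2 ^ i =
        ((algebraMap R K s * algebraMap R K f) ^ (t * 2 ^ i))⁻¹ • z ^ 2 ^ i := by
      rw [Algebra.smul_def, map_inv₀, map_pow, map_mul, ← IsScalarTower.algebraMap_apply,
        ← IsScalarTower.algebraMap_apply, div_pow, ← pow_mul, div_eq_inv_mul]
    rw [this, map_smul, hz']
    funext j
    simp only [Pi.smul_apply, Pi.add_apply, Function.comp, smul_eq_mul, map_add, map_mul, map_pow]
    have h1 := pow_ne_zero (t * 2 ^ i) hs'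
    have h2 := pow_ne_zero (t * 2 ^ i) hf'
    rw [mul_pow]
    field_simp
  rw [gg, map_sub, map_sum, map_add, ebf, ebs, e8]
  simp only [Psi_mul, e8, smul_add, Finset.sum_add_distrib]
  abel

end core

end KillAux

open KillAux

theorem kill (hH : S_Hull) : S_Kill := by
  classical
  intro R Ω _ _ _ _ _ _ _ hinj v s f hs hf H1 H2 t z u₁ u₂ hz hu₁ hu₂ h
  have : FaithfulSMul R Ω := (faithfulSMul_iff_algebraMap_injective R Ω).2 hinj
  let : Algebra (FractionRing R) Ω := FractionRing.liftAlgebra R Ω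
  have : IsScalarTower R (FractionRing R) Ω := FractionRing.isScalarTower_liftAlgebra R Ω
  have : CharP Ω 2 := charP_of_injective_algebraMap hinj 2
  let L := IntermediateField.adjoin (FractionRing R) ({z, u₁, u₂} : Set Ω)
  have : FiniteDimensional (FractionRing R) L := by
    refine IntermediateField.finiteDimensional_adjoin fun x hx => ?_
    rcases hx with rfl | rfl | rfl
    · exact hz.tower_top
    · exact hu₁.tower_top
    · exact hu₂.tower_top
  let φ : L →ₐ[R] Ω := L.val.restrictScalars R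
  have hφ : Function.Injective φ := Subtype.val_injective
  have : CharP L 2 := (RingHom.charP_iff_charP φ.toRingHom 2).2 inferInstance
  let z' : L := ⟨z, IntermediateField.subset_adjoin _ _ (by simp)⟩
  let u₁' : L := ⟨u₁, IntermediateField.subset_adjoin _ _ (by simp)⟩
  let u₂' : L := ⟨u₂, IntermediateField.subset_adjoin _ _ (by simp)⟩
  obtain ⟨n, m, Ψ, Θ, T, hΨ, hΘ, hS, hT, hint⟩ :=
    hH R (FractionRing R) L {z', u₁', u₂'} (by
      intro x hx
      simp only [Finset.mem_insert, Finset.mem_singleton] at hx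
      rcases hx with rfl | rfl | rfl
      · exact (isIntegral_algHom_iff φ hφ).1 hz
      · exact (isIntegral_algHom_iff φ hφ).1 hu₁
      · exact (isIntegral_algHom_iff φ hφ).1 hu₂)
  obtain ⟨I, M, c, bf, bs, hbf, hbs, e⟩ := core Ψ Θ T hΨ hΘ hT v s f hs hf H1 H2 t z' u₁' u₂'
    (hS _ (by simp)) (hS _ (by simp)) (hS _ (by simp)) (hφ (by
      simp only [map_mul, map_add, map_pow, AlgHom.commutes]
      exact h))
  have e1 := congrArg φ e
  rw [gg_map, map_add, map_div₀, map_pow, map_mul, AlgHom.commutes, AlgHom.commutes] at e1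
  have ez : φ z' = z := rfl
  rw [ez] at e1
  have i1 := (hint _ hbf).map φ
  have i2 := (hint _ hbs).map φ
  rw [map_mul, map_pow, AlgHom.commutes] at i1 i2
  obtain ⟨zf, hzf⟩ := gg_surj c I (φ bf)
  set ρ := z / (algebraMap R Ω s * algebraMap R Ω f) ^ t with hρ
  have hs' : algebraMap R Ω s ≠ 0 := fun h => hs (hinj (by simpa using h))
  have hf' : algebraMap R Ω f ≠ 0 := fun h => hf (hinj (by simpa using h))
  refine ⟨zf - ρ, zf, M, gg_integral c I s M _ ?_, gg_integral c I f M _ (by rwa [hzf]), ?_⟩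
  · rw [gg_sub, hzf, e1, sub_add_cancel_left, mul_neg]
    exact i2.neg
  · rw [sub_sub_cancel, hρ, mul_div_cancel₀ _ (pow_ne_zero _ (mul_ne_zero hs' hf'))]

end Pool.Agent.P.MP_3a4479_al
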