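import Pool.Agent.P.MP_3a4479_al.Defs
import Pool.Agent.P.MP_3a4479_al.ExtVal
import Pool.Agent.P.MP_3a4479_al.Gauss
import Pool.Agent.P.MP_3a4479_al.Hull
import Pool.Agent.P.MP_3a4479_al.Kill
import Pool.Agent.P.MP_3a4479_al.Lat
import Pool.Agent.P.MP_3a4479_al.Loc
import Pool.Agent.P.MP_3a4479_al.NC
import Pool.Agent.P.MP_3a4479_al.Solid
import Pool.Agent.P.MP_3a4479_al.Split
import Pool.Agent.P.MP_3a4479_al.Step
import Pool.Agent.P.MP_3a4479_al.UL

set_option autoImplicit false

namespace Pool.Agent.P.MP_3a4479_al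

open Polynomial
open scoped NNReal

noncomputable section

structure PartB : Prop where
  geo : S_Geo
  nu : S_Nu
  res : S_Res
  resF : S_ResF
  dim : S_Dim
  aa : S_AA
  str : S_Str
  rf : S_RF
  dual : S_Dual
  j : S_J
  tc : S_TC
  bf : S_BF
  noCurve : S_NoCurve
  noAS : S_AS
  pl : S_Pl
  conn : S_Conn
  count : S_Count
  tube : S_Tube
  mono : S_Mono
  theta : S_Theta
  label : S_Label
  gal : S_Gal
  sep : S_Sep
  fib1 : S_Fib1
  fib2 : S_Fib2
  core : S_Core

theorem baseS : S_Base := by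
  obtain ⟨k, _, lam, h1, h2, h3⟩ := base extVal
  let F := FractionRing (P2 k)
  have key : ∀ P : P2 k, ev2 k (algebraMap (P2 k) F (MvPolynomial.X 0))
      (algebraMap (P2 k) F (MvPolynomial.X 1)) P = algebraMap (P2 k) F P := by
    intro P
    have : ev2 k (algebraMap (P2 k) F (MvPolynomial.X 0))
        (algebraMap (P2 k) F (MvPolynomial.X 1)) = IsScalarTower.toAlgHom k (P2 k) F := by
      apply MvPolynomial.algHom_ext
      intro i
      fin_cases i <;> simp [ev2]
    rw [this]; rfl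
  refine ⟨k, F, inferInstance, inferInstance, inferInstance,
    ⟨algebraMap (P2 k) F (MvPolynomial.X 0), algebraMap (P2 k) F (MvPolynomial.X 1), lam⟩,
    h1, h2, ⟨?_, ?_⟩, h3⟩
  · intro P Q hPQ
    rw [key, key] at hPQ
    exact IsFractionRing.injective (P2 k) F hPQ
  · intro z
    obtain ⟨P, Q, hQ, rfl⟩ := IsFractionRing.div_surjective (A := P2 k) z
    refine ⟨P, Q, nonZeroDivisors.ne_zero hQ, ?_⟩
    rw [key, key]
    exact div_mul_cancel₀ _ (IsFractionRing.to_map_ne_zero_of_mem_nonZeroDivisors hQ)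

section

variable {k F : Type} [Field k] [Field F] [Algebra k F]

/-- no finite Galois cover kills the class of the boundary cycle -/
theorem noGR (B : PartB) (c : Ctx k F) (hc : c.Good) (σ : Str c) (hσ : σ.Good)
    (L : Type) [Field L] [Algebra F L] [FiniteDimensional F L] [IsGalois F L]
    (q : ℕ) (β β' : Fin 9 → L) : ¬ GR σ q β β' := by
  intro hGR
  have h := B.geo k F c hc
  obtain ⟨ν, hν⟩ := B.nu k F c hc h
  have hres := B.res k F c ν hc h hν
  have hdim := B.dim k F c hc h hres (B.resF k F c hc h)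
  choose w hw using fun j => extVal F L (ν j)
  have hext : Ext ν w := hw
  have hpl := B.pl k F L c ν w charPoly hc h hν hext
  obtain ⟨v, hv0, hv1⟩ := hc.val
  have hconn : Conn c w := by
    refine B.conn k F L c w hpl ?_
    intro Cl _ _ cls act hcls
    refine ⟨B.count k F L Cl c ν w cls act lat clear hc h hν hdim hext hpl hcls, ?_⟩
    obtain ⟨ε, Y, Z, κY, κZ, t, ht⟩ :=
      B.tube k F L Cl c ν w cls act v extVal gaussEx charPoly hc h hν hext hpl hcls
    exact B.mono k F L Cl c ν w cls act v ε Y Z κY κZ t hc h hν hext hpl hcls hv0 hv1 ht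
  have hAS := B.noAS k F c ν cartier hc h hν (B.noCurve k F c ν hc h hν hres)
  exact B.label k F L c ν w hc h hν hext hpl hconn hAS
    (B.theta k F L c ν w σ q β β' hc h hν hres hσ hext hGR)

theorem noRel (B : PartB) (c : Ctx k F) (hc : c.Good) (h : GeoFacts c) (σ : Str c)
    (hσ : σ.Good) (β : Fin 6 → F) (hβ : IsBasis σ 0 dR β) (al : P3 k →ₐ[k] RR h)
    (hR : RFacts h σ al) (K Ω : Type) [Field K] [Algebra F[X] K] [IsFractionRing F[X] K]
    [Field Ω] [Algebra K Ω] [Algebra F[X] Ω] [IsScalarTower F[X] K Ω]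
    (q M n : ℕ) (ys yf : Ω) (j : Fin n → F[X]) (t : Fin n → Ω) :
    ¬ RelD h σ q M n ys yf j t := by
  intro hrel
  obtain ⟨ν, hν⟩ := B.nu k F c hc h
  have hres := B.res k F c ν hc h hν
  have hdim := B.dim k F c hc h hres (B.resF k F c hc h)
  have hJ := B.j k F c σ hc h hres hdim hσ
  have hAA := B.aa k F c hc h
  obtain ⟨L, hL1, hL2, q', M', ys', yf', j', t', hrel'⟩ :=
    B.sep k F K Ω c h σ q M n ys yf j t hc hσ hrel
  obtain ⟨h1, h2⟩ := B.fib1 k F K L c h σ al q' M' n ys' yf' j' t' hull ul clear hc hσ hR hJ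
    (fun t ht ht' => B.bf k F c h σ β t ht hc hσ hβ hJ ht') hAA hrel'
  obtain ⟨q'', γ, γ', hGR⟩ := B.fib2 k F K L (AlgebraicClosure F) c h σ q' M' n ys' yf' j' t'
    (step ffin nc) s2 clear spec hc hres hσ hAA hrel' h1 h2
  obtain ⟨L', hL1', hL2', q₃, δ, δ', hGR'⟩ :=
    B.gal k F (AlgebraicClosure F) c σ q'' γ γ' hc h hσ hGR
  exact noGR B c hc σ hσ L' q₃ δ δ' hGR'

/-- an additive map that is linear over the polynomial ring gives a linear map over the
section ring -/
theorem transfer {c : Ctx k F} {h : GeoFacts c} {σ : Str c} {al : P3 k →ₐ[k] RR h}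
    {j b : Fin 6 → RR h} (hD : DualFacts h σ al j b) (S : Type) [CommRing S] [Algebra (RR h) S]
    (Λ : S →+ P3 k) (hΛ : ∀ a z, Λ (algebraMap (RR h) S (al a) * z) = a * Λ z) (h0 : Λ ≠ 0) :
    ∃ φ : S →ₗ[RR h] RR h, φ ≠ 0 := by
  have hsum : ∀ (ρ : Fin 6 → P3 k) (z : S),
      Λ (algebraMap (RR h) S (∑ l', al (ρ l') * j l') * z) =
        ∑ l', ρ l' * Λ (algebraMap (RR h) S (j l') * z) := by
    intro ρ z
    rw [map_sum, Finset.sum_mul, map_sum]
    refine Finset.sum_congr rfl fun l' _ => ?_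
    rw [map_mul (algebraMap (RR h) S), mul_assoc, hΛ]
  let φ : S →ₗ[RR h] RR h :=
    { toFun := fun z => ∑ l, al (Λ (algebraMap (RR h) S (j l) * z)) * b l
      map_add' := fun z z' => by
        rw [← Finset.sum_add_distrib]
        refine Finset.sum_congr rfl fun l _ => ?_
        rw [mul_add, map_add, map_add, add_mul]
      map_smul' := fun r z => by
        obtain ⟨ρ, h1, h2⟩ := hD.cas r
        have e1 : ∀ l, Λ (algebraMap (RR h) S (j l) * (r • z)) =
            ∑ l', ρ l' l * Λ (algebraMap (RR h) S (j l') * z) := by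
          intro l
          rw [← hsum, ← h1 l, Algebra.smul_def, map_mul (algebraMap (RR h) S)]
          congr 1
          ring
        simp only [e1, map_sum, map_mul, Finset.sum_mul, RingHom.id_apply, smul_eq_mul,
          Finset.mul_sum]
        rw [Finset.sum_comm]
        refine Finset.sum_congr rfl fun l' _ => ?_
        rw [mul_left_comm, h2 l', Finset.mul_sum]
        refine Finset.sum_congr rfl fun l _ => ?_
        ring }
  refine ⟨φ, fun hφ => h0 ?_⟩
  ext1 z
  have hz : ∀ l, Λ (algebraMap (RR h) S (j l) * z) = 0 := by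
    apply hD.indep (fun l => Λ (algebraMap (RR h) S (j l) * z))
    exact LinearMap.congr_fun hφ z
  obtain ⟨P, hP⟩ := hD.v_mem
  have := hsum P z
  rw [← hP, hΛ] at this
  simp only [hz, mul_zero, Finset.sum_const_zero] at this
  simpa using this

end

/-- the example -/
theorem example_ring (B : PartB) :
    ∃ (R : Type) (_ : CommRing R) (_ : IsDomain R) (_ : IsNoetherianRing R) (_ : IsLocalRing R)
      (_ : CharP R 2) (_ : ExpChar R 2), (frobenius R 2).Finite ∧ Splinter R ∧
      (∃ (S : Type) (_ : CommRing S) (_ : Algebra R S),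
        (∃ φ : S →ₗ[R] R, φ ≠ 0) ∧ ¬ ∃ ψ : S →ₗ[R] R, ψ 1 = 1) ∧
      ∃ (n : ℕ) (g : Fin n → R) (u c : R), c ≠ 0 ∧
        (∀ e : ℕ, ∃ r : Fin n → R, c * u ^ 2 ^ e = ∑ i, r i * g i ^ 2 ^ e) ∧
        ∀ r : Fin n → R, u ≠ ∑ i, r i * g i := by
  obtain ⟨k, F, _, _, _, c, hc⟩ := baseS
  have := hc.algc
  have := hc.char
  have h := B.geo k F c hc
  obtain ⟨ν, hν⟩ := B.nu k F c hc h
  have hres := B.res k F c ν hc h hν
  have hdim := B.dim k F c hc h hres (B.resF k F c hc h)
  obtain ⟨σ, β, β', hσ, hβ0, hβ, hβ'⟩ := B.str k F c hc h hres hdim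
  obtain ⟨al, hR⟩ := B.rf k F c h σ β hc hσ hβ0 hβ
  obtain ⟨j, b, hD⟩ := B.dual k F c h σ β β' al hc hσ hβ0 hβ hβ' hR.al_val
  have hJ := B.j k F c σ hc h hres hdim hσ
  obtain ⟨n, g, u, C, hT1, hT2⟩ := B.tc k F c h σ hc hres hdim hσ hJ
  have := hR.ft
  have : IsNoetherianRing (RR h) := Algebra.FiniteType.isNoetherianRing k _
  have : CharP (RR h) 2 := charP_of_injective_algebraMap (algebraMap k (RR h)).injective 2
  have : ExpChar (RR h) 2 := ExpChar.prime Nat.prime_two
  have : (mm h).IsPrime := RingHom.ker_isPrime _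
  let K := FractionRing F[X]
  let Ω := AlgebraicClosure K
  have : IsScalarTower F[X] K Ω := IsScalarTower.of_algebraMap_eq fun _ => rfl
  have hinj : Function.Injective (algebraMap F[X] Ω) := by
    rw [IsScalarTower.algebraMap_eq F[X] K Ω, RingHom.coe_comp]
    exact (algebraMap K Ω).injective.comp (IsFractionRing.injective F[X] K)
  have hinjR : Function.Injective (algebraMap (RR h) Ω) := hinj.comp Subtype.val_injective
  have hcore := B.core k F Ω c h σ al j b split (kill hull) hc hσ hR hD hinj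
    (fun M n ys yf j t => noRel B c hc h σ hσ β hβ al hR K Ω 1 M n ys yf j t)
  let Rl := Localization.AtPrime (mm h)
  have hinjl : Function.Injective (algebraMap (RR h) Rl) :=
    IsLocalization.injective Rl (mm h).primeCompl_le_nonZeroDivisors
  have : CharP Rl 2 := charP_of_injective_algebraMap hinjl 2
  have : ExpChar Rl 2 := ExpChar.prime Nat.prime_two
  obtain ⟨hF, hS⟩ := loc1 (RR h) Ω Rl (mm h) hinjR (ffin k (RR h)) hcore
  obtain ⟨π, hπ1, hπ2, hπ3⟩ := hR.proj
  have hX : ((al (MvPolynomial.X 0) : RR h) : F[X]) = X := by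
    rw [hR.al_val]; simp [Str.al]
  have hT1' : ∀ e : ℕ, ∃ r : Fin n → RR h, (∀ i, (r i : F[X]).natDegree ≤ C * 2 ^ e) ∧
      al (MvPolynomial.X 0) * u ^ 2 ^ e = ∑ i, r i * g i ^ 2 ^ e := by
    intro e
    obtain ⟨r, hr1, hr2⟩ := hT1 e
    refine ⟨r, hr1, Subtype.ext ?_⟩
    push_cast
    rw [hX]
    exact hr2
  obtain ⟨S, _, _, Λ, hΛ1, hΛ2, Y, hY⟩ := solid cartier k (RR h) al.toRingHom
    (fun r => (r : F[X]).natDegree) π n g u C hπ1 hπ2
    (fun r r' => by push_cast; exact natDegree_mul_le) (by simp) hπ3 hT1'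
  have hsol := transfer hD S Λ hΛ1 hΛ2
  refine ⟨Rl, inferInstance, inferInstance, inferInstance, inferInstance, inferInstance,
    inferInstance, hF, hS,
    loc2 (RR h) Rl S (mm h) n g u Y hsol hY hT2, n, fun i => algebraMap _ Rl (g i),
    algebraMap _ Rl u, algebraMap _ Rl (al (MvPolynomial.X 0)), ?_, ?_, ?_⟩
  · intro h0
    have : al (MvPolynomial.X 0) = 0 := hinjl (by rw [h0, map_zero])
    rw [this] at hX
    exact X_ne_zero (R := F) (by simpa using hX.symm)
  · intro e
    obtain ⟨r, -, hr⟩ := hT1' e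
    refine ⟨fun i => algebraMap _ Rl (r i), ?_⟩
    simpa using congrArg (algebraMap (RR h) Rl) hr
  · intro r hr
    obtain ⟨w, hw⟩ := IsLocalization.exist_integer_multiples_of_finite (mm h).primeCompl r
    choose r' hr' using hw
    refine hT2 w w.2 r' (hinjl ?_)
    rw [map_mul, hr, Finset.mul_sum, map_sum]
    refine Finset.sum_congr rfl fun i _ => ?_
    rw [map_mul, hr', Algebra.smul_def, mul_assoc]

end

end Pool.Agent.P.MP_3a4479_al
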