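import Pool.Agent.P.MP_3a4479_al.Defs

set_option autoImplicit false

namespace Pool.Agent.P.MP_3a4479_al

open Polynomial

namespace StrAux

section abstract

variable {k : Type} [Field k]

theorem poly_level {R ι : Type} [CommRing R] [IsDomain R] [Algebra k R] (S T : R) (hS : S ≠ 0)
    (W : ℕ → Submodule k R) (φ : ℕ → R →ₗ[k] k) (p : ι → Prop) (d : ι → ℕ) (r : ι → R)
    (hr : ∀ l, p l → r l ∈ W (d l)) (hSW : ∀ n, ∀ w ∈ W n, S * w ∈ W (n + 1))
    (hTW : ∀ n, ∀ w ∈ W n, T * w ∈ W (n + 2))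
    (hb : ∀ n, ∀ w ∈ W n, φ (n + 1) (S * w) = 0)
    (hc : ∀ n, ∀ w ∈ W (n + 1), φ (n + 1) w = 0 → ∃ w' ∈ W n, w = S * w')
    (hc0 : ∀ w ∈ W 0, φ 0 w = 0 → w = 0)
    (he : ∀ l j, p l → φ (2 * j + d l) (T ^ j * r l) ≠ 0)
    (he' : ∀ n, (∃ l j, p l ∧ 2 * j + d l = n) ∨ ∀ w ∈ W n, φ n w = 0)
    (hpar : ∀ l l', p l → p l' → d l % 2 = d l' % 2 → l = l') (n : ℕ) :
    W n ≤ Submodule.span k {x | ∃ t : ι × ℕ × ℕ, (p t.1 ∧ t.2.1 + 2 * t.2.2 + d t.1 = n) ∧
      x = S ^ t.2.1 * T ^ t.2.2 * r t.1} ∧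
    ∀ (A : Finset (ι × ℕ × ℕ)) (c : ι × ℕ × ℕ → k),
      (∀ t ∈ A, p t.1 ∧ t.2.1 + 2 * t.2.2 + d t.1 = n) →
      ∑ t ∈ A, c t • (S ^ t.2.1 * T ^ t.2.2 * r t.1) = 0 → ∀ t ∈ A, c t = 0 := by
  classical
  have hT : ∀ l j, p l → T ^ j * r l ∈ W (2 * j + d l) := by
    intro l j hl
    induction j with
    | zero => simpa using hr l hl
    | succ j ih =>
      rw [pow_succ', mul_assoc, show 2 * (j + 1) + d l = 2 * j + d l + 2 by ring]
      exact hTW _ _ ih
  have hST : ∀ l i j, p l → S ^ i * T ^ j * r l ∈ W (i + 2 * j + d l) := by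
    intro l i j hl
    induction i with
    | zero => simpa using hT l j hl
    | succ i ih =>
      rw [pow_succ', mul_assoc, mul_assoc, ← mul_assoc (S ^ i),
        show i + 1 + 2 * j + d l = i + 2 * j + d l + 1 by ring]
      exact hSW _ _ ih
  constructor
  · have key : ∀ n, ∀ w ∈ W n, ∃ w' ∈ W n, φ n w' = 0 ∧ w - w' ∈
        Submodule.span k {x | ∃ t : ι × ℕ × ℕ, (p t.1 ∧ t.2.1 + 2 * t.2.2 + d t.1 = n) ∧
          x = S ^ t.2.1 * T ^ t.2.2 * r t.1} := by
      intro n w hw
      rcases he' n with ⟨l, j, hl, rfl⟩ | h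
      · refine ⟨w - (φ (2 * j + d l) w / φ (2 * j + d l) (T ^ j * r l)) • (T ^ j * r l),
          sub_mem hw (Submodule.smul_mem _ _ (hT l j hl)), ?_, ?_⟩
        · rw [map_sub, map_smul, smul_eq_mul, div_mul_cancel₀ _ (he l j hl), sub_self]
        · rw [sub_sub_cancel]
          exact Submodule.smul_mem _ _ (Submodule.subset_span ⟨(l, 0, j), ⟨hl, by simp⟩, by simp⟩)
      · exact ⟨w, hw, h w hw, by simp⟩
    induction n with
    | zero =>
      intro w hw
      obtain ⟨w', hw', h0, h1⟩ := key 0 w hw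
      rwa [hc0 w' hw' h0, sub_zero] at h1
    | succ n ih =>
      intro w hw
      obtain ⟨w', hw', h0, h1⟩ := key _ w hw
      obtain ⟨w'', hw'', rfl⟩ := hc n w' hw' h0
      rw [← sub_add_cancel w (S * w'')]
      refine add_mem h1 ?_
      have h2 := ih hw''
      clear h1 h0 hw' hw''
      induction h2 using Submodule.span_induction with
      | mem x hx =>
        obtain ⟨t, ⟨h3, h4⟩, rfl⟩ := hx
        refine Submodule.subset_span ⟨(t.1, t.2.1 + 1, t.2.2), ⟨h3, by simp only; omega⟩, ?_⟩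
        simp only [pow_succ]
        ring
      | zero => simp
      | add a b _ _ ha hb => rw [mul_add]; exact add_mem ha hb
      | smul a x _ hx => rw [mul_smul_comm]; exact Submodule.smul_mem _ _ hx
  · intro A c hA hsum
    by_contra hne
    push Not at hne
    obtain ⟨t₀, ht₀, hmin⟩ := Finset.exists_min_image (A.filter fun t => c t ≠ 0)
      (fun t => t.2.1) (by
        obtain ⟨t, ht, hct⟩ := hne
        exact ⟨t, Finset.mem_filter.mpr ⟨ht, hct⟩⟩)
    obtain ⟨ht₀A, ht₀c⟩ := Finset.mem_filter.mp ht₀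
    have h1 : S ^ t₀.2.1 * ∑ t ∈ A, c t • (S ^ (t.2.1 - t₀.2.1) * T ^ t.2.2 * r t.1) = 0 := by
      rw [← hsum, Finset.mul_sum]
      refine Finset.sum_congr rfl fun t ht => ?_
      by_cases hct : c t = 0
      · simp [hct]
      · have := hmin t (Finset.mem_filter.mpr ⟨ht, hct⟩)
        rw [mul_smul_comm, ← mul_assoc, ← mul_assoc, ← pow_add, Nat.add_sub_cancel' this]
    have h2 := congrArg (φ (2 * t₀.2.2 + d t₀.1))
      ((mul_eq_zero.mp h1).resolve_left (pow_ne_zero _ hS))
    rw [map_zero, map_sum, Finset.sum_eq_single t₀] at h2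
    · rw [Nat.sub_self, pow_zero, one_mul, map_smul, smul_eq_mul] at h2
      exact mul_ne_zero ht₀c (he _ _ (hA t₀ ht₀A).1) h2
    · intro t ht hne
      by_cases hct : c t = 0
      · simp [hct]
      · have h3 := hmin t (Finset.mem_filter.mpr ⟨ht, hct⟩)
        have h4 := hA t ht
        have h5 := hA t₀ ht₀A
        rcases Nat.eq_or_lt_of_le h3 with h6 | h6
        · exfalso
          apply hne
          have h7 : t.1 = t₀.1 := hpar _ _ h4.1 h5.1 (by omega)
          have h8 := h4.2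
          rw [h7] at h8
          exact Prod.ext h7 (Prod.ext h6.symm (by omega))
        · obtain ⟨i, hi⟩ : ∃ i, t.2.1 - t₀.2.1 = i + 1 := ⟨t.2.1 - t₀.2.1 - 1, by omega⟩
          rw [map_smul, hi, pow_succ', mul_assoc, mul_assoc, ← mul_assoc (S ^ i),
            show 2 * t₀.2.2 + d t₀.1 = i + 2 * t.2.2 + d t.1 + 1 by omega,
            hb _ _ (hST _ _ _ h4.1), smul_zero]
    · intro h
      exact absurd ht₀A h

theorem sec_level {V R ι : Type} [AddCommGroup V] [Module k V] [AddCommGroup R] [Module k R]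
    (U U' : Submodule k V) (Rel : V → R → Prop) (W : Submodule k R) (q : ι → Prop) (v : ι → V)
    (ρ : ι → R) (ex : ∀ g ∈ U, ∃ P ∈ W, Rel g P) (ker : ∀ g ∈ U, Rel g 0 → g ∈ U')
    (low : ∀ g ∈ U', Rel g 0) (uniq : ∀ g P P', Rel g P → Rel g P' → P = P')
    (add : ∀ g g' P P', Rel g P → Rel g' P' → Rel (g + g') (P + P'))
    (smul : ∀ g P (a : k), Rel g P → Rel (a • g) (a • P))
    (hv : ∀ t, q t → v t ∈ U ∧ Rel (v t) (ρ t))
    (h : W ≤ Submodule.span k {x | ∃ t, q t ∧ x = ρ t} ∧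
      ∀ (A : Finset ι) (c : ι → k), (∀ t ∈ A, q t) → ∑ t ∈ A, c t • ρ t = 0 → ∀ t ∈ A, c t = 0) :
    U ≤ U' ⊔ Submodule.span k {x | ∃ t, q t ∧ x = v t} ∧
      ∀ (A : Finset ι) (c : ι → k), (∀ t ∈ A, q t) → ∑ t ∈ A, c t • v t ∈ U' →
        ∀ t ∈ A, c t = 0 := by
  classical
  constructor
  · intro g hg
    obtain ⟨P, hP, hgP⟩ := ex g hg
    have key : ∀ P ∈ Submodule.span k {x | ∃ t, q t ∧ x = ρ t},
        ∃ g' ∈ Submodule.span k {x | ∃ t, q t ∧ x = v t}, g' ∈ U ∧ Rel g' P := by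
      intro P hP
      induction hP using Submodule.span_induction with
      | mem x hx =>
        obtain ⟨t, ht, rfl⟩ := hx
        exact ⟨v t, Submodule.subset_span ⟨t, ht, rfl⟩, hv t ht⟩
      | zero => exact ⟨0, zero_mem _, zero_mem _, low 0 (zero_mem _)⟩
      | add a b _ _ ha hb =>
        obtain ⟨a', h1, h2, h3⟩ := ha
        obtain ⟨b', h4, h5, h6⟩ := hb
        exact ⟨a' + b', add_mem h1 h4, add_mem h2 h5, add _ _ _ _ h3 h6⟩
      | smul a x _ hx =>
        obtain ⟨x', h1, h2, h3⟩ := hx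
        exact ⟨a • x', Submodule.smul_mem _ _ h1, Submodule.smul_mem _ _ h2, smul _ _ _ h3⟩
    obtain ⟨g', h1, h2, h3⟩ := key P (h.1 hP)
    have h4 := add _ _ _ _ hgP (smul _ _ (-1) h3)
    rw [neg_one_smul, neg_one_smul, add_neg_cancel] at h4
    rw [show g = g + -g' + g' by abel]
    exact add_mem (Submodule.mem_sup_left (ker _ (add_mem hg (neg_mem h2)) h4))
      (Submodule.mem_sup_right h1)
  · intro A c hA hs
    refine h.2 A c hA (uniq _ _ _ ?_ (low _ hs))
    clear hs
    induction A using Finset.induction_on with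
    | empty => simpa using low 0 (zero_mem _)
    | insert t A ht ih =>
      rw [Finset.sum_insert ht, Finset.sum_insert ht]
      exact add _ _ _ _ (smul _ _ _ (hv t (hA t (Finset.mem_insert_self _ _))).2)
        (ih fun s hs => hA s (Finset.mem_insert_of_mem hs))

theorem filt {V ι : Type} [AddCommGroup V] [Module k V] (v : ι → V) (pos : ι → ℕ)
    (H : ℕ → Submodule k V) (hmono : Monotone H) (h0 : H 0 = ⊥) (hv : ∀ t, v t ∈ H (pos t + 1))
    (h : ∀ m, H (m + 1) ≤ H m ⊔ Submodule.span k {x | ∃ t, pos t = m ∧ x = v t} ∧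
      ∀ (A : Finset ι) (c : ι → k), (∀ t ∈ A, pos t = m) → ∑ t ∈ A, c t • v t ∈ H m →
        ∀ t ∈ A, c t = 0) :
    (∀ m, H m ≤ Submodule.span k {x | ∃ t, pos t < m ∧ x = v t}) ∧ LinearIndependent k v := by
  classical
  constructor
  · intro m
    induction m with
    | zero => rw [h0]; exact bot_le
    | succ m ih =>
      refine (h m).1.trans (sup_le (ih.trans (Submodule.span_mono ?_)) (Submodule.span_mono ?_))
      · rintro _ ⟨t, ht, rfl⟩
        exact ⟨t, by omega, rfl⟩
      · rintro _ ⟨t, ht, rfl⟩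
        exact ⟨t, by omega, rfl⟩
  · rw [linearIndependent_iff']
    intro A c hsum
    by_contra hne
    push Not at hne
    obtain ⟨t₀, ht₀, hmax⟩ := Finset.exists_max_image (A.filter fun t => c t ≠ 0) pos (by
      obtain ⟨t, ht, hct⟩ := hne
      exact ⟨t, Finset.mem_filter.mpr ⟨ht, hct⟩⟩)
    obtain ⟨ht₀A, ht₀c⟩ := Finset.mem_filter.mp ht₀
    refine ht₀c ((h (pos t₀)).2 (A.filter fun t => pos t = pos t₀) c
      (fun t ht => (Finset.mem_filter.mp ht).2) ?_ t₀ (Finset.mem_filter.mpr ⟨ht₀A, rfl⟩))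
    rw [← Finset.sum_filter_add_sum_filter_not A (fun t => pos t = pos t₀)] at hsum
    rw [eq_neg_of_add_eq_zero_left hsum]
    refine neg_mem (Submodule.sum_mem _ fun t ht => ?_)
    obtain ⟨h1, h2⟩ := Finset.mem_filter.mp ht
    by_cases hct : c t = 0
    · simp [hct]
    · have := hmax t (Finset.mem_filter.mpr ⟨h1, hct⟩)
      exact Submodule.smul_mem _ _ (hmono (by omega) (hv t))

end abstract

variable {k F : Type} [Field k] [Field F] [Algebra k F] {c : Ctx k F}

theorem isBasis_of (σ : Str c) (κ : ℤ) (d : Fin 6 → ℕ) (β : Fin 6 → F)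
    (mem : ∀ l, β l ∈ c.M (2 * d l - κ) (d l))
    (hsp : ∀ n : ℕ, c.M (2 * n - κ) n ≤ Submodule.span k {x | ∃ t : Fin 6 × ℕ × ℕ,
      t.2.1 + 2 * t.2.2 + d t.1 ≤ n ∧ x = σ.s ^ t.2.1 * σ.f ^ t.2.2 * β t.1})
    (hli : LinearIndependent k fun t : Fin 6 × ℕ × ℕ => σ.s ^ t.2.1 * σ.f ^ t.2.2 * β t.1) :
    IsBasis σ κ d β := by
  classical
  refine ⟨mem, fun n g hg => ?_, fun P hP => ?_⟩
  · have h := hsp n hg
    clear hg
    induction h using Submodule.span_induction with
    | mem x hx =>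
      obtain ⟨⟨l, i, j⟩, ht, rfl⟩ := hx
      simp only at ht
      refine ⟨Pi.single l (MvPolynomial.X 0 ^ (n - d l - i - 2 * j) * MvPolynomial.X 1 ^ i *
        MvPolynomial.X 2 ^ j), fun l' => ?_, fun l' hl' => ?_, ?_⟩
      · by_cases hl : l' = l
        · subst hl
          rw [Pi.single_eq_same]
          have := (((MvPolynomial.isWeightedHomogeneous_X k wt 0).pow (n - d l' - i - 2 * j)).mul
            ((MvPolynomial.isWeightedHomogeneous_X k wt 1).pow i)).mul
            ((MvPolynomial.isWeightedHomogeneous_X k wt 2).pow j)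
          convert this using 1
          simp [wt]
          omega
        · rw [Pi.single_eq_of_ne hl]
          exact MvPolynomial.isWeightedHomogeneous_zero _ _ _
      · refine Pi.single_eq_of_ne ?_ _
        rintro rfl
        omega
      · rw [Finset.sum_eq_single l]
        · simp [Str.al0]
        · intro l' _ hl
          simp [Pi.single_eq_of_ne hl]
        · simp
    | zero => exact ⟨0, fun _ => MvPolynomial.isWeightedHomogeneous_zero _ _ _, fun _ _ => rfl,
        by simp⟩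
    | add a b _ _ ha hb =>
      obtain ⟨P, h1, h2, rfl⟩ := ha
      obtain ⟨Q, h3, h4, rfl⟩ := hb
      refine ⟨P + Q, fun l => (h1 l).add (h3 l), fun l hl => by simp [h2 l hl, h4 l hl], ?_⟩
      simp [add_mul, Finset.sum_add_distrib]
    | smul a x _ hx =>
      obtain ⟨P, h1, h2, rfl⟩ := hx
      refine ⟨a • P, fun l => (MvPolynomial.weightedHomogeneousSubmodule k wt _).smul_mem a (h1 l),
        fun l hl => by simp [h2 l hl], ?_⟩
      simp [Finset.smul_sum]
  · have hli2 : LinearIndependent k fun t : Fin 6 × (Fin 3 →₀ ℕ) =>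
        (monomial (t.2 0 + t.2 1 + 2 * t.2 2 + d t.1) (σ.s ^ t.2 1 * σ.f ^ t.2 2 * β t.1) :
          F[X]) := by
      rw [linearIndependent_iff']
      intro A a hsum t₀ ht₀
      obtain ⟨n, hn⟩ : ∃ n, n = t₀.2 0 + t₀.2 1 + 2 * t₀.2 2 + d t₀.1 := ⟨_, rfl⟩
      have h1 := hli.comp (fun t : {t : Fin 6 × (Fin 3 →₀ ℕ) //
          t.2 0 + t.2 1 + 2 * t.2 2 + d t.1 = n} => (t.1.1, t.1.2 1, t.1.2 2)) (by
        rintro ⟨⟨l, m⟩, h⟩ ⟨⟨l', m'⟩, h'⟩ he
        simp only [Prod.mk.injEq] at he h h'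
        obtain ⟨rfl, e1, e2⟩ := he
        refine Subtype.ext (Prod.ext rfl (Finsupp.ext fun i => ?_))
        fin_cases i
        · change m 0 = m' 0
          omega
        · exact e1
        · exact e2)
      rw [linearIndependent_iff'] at h1
      refine h1 (A.subtype _) (fun t => a t.1) ?_ ⟨t₀, hn.symm⟩ (Finset.mem_subtype.mpr ht₀)
      have h2 := congrArg (fun p : F[X] => p.coeff n) hsum
      simp only [finsetSum_coeff, coeff_smul, coeff_monomial, coeff_zero] at h2
      rw [← h2]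
      simp only [Function.comp_apply]
      rw [Finset.sum_subtype_eq_sum_filter
        (fun t : Fin 6 × (Fin 3 →₀ ℕ) => a t • (σ.s ^ t.2 1 * σ.f ^ t.2 2 * β t.1)),
        Finset.sum_filter]
      refine Finset.sum_congr rfl fun t _ => ?_
      split_ifs <;> simp
    rw [linearIndependent_iff'] at hli2
    have h3 := hli2 (Finset.univ ×ˢ Finset.univ.biUnion fun l => (P l).support)
      (fun t => (P t.1).coeff t.2) (by
        rw [← hP, Finset.sum_product]
        refine Finset.sum_congr rfl fun l _ => ?_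
        conv_rhs => rw [(P l).as_sum]
        rw [map_sum, Finset.sum_mul]
        symm
        refine (Finset.sum_congr rfl fun m _ => ?_).trans (Finset.sum_subset
          (Finset.subset_biUnion_of_mem (fun l => (P l).support) (Finset.mem_univ l))
          fun m _ hm => by simp [MvPolynomial.notMem_support_iff.mp hm])
        rw [Str.al, MvPolynomial.aeval_monomial, Finsupp.prod_fintype _ _ (by simp),
          Fin.prod_univ_three, mul_assoc, ← Algebra.smul_def]
        simp only [Matrix.cons_val_zero, Matrix.cons_val_one, Matrix.cons_val, monomial_pow,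
          X_pow_eq_monomial, monomial_mul_monomial, one_mul, mul_comm 2])
    intro l
    ext m
    by_contra hm
    exact hm (h3 (l, m) (Finset.mem_product.mpr ⟨Finset.mem_univ _, Finset.mem_biUnion.mpr
      ⟨l, Finset.mem_univ _, MvPolynomial.mem_support_iff.mpr hm⟩⟩))

end StrAux

end Pool.Agent.P.MP_3a4479_al
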