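import Pool.Agent.P.MP_3a4479_al.Theta1

set_option autoImplicit false

namespace Pool.Agent.P.MP_3a4479_al

open Polynomial
open scoped NNReal

namespace ThetaAux

variable {k F : Type} [Field k] [Field F] [Algebra k F]

/-- local facts about the distinguished sections -/
structure Z0 {c : Ctx k F} (ν : Fin 9 → Valuation F ℝ≥0) (σ : Str c) : Prop where
  s0 : ν 0 (σ.sj 0 - (c.a 0 + algebraMap k F c.lam⁻¹)) < 1
  f0 : ν 0 (σ.fj 0 - c.a 0) < 1
  am : ν 0 (c.a 0 + algebraMap k F c.lam⁻¹) = 1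
  e0 : ν 0 (σ.eta * σ.sj 0 - 1) < 1
  ba : c.b 8 * c.a 0 = 1
  bm : ν 0 (1 + algebraMap k F c.lam⁻¹ * c.b 8) = 1
  s8 : ν 0 (σ.sj 8 - (1 + algebraMap k F c.lam⁻¹ * c.b 8)) < 1
  f8 : ν 0 (σ.fj 8 - c.b 8) < 1
  e8 : ν 0 (σ.eta * σ.sj 8 - c.b 8) < 1
  sl : ∀ j, j ≠ 0 → ∃ γ : k, γ ≠ 0 ∧ ν j (σ.sj j - algebraMap k F γ) < 1
  sr : ∀ i, i ≠ 8 → ∃ γ : k, γ ≠ 0 ∧ ν (i + 1) (σ.sj i - algebraMap k F γ) < 1

theorem half_lt : (2⁻¹ : ℝ≥0) < 1 := by norm_num

variable {c : Ctx k F} {ν : Fin 9 → Valuation F ℝ≥0} {σ : Str c}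

theorem b_small (hn : NuFacts c ν) (j : Fin 9) {p : F} (hp : p ∈ c.A j) : ν j (c.b j * p) < 1 :=
  mul_lt _ (by rw [(hn.isNu j).2.2.2]; exact half_lt) (hn.le_one j p hp).1

theorem a_small (hn : NuFacts c ν) (i : Fin 9) {p : F} (hp : p ∈ c.A i) :
    ν (i + 1) (c.a i * p) < 1 :=
  mul_lt _ (by rw [hn.left_a]; exact half_lt) (hn.le_one i p hp).2

theorem z0 (hg : GeoFacts c) (hn : NuFacts c ν) (hr : ResFacts c) (hσ : σ.Good) : Z0 ν σ := by
  have hs0 : ν 0 (σ.sj 0 - (c.a 0 + algebraMap k F c.lam⁻¹)) < 1 := by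
    obtain ⟨p, hp, h⟩ := hσ.rs
    have : σ.sj 0 - (c.a 0 + algebraMap k F c.lam⁻¹) = c.b 0 * p := by
      rw [Str.sj, h]; simp
    rw [this]; exact b_small hn 0 hp
  have hf0 : ν 0 (σ.fj 0 - c.a 0) < 1 := by
    obtain ⟨p, hp, h⟩ := hσ.rf
    have : σ.fj 0 - c.a 0 = c.b 0 * p := by rw [Str.fj, h]; simp
    rw [this]; exact b_small hn 0 hp
  have hh0 : ν 0 (σ.h * c.mu 6 3 0 - c.a 0) < 1 := by
    obtain ⟨p, hp, h⟩ := hσ.rh
    have : σ.h * c.mu 6 3 0 - c.a 0 = c.b 0 * p := by rw [h]; simp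
    rw [this]; exact b_small hn 0 hp
  have ham : ν 0 (c.a 0 + algebraMap k F c.lam⁻¹) = 1 := by
    simpa using hn.val_poly 0 (X + C c.lam⁻¹) (monic_X_add_C _).ne_zero
  have ha : ν 0 (c.a 0) = 1 := (hn.isNu 0).2.2.1
  have hs1 := eq_one _ ham hs0
  have hf1 := eq_one _ ha hf0
  have hsne : σ.sj 0 ≠ 0 := by intro h; rw [h] at hs1; simp at hs1
  have hfne : σ.fj 0 ≠ 0 := by intro h; rw [h] at hf1; simp at hf1
  have he0 : ν 0 (σ.eta * σ.sj 0 - 1) < 1 := by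
    have h1 : c.mu 6 3 0 = c.mu 2 1 0 * c.mu 4 2 0 := hg.mu_mul 2 1 4 2 0
    have hs : σ.s ≠ 0 := left_ne_zero_of_mul hsne
    have hf : σ.f ≠ 0 := left_ne_zero_of_mul hfne
    have hm := hg.mu_ne 4 2 0
    have h2 : σ.eta * σ.sj 0 - 1
        = ((σ.h * c.mu 6 3 0 - c.a 0) - (σ.fj 0 - c.a 0)) * (σ.fj 0)⁻¹ := by
      rw [h1, Str.eta, Str.sj, Str.fj]; field_simp; ring
    rw [h2]
    exact mul_lt _ ((ν 0).map_sub_lt hh0 hf0) (by rw [map_inv₀, hf1]; simp)
  have hba : c.b 8 * c.a 0 = 1 := by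
    have h1 := hg.tb 8
    have h2 : c.u 8 = 1 := rfl
    rwa [h2, mul_one] at h1
  have hb : ν 0 (c.b 8) = 1 := hn.left_b 8
  have hmu : ∀ N n, c.mu N n 8 = c.mu N n 0 * c.b 8 ^ n := by
    intro N n
    have h1 : c.e 0 = c.e 8 := by simpa [ue] using hg.te 8
    rw [Ctx.mu, Ctx.mu, h1, hg.tph8, mul_pow, mul_assoc, mul_assoc, ← mul_pow, mul_comm (c.a 0), hba,
      one_pow, mul_one]
  have hs8 : σ.sj 8 = σ.sj 0 * c.b 8 := by rw [Str.sj, Str.sj, hmu]; ring
  have hf8 : σ.fj 8 = σ.fj 0 * c.b 8 ^ 2 := by rw [Str.fj, Str.fj, hmu]; ring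
  have hbm : 1 + algebraMap k F c.lam⁻¹ * c.b 8 = (c.a 0 + algebraMap k F c.lam⁻¹) * c.b 8 := by
    linear_combination -hba
  have hprop := hr.prop 2 1 σ.s hσ.hs _ hσ.rs
  have hco : ¬ (X + C c.lam⁻¹ : k[X]).coeff 0 = 0 := by simpa using hg.lam_ne
  refine ⟨hs0, hf0, ham, he0, hba, by rw [hbm, map_mul, ham, hb, one_mul], ?_, ?_, ?_,
    fun j hj => ?_, fun i hi => ?_⟩
  · rw [hbm, hs8, ← sub_mul]
    exact mul_lt _ hs0 hb.le
  · have : σ.fj 8 - c.b 8 = (σ.fj 0 - c.a 0) * c.b 8 ^ 2 := by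
      rw [hf8]; linear_combination c.b 8 * hba
    rw [this]
    exact mul_lt _ hf0 (pow_le _ hb.le 2)
  · have : σ.eta * σ.sj 8 - c.b 8 = (σ.eta * σ.sj 0 - 1) * c.b 8 := by rw [hs8]; ring
    rw [this]
    exact mul_lt _ he0 hb.le
  · obtain ⟨γ, h1, h2, -⟩ := hprop j
    obtain ⟨p, hp, h⟩ := h2 hj
    refine ⟨γ, fun h0 => hco (h1.mp h0), ?_⟩
    rw [Str.sj, h, add_sub_cancel_left]
    exact b_small hn j hp
  · obtain ⟨γ, h1, -, h2⟩ := hprop i
    obtain ⟨p, hp, h⟩ := h2 hi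
    refine ⟨γ, fun h0 => hco (h1.mp h0), ?_⟩
    rw [Str.sj, h, add_sub_cancel_left]
    exact a_small hn i hp

variable {L : Type} [Field L] [Algebra F L]

theorem small_lt (hn : NuFacts c ν) {j : Fin 9} {W : Valuation L ℝ≥0}
    (hW : ∀ z, W (algebraMap F L z) = ν j z) {z : L} (hz : Small c j z) : W z < 1 := by
  obtain ⟨U, hU, hU', hi⟩ := hz
  have h1 : ν j U = 1 := le_antisymm (hn.le_one j U hU).1 (not_lt.mp fun h => by
    obtain ⟨p, hp, h⟩ := hn.lt_b j U hU h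
    exact hU' p hp h)
  have h2 := int_le W (fun r : c.A j => (hW r).trans_le (hn.le_one j r r.2).1) hi
  rw [map_mul, hW, map_div₀, h1, (hn.isNu j).2.2.2] at h2
  refine lt_of_le_of_lt ?_ half_lt
  have h3 : (1 : ℝ≥0) / 2⁻¹ = 2 := by norm_num
  rw [h3] at h2
  calc W z = 2⁻¹ * (2 * W z) := by rw [← mul_assoc]; norm_num
    _ ≤ 2⁻¹ * 1 := by gcongr
    _ = _ := mul_one _

theorem aeval_mem (V : ValuationSubring L) (hk : ∀ t, algebraMap F L (algebraMap k F t) ∈ V)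
    {a : F} (ha : algebraMap F L a ∈ V) (P : k[X]) : algebraMap F L (aeval a P) ∈ V := by
  induction P using Polynomial.induction_on' with
  | add p q hp hq => rw [map_add, map_add]; exact V.toSubring.add_mem hp hq
  | monomial n t =>
    rw [aeval_monomial, map_mul, map_pow]
    exact V.toSubring.mul_mem (hk t) (V.toSubring.pow_mem ha n)

theorem int_mem (V : ValuationSubring L) {i : Fin 9} (h : ∀ g ∈ c.A i, algebraMap F L g ∈ V)
    {z : L} (hz : IsIntegral (c.A i) z) : z ∈ V :=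
  (V.valuation_le_one_iff z).mp
    (int_le V.valuation (fun r : c.A i => (V.valuation_le_one_iff _).mpr (h r r.2)) hz)

theorem unit_add (V : ValuationSubring L) {x y : L} (hx : V.valuation x < 1)
    (hy : V.valuation y = 1) : (x + y)⁻¹ ∈ V := by
  rw [← V.valuation_le_one_iff, map_inv₀, eq_one V.valuation hy (by simpa using hx)]
  simp

theorem exists_theta (hc : c.Good) (hg : GeoFacts c) (hn : NuFacts c ν) (hz : Z0 ν σ) {q : ℕ}
    {β β' : Fin 9 → L} (hG : GR σ q β β') (j : Fin 9) (W : Valuation L ℝ≥0)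
    (hW : ∀ z, W (algebraMap F L z) = ν j z) :
    ∃ t : k, W ((if j = 0 then β' 0 else β j) - algebraMap F L (algebraMap k F t)) < 1 := by
  have := hc.algc
  have hWk : ∀ t : k, t ≠ 0 → W (algebraMap F L (algebraMap k F t)) = 1 := fun t ht =>
    (hW _).trans ((hn.isNu j).1 t ht)
  refine exists_const ((algebraMap F L).comp (algebraMap k F)) W hWk _ fun V hk hV => ?_
  replace hk : ∀ t, algebraMap F L (algebraMap k F t) ∈ V := hk
  have hki : ∀ t, (algebraMap F L (algebraMap k F t))⁻¹ ∈ V := fun t => by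
    rw [← map_inv₀, ← map_inv₀]; exact hk _
  have hvk : ∀ t : k, t ≠ 0 → V.valuation (algebraMap F L (algebraMap k F t)) = 1 := fun t ht => by
    refine le_antisymm ((V.valuation_le_one_iff _).mpr (hk t)) ?_
    have h1 := (V.valuation_le_one_iff _).mpr (hki t)
    rw [map_inv₀] at h1
    exact (inv_le_one₀ ((Valuation.pos_iff _).mpr (by simpa using ht))).mp h1
  have hinv : ∀ x y : F, ν j y = 1 → ν j (x - y) < 1 → (algebraMap F L y)⁻¹ ∈ V →
      algebraMap F L x ≠ 0 ∧ (algebraMap F L x)⁻¹ ∈ V := fun x y h1 h2 h3 =>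
    inv_mem W V hV ((hW y).trans h1) (by rw [← map_sub, hW]; exact h2) h3
  obtain ⟨i, rfl⟩ : ∃ i, j = i + 1 := ⟨j - 1, by simp⟩
  have hA : algebraMap F L (c.a (i + 1)) ∈ V → ∀ g ∈ c.A (i + 1), algebraMap F L g ∈ V := by
    intro ha g hgA
    obtain ⟨P, p, hp, rfl⟩ := hg.split_b _ g hgA
    rw [map_add]
    exact V.toSubring.add_mem (aeval_mem V hk ha P) (hV _ (by rw [hW]; exact b_small hn _ hp))
  have hA' : algebraMap F L (c.a (i + 1)) ∉ V → ∀ g ∈ c.A i, algebraMap F L g ∈ V := by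
    intro ha g hgA
    have hb : algebraMap F L (c.b i) ∈ V := by
      obtain ⟨p, hp, hu⟩ := hg.u_right i
      have h1 := hinv (c.u i) (algebraMap k F (c.cu i)) ((hn.isNu _).1 _ (hg.cu_ne i))
        (by rw [hu, add_sub_cancel_left]; exact b_small hn _ hp) (hki _)
      have h2 : c.b i = (c.a (i + 1))⁻¹ * (c.u i)⁻¹ := by
        have := hg.a_ne (i + 1)
        have := hg.u_ne i
        field_simp
        exact hg.tb i
      rw [h2, map_mul, map_inv₀, map_inv₀]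
      exact V.toSubring.mul_mem ((V.mem_or_inv_mem _).resolve_left ha) h1.2
    obtain ⟨P, p, hp, rfl⟩ := hg.split_a _ g hgA
    rw [map_add]
    exact V.toSubring.add_mem (aeval_mem V hk hb P) (hV _ (by rw [hW]; exact a_small hn _ hp))
  have hdif : β i ∈ V → β (i + 1) ∈ V := fun h => by
    have := V.toSubring.add_mem (hV _ (small_lt hn hW (hG.difs i))) h
    rwa [sub_add_cancel] at this
  split_ifs with hj
  · obtain rfl : i = 8 := (by decide : ∀ i : Fin 9, i + 1 = 0 → i = 8) i hj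
    have h90 : (8 : Fin 9) + 1 = 0 := rfl
    rw [h90] at hW hinv hA hA' hdif
    have hjump : β 0 ∈ V → (algebraMap F L (c.a 0 + algebraMap k F c.lam⁻¹))⁻¹ ∈ V →
        β' 0 ∈ V := by
      intro h1 h2
      have h3 := hinv _ _ hz.am hz.s0 h2
      have h4 : algebraMap F L σ.eta ∈ V := by
        have h5 := V.toSubring.mul_mem (V.toSubring.add_mem
          (hV (algebraMap F L (σ.eta * σ.sj 0 - 1)) (by rw [hW]; exact hz.e0)) V.one_mem) h3.2
        have h6 := h3.1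
        rwa [show (algebraMap F L (σ.eta * σ.sj 0 - 1) + 1) * (algebraMap F L (σ.sj 0))⁻¹
          = algebraMap F L σ.eta by rw [map_sub, map_mul, map_one]; field_simp; ring] at h5
      have h7 := V.toSubring.add_mem (V.toSubring.add_mem (hV _ (small_lt hn hW hG.jump)) h1)
        (V.toSubring.pow_mem h4 q)
      rwa [map_pow, show β' 0 - β 0 - algebraMap F L σ.eta ^ q + β 0 + algebraMap F L σ.eta ^ q
        = β' 0 by ring] at h7
    have hμ := hvk _ (inv_ne_zero hg.lam_ne)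
    by_cases ha : algebraMap F L (c.a 0) ∈ V
    · by_cases ha' : (algebraMap F L (c.a 0))⁻¹ ∈ V
      · obtain ⟨M, hM⟩ := hG.intf 0
        exact clear V (hinv _ _ (hn.isNu 0).2.2.1 hz.f0 ha') (int_mem V (hA ha) hM)
      · have h1 : (algebraMap F L (c.a 0 + algebraMap k F c.lam⁻¹))⁻¹ ∈ V := by
          rw [map_add]
          exact unit_add V (V.mem_nonunits_iff_or.mpr (.inr ha')) hμ
        obtain ⟨M, hM⟩ := hG.ints 0
        exact hjump (clear V (hinv _ _ hz.am hz.s0 h1) (int_mem V (hA ha) hM)) h1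
    · have hb : algebraMap F L (c.b 8) = (algebraMap F L (c.a 0))⁻¹ := by
        rw [← map_inv₀, eq_inv_of_mul_eq_one_left hz.ba]
      have hb' : V.valuation (algebraMap F L (c.b 8)) < 1 := by
        rw [hb]; exact V.inv_mem_nonunits_iff.mpr (.inr ha)
      have h1 : (algebraMap F L (1 + algebraMap k F c.lam⁻¹ * c.b 8))⁻¹ ∈ V := by
        rw [add_comm, map_add, map_mul, map_one]
        exact unit_add V (mul_lt' _ hμ.le hb') (map_one _)
      obtain ⟨M, hM⟩ := hG.ints 8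
      refine hjump (hdif (clear V (hinv _ _ hz.bm hz.s8 h1) (int_mem V (hA' ha) hM))) ?_
      have h2 : (c.a 0 + algebraMap k F c.lam⁻¹)⁻¹
          = c.b 8 * (1 + algebraMap k F c.lam⁻¹ * c.b 8)⁻¹ := by
        have h3 : 1 + algebraMap k F c.lam⁻¹ * c.b 8
            = (c.a 0 + algebraMap k F c.lam⁻¹) * c.b 8 := by linear_combination -hz.ba
        have := hg.b_ne 8
        rw [h3, mul_inv]; field_simp
      rw [← map_inv₀, h2, map_mul, map_inv₀]
      exact V.toSubring.mul_mem ((V.valuation_le_one_iff _).mp hb'.le) h1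
  · by_cases ha : algebraMap F L (c.a (i + 1)) ∈ V
    · obtain ⟨γ, h0, h1⟩ := hz.sl _ hj
      obtain ⟨M, hM⟩ := hG.ints (i + 1)
      exact clear V (hinv _ _ ((hn.isNu _).1 _ h0) h1 (hki _)) (int_mem V (hA ha) hM)
    · obtain ⟨γ, h0, h1⟩ := hz.sr i (by rintro rfl; exact hj rfl)
      obtain ⟨M, hM⟩ := hG.ints i
      exact hdif (clear V (hinv _ _ ((hn.isNu _).1 _ h0) h1 (hki _)) (int_mem V (hA' ha) hM))

end ThetaAux

end Pool.Agent.P.MP_3a4479_al
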